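import Pool.Agent.LibRF53.Defs

/-
PLAN (A1). Elementary facts about the dyadic cubes. ONLY Defs. Q j a = preimage of {a} under ix j; measurable since x i / 2^j is continuous and floor is measurable. Volume: Q j a is the set of x with
2^j a i <= x i < 2^j (a i + 1); transport by EuclideanSpace.volume_preserving_measurableEquiv (or volume_preserving_symm_measurableEquiv_toLp) to Fin d -> R, Real.volume_pi_Ico. ix_mono:
floor (x / 2^k) = floor ((floor (x/2^j)) / 2^(k-j)) (Int.floor_div..., or: x/2^k < n iff x/2^j < n 2^(k-j) iff floor (x/2^j) < n 2^(k-j), integers). Q_dist: every coordinate differs by at most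
2^j; EuclideanSpace.dist_eq. lint_cubes: univ = disjoint union of Q j a over the countable type Fin d -> Z, lintegral_iUnion. ix_scale: (2^k x_i) / 2^(j+k) = x_i / 2^j.
-/

set_option autoImplicit false

noncomputable section

open MeasureTheory Metric Set Filter

namespace Pool.LibRF53

open Pool.LibSR53

theorem ix_meas {d : ℕ} (j : ℤ) : Measurable (ix j : E d → Fin d → ℤ) := by
  refine measurable_pi_lambda _ fun i => ?_
  have h1 : Measurable (fun x : E d => x i / (2 : ℝ) ^ j) :=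
    ((EuclideanSpace.proj (𝕜 := ℝ) i).continuous.measurable).div_const _
  exact Int.measurable_floor.comp h1

theorem Q_meas {d : ℕ} (j : ℤ) (a : Fin d → ℤ) : MeasurableSet (Q j a : Set (E d)) :=
  ix_meas j (measurableSet_singleton a)

private theorem A1_mem {d : ℕ} {j : ℤ} {a : Fin d → ℤ} {x : E d} :
    x ∈ Q j a ↔ ∀ i, (2 : ℝ) ^ j * a i ≤ x i ∧ x i < (2 : ℝ) ^ j * (a i + 1) := by
  have h2 : (0 : ℝ) < (2 : ℝ) ^ j := by positivity
  constructor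
  · intro h i
    have h1 : ⌊x i / (2 : ℝ) ^ j⌋ = a i := congrFun h i
    rw [Int.floor_eq_iff, le_div_iff₀ h2, div_lt_iff₀ h2] at h1
    constructor <;> linarith
  · intro h
    refine funext fun i => ?_
    show ⌊x i / (2 : ℝ) ^ j⌋ = a i
    rw [Int.floor_eq_iff, le_div_iff₀ h2, div_lt_iff₀ h2]
    constructor <;> linarith [(h i).1, (h i).2]

theorem Q_vol {d : ℕ} (j : ℤ) (a : Fin d → ℤ) : volume (Q j a : Set (E d)) = vl d j := by
  have h2 : (0 : ℝ) < (2 : ℝ) ^ j := by positivity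
  have hmp := EuclideanSpace.volume_preserving_symm_measurableEquiv_toLp (Fin d)
  have hpre : (Q j a : Set (E d)) = (MeasurableEquiv.toLp 2 (Fin d → ℝ)).symm ⁻¹'
      (Set.pi Set.univ fun i => Set.Ico ((2 : ℝ) ^ j * a i) ((2 : ℝ) ^ j * (a i + 1))) := by
    ext x
    rw [A1_mem, Set.mem_preimage, Set.mem_univ_pi]
    exact Iff.rfl
  rw [hpre, hmp.measure_preimage_equiv, Real.volume_pi_Ico]
  unfold vl
  have h3 : ∀ i : Fin d, (2 : ℝ) ^ j * ((a i : ℝ) + 1) - (2 : ℝ) ^ j * a i = (2 : ℝ) ^ j :=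
    fun i => by ring
  simp only [h3, Finset.prod_const, Finset.card_univ, Fintype.card_fin]
  rw [ENNReal.ofReal_pow h2.le]

theorem Q_nonempty {d : ℕ} (j : ℤ) (a : Fin d → ℤ) : (Q j a : Set (E d)).Nonempty := by
  refine ⟨WithLp.toLp 2 (fun i => (2 : ℝ) ^ j * a i), ?_⟩
  rw [A1_mem]
  intro i
  have h2 : (0 : ℝ) < (2 : ℝ) ^ j := by positivity
  constructor
  · exact le_rfl
  · show (2 : ℝ) ^ j * a i < (2 : ℝ) ^ j * (a i + 1)
    exact mul_lt_mul_of_pos_left (by linarith) h2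

theorem vl_ne {d : ℕ} (j : ℤ) : vl d j ≠ 0 ∧ vl d j ≠ ⊤ := by
  have h2 : (0 : ℝ) < ((2 : ℝ) ^ j) ^ d := by positivity
  exact ⟨(ENNReal.ofReal_pos.mpr h2).ne', ENNReal.ofReal_ne_top⟩

theorem vl_add {d : ℕ} (j k : ℤ) : vl d (j + k) = vl d j * vl d k := by
  unfold vl
  rw [← ENNReal.ofReal_mul (by positivity), zpow_add₀ (by norm_num), mul_pow]

private theorem A1_floor {j k : ℤ} (hjk : j ≤ k) {x y : ℝ}
    (h : ⌊x / (2 : ℝ) ^ j⌋ ≤ ⌊y / (2 : ℝ) ^ j⌋) : ⌊x / (2 : ℝ) ^ k⌋ ≤ ⌊y / (2 : ℝ) ^ k⌋ := by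
  obtain ⟨n, hn⟩ := Int.eq_ofNat_of_zero_le (sub_nonneg.mpr hjk)
  have hj : (0 : ℝ) < (2 : ℝ) ^ j := by positivity
  have hk : (2 : ℝ) ^ k = (2 : ℝ) ^ j * ((2 ^ n : ℤ) : ℝ) := by
    have : k = j + n := by omega
    rw [this, zpow_add₀ (by norm_num)]
    push_cast
    rw [zpow_natCast]
  have hn0 : (0 : ℝ) < ((2 ^ n : ℤ) : ℝ) := by positivity
  rw [Int.le_floor, hk, le_div_iff₀ (by positivity)]
  have h1 : ((⌊x / ((2 : ℝ) ^ j * ((2 ^ n : ℤ) : ℝ))⌋ * 2 ^ n : ℤ) : ℝ) ≤ x / (2 : ℝ) ^ j := by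
    have := Int.floor_le (x / ((2 : ℝ) ^ j * ((2 ^ n : ℤ) : ℝ)))
    rw [le_div_iff₀ (by positivity)] at this
    rw [le_div_iff₀ hj, Int.cast_mul]
    linarith [this, mul_comm ((2 : ℝ) ^ j) ((2 ^ n : ℤ) : ℝ),
      mul_assoc ((⌊x / ((2 : ℝ) ^ j * ((2 ^ n : ℤ) : ℝ))⌋ : ℤ) : ℝ) ((2 ^ n : ℤ) : ℝ) ((2 : ℝ) ^ j),
      mul_left_comm ((⌊x / ((2 : ℝ) ^ j * ((2 ^ n : ℤ) : ℝ))⌋ : ℤ) : ℝ) ((2 ^ n : ℤ) : ℝ) ((2 : ℝ) ^ j)]
  have h2 := Int.le_floor.mpr h1
  have h3 := Int.le_floor.mp (h2.trans h)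
  rw [le_div_iff₀ hj, Int.cast_mul] at h3
  calc _ = ((⌊x / ((2 : ℝ) ^ j * ((2 ^ n : ℤ) : ℝ))⌋ : ℤ) : ℝ) * ((2 ^ n : ℤ) : ℝ) * (2 : ℝ) ^ j := by ring
    _ ≤ y := h3

theorem ix_mono {d : ℕ} {j k : ℤ} (hjk : j ≤ k) {x y : E d} (h : ix j x = ix j y) :
    ix k x = ix k y := by
  refine funext fun i => ?_
  have h1 : ⌊x i / (2 : ℝ) ^ j⌋ = ⌊y i / (2 : ℝ) ^ j⌋ := congrFun h i
  exact le_antisymm (A1_floor hjk h1.le) (A1_floor hjk h1.ge)

theorem ix_scale {d : ℕ} (j k : ℤ) (x : E d) : ix (j + k) ((2 : ℝ) ^ k • x) = ix j x := by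
  refine funext fun i => ?_
  show ⌊((2 : ℝ) ^ k • x) i / (2 : ℝ) ^ (j + k)⌋ = ⌊x i / (2 : ℝ) ^ j⌋
  congr 1
  rw [PiLp.smul_apply, smul_eq_mul, zpow_add₀ (by norm_num)]
  have h2 : (2 : ℝ) ^ k ≠ 0 := by positivity
  have h3 : (2 : ℝ) ^ j ≠ 0 := by positivity
  field_simp

theorem Q_dist {d : ℕ} {j : ℤ} {a : Fin d → ℤ} {x y : E d} (hx : x ∈ Q j a) (hy : y ∈ Q j a) :
    dist x y ≤ Real.sqrt d * (2 : ℝ) ^ j := by
  rw [A1_mem] at hx hy
  have h2 : (0 : ℝ) < (2 : ℝ) ^ j := by positivity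
  rw [EuclideanSpace.dist_eq]
  have h1 : ∑ i, dist (x i) (y i) ^ 2 ≤ (d : ℝ) * ((2 : ℝ) ^ j) ^ 2 := by
    calc ∑ i, dist (x i) (y i) ^ 2 ≤ ∑ _i : Fin d, ((2 : ℝ) ^ j) ^ 2 := by
          refine Finset.sum_le_sum fun i _ => ?_
          refine pow_le_pow_left₀ dist_nonneg ?_ 2
          rw [Real.dist_eq, abs_le]
          have h3 := hx i
          have h4 := hy i
          constructor <;> linarith
      _ = (d : ℝ) * ((2 : ℝ) ^ j) ^ 2 := by simp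
  refine (Real.sqrt_le_sqrt h1).trans ?_
  rw [Real.sqrt_mul (Nat.cast_nonneg d), Real.sqrt_sq h2.le]

theorem lint_cubes {d : ℕ} (j : ℤ) (h : E d → ENNReal) :
    ∫⁻ x, h x = ∑' a : Fin d → ℤ, ∫⁻ x in Q j a, h x := by
  rw [← lintegral_iUnion (fun a => Q_meas j a)]
  · rw [show (⋃ a : Fin d → ℤ, (Q j a : Set (E d))) = Set.univ from by
      ext x
      simp only [Set.mem_iUnion, Set.mem_univ, iff_true]
      exact ⟨ix j x, rfl⟩, Measure.restrict_univ]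
  · intro a b hab
    refine Set.disjoint_left.mpr fun x hx hy => hab ?_
    have h1 : ix j x = a := hx
    have h2 : ix j x = b := hy
    rw [← h1, h2]

/-- the cubes of side 2^j inside a cube of side 2^k, j ≤ k -/
theorem Q_split {d : ℕ} {j k : ℤ} (hjk : j ≤ k) (a : Fin d → ℤ) (h : E d → ENNReal) :
    ∫⁻ x in Q k a, h x = ∑' b : Fin d → ℤ, ∫⁻ x in Q j b ∩ Q k a, h x := by
  rw [← lintegral_iUnion (fun b => (Q_meas j b).inter (Q_meas k a))]
  · rw [show (⋃ b : Fin d → ℤ, (Q j b ∩ Q k a : Set (E d))) = Q k a from by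
      ext x
      simp only [Set.mem_iUnion, Set.mem_inter_iff, exists_and_right]
      exact ⟨fun h => h.2, fun h => ⟨⟨ix j x, rfl⟩, h⟩⟩]
  · intro b c hbc
    refine Set.disjoint_left.mpr fun x hx hy => hbc ?_
    have h1 : ix j x = b := hx.1
    have h2 : ix j x = c := hy.1
    rw [← h1, h2]

theorem Q_sub {d : ℕ} {j k : ℤ} (hjk : j ≤ k) (a b : Fin d → ℤ) :
    (Q j b ∩ Q k a : Set (E d)) = Q j b ∨ (Q j b ∩ Q k a : Set (E d)) = ∅ := by
  by_cases hne : (Q j b ∩ Q k a : Set (E d)).Nonempty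
  · left
    obtain ⟨y, hy1, hy2⟩ := hne
    refine Set.inter_eq_left.mpr fun x hx => ?_
    have h1 : ix j x = ix j y := by
      have e1 : ix j x = b := hx
      have e2 : ix j y = b := hy1
      rw [e1, e2]
    have h2 : ix k x = ix k y := ix_mono hjk h1
    have e3 : ix k y = a := hy2
    show ix k x = a
    rw [h2, e3]
  · right
    exact Set.not_nonempty_iff_eq_empty.mp hne

end Pool.LibRF53
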