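import Pool.Agent.LibRF53.A1

/-
PLAN (A2). Facts about the averages Av, from A1. Av j h is constant on cubes, so on Q j a it equals (vl d j)^-1 * int_(Q j a) h; Av_int: lint_cubes twice. Av_meas: Av j h = (function of a) o ix j,
every function on the countable discrete type Fin d -> Z is measurable (Measurable.of_discrete / measurable_from_top). Av_jensen: Lyapunov / Hoelder on Q j a (total mass vl d j):
ENNReal.lintegral_mul_le_Lp_mul_Lq with 1, or eLpNorm_le_eLpNorm_mul_rpow_measure_univ; s <= t. Av_scale: substitution y -> 2^k y (Measure.addHaar_smul / lintegral_comp_smul), the image of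
Q j (ix j x) is Q (j+k) (ix (j+k) (2^k x)) by ix_scale. Av_joint: (x,r) -> Av j (fun y => g (y,r)) x = sum over a of indicator (ix j x = a) * (vl d j)^-1 * int_(Q j a) g(.,r), each
measurable (Measurable.lintegral_prod_left'). Av_ind: D is a union of cubes, so on the cube of x the indicator is constant.
-/

set_option autoImplicit false

noncomputable section

open MeasureTheory Metric Set Filter

namespace Pool.LibRF53

open Pool.LibSR53

theorem Av_congr {d : ℕ} (j : ℤ) (h : E d → ENNReal) {x y : E d} (hxy : ix j x = ix j y) :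
    Av j h x = Av j h y := by
  unfold Av
  rw [hxy]

theorem Av_on {d : ℕ} (j : ℤ) (h : E d → ENNReal) {a : Fin d → ℤ} {x : E d} (hx : x ∈ Q j a) :
    vl d j * Av j h x = ∫⁻ y in Q j a, h y := by
  have hx' : ix j x = a := hx
  unfold Av
  rw [hx', ← mul_assoc, ENNReal.mul_inv_cancel (vl_ne j).1 (vl_ne j).2, one_mul]

theorem Av_meas {d : ℕ} (j : ℤ) (h : E d → ENNReal) : Measurable (Av j h) := by
  have h1 : Measurable (fun a : Fin d → ℤ => (vl d j)⁻¹ * ∫⁻ y in Q j a, h y) :=
    Measurable.of_discrete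
  exact h1.comp (ix_meas j)

theorem Av_mono {d : ℕ} (j : ℤ) {h h' : E d → ENNReal} (hh : ∀ x, h x ≤ h' x) (x : E d) :
    Av j h x ≤ Av j h' x := by
  unfold Av
  gcongr
  exact hh _

theorem Av_int {d : ℕ} (j : ℤ) (h : E d → ENNReal) : ∫⁻ x, Av j h x = ∫⁻ x, h x := by
  rw [lint_cubes j (Av j h), lint_cubes j h]
  refine tsum_congr fun a => ?_
  have h1 : ∫⁻ x in Q j a, Av j h x = ∫⁻ _ in (Q j a : Set (E d)), (vl d j)⁻¹ * ∫⁻ y in Q j a, h y := by
    refine setLIntegral_congr_fun (Q_meas j a) fun x hx => ?_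
    have hx' : ix j x = a := hx
    unfold Av
    rw [hx']
  rw [h1, setLIntegral_const, Q_vol, mul_comm, ← mul_assoc,
    ENNReal.mul_inv_cancel (vl_ne j).1 (vl_ne j).2, one_mul]

theorem Av_jensen {d : ℕ} (j : ℤ) (h : E d → ENNReal) (hh : Measurable h) {s t : ℝ} (hs : 0 < s)
    (hst : s ≤ t) (x : E d) :
    (Av j (fun y => h y ^ s) x) ^ (1 / s) ≤ (Av j (fun y => h y ^ t) x) ^ (1 / t) := by
  set μ : Measure (E d) := (vl d j)⁻¹ • (volume.restrict (Q j (ix j x))) with hμ
  have hprob : IsProbabilityMeasure μ := by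
    refine ⟨?_⟩
    rw [hμ, Measure.smul_apply, Measure.restrict_apply_univ, Q_vol, smul_eq_mul,
      ENNReal.inv_mul_cancel (vl_ne j).1 (vl_ne j).2]
  have h1 : ∀ u : ℝ, Av j (fun y => h y ^ u) x = ∫⁻ y, h y ^ u ∂μ := by
    intro u
    rw [hμ, lintegral_smul_measure]
    rfl
  have h2 := eLpNorm'_le_eLpNorm'_of_exponent_le (f := h) hs hst μ hh.aestronglyMeasurable
  rw [h1, h1]
  simpa [eLpNorm'] using h2

theorem Av_scale {d : ℕ} (j k : ℤ) (h : E d → ENNReal) (hh : Measurable h) (x : E d) :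
    Av j (fun y => h ((2 : ℝ) ^ k • y)) x = Av (j + k) h ((2 : ℝ) ^ k • x) := by
  have hk : (2 : ℝ) ^ k ≠ 0 := (zpow_pos (by norm_num) k).ne'
  have h1 : ∫⁻ y in Q j (ix j x), h ((2 : ℝ) ^ k • y) =
      ∫⁻ y, (Q (j + k) (ix j x)).indicator h ((2 : ℝ) ^ k • y) := by
    rw [← lintegral_indicator (Q_meas j _)]
    refine lintegral_congr fun y => ?_
    have h2 : y ∈ Q j (ix j x) ↔ (2 : ℝ) ^ k • y ∈ Q (j + k) (ix j x) := by
      change ix j y = ix j x ↔ ix (j + k) ((2 : ℝ) ^ k • y) = ix j x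
      rw [ix_scale]
    by_cases hy : y ∈ Q j (ix j x)
    · rw [indicator_of_mem hy, indicator_of_mem (h2.1 hy)]
    · rw [indicator_of_notMem hy, indicator_of_notMem (fun h3 => hy (h2.2 h3))]
  have hm : Measurable ((Q (j + k) (ix j x)).indicator h) := hh.indicator (Q_meas _ _)
  have h3 : ∫⁻ y, (Q (j + k) (ix j x)).indicator h ((2 : ℝ) ^ k • y) =
      (vl d k)⁻¹ * ∫⁻ y, (Q (j + k) (ix j x)).indicator h y := by
    have h4 := Measure.map_addHaar_smul (volume : Measure (E d)) hk
    have h5 : ∫⁻ y, (Q (j + k) (ix j x)).indicator h ((2 : ℝ) ^ k • y) =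
        ∫⁻ y, (Q (j + k) (ix j x)).indicator h y
          ∂(Measure.map (fun y : E d => (2 : ℝ) ^ k • y) volume) := by
      rw [lintegral_map hm (measurable_const_smul _)]
    rw [h5]
    change ∫⁻ y, (Q (j + k) (ix j x)).indicator h y
          ∂(Measure.map ((2 : ℝ) ^ k • ·) volume) = _
    rw [h4, lintegral_smul_measure, finrank_euclideanSpace_fin, smul_eq_mul]
    congr 1
    have h6 : 0 < ((2 : ℝ) ^ k) ^ d := pow_pos (zpow_pos (by norm_num) k) d
    rw [abs_of_pos (inv_pos.2 h6), ENNReal.ofReal_inv_of_pos h6]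
    rfl
  unfold Av
  rw [h1, h3, ix_scale, lintegral_indicator (Q_meas _ _), vl_add, ← mul_assoc]
  congr 1
  rw [ENNReal.mul_inv (Or.inl (vl_ne j).1) (Or.inl (vl_ne j).2)]

theorem Av_joint {d : ℕ} (j : ℤ) (g : E d × ℝ → ENNReal) (hg : Measurable g) :
    Measurable (fun z : E d × ℝ => Av j (fun y => g (y, z.2)) z.1) := by
  have h1 : Measurable (fun w : (Fin d → ℤ) × ℝ =>
      (vl d j)⁻¹ * ∫⁻ y in Q j w.1, g (y, w.2)) := by
    refine measurable_from_prod_countable_right fun a => ?_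
    exact (Measurable.lintegral_prod_left' (μ := volume.restrict (Q j a)) hg).const_mul _
  exact h1.comp (((ix_meas j).comp measurable_fst).prodMk measurable_snd)

theorem Av_ind {d : ℕ} (j : ℤ) (h : E d → ENNReal) (D : Set (E d))
    (hD : ∀ x y : E d, ix j x = ix j y → x ∈ D → y ∈ D) (x : E d) :
    Av j (D.indicator h) x = D.indicator (Av j h) x := by
  by_cases hx : x ∈ D
  · rw [indicator_of_mem hx]
    unfold Av
    congr 1
    refine setLIntegral_congr_fun (Q_meas j _) fun y hy => ?_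
    have hy' : ix j y = ix j x := hy
    exact indicator_of_mem (hD x y hy'.symm hx) _
  · rw [indicator_of_notMem hx]
    unfold Av
    have h1 : ∫⁻ y in Q j (ix j x), D.indicator h y = ∫⁻ _ in (Q j (ix j x) : Set (E d)), 0 := by
      refine setLIntegral_congr_fun (Q_meas j _) fun y hy => ?_
      have hy' : ix j y = ix j x := hy
      exact indicator_of_notMem (fun h2 => hx (hD y x hy' h2)) _
    rw [h1, lintegral_zero, mul_zero]

end Pool.LibRF53
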