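import Pool.Agent.LibRF53.A2

/-
PLAN (A3). Weak type estimate for dyadic averages. weak_local: first for depth n: for all j, a: t * volume {x in Q j a | exists i, j - n <= i <= j, t < Av i h x} <= int_(Q j a) h, by induction on n.
n = 0: Av j h is constant on Q j a (Av_on): the set is empty or all of Q j a and then t * vl <= vl * Av. n + 1: if t < Av j h on Q j a the claim follows from Av_on and Q_vol; otherwise the set
is contained in the union over b of {x in Q (j-1) b, exists i in [j-1-n, j-1], t < Av i h x} over the cubes Q (j-1) b contained in Q j a (Q_sub), use the induction hypothesis and Q_split.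
Then n -> infinity: increasing union (measure_iUnion_eq_iSup / tendsto). weak_global: {exists j <= J, ...} = union over a of the local sets, lint_cubes; then J -> infinity (increasing union).
-/

set_option autoImplicit false

noncomputable section

open MeasureTheory Metric Set Filter

namespace Pool.LibRF53

open Pool.LibSR53

private def A3_S {d : ℕ} (h : E d → ENNReal) (t : ENNReal) (n : ℕ) (j : ℤ) (a : Fin d → ℤ) : Set (E d) :=
  {x : E d | x ∈ Q j a ∧ ∃ i : ℤ, j - n ≤ i ∧ i ≤ j ∧ t < Av i h x}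

private theorem A3_key {d : ℕ} (h : E d → ENNReal) (t : ENNReal) (n : ℕ) :
    ∀ (j : ℤ) (a : Fin d → ℤ), t * volume (A3_S h t n j a) ≤ ∫⁻ y in Q j a, h y := by
  have hbig : ∀ (n : ℕ) (j : ℤ) (a : Fin d → ℤ), (∃ x ∈ (Q j a : Set (E d)), t < Av j h x) →
      t * volume (A3_S h t n j a) ≤ ∫⁻ y in Q j a, h y := by
    rintro n j a ⟨x, hx, hxt⟩
    rw [← Av_on j h hx, mul_comm (vl d j)]
    refine mul_le_mul' hxt.le ?_
    rw [← Q_vol j a]
    exact measure_mono fun y hy => hy.1
  induction n with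
  | zero =>
    intro j a
    by_cases hc : ∃ x ∈ (Q j a : Set (E d)), t < Av j h x
    · exact hbig 0 j a hc
    · have h1 : A3_S h t 0 j a = ∅ := by
        rw [Set.eq_empty_iff_forall_notMem]
        rintro x ⟨hx, i, hi1, hi2, hi3⟩
        have h2 : i = j := by
          push_cast at hi1
          omega
        rw [h2] at hi3
        exact hc ⟨x, hx, hi3⟩
      rw [h1, measure_empty, mul_zero]
      exact zero_le
  | succ n ih =>
    intro j a
    by_cases hc : ∃ x ∈ (Q j a : Set (E d)), t < Av j h x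
    · exact hbig (n + 1) j a hc
    · have h1 : A3_S h t (n + 1) j a ⊆ ⋃ b : Fin d → ℤ, (A3_S h t n (j - 1) b ∩ Q j a) := by
        rintro x ⟨hx, i, hi1, hi2, hi3⟩
        have h2 : i ≠ j := by
          rintro rfl
          exact hc ⟨x, hx, hi3⟩
        refine Set.mem_iUnion.2 ⟨ix (j - 1) x, ⟨rfl, i, ?_, ?_, hi3⟩, hx⟩
        · push_cast at hi1
          omega
        · omega
      have hjj : j - 1 ≤ j := by omega
      calc t * volume (A3_S h t (n + 1) j a)
          ≤ t * ∑' b : Fin d → ℤ, volume (A3_S h t n (j - 1) b ∩ Q j a) :=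
            mul_le_mul' le_rfl ((measure_mono h1).trans (measure_iUnion_le _))
        _ = ∑' b : Fin d → ℤ, t * volume (A3_S h t n (j - 1) b ∩ Q j a) := ENNReal.tsum_mul_left.symm
        _ ≤ ∑' b : Fin d → ℤ, ∫⁻ x in Q (j - 1) b ∩ Q j a, h x := by
            refine ENNReal.tsum_le_tsum fun b => ?_
            rcases Q_sub (d := d) hjj a b with h3 | h3
            · rw [h3]
              exact (mul_le_mul' le_rfl (measure_mono Set.inter_subset_left)).trans (ih (j - 1) b)
            · have h4 : A3_S h t n (j - 1) b ∩ Q j a = ∅ := by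
                rw [Set.eq_empty_iff_forall_notMem]
                rintro x ⟨hx1, hx2⟩
                have h5 : x ∈ (Q (j - 1) b ∩ Q j a : Set (E d)) := ⟨hx1.1, hx2⟩
                rw [h3] at h5
                exact h5
              rw [h4, measure_empty, mul_zero]
              exact zero_le
        _ = ∫⁻ y in Q j a, h y := (Q_split hjj a h).symm

theorem weak_local {d : ℕ} (h : E d → ENNReal) (hh : Measurable h) (j : ℤ) (a : Fin d → ℤ)
    (t : ENNReal) :
    t * volume {x : E d | x ∈ Q j a ∧ ∃ i : ℤ, i ≤ j ∧ t < Av i h x} ≤ ∫⁻ y in Q j a, h y := by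
  have h1 : {x : E d | x ∈ Q j a ∧ ∃ i : ℤ, i ≤ j ∧ t < Av i h x} = ⋃ n : ℕ, A3_S h t n j a := by
    ext x
    rw [Set.mem_iUnion]
    constructor
    · rintro ⟨hx, i, hi1, hi2⟩
      exact ⟨(j - i).toNat, hx, i, by omega, hi1, hi2⟩
    · rintro ⟨n, hx, i, hi1, hi2, hi3⟩
      exact ⟨hx, i, hi2, hi3⟩
  have h2 : Monotone fun n : ℕ => A3_S h t n j a := by
    rintro n n' hnn x ⟨hx, i, hi1, hi2, hi3⟩
    exact ⟨hx, i, by omega, hi2, hi3⟩
  rw [h1, h2.measure_iUnion, ENNReal.mul_iSup]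
  exact iSup_le fun n => A3_key h t n j a

theorem weak_global {d : ℕ} (h : E d → ENNReal) (hh : Measurable h) (t : ENNReal) :
    t * volume {x : E d | ∃ i : ℤ, t < Av i h x} ≤ ∫⁻ y, h y := by
  have h1 : {x : E d | ∃ i : ℤ, t < Av i h x} = ⋃ J : ℕ, {x : E d | ∃ i : ℤ, i ≤ J ∧ t < Av i h x} := by
    ext x
    rw [Set.mem_iUnion]
    constructor
    · rintro ⟨i, hi⟩
      exact ⟨i.toNat, i, by omega, hi⟩
    · rintro ⟨J, i, _, hi⟩
      exact ⟨i, hi⟩
  have h2 : Monotone fun J : ℕ => {x : E d | ∃ i : ℤ, i ≤ J ∧ t < Av i h x} := by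
    rintro J J' hJJ x ⟨i, hi1, hi2⟩
    exact ⟨i, by omega, hi2⟩
  rw [h1, h2.measure_iUnion, ENNReal.mul_iSup]
  refine iSup_le fun J => ?_
  have h3 : {x : E d | ∃ i : ℤ, i ≤ J ∧ t < Av i h x} ⊆
      ⋃ a : Fin d → ℤ, {x : E d | x ∈ Q J a ∧ ∃ i : ℤ, i ≤ J ∧ t < Av i h x} := by
    rintro x hx
    exact Set.mem_iUnion.2 ⟨ix J x, rfl, hx⟩
  calc t * volume {x : E d | ∃ i : ℤ, i ≤ J ∧ t < Av i h x}
      ≤ t * ∑' a : Fin d → ℤ, volume {x : E d | x ∈ Q J a ∧ ∃ i : ℤ, i ≤ J ∧ t < Av i h x} :=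
        mul_le_mul' le_rfl ((measure_mono h3).trans (measure_iUnion_le _))
    _ = ∑' a : Fin d → ℤ, t * volume {x : E d | x ∈ Q J a ∧ ∃ i : ℤ, i ≤ J ∧ t < Av i h x} :=
        ENNReal.tsum_mul_left.symm
    _ ≤ ∑' a : Fin d → ℤ, ∫⁻ x in Q J a, h x := ENNReal.tsum_le_tsum fun a => weak_local h hh J a t
    _ = ∫⁻ y, h y := (lint_cubes (J : ℤ) h).symm

end Pool.LibRF53
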