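import Pool.Agent.LibRF53.A3

/-
PLAN (A4). Good-lambda inequality. Put u y = |g y|_e. Av i u x -> 0 as i -> infinity, uniformly in x: Av i u x <= (Av i u^2 x)^(1/2) <= ((vl d i)^-1 * int u^2)^(1/2) (Av_jensen), vl d i -> infinity
(1 <= d). So for x with t < Md u x there is a largest i =: i(x) with t < Av i u x; the set O_i = {x | t < Av i u x, Av k u x <= t for all k > i} is a union of cubes of side 2^i (Av_congr,
ix_mono), the O_i are disjoint and their union is {t < Md u} (Md u x > t iff exists i, Av i u x > t: lt_iSup_iff). Let Q = Q i a be a cube inside O_i and c the constant of hG for the parent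
Q' = Q (i+1) a'. If no x0 in Q has G x0 <= gamma t there is nothing to prove on Q. Otherwise: |c|_e <= Av (i+1) u x0 + Av (i+1) |g - c| x0 <= t + gamma t (average of |c| <= |g| + |g - c|).
For x in Q with 3 t < Md u x: some Av k u x > 3 t, k <= i by maximality, Av k u x <= Av k |g - c| x + |c|_e, hence Av k |g - c| x > t (gamma <= 1, t finite). By weak_local for |g - c|_e:
t * volume{...} <= int_Q |g - c| <= int_Q' |g - c| <= vl d (i+1) * G x0 <= 2^d vl d i gamma t. Divide by t (t /= 0, infinity), sum over the countably many pairs (i, a).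
-/

set_option autoImplicit false

noncomputable section

open MeasureTheory Metric Set Filter

namespace Pool.LibRF53

open Pool.LibSR53

private theorem A4_const {d : ℕ} (k : ℤ) (c : ENNReal) (x : E d) :
    (vl d k)⁻¹ * ∫⁻ _ in Q k (ix k x), c = c := by
  obtain ⟨h0, h1⟩ := vl_ne (d := d) k
  rw [setLIntegral_const, Q_vol, mul_comm c, ← mul_assoc, ENNReal.inv_mul_cancel h0 h1, one_mul]

private theorem A4_tri {d : ℕ} (k : ℤ) (f v : E d → ENNReal) (hv : Measurable v) (c : ENNReal)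
    (hf : ∀ y, f y ≤ v y + c) (x : E d) : Av k f x ≤ Av k v x + c := by
  refine (Av_mono k hf x).trans ?_
  unfold Av
  rw [lintegral_add_left hv, mul_add, A4_const]

private theorem A4_vl1 {d : ℕ} (i : ℤ) : vl d (i + 1) = 2 ^ d * vl d i := by
  rw [vl_add, mul_comm]
  congr 1
  unfold vl
  rw [zpow_one, ENNReal.ofReal_pow (by norm_num)]
  norm_num

private theorem A4_big {d : ℕ} (hd : 1 ≤ d) (R : ENNReal) (hR : R ≠ ⊤) :
    ∃ J : ℤ, ∀ j : ℤ, J ≤ j → R ≤ vl d j := by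
  obtain ⟨n, hn⟩ := pow_unbounded_of_one_lt R.toReal (one_lt_two : (1 : ℝ) < 2)
  refine ⟨(n : ℤ), fun j hj => ?_⟩
  have h1 : (2 : ℝ) ^ n ≤ (2 : ℝ) ^ j := by
    rw [← zpow_natCast]
    exact zpow_le_zpow_right₀ (by norm_num) hj
  have h2 : (1 : ℝ) ≤ (2 : ℝ) ^ j := le_trans (one_le_pow₀ (by norm_num)) h1
  have h3 : (2 : ℝ) ^ j ≤ ((2 : ℝ) ^ j) ^ d := by
    calc (2 : ℝ) ^ j = ((2 : ℝ) ^ j) ^ 1 := (pow_one _).symm
      _ ≤ ((2 : ℝ) ^ j) ^ d := pow_le_pow_right₀ h2 hd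
  rw [← ENNReal.ofReal_toReal hR]
  exact ENNReal.ofReal_le_ofReal (by linarith)

private theorem A4_bdd {d : ℕ} (hd : 1 ≤ d) (u : E d → ENNReal) (hu : Measurable u)
    (hu2 : ∫⁻ x, u x ^ (2 : ℝ) ≠ ⊤) (t : ENNReal) (ht : t ≠ 0) (ht' : t ≠ ⊤) :
    ∃ J : ℤ, ∀ j : ℤ, J ≤ j → ∀ x, Av j u x ≤ t := by
  have ht2 : t ^ (2 : ℝ) ≠ 0 := by
    rw [Ne, ENNReal.rpow_eq_zero_iff]
    rintro (⟨h, _⟩ | ⟨h, _⟩)
    · exact ht h
    · exact ht' h
  have ht3 : t ^ (2 : ℝ) ≠ ⊤ := ENNReal.rpow_ne_top_of_nonneg (by norm_num) ht'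
  obtain ⟨J, hJ⟩ := A4_big (d := d) hd ((∫⁻ x, u x ^ (2 : ℝ)) / t ^ (2 : ℝ))
    (ENNReal.div_ne_top hu2 ht2)
  refine ⟨J, fun j hj x => ?_⟩
  have h1 := Av_jensen j u hu (s := 1) (t := 2) one_pos (by norm_num) x
  simp only [ENNReal.rpow_one, div_one] at h1
  refine h1.trans ?_
  have h2 : Av j (fun y => u y ^ (2 : ℝ)) x ≤ t ^ (2 : ℝ) := by
    obtain ⟨h0, h0'⟩ := vl_ne (d := d) j
    calc Av j (fun y => u y ^ (2 : ℝ)) x
        ≤ (vl d j)⁻¹ * ∫⁻ y, u y ^ (2 : ℝ) := by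
          unfold Av
          exact mul_le_mul_right (setLIntegral_le_lintegral _ _) _
      _ ≤ (vl d j)⁻¹ * (vl d j * t ^ (2 : ℝ)) := by
          refine mul_le_mul_right ?_ _
          exact (ENNReal.div_le_iff ht2 ht3).1 (hJ j hj)
      _ = t ^ (2 : ℝ) := by
          rw [← mul_assoc, ENNReal.inv_mul_cancel h0 h0', one_mul]
  calc (Av j (fun y => u y ^ (2 : ℝ)) x) ^ (1 / 2 : ℝ) ≤ (t ^ (2 : ℝ)) ^ (1 / 2 : ℝ) :=
        ENNReal.rpow_le_rpow h2 (by norm_num)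
    _ = t := by
        rw [← ENNReal.rpow_mul]
        norm_num

private theorem A4_cube {d : ℕ} {H : Type} [NormedAddCommGroup H] (g : E d → H)
    (hg : Continuous g) (G : E d → ENNReal)
    (hG : ∀ (j : ℤ) (a : Fin d → ℤ), ∃ c : H, ∀ x ∈ Q j a,
      ∫⁻ y in Q j a, ‖g y - c‖ₑ ≤ vl d j * G x)
    (t γ : ENNReal) (ht : t ≠ 0) (ht' : t ≠ ⊤) (hγ : γ ≤ 1) (i : ℤ) (a : Fin d → ℤ)
    (hsel : ∀ x ∈ Q i a, ∀ k : ℤ, i < k → Av k (fun y => ‖g y‖ₑ) x ≤ t) :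
    volume ({x : E d | 3 * t < Md (fun y => ‖g y‖ₑ) x ∧ G x ≤ γ * t} ∩ Q i a) ≤
      2 ^ d * γ * volume (Q i a) := by
  rcases Set.eq_empty_or_nonempty ({x : E d | 3 * t < Md (fun y => ‖g y‖ₑ) x ∧ G x ≤ γ * t} ∩ Q i a)
    with he | ⟨x0, hx0, hx0Q⟩
  · rw [he]
    simp
  have hx0G : G x0 ≤ γ * t := hx0.2
  obtain ⟨c, hc⟩ := hG (i + 1) (ix (i + 1) x0)
  have hcx0 := hc x0 rfl
  have hmg : Measurable (fun y => ‖g y - c‖ₑ) :=
    (continuous_enorm.comp (hg.sub continuous_const)).measurable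
  have hmu : Measurable (fun y => ‖g y‖ₑ) := (continuous_enorm.comp hg).measurable
  obtain ⟨v0, v1⟩ := vl_ne (d := d) (i + 1)
  have hAvc : Av (i + 1) (fun y => ‖g y - c‖ₑ) x0 ≤ γ * t := by
    unfold Av
    calc (vl d (i + 1))⁻¹ * ∫⁻ y in Q (i + 1) (ix (i + 1) x0), ‖g y - c‖ₑ
        ≤ (vl d (i + 1))⁻¹ * (vl d (i + 1) * (γ * t)) :=
          mul_le_mul_right (hcx0.trans (mul_le_mul_right hx0G _)) _
      _ = γ * t := by rw [← mul_assoc, ENNReal.inv_mul_cancel v0 v1, one_mul]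
  have hγt : γ * t ≤ t := by
    calc γ * t ≤ 1 * t := mul_le_mul_left hγ _
      _ = t := one_mul _
  have hcb : ‖c‖ₑ ≤ t + t := by
    have h1 : Av (i + 1) (fun _ => ‖c‖ₑ) x0 ≤
        Av (i + 1) (fun y => ‖g y‖ₑ) x0 + Av (i + 1) (fun y => ‖g y - c‖ₑ) x0 := by
      have h2 : Av (i + 1) (fun _ => ‖c‖ₑ) x0 ≤
          Av (i + 1) (fun y => ‖g y‖ₑ + ‖g y - c‖ₑ) x0 := by
        refine Av_mono _ (fun y => ?_) _
        have e : c = g y - (g y - c) := by abel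
        calc ‖c‖ₑ = ‖g y - (g y - c)‖ₑ := by rw [← e]
          _ ≤ ‖g y‖ₑ + ‖g y - c‖ₑ := enorm_sub_le
      refine h2.trans (le_of_eq ?_)
      unfold Av
      rw [lintegral_add_left hmu, mul_add]
    have h3 : Av (i + 1) (fun _ => ‖c‖ₑ) x0 = ‖c‖ₑ := A4_const _ _ _
    rw [h3] at h1
    exact h1.trans (add_le_add (hsel x0 hx0Q (i + 1) (by omega)) (hAvc.trans hγt))
  have hsub : {x : E d | 3 * t < Md (fun y => ‖g y‖ₑ) x ∧ G x ≤ γ * t} ∩ Q i a ⊆
      {x : E d | x ∈ Q i a ∧ ∃ k : ℤ, k ≤ i ∧ t < Av k (fun y => ‖g y - c‖ₑ) x} := by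
    rintro x ⟨⟨hx1, hx2⟩, hxQ⟩
    refine ⟨hxQ, ?_⟩
    unfold Md at hx1
    obtain ⟨k, hk⟩ := lt_iSup_iff.1 hx1
    have h3t : 3 * t = t + (t + t) := by ring
    refine ⟨k, ?_, ?_⟩
    · by_contra hcon
      have h2 := hsel x hxQ k (not_le.1 hcon)
      have h4 : t ≤ 3 * t := by
        rw [h3t]
        exact le_self_add
      exact absurd (hk.trans_le h2) (not_lt.2 h4)
    · by_contra hcon
      rw [not_lt] at hcon
      have h2 := A4_tri k (fun y => ‖g y‖ₑ) (fun y => ‖g y - c‖ₑ) hmg ‖c‖ₑ (fun y => by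
        have e : g y = (g y - c) + c := by abel
        calc ‖g y‖ₑ = ‖(g y - c) + c‖ₑ := by rw [← e]
          _ ≤ ‖g y - c‖ₑ + ‖c‖ₑ := enorm_add_le _ _) x
      have h5 : Av k (fun y => ‖g y‖ₑ) x ≤ 3 * t := by
        rw [h3t]
        exact h2.trans (add_le_add hcon hcb)
      exact absurd hk (not_lt.2 h5)
  have hQQ : (Q i a : Set (E d)) ⊆ Q (i + 1) (ix (i + 1) x0) := by
    intro x hx
    have e : ix i x = ix i x0 := by
      have e1 : ix i x = a := hx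
      have e2 : ix i x0 = a := hx0Q
      rw [e1, e2]
    exact ix_mono (by omega) e
  have hfin : t * volume ({x : E d | 3 * t < Md (fun y => ‖g y‖ₑ) x ∧ G x ≤ γ * t} ∩ Q i a) ≤
      t * (2 ^ d * γ * volume (Q i a)) := by
    calc t * volume ({x : E d | 3 * t < Md (fun y => ‖g y‖ₑ) x ∧ G x ≤ γ * t} ∩ Q i a)
        ≤ t * volume {x : E d | x ∈ Q i a ∧ ∃ k : ℤ, k ≤ i ∧ t < Av k (fun y => ‖g y - c‖ₑ) x} :=
          mul_le_mul_right (measure_mono hsub) _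
      _ ≤ ∫⁻ y in Q i a, ‖g y - c‖ₑ := weak_local _ hmg i a t
      _ ≤ ∫⁻ y in Q (i + 1) (ix (i + 1) x0), ‖g y - c‖ₑ := lintegral_mono_set hQQ
      _ ≤ vl d (i + 1) * (γ * t) := hcx0.trans (mul_le_mul_right hx0G _)
      _ = t * (2 ^ d * γ * volume (Q i a)) := by
          rw [A4_vl1, Q_vol]
          ring
  exact (ENNReal.mul_le_mul_iff_right ht ht').1 hfin

theorem good_lambda {d : ℕ} (hd : 1 ≤ d) {H : Type} [NormedAddCommGroup H] (g : E d → H)
    (hg : Continuous g) (hg2 : ∫⁻ x, ‖g x‖ₑ ^ (2 : ℝ) ≠ ⊤) (G : E d → ENNReal)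
    (hG : ∀ (j : ℤ) (a : Fin d → ℤ), ∃ c : H, ∀ x ∈ Q j a,
      ∫⁻ y in Q j a, ‖g y - c‖ₑ ≤ vl d j * G x)
    (t γ : ENNReal) (ht : t ≠ 0) (ht' : t ≠ ⊤) (hγ : γ ≤ 1) :
    volume {x : E d | 3 * t < Md (fun y => ‖g y‖ₑ) x ∧ G x ≤ γ * t} ≤
      2 ^ d * γ * volume {x : E d | t < Md (fun y => ‖g y‖ₑ) x} := by
  classical
  have hmu : Measurable (fun y => ‖g y‖ₑ) := (continuous_enorm.comp hg).measurable
  obtain ⟨J, hJ⟩ := A4_bdd hd (fun y => ‖g y‖ₑ) hmu hg2 t ht ht'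
  let L : Set (E d) := {x : E d | 3 * t < Md (fun y => ‖g y‖ₑ) x ∧ G x ≤ γ * t}
  let Sel : ℤ × (Fin d → ℤ) → Prop := fun p => ∀ x ∈ Q p.1 p.2,
    t < Av p.1 (fun y => ‖g y‖ₑ) x ∧ ∀ k : ℤ, p.1 < k → Av k (fun y => ‖g y‖ₑ) x ≤ t
  let B : ℤ × (Fin d → ℤ) → Set (E d) := fun p => if Sel p then Q p.1 p.2 else ∅
  have hBm : ∀ p, MeasurableSet (B p) := by
    intro p
    show MeasurableSet (if Sel p then Q p.1 p.2 else ∅)
    split_ifs
    · exact Q_meas _ _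
    · exact MeasurableSet.empty
  have hBmem : ∀ p x, x ∈ B p ↔ Sel p ∧ x ∈ Q p.1 p.2 := by
    intro p x
    show x ∈ (if Sel p then Q p.1 p.2 else ∅) ↔ _
    split_ifs with h
    · simp [h]
    · simp [h]
  have hBd : Pairwise (Function.onFun Disjoint B) := by
    intro p p' hpp
    show Disjoint (B p) (B p')
    rw [Set.disjoint_left]
    intro x hx hx'
    rw [hBmem] at hx hx'
    apply hpp
    have h1 : p.1 = p'.1 := by
      rcases lt_trichotomy p.1 p'.1 with h | h | h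
      · exact absurd ((hx'.1 x hx'.2).1) (not_lt.2 ((hx.1 x hx.2).2 _ h))
      · exact h
      · exact absurd ((hx.1 x hx.2).1) (not_lt.2 ((hx'.1 x hx'.2).2 _ h))
    refine Prod.ext h1 ?_
    have h2 : ix p.1 x = p.2 := hx.2
    have h3 : ix p'.1 x = p'.2 := hx'.2
    rw [← h2, ← h3, h1]
  have hcov : L ⊆ ⋃ p, (L ∩ B p) := by
    intro x hx
    have hx1 : 3 * t < Md (fun y => ‖g y‖ₑ) x := hx.1
    unfold Md at hx1
    obtain ⟨k, hk⟩ := lt_iSup_iff.1 hx1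
    have h3t : t ≤ 3 * t := by
      have e : 3 * t = t + (t + t) := by ring
      rw [e]
      exact le_self_add
    obtain ⟨m, hm1, hm2⟩ := Int.exists_greatest_of_bdd
      (P := fun j : ℤ => t < Av j (fun y => ‖g y‖ₑ) x)
      ⟨J, fun z hz => by
        by_contra hcon
        exact absurd hz (not_lt.2 (hJ z (by omega) x))⟩ ⟨k, h3t.trans_lt hk⟩
    rw [Set.mem_iUnion]
    refine ⟨(m, ix m x), hx, ?_⟩
    rw [hBmem]
    refine ⟨?_, rfl⟩
    intro y hy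
    have hy' : ix m y = ix m x := hy
    refine ⟨?_, fun k hk => ?_⟩
    · show t < Av m (fun y => ‖g y‖ₑ) y
      rw [Av_congr m _ hy']
      exact hm1
    · have hk' : m < k := hk
      rw [Av_congr k _ (ix_mono hk'.le hy')]
      by_contra hcon
      exact absurd (hm2 k (not_le.1 hcon)) (not_le.2 hk')
  calc volume L ≤ volume (⋃ p, (L ∩ B p)) := measure_mono hcov
    _ ≤ ∑' p, volume (L ∩ B p) := measure_iUnion_le _
    _ ≤ ∑' p, 2 ^ d * γ * volume (B p) := by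
        refine ENNReal.tsum_le_tsum fun p => ?_
        by_cases hp : Sel p
        · have e : B p = Q p.1 p.2 := if_pos hp
          rw [e]
          exact A4_cube g hg G hG t γ ht ht' hγ p.1 p.2 (fun x hx => (hp x hx).2)
        · have e : B p = ∅ := if_neg hp
          rw [e]
          simp
    _ = 2 ^ d * γ * volume (⋃ p, B p) := by
        rw [ENNReal.tsum_mul_left, measure_iUnion hBd hBm]
    _ ≤ 2 ^ d * γ * volume {x : E d | t < Md (fun y => ‖g y‖ₑ) x} := by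
        refine mul_le_mul_right (measure_mono ?_) _
        intro x hx
        obtain ⟨p, hp⟩ := Set.mem_iUnion.1 hx
        rw [hBmem] at hp
        exact (hp.1 x hp.2).1.trans_le (le_iSup (fun j => Av j (fun y => ‖g y‖ₑ) x) p.1)

end Pool.LibRF53
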