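import Pool.Agent.LibRF53.A4

/-
PLAN (A5). Fefferman-Stein inequality. M x = Md (|g|) x, measurable (countable supremum, Av_meas). (1) |g x|_e <= M x: Av j |g| x -> |g x|_e as j -> -infinity since g is continuous and the cubes
shrink to x (Q_dist); or: for eps > 0 the average over a small cube is >= |g x| - eps. (2) t^2 * volume{t < M} <= int |g|^2 < infinity: t < Av j |g| x implies t^2 < Av j (|g|^2) x (Av_jensen),
weak_global. (3) For N > 0 put I(N) = int_(0 < t < N) q t^(q-1) volume{t < M} dt, finite by (2) because q > 2. With gamma = 2^(-d-1) 3^(-q): volume{3t < M} <= 2^d gamma volume{t < M} +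
volume{gamma t < G} (good_lambda), so 3^(-q) I(N) <= 3^(-q) I(3N) = int_(t < N) q t^(q-1) volume{3 t < M} <= 2^d gamma I(N) + gamma^(-q) int G^q (layer cake:
MeasureTheory.lintegral_rpow_eq_lintegral_meas_lt_mul or lintegral_comp_eq_lintegral_meas_lt_mul for ENNReal/real functions; substitution t -> 3t). Since 2^d gamma = 3^(-q)/2:
I(N) <= 2 3^q gamma^(-q) int G^q. N -> infinity and layer cake for M. If G = infinity on a set of positive measure or int G^q = infinity there is nothing to prove.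
-/

set_option autoImplicit false

noncomputable section

open MeasureTheory Metric Set Filter

namespace Pool.LibRF53

open Pool.LibSR53

private def A5_T (k : ℤ) : ENNReal := ENNReal.ofReal ((3 : ℝ) ^ k)

private theorem A5_T0 (k : ℤ) : A5_T k ≠ 0 := by
  rw [A5_T, Ne, ENNReal.ofReal_eq_zero, not_le]
  positivity

private theorem A5_Tt (k : ℤ) : A5_T k ≠ ⊤ := ENNReal.ofReal_ne_top

private theorem A5_Ts (k : ℤ) : A5_T (k + 1) = 3 * A5_T k := by
  rw [A5_T, A5_T, zpow_add_one₀ (by norm_num), mul_comm, ENNReal.ofReal_mul (by norm_num),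
    ENNReal.ofReal_ofNat]

private theorem A5_Tlt {k l : ℤ} : A5_T k < A5_T l ↔ k < l := by
  rw [A5_T, A5_T, ENNReal.ofReal_lt_ofReal_iff (by positivity)]
  exact zpow_lt_zpow_iff_right₀ (by norm_num)

private theorem A5_Tmono {k l : ℤ} (h : k ≤ l) : A5_T k ≤ A5_T l :=
  ENNReal.ofReal_le_ofReal (zpow_le_zpow_right₀ (by norm_num) h)

/-- every positive finite number lies between two powers of 3 -/
private theorem A5_mem {a : ENNReal} (h0 : a ≠ 0) (ht : a ≠ ⊤) :
    ∃ k : ℤ, A5_T k < a ∧ a ≤ A5_T (k + 1) := by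
  have ha : 0 < a.toReal := ENNReal.toReal_pos h0 ht
  obtain ⟨k, hk1, hk2⟩ := exists_mem_Ioc_zpow ha (by norm_num : (1 : ℝ) < 3)
  refine ⟨k, ?_, ?_⟩
  · rw [A5_T, ENNReal.ofReal_lt_iff_lt_toReal (by positivity) ht]
    exact hk1
  · rw [A5_T]
    exact ENNReal.le_ofReal_iff_toReal_le ht (by positivity) |>.2 hk2

private theorem A5_geom (e : ℝ) (k : ℤ) (n : ℕ) :
    A5_T (k - n) ^ e = A5_T k ^ e * ((3 : ENNReal) ^ (-e)) ^ n := by
  induction n with
  | zero => simp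
  | succ n ih =>
    have h1 : A5_T (k - n) = 3 * A5_T (k - (n + 1 : ℕ)) := by
      rw [← A5_Ts]
      congr 1
      push_cast
      ring
    have h3 : (3 : ENNReal) ^ e * (3 : ENNReal) ^ (-e) = 1 := by
      rw [← ENNReal.rpow_add _ _ (by norm_num) (by norm_num), add_neg_cancel, ENNReal.rpow_zero]
    have h2 : A5_T (k - n) ^ e = 3 ^ e * A5_T (k - (n + 1 : ℕ)) ^ e := by
      rw [h1, ENNReal.mul_rpow_of_ne_top (by norm_num) (A5_Tt _)]
    calc A5_T (k - (n + 1 : ℕ)) ^ e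
        = ((3 : ENNReal) ^ e * (3 : ENNReal) ^ (-e)) * A5_T (k - (n + 1 : ℕ)) ^ e := by
          rw [h3, one_mul]
      _ = (3 ^ e * A5_T (k - (n + 1 : ℕ)) ^ e) * (3 : ENNReal) ^ (-e) := by ring
      _ = A5_T k ^ e * ((3 : ENNReal) ^ (-e)) ^ (n + 1) := by
          rw [← h2, ih, pow_succ, mul_assoc]

/-- a sum over the integers below `k` -/
private theorem A5_sum (e : ℝ) (k : ℤ) (f : ℤ → ENNReal) (hf : ∀ l, k < l → f l = 0)
    (hf' : ∀ l, f l ≤ A5_T l ^ e) :
    ∑' l, f l ≤ A5_T k ^ e * (1 - (3 : ENNReal) ^ (-e))⁻¹ := by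
  have hinj : Function.Injective (fun n : ℕ => k - (n : ℤ)) := by
    intro m n h
    have h' : k - (m : ℤ) = k - n := h
    omega
  have hsup : Function.support f ⊆ Set.range (fun n : ℕ => k - (n : ℤ)) := by
    intro l hl
    have h1 : l ≤ k := by
      by_contra hc
      exact hl (hf l (not_le.1 hc))
    exact ⟨(k - l).toNat, by
      show k - ((k - l).toNat : ℤ) = l
      rw [Int.toNat_of_nonneg (by omega)]
      ring⟩
  rw [← hinj.tsum_eq hsup, ← ENNReal.tsum_geometric, ← ENNReal.tsum_mul_left]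
  refine ENNReal.tsum_le_tsum fun n => ?_
  rw [← A5_geom]
  exact hf' _

private theorem A5_three {e : ℝ} (he : 0 < e) : (3 : ENNReal) ^ (-e) < 1 := by
  have := ENNReal.rpow_lt_rpow_of_exponent_lt (x := (3 : ENNReal)) (by norm_num) (by norm_num)
    (by linarith : -e < 0)
  rwa [ENNReal.rpow_zero] at this

/-- upper bound for the sum of the levels below `a` -/
private theorem A5_up {q : ℝ} (hq : 2 < q) (a : ENNReal) :
    ∑' k : ℤ, A5_T k ^ q * (if A5_T k < a then 1 else 0) ≤ 2 * a ^ q := by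
  by_cases h0 : a = 0
  · rw [h0]
    simp
  by_cases ht : a = ⊤
  · rw [ht, ENNReal.top_rpow_of_pos (by linarith), ENNReal.mul_top (by norm_num)]
    exact le_top
  obtain ⟨k, hk1, hk2⟩ := A5_mem h0 ht
  refine (A5_sum q k _ ?_ ?_).trans ?_
  · intro l hl
    rw [if_neg, mul_zero]
    intro hc
    have := A5_Tlt.1 (lt_of_lt_of_le hc hk2)
    omega
  · intro l
    split_ifs
    · rw [mul_one]
    · rw [mul_zero]
      exact zero_le
  · have h1 : (3 : ENNReal) ^ (-q) ≤ 2⁻¹ := by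
      calc (3 : ENNReal) ^ (-q) ≤ (3 : ENNReal) ^ (-1 : ℝ) :=
            ENNReal.rpow_le_rpow_of_exponent_le (by norm_num) (by linarith)
        _ = 3⁻¹ := ENNReal.rpow_neg_one 3
        _ ≤ 2⁻¹ := ENNReal.inv_le_inv.2 (by norm_num)
    have h2 : (1 - (3 : ENNReal) ^ (-q))⁻¹ ≤ 2 := by
      rw [← inv_inv (2 : ENNReal)]
      refine ENNReal.inv_le_inv.2 ?_
      calc (2 : ENNReal)⁻¹ = 1 - 2⁻¹ := ENNReal.one_sub_inv_two.symm
        _ ≤ 1 - (3 : ENNReal) ^ (-q) := tsub_le_tsub_left h1 1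
    calc A5_T k ^ q * (1 - (3 : ENNReal) ^ (-q))⁻¹ ≤ a ^ q * 2 :=
          mul_le_mul' (ENNReal.rpow_le_rpow hk1.le (by linarith)) h2
      _ = 2 * a ^ q := mul_comm _ _

/-- lower bound for the sum of the levels below `a` -/
private theorem A5_low {q : ℝ} (hq : 2 < q) (a : ENNReal) :
    a ^ q ≤ 3 ^ q * ∑' k : ℤ, A5_T k ^ q * (if A5_T k < a then 1 else 0) := by
  by_cases h0 : a = 0
  · rw [h0, ENNReal.zero_rpow_of_pos (by linarith)]
    exact zero_le
  by_cases ht : a = ⊤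
  · have h1 : ∑' k : ℤ, A5_T k ^ q * (if A5_T k < a then 1 else 0) = ⊤ := by
      refine top_unique ?_
      have hinj : Function.Injective (fun n : ℕ => (n : ℤ)) := Nat.cast_injective
      calc (⊤ : ENNReal) = ∑' _ : ℕ, 1 := (ENNReal.tsum_const_eq_top_of_ne_zero one_ne_zero).symm
        _ ≤ ∑' n : ℕ, A5_T (n : ℤ) ^ q * (if A5_T (n : ℤ) < a then 1 else 0) := by
            refine ENNReal.tsum_le_tsum fun n => ?_
            rw [ht, if_pos (lt_top_iff_ne_top.2 (A5_Tt _)), mul_one]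
            have h2 : (1 : ENNReal) ≤ A5_T (n : ℤ) := by
              have := A5_Tmono (k := 0) (l := (n : ℤ)) (by omega)
              rwa [A5_T, zpow_zero, ENNReal.ofReal_one] at this
            calc (1 : ENNReal) = 1 ^ q := (ENNReal.one_rpow q).symm
              _ ≤ A5_T (n : ℤ) ^ q := ENNReal.rpow_le_rpow h2 (by linarith)
        _ ≤ ∑' k : ℤ, A5_T k ^ q * (if A5_T k < a then 1 else 0) :=
            ENNReal.tsum_comp_le_tsum_of_injective hinj _
    rw [h1, ENNReal.mul_top]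
    · exact le_top
    · exact (ENNReal.rpow_pos (by norm_num) (by norm_num)).ne'
  obtain ⟨k, hk1, hk2⟩ := A5_mem h0 ht
  calc a ^ q ≤ (3 * A5_T k) ^ q := by
        rw [← A5_Ts]
        exact ENNReal.rpow_le_rpow hk2 (by linarith)
    _ = 3 ^ q * (A5_T k ^ q * (if A5_T k < a then 1 else 0)) := by
        rw [if_pos hk1, mul_one, ENNReal.mul_rpow_of_ne_top (by norm_num) (A5_Tt _)]
    _ ≤ _ := mul_le_mul_right (ENNReal.le_tsum k) _

/-- integral of the sum over the levels -/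
private theorem A5_int {d : ℕ} (q : ℝ) (F : E d → ENNReal) (hF : Measurable F) :
    ∫⁻ x, ∑' k : ℤ, A5_T k ^ q * (if A5_T k < F x then 1 else 0) =
      ∑' k : ℤ, A5_T k ^ q * volume {x : E d | A5_T k < F x} := by
  have hm : ∀ k : ℤ, MeasurableSet {x : E d | A5_T k < F x} := fun k =>
    measurableSet_lt measurable_const hF
  have hi : ∀ k : ℤ, Measurable (fun x : E d => if A5_T k < F x then (1 : ENNReal) else 0) :=
    fun k => Measurable.ite (hm k) measurable_const measurable_const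
  rw [lintegral_tsum fun k => ((hi k).const_mul _).aemeasurable]
  refine tsum_congr fun k => ?_
  rw [lintegral_const_mul _ (hi k)]
  congr 1
  have : (fun x : E d => if A5_T k < F x then (1 : ENNReal) else 0) =
      {x : E d | A5_T k < F x}.indicator 1 := by
    funext x
    simp [Set.indicator_apply]
  rw [this, lintegral_indicator_one (hm k)]

private theorem A5_pt {d : ℕ} (u : E d → ENNReal) (hu : Continuous u) (x : E d) :
    u x ≤ Md u x := by
  by_contra hc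
  rw [not_le] at hc
  obtain ⟨c, hc1, hc2⟩ := exists_between hc
  have hopen : {y : E d | c < u y} ∈ nhds x := hu.continuousAt.eventually (lt_mem_nhds hc2)
  obtain ⟨δ, hδ, hball⟩ := Metric.mem_nhds_iff.1 hopen
  obtain ⟨n, hn⟩ := exists_pow_lt_of_lt_one (show 0 < δ / (Real.sqrt d + 1) by positivity)
    (by norm_num : (1 / 2 : ℝ) < 1)
  have hj : Real.sqrt d * (2 : ℝ) ^ (-(n : ℤ)) < δ := by
    have h1 : (2 : ℝ) ^ (-(n : ℤ)) = (1 / 2 : ℝ) ^ n := by
      rw [zpow_neg, zpow_natCast, one_div, inv_pow]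
    rw [h1]
    rw [lt_div_iff₀ (by positivity)] at hn
    have h2 : (0 : ℝ) < (1 / 2 : ℝ) ^ n := by positivity
    nlinarith
  have hsub : Q (-(n : ℤ)) (ix (-(n : ℤ)) x) ⊆ {y : E d | c < u y} := by
    intro y hy
    refine hball ?_
    rw [Metric.mem_ball]
    exact lt_of_le_of_lt (Q_dist hy rfl) hj
  have h3 : c * vl d (-(n : ℤ)) ≤ ∫⁻ y in Q (-(n : ℤ)) (ix (-(n : ℤ)) x), u y := by
    calc c * vl d (-(n : ℤ)) = ∫⁻ _ in (Q (-(n : ℤ)) (ix (-(n : ℤ)) x) : Set (E d)), c := by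
          rw [setLIntegral_const, Q_vol]
      _ ≤ _ := setLIntegral_mono hu.measurable fun y hy => (hsub hy).le
  have h4 : c ≤ Av (-(n : ℤ)) u x := by
    obtain ⟨v0, vt⟩ := vl_ne (d := d) (-(n : ℤ))
    rw [Av]
    calc c = (vl d (-(n : ℤ)))⁻¹ * (c * vl d (-(n : ℤ))) := by
          rw [mul_comm c, ← mul_assoc, ENNReal.inv_mul_cancel v0 vt, one_mul]
      _ ≤ _ := mul_le_mul_right h3 _
  exact absurd (h4.trans (le_iSup (fun j : ℤ => Av j u x) (-(n : ℤ)))) (not_le.2 hc1)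

private theorem A5_weak {d : ℕ} (u : E d → ENNReal) (hu : Measurable u) (t : ENNReal) :
    t ^ (2 : ℝ) * volume {x : E d | t < Md u x} ≤ ∫⁻ x, u x ^ (2 : ℝ) := by
  refine le_trans (mul_le_mul_right (measure_mono ?_) _)
    (weak_global (fun x => u x ^ (2 : ℝ)) (hu.pow_const _) (t ^ (2 : ℝ)))
  intro x hx
  obtain ⟨i, hi⟩ := lt_iSup_iff.1 (show t < ⨆ j : ℤ, Av j u x from hx)
  refine ⟨i, ?_⟩
  have h1 := Av_jensen i u hu one_pos (by norm_num : (1 : ℝ) ≤ 2) x
  simp only [ENNReal.rpow_one, div_one] at h1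
  have h2 : t < Av i (fun y => u y ^ (2 : ℝ)) x ^ (1 / 2 : ℝ) := lt_of_lt_of_le hi h1
  have h3 := ENNReal.rpow_lt_rpow h2 (by norm_num : (0 : ℝ) < 2)
  rwa [← ENNReal.rpow_mul, one_div_mul_cancel (by norm_num : (2 : ℝ) ≠ 0),
    ENNReal.rpow_one] at h3

theorem FS (d : ℕ) (hd : 1 ≤ d) (q : ℝ) (hq : 2 < q) : ∃ C : ℝ, 0 < C ∧
    ∀ (H : Type) [NormedAddCommGroup H] (g : E d → H), Continuous g →
      ∫⁻ x, ‖g x‖ₑ ^ (2 : ℝ) ≠ ⊤ → ∀ G : E d → ENNReal, Measurable G →
      (∀ (j : ℤ) (a : Fin d → ℤ), ∃ c : H, ∀ x ∈ Q j a,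
        ∫⁻ y in Q j a, ‖g y - c‖ₑ ≤ vl d j * G x) →
      ∫⁻ x, ‖g x‖ₑ ^ q ≤ ENNReal.ofReal C * ∫⁻ x, G x ^ q := by
  have hq0 : 0 < q := by linarith
  -- the constants
  set γ : ENNReal := (2 ^ (d + 1))⁻¹ * ((3 : ENNReal) ^ q)⁻¹ with hγ
  have h3q0 : (3 : ENNReal) ^ q ≠ 0 := (ENNReal.rpow_pos (by norm_num) (by norm_num)).ne'
  have h3qt : (3 : ENNReal) ^ q ≠ ⊤ := ENNReal.rpow_ne_top_of_nonneg hq0.le (by norm_num)
  have h2d0 : (2 : ENNReal) ^ (d + 1) ≠ 0 := by positivity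
  have h2dt : (2 : ENNReal) ^ (d + 1) ≠ ⊤ := ENNReal.pow_ne_top (by norm_num)
  have hγ0 : γ ≠ 0 := mul_ne_zero (ENNReal.inv_ne_zero.2 h2dt) (ENNReal.inv_ne_zero.2 h3qt)
  have hγt : γ ≠ ⊤ := ENNReal.mul_ne_top (ENNReal.inv_ne_top.2 h2d0) (ENNReal.inv_ne_top.2 h3q0)
  have hγ1 : γ ≤ 1 := by
    refine mul_le_one' (ENNReal.inv_le_one.2 ?_) (ENNReal.inv_le_one.2 ?_)
    · exact one_le_pow₀ (by norm_num)
    · exact ENNReal.one_le_rpow (by norm_num) hq0
  have hγh : (3 : ENNReal) ^ q * (2 ^ d * γ) = 2⁻¹ := by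
    rw [hγ, pow_succ, ENNReal.mul_inv (Or.inl (by positivity)) (Or.inl (by
      exact ENNReal.pow_ne_top (by norm_num)))]
    have h1 : (2 : ENNReal) ^ d * (2 ^ d)⁻¹ = 1 :=
      ENNReal.mul_inv_cancel (by positivity) (ENNReal.pow_ne_top (by norm_num))
    have h2 : (3 : ENNReal) ^ q * (3 ^ q)⁻¹ = 1 := ENNReal.mul_inv_cancel h3q0 h3qt
    calc (3 : ENNReal) ^ q * (2 ^ d * ((2 ^ d)⁻¹ * 2⁻¹ * (3 ^ q)⁻¹))
        = (2 ^ d * (2 ^ d)⁻¹) * ((3 ^ q) * (3 ^ q)⁻¹) * 2⁻¹ := by ring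
      _ = 2⁻¹ := by rw [h1, h2, one_mul, one_mul]
  have hγq0 : γ ^ q ≠ 0 := (ENNReal.rpow_pos (pos_iff_ne_zero.2 hγ0) hγt).ne'
  have hγqt : γ ^ q ≠ ⊤ := ENNReal.rpow_ne_top_of_nonneg hq0.le hγt
  set K : ENNReal := 3 ^ q * (2 * (3 ^ q * (2 * (γ ^ q)⁻¹))) with hK
  have hK0 : K ≠ 0 := by
    refine mul_ne_zero h3q0 (mul_ne_zero (by norm_num) (mul_ne_zero h3q0
      (mul_ne_zero (by norm_num) (ENNReal.inv_ne_zero.2 hγqt))))
  have hKt : K ≠ ⊤ := by
    refine ENNReal.mul_ne_top h3qt (ENNReal.mul_ne_top (by norm_num) (ENNReal.mul_ne_top h3qt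
      (ENNReal.mul_ne_top (by norm_num) (ENNReal.inv_ne_top.2 hγq0))))
  refine ⟨K.toReal, ENNReal.toReal_pos hK0 hKt, ?_⟩
  intro H _ g hg hg2 G hGm hG
  rw [ENNReal.ofReal_toReal hKt]
  have hu : Continuous (fun y => ‖g y‖ₑ) := hg.enorm
  set u : E d → ENNReal := fun y => ‖g y‖ₑ with hudef
  have hum : Measurable u := hu.measurable
  have hMm : Measurable (Md u) := Measurable.iSup fun j => Av_meas j u
  set m : ℤ → ENNReal := fun k => volume {x : E d | A5_T k < Md u x} with hm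
  set n : ℤ → ENNReal := fun k => volume {x : E d | A5_T k < G x / γ} with hn
  set R : ENNReal := 3 ^ q * ∑' k : ℤ, A5_T k ^ q * n k with hR
  -- good lambda
  have hgl : ∀ k : ℤ, m (k + 1) ≤ 2 ^ d * γ * m k + n k := by
    intro k
    have h1 := good_lambda hd g hg hg2 G hG (A5_T k) γ (A5_T0 k) (A5_Tt k) hγ1
    have h2 : {x : E d | A5_T (k + 1) < Md u x} ⊆
        {x : E d | 3 * A5_T k < Md (fun y => ‖g y‖ₑ) x ∧ G x ≤ γ * A5_T k} ∪
          {x : E d | A5_T k < G x / γ} := by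
      intro x hx
      rw [Set.mem_setOf_eq, A5_Ts] at hx
      by_cases h3 : G x ≤ γ * A5_T k
      · exact Or.inl ⟨hx, h3⟩
      · refine Or.inr ?_
        rw [Set.mem_setOf_eq, ENNReal.lt_div_iff_mul_lt (Or.inl hγ0) (Or.inl hγt), mul_comm]
        exact not_le.1 h3
    calc m (k + 1) ≤ volume ({x : E d | 3 * A5_T k < Md (fun y => ‖g y‖ₑ) x ∧
            G x ≤ γ * A5_T k} ∪ {x : E d | A5_T k < G x / γ}) := measure_mono h2
      _ ≤ volume {x : E d | 3 * A5_T k < Md (fun y => ‖g y‖ₑ) x ∧ G x ≤ γ * A5_T k} + n k :=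
          measure_union_le _ _
      _ ≤ _ := add_le_add_left h1 _
  have hWs : ∀ k : ℤ, A5_T (k + 1) ^ q = 3 ^ q * A5_T k ^ q := fun k => by
    rw [A5_Ts, ENNReal.mul_rpow_of_ne_top (by norm_num) (A5_Tt _)]
  -- the truncated sums
  have hS : ∀ N : ℤ, ∑' k : ℤ, (if k < N then A5_T k ^ q * m k else 0) ≤ 2 * R := by
    intro N
    set S := ∑' k : ℤ, (if k < N then A5_T k ^ q * m k else 0) with hSdef
    have hfin : S ≠ ⊤ := by
      set A := ∫⁻ x, u x ^ (2 : ℝ) with hA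
      have h1 : S ≤ ∑' k : ℤ, A * (if k < N then A5_T k ^ (q - 2) else 0) := by
        refine ENNReal.tsum_le_tsum fun k => ?_
        split_ifs
        · have h2 : A5_T k ^ q = A5_T k ^ (q - 2) * A5_T k ^ (2 : ℝ) := by
            rw [← ENNReal.rpow_add _ _ (A5_T0 k) (A5_Tt k)]
            congr 1
            ring
          rw [h2, mul_assoc, mul_comm A]
          exact mul_le_mul_right (A5_weak u hum (A5_T k)) _
        · exact zero_le
      have h2 := A5_sum (q - 2) N (fun k => if k < N then A5_T k ^ (q - 2) else 0)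
        (fun l hl => if_neg (by omega)) (fun l => by
          show (if l < N then A5_T l ^ (q - 2) else 0) ≤ _
          split_ifs
          · exact le_rfl
          · exact zero_le)
      rw [ENNReal.tsum_mul_left] at h1
      have h3 : A5_T N ^ (q - 2) * (1 - (3 : ENNReal) ^ (-(q - 2)))⁻¹ ≠ ⊤ := by
        refine ENNReal.mul_ne_top (ENNReal.rpow_ne_top_of_nonneg (by linarith) (A5_Tt _)) ?_
        refine ENNReal.inv_ne_top.2 ?_
        exact (tsub_pos_of_lt (A5_three (by linarith))).ne'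
      exact ne_top_of_le_ne_top (ENNReal.mul_ne_top hg2 (ne_top_of_le_ne_top h3 h2)) h1
    have hstep : S ≤ S / 2 + R := by
      calc S ≤ ∑' k : ℤ, (if k < N + 1 then A5_T k ^ q * m k else 0) := by
            refine ENNReal.tsum_le_tsum fun k => ?_
            split_ifs with h1 h2
            · exact le_rfl
            · omega
            · exact zero_le
            · exact le_rfl
        _ = ∑' k : ℤ, (if k + 1 < N + 1 then A5_T (k + 1) ^ q * m (k + 1) else 0) :=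
            ((Equiv.addRight (1 : ℤ)).tsum_eq
              (fun k : ℤ => if k < N + 1 then A5_T k ^ q * m k else 0)).symm
        _ ≤ ∑' k : ℤ, (2⁻¹ * (if k < N then A5_T k ^ q * m k else 0) +
              3 ^ q * (A5_T k ^ q * n k)) := by
            refine ENNReal.tsum_le_tsum fun k => ?_
            by_cases h1 : k < N
            · rw [if_pos (by omega), if_pos h1, hWs, ← hγh]
              calc 3 ^ q * A5_T k ^ q * m (k + 1)
                  ≤ 3 ^ q * A5_T k ^ q * (2 ^ d * γ * m k + n k) :=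
                    mul_le_mul_right (hgl k) _
                _ = 3 ^ q * (2 ^ d * γ) * (A5_T k ^ q * m k) + 3 ^ q * (A5_T k ^ q * n k) := by
                    ring
            · rw [if_neg (by omega), if_neg h1, mul_zero, zero_add]
              exact zero_le
        _ = S / 2 + R := by
            rw [ENNReal.tsum_add, ENNReal.tsum_mul_left, ENNReal.tsum_mul_left, hR,
              ENNReal.div_eq_inv_mul]
    have h4 : S / 2 ≠ ⊤ := ENNReal.div_ne_top hfin (by norm_num)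
    have h5 : S / 2 + S / 2 ≤ S / 2 + R := by
      rw [ENNReal.add_halves]
      exact hstep
    have h6 : S / 2 ≤ R := (ENNReal.add_le_add_iff_left h4).1 h5
    calc S = 2 * (S / 2) := by rw [two_mul, ENNReal.add_halves]
      _ ≤ 2 * R := mul_le_mul_right h6 _
  have hfull : ∑' k : ℤ, A5_T k ^ q * m k ≤ 2 * R := by
    rw [ENNReal.tsum_eq_iSup_sum]
    refine iSup_le fun s => ?_
    obtain ⟨N, hN⟩ := s.exists_le
    refine le_trans ?_ (hS (N + 1))
    refine le_trans (le_of_eq ?_) (ENNReal.sum_le_tsum s)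
    refine Finset.sum_congr rfl fun k hk => ?_
    rw [if_pos (lt_of_le_of_lt (hN k hk) (lt_add_one N))]
  -- the end
  have hGq : ∑' k : ℤ, A5_T k ^ q * n k ≤ 2 * (γ ^ q)⁻¹ * ∫⁻ x, G x ^ q := by
    have hGm' : Measurable (fun x => G x / γ) := hGm.div_const γ
    rw [hn, ← A5_int q (fun x => G x / γ) hGm']
    calc ∫⁻ x, ∑' k : ℤ, A5_T k ^ q * (if A5_T k < G x / γ then 1 else 0)
        ≤ ∫⁻ x, 2 * (γ ^ q)⁻¹ * G x ^ q := by
          refine lintegral_mono fun x => (A5_up hq _).trans (le_of_eq ?_)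
          rw [ENNReal.div_rpow_of_nonneg _ _ hq0.le, ENNReal.div_eq_inv_mul, mul_assoc]
      _ = _ := lintegral_const_mul _ (hGm.pow_const q)
  calc ∫⁻ x, u x ^ q ≤ ∫⁻ x, Md u x ^ q :=
        lintegral_mono fun x => ENNReal.rpow_le_rpow (A5_pt u hu x) hq0.le
    _ ≤ ∫⁻ x, 3 ^ q * ∑' k : ℤ, A5_T k ^ q * (if A5_T k < Md u x then 1 else 0) :=
        lintegral_mono fun x => A5_low hq _
    _ = 3 ^ q * ∫⁻ x, ∑' k : ℤ, A5_T k ^ q * (if A5_T k < Md u x then 1 else 0) :=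
        lintegral_const_mul' _ _ h3qt
    _ = 3 ^ q * ∑' k : ℤ, A5_T k ^ q * m k := by rw [A5_int q (Md u) hMm]
    _ ≤ 3 ^ q * (2 * R) := mul_le_mul_right hfull _
    _ ≤ 3 ^ q * (2 * (3 ^ q * (2 * (γ ^ q)⁻¹ * ∫⁻ x, G x ^ q))) :=
        mul_le_mul_right (mul_le_mul_right (mul_le_mul_right hGq _) _) _
    _ = K * ∫⁻ x, G x ^ q := by rw [hK]; ring

end Pool.LibRF53
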