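import Pool.Agent.LibRF53.Defs

/-
PLAN (B1). ONLY Defs. MB_meas: for fixed r the function x -> int over closedBall x r of h is x -> int_y (indicator of {dist y x <= r}) h y, Measurable.lintegral_prod_right'; countable supremum.
MB_weak: if int h = infinity or t = 0 nothing to prove (t = infinity: the set is empty). For x with t < MB h x choose j(x) with t (2^j)^d < int over closedBall x (2^j) of h; so the radii are
bounded by (int h / t)^(1/d). Vitali:
Vitali.exists_disjoint_subfamily_covering_enlargement_closedBall gives disjoint balls B_i = closedBall (x_i) (2^(j_i)), countable (nonempty interior, separable space: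
Set.PairwiseDisjoint.countable_of_isOpen for the open balls, or countable_of_nonempty_interior), with the set covered by the balls of five times the radius; volume of a ball =
volume (ball 0 1) * r^d (EuclideanSpace.volume_closedBall or addHaar_closedBall). Sum.
-/

set_option autoImplicit false

noncomputable section

open MeasureTheory Metric Set Filter

namespace Pool.LibRF53

open Pool.LibSR53

theorem MB_meas {d : ℕ} (h : E d → ENNReal) (hh : Measurable h) : Measurable (MB h) := by
  unfold MB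
  refine Measurable.iSup fun j => Measurable.const_mul ?_ _
  have e : (fun x : E d => ∫⁻ y in closedBall x ((2 : ℝ) ^ j), h y) = fun x : E d =>
      ∫⁻ y, ({p : E d × E d | dist p.2 p.1 ≤ (2 : ℝ) ^ j}.indicator (fun p => h p.2)) (x, y) := by
    funext x
    rw [← lintegral_indicator measurableSet_closedBall]
    refine lintegral_congr fun y => ?_
    by_cases hy : y ∈ closedBall x ((2 : ℝ) ^ j)
    · rw [indicator_of_mem hy, indicator_of_mem]
      exact hy
    · rw [indicator_of_notMem hy, indicator_of_notMem]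
      exact hy
  rw [e]
  refine Measurable.lintegral_prod_right' ?_
  refine (hh.comp measurable_snd).indicator ?_
  exact measurableSet_le (measurable_snd.dist measurable_fst) measurable_const

private lemma b1_vl_ne_zero (d : ℕ) (j : ℤ) : vl d j ≠ 0 := by
  unfold vl
  rw [Ne, ENNReal.ofReal_eq_zero, not_le]
  positivity

private lemma b1_vl_ne_top (d : ℕ) (j : ℤ) : vl d j ≠ ⊤ := ENNReal.ofReal_ne_top

private lemma b1_le {d : ℕ} {h : E d → ENNReal} {t : ENNReal} {x : E d} {j : ℤ}
    (hj : t < (vl d j)⁻¹ * ∫⁻ y in closedBall x ((2 : ℝ) ^ j), h y) :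
    t * vl d j ≤ ∫⁻ y in closedBall x ((2 : ℝ) ^ j), h y := by
  calc t * vl d j ≤ ((vl d j)⁻¹ * ∫⁻ y in closedBall x ((2 : ℝ) ^ j), h y) * vl d j :=
        mul_le_mul_left hj.le _
    _ = ((vl d j)⁻¹ * vl d j) * ∫⁻ y in closedBall x ((2 : ℝ) ^ j), h y := by ring
    _ = _ := by rw [ENNReal.inv_mul_cancel (b1_vl_ne_zero d j) (b1_vl_ne_top d j), one_mul]

theorem MB_weak (d : ℕ) (hd : 1 ≤ d) : ∃ C : ℝ, 0 < C ∧ ∀ h : E d → ENNReal, Measurable h → ∀ t : ENNReal,
    t * volume {x : E d | t < MB h x} ≤ ENNReal.ofReal C * ∫⁻ y, h y := by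
  obtain ⟨v, hv⟩ : ∃ v : ENNReal, v = volume (ball (0 : E d) 1) := ⟨_, rfl⟩
  have hv0 : v ≠ 0 := by rw [hv]; exact (measure_ball_pos volume 0 one_pos).ne'
  have hvt : v ≠ ⊤ := by rw [hv]; exact measure_ball_lt_top.ne
  refine ⟨5 ^ d * v.toReal, mul_pos (by positivity) (ENNReal.toReal_pos hv0 hvt), ?_⟩
  intro h hh t
  rw [ENNReal.ofReal_mul (by positivity), ENNReal.ofReal_toReal hvt]
  obtain ⟨c, hc⟩ : ∃ c : ENNReal, c = ENNReal.ofReal (5 ^ d) * v := ⟨_, rfl⟩
  rw [← hc]
  have hc0 : c ≠ 0 := by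
    rw [hc]
    refine mul_ne_zero ?_ hv0
    rw [Ne, ENNReal.ofReal_eq_zero, not_le]
    positivity
  rcases eq_or_ne (∫⁻ y, h y) ⊤ with hI | hI
  · rw [hI, ENNReal.mul_top hc0]
    exact le_top
  rcases eq_or_ne t 0 with ht0 | ht0
  · rw [ht0, zero_mul]
    exact zero_le
  obtain ⟨A, hA⟩ : ∃ A : Set (E d), A = {x : E d | t < MB h x} := ⟨_, rfl⟩
  rw [← hA]
  have hex : ∀ x : E d, ∃ j : ℤ, x ∈ A → t < (vl d j)⁻¹ * ∫⁻ y in closedBall x ((2 : ℝ) ^ j), h y := by
    intro x
    by_cases hx : x ∈ A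
    · rw [hA] at hx
      obtain ⟨j, hj⟩ := lt_iSup_iff.mp (show t < MB h x from hx)
      exact ⟨j, fun _ => hj⟩
    · exact ⟨0, fun h' => absurd h' hx⟩
  choose J hJ using hex
  have hJ2 : ∀ x ∈ A, t * vl d (J x) ≤ ∫⁻ y in closedBall x ((2 : ℝ) ^ (J x)), h y :=
    fun x hx => b1_le (hJ x hx)
  obtain ⟨M, hM⟩ : ∃ M : ℝ, M = ((∫⁻ y, h y) / t).toReal := ⟨_, rfl⟩
  have hR : ∀ x ∈ A, (2 : ℝ) ^ (J x) ≤ max 1 M := by
    intro x hx
    rcases le_or_gt ((2 : ℝ) ^ (J x)) 1 with h1 | h1
    · exact h1.trans (le_max_left _ _)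
    · refine le_trans ?_ (le_max_right _ _)
      have h2 : vl d (J x) ≤ (∫⁻ y, h y) / t := by
        rw [ENNReal.le_div_iff_mul_le (Or.inl ht0) (Or.inr hI), mul_comm]
        exact (hJ2 x hx).trans (setLIntegral_le_lintegral _ _)
      have h3 : ((2 : ℝ) ^ (J x)) ^ d ≤ M := by
        have h4 := ENNReal.toReal_mono (ENNReal.div_ne_top hI ht0) h2
        rw [vl, ENNReal.toReal_ofReal (by positivity), ← hM] at h4
        exact h4
      exact (le_self_pow₀ h1.le (by omega)).trans h3
  obtain ⟨u, huA, hdisj, hcov⟩ :=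
    Vitali.exists_disjoint_subfamily_covering_enlargement_closedBall A (fun x : E d => x)
      (fun x => (2 : ℝ) ^ (J x)) (max 1 M) hR 5 (by norm_num)
  have hucount : u.Countable := by
    refine hdisj.countable_of_nonempty_interior fun x _ => ?_
    rw [interior_closedBall x (by positivity)]
    exact nonempty_ball.mpr (by positivity)
  have hsub : A ⊆ ⋃ b ∈ u, closedBall b (5 * (2 : ℝ) ^ (J b)) := by
    intro x hx
    obtain ⟨b, hb, hb2⟩ := hcov x hx
    exact mem_biUnion hb (hb2 (mem_closedBall_self (by positivity)))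
  have hball : ∀ b : E d, volume (closedBall b (5 * (2 : ℝ) ^ (J b))) = c * vl d (J b) := by
    intro b
    rw [Measure.addHaar_closedBall volume b (by positivity), finrank_euclideanSpace_fin, mul_pow,
      ENNReal.ofReal_mul (by positivity), hc, ← hv, vl]
    ring
  have : Countable u := hucount.to_subtype
  calc t * volume A ≤ t * ∑' b : u, volume (closedBall (b : E d) (5 * (2 : ℝ) ^ (J b))) := by
        refine mul_le_mul_right ((measure_mono hsub).trans ?_) _
        exact measure_biUnion_le volume hucount _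
    _ = ∑' b : u, c * (t * vl d (J b)) := by
        rw [← ENNReal.tsum_mul_left]
        refine tsum_congr fun b => ?_
        rw [hball]
        ring
    _ ≤ ∑' b : u, c * ∫⁻ y in closedBall (b : E d) ((2 : ℝ) ^ (J b)), h y :=
        ENNReal.tsum_le_tsum fun b => mul_le_mul_right (hJ2 b (huA b.2)) _
    _ = c * ∑' b : u, ∫⁻ y in closedBall (b : E d) ((2 : ℝ) ^ (J b)), h y := ENNReal.tsum_mul_left
    _ = c * ∫⁻ y in ⋃ b ∈ u, closedBall (b : E d) ((2 : ℝ) ^ (J b)), h y := by
        rw [lintegral_biUnion hucount (fun b _ => measurableSet_closedBall) hdisj]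
    _ ≤ c * ∫⁻ y, h y := mul_le_mul_right (setLIntegral_le_lintegral _ _) _

end Pool.LibRF53
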