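import Pool.Agent.LibRF53.B1

/-
PLAN (B2). Strong type for the maximal function. w := max of 1 and the volume of closedBall 0 1 (finite). For s > 0: h <= s + h 1_(h > s), so MB h <= w s + MB (h 1_(h > s)); hence
{2 w s < MB h} is contained in {w s < MB (h 1_(h > s))}, measure <= C (w s)^-1 int_(h > s) h (MB_weak). Layer cake: int (MB h)^r = r int_t t^(r-1) volume{t < MB h} dt with t = 2 w s, Tonelli:
int_s s^(r-2) int_(h > s) h = int h * h^(r-1) / (r-1). ENNReal valued functions: if int h^r = infinity nothing to prove; otherwise h < infinity a.e. and MB h may be handled with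
lintegral_comp... for ENNReal: write {t < MB h} for real t > 0; MB h = infinity has measure zero by the weak type bound (or use the ENNReal version of the layer cake formula
MeasureTheory.lintegral_rpow... after replacing MB h by min (MB h) n and n -> infinity, monotone convergence).
-/

set_option autoImplicit false

noncomputable section

open MeasureTheory Metric Set Filter

namespace Pool.LibRF53

open Pool.LibSR53

private theorem B2_fin (p : ℝ) (hp : 0 < p) (a : ℝ) (ha : 0 ≤ a) :
    ∫⁻ t in Ioi (0 : ℝ), (if ENNReal.ofReal t < ENNReal.ofReal a then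
      ENNReal.ofReal (p * t ^ (p - 1)) else 0) = ENNReal.ofReal a ^ p := by
  have e1 : ∀ t ∈ Ioi (0 : ℝ), (if ENNReal.ofReal t < ENNReal.ofReal a then
      ENNReal.ofReal (p * t ^ (p - 1)) else 0) =
      (Iio a).indicator (fun t => ENNReal.ofReal (p * t ^ (p - 1))) t := by
    intro t ht
    have ht' : (0 : ℝ) < t := ht
    by_cases h : t < a
    · rw [indicator_of_mem (show t ∈ Iio a from h), if_pos]
      exact (ENNReal.ofReal_lt_ofReal_iff (lt_of_le_of_lt ht'.le h)).2 h
    · rw [indicator_of_notMem (show t ∉ Iio a from h), if_neg]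
      intro hh
      exact h ((ENNReal.ofReal_lt_ofReal_iff_of_nonneg ht'.le).1 hh)
  rw [setLIntegral_congr_fun measurableSet_Ioi e1, setLIntegral_indicator measurableSet_Iio]
  have e2 : Iio a ∩ Ioi (0 : ℝ) = Ioo 0 a := by
    ext t; simp [and_comm]
  rw [e2]
  have hI : IntervalIntegrable (fun t : ℝ => p * t ^ (p - 1)) volume 0 a :=
    (intervalIntegral.intervalIntegrable_rpow' (by linarith)).const_mul p
  have hI2 : IntegrableOn (fun t : ℝ => p * t ^ (p - 1)) (Ioo 0 a) volume := by
    have := (intervalIntegrable_iff_integrableOn_Ioc_of_le ha).1 hI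
    exact this.mono_set Ioo_subset_Ioc_self
  rw [← ofReal_integral_eq_lintegral_ofReal hI2]
  · rw [ENNReal.ofReal_rpow_of_nonneg ha hp.le]
    congr 1
    rw [← integral_Ioc_eq_integral_Ioo, ← intervalIntegral.integral_of_le ha,
      intervalIntegral.integral_const_mul, integral_rpow (Or.inl (by linarith))]
    rw [sub_add_cancel, Real.zero_rpow hp.ne']
    field_simp
    ring
  · filter_upwards [ae_restrict_mem measurableSet_Ioo] with t ht
    have : (0 : ℝ) < t := ht.1
    positivity

private theorem B2_pt (p : ℝ) (hp : 0 < p) (a : ENNReal) :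
    ∫⁻ t in Ioi (0 : ℝ), (if ENNReal.ofReal t < a then
      ENNReal.ofReal (p * t ^ (p - 1)) else 0) = a ^ p := by
  induction a using ENNReal.recTopCoe with
  | coe a =>
    have := B2_fin p hp a a.2
    rwa [ENNReal.ofReal_coe_nnreal] at this
  | top =>
    rw [ENNReal.top_rpow_of_pos hp]
    refine ENNReal.eq_top_of_forall_nnreal_le fun r => ?_
    have h1 := B2_fin p hp ((r : ℝ) ^ (1 / p)) (by positivity)
    have h2 : ENNReal.ofReal ((r : ℝ) ^ (1 / p)) ^ p = r := by
      rw [ENNReal.ofReal_rpow_of_nonneg (by positivity) hp.le, ← Real.rpow_mul (by positivity),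
        one_div, inv_mul_cancel₀ hp.ne', Real.rpow_one, ENNReal.ofReal_coe_nnreal]
    rw [h2] at h1
    rw [← h1]
    refine lintegral_mono fun t => ?_
    by_cases h : ENNReal.ofReal t < ENNReal.ofReal ((r : ℝ) ^ (1 / p))
    · rw [if_pos h, if_pos (lt_top_iff_ne_top.2 ENNReal.ofReal_ne_top)]
    · rw [if_neg h]
      exact bot_le

private theorem B2_split {d : ℕ} (h : E d → ENNReal) (s : ℝ) (hs : 0 < s)
    (x : E d) :
    MB h x ≤ ENNReal.ofReal (((volume (ball (0 : E d) 1)).toReal + 1) * s) +
      MB (fun y => if ENNReal.ofReal s < h y then h y else 0) x := by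
  refine iSup_le fun j => ?_
  have h2 : (0 : ℝ) < (2 : ℝ) ^ j := by positivity
  have hvl : vl d j ≠ 0 := by
    unfold vl
    simp only [ne_eq, ENNReal.ofReal_eq_zero, not_le]
    positivity
  have hvl' : vl d j ≠ ⊤ := ENNReal.ofReal_ne_top
  calc (vl d j)⁻¹ * ∫⁻ y in closedBall x ((2 : ℝ) ^ j), h y
      ≤ (vl d j)⁻¹ * ∫⁻ y in closedBall x ((2 : ℝ) ^ j), (ENNReal.ofReal s +
          (if ENNReal.ofReal s < h y then h y else 0)) := by
        gcongr with y
        by_cases hy : ENNReal.ofReal s < h y
        · rw [if_pos hy]; exact le_add_self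
        · rw [if_neg hy, add_zero]; exact not_lt.1 hy
    _ = (vl d j)⁻¹ * (ENNReal.ofReal s * volume (closedBall x ((2 : ℝ) ^ j))) +
        (vl d j)⁻¹ * ∫⁻ y in closedBall x ((2 : ℝ) ^ j),
          (if ENNReal.ofReal s < h y then h y else 0) := by
        rw [lintegral_add_left measurable_const, setLIntegral_const, mul_add]
    _ ≤ _ := by
        refine add_le_add ?_ (le_iSup (fun j : ℤ => (vl d j)⁻¹ * ∫⁻ y in closedBall x ((2 : ℝ) ^ j),
          (if ENNReal.ofReal s < h y then h y else 0)) j)
        have hfin : volume (ball (0 : E d) 1) ≠ ⊤ := measure_ball_lt_top.ne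
        have hv : volume (closedBall x ((2 : ℝ) ^ j)) = vl d j * volume (ball (0 : E d) 1) := by
          rw [Measure.addHaar_closedBall _ _ h2.le]
          unfold vl
          congr 4
          simp
        rw [hv]
        calc (vl d j)⁻¹ * (ENNReal.ofReal s * (vl d j * volume (ball (0 : E d) 1)))
            = ((vl d j)⁻¹ * vl d j) * (volume (ball (0 : E d) 1) * ENNReal.ofReal s) := by ring
          _ = volume (ball (0 : E d) 1) * ENNReal.ofReal s := by
              rw [ENNReal.inv_mul_cancel hvl hvl', one_mul]
          _ = ENNReal.ofReal ((volume (ball (0 : E d) 1)).toReal) * ENNReal.ofReal s := by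
              rw [ENNReal.ofReal_toReal hfin]
          _ = ENNReal.ofReal ((volume (ball (0 : E d) 1)).toReal * s) := by
              rw [ENNReal.ofReal_mul ENNReal.toReal_nonneg]
          _ ≤ _ := by
              apply ENNReal.ofReal_le_ofReal
              nlinarith

theorem MB_strong (d : ℕ) (hd : 1 ≤ d) (r : ℝ) (hr : 1 < r) : ∃ C : ℝ, 0 < C ∧ ∀ h : E d → ENNReal,
    Measurable h → ∫⁻ x, MB h x ^ r ≤ ENNReal.ofReal C * ∫⁻ x, h x ^ r := by
  obtain ⟨C, hC, hweak⟩ := MB_weak d hd
  set w : ℝ := (volume (ball (0 : E d) 1)).toReal + 1 with hw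
  have hw0 : 0 < w := by
    have : 0 ≤ (volume (ball (0 : E d) 1)).toReal := ENNReal.toReal_nonneg
    positivity
  have hr1 : 0 < r - 1 := by linarith
  have hr0 : 0 < r := by linarith
  refine ⟨2 * C * r / (r - 1) * (2 * w) ^ (r - 1), by positivity, fun h hh => ?_⟩
  -- level sets
  have key : ∀ t : ℝ, 0 < t → volume {x : E d | ENNReal.ofReal t < MB h x} ≤
      ENNReal.ofReal (2 * C / t) * ∫⁻ y, (if ENNReal.ofReal t < ENNReal.ofReal (2 * w) * h y then h y else 0) := by
    intro t ht
    set s : ℝ := t / (2 * w) with hs
    have hs0 : 0 < s := by positivity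
    have hts : t = 2 * (w * s) := by rw [hs]; field_simp
    set g : E d → ENNReal := fun y => if ENNReal.ofReal s < h y then h y else 0 with hg
    have hgm : Measurable g := by
      refine Measurable.ite ?_ hh measurable_const
      exact measurableSet_lt measurable_const hh
    have hsub : {x : E d | ENNReal.ofReal t < MB h x} ⊆ {x : E d | ENNReal.ofReal (w * s) < MB g x} := by
      intro x hx
      have hx' : ENNReal.ofReal t < MB h x := hx
      have h1 := B2_split h s hs0 x
      have h2 : ENNReal.ofReal (w * s) + ENNReal.ofReal (w * s) <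
          ENNReal.ofReal (w * s) + MB g x := by
        rw [← ENNReal.ofReal_add (by positivity) (by positivity)]
        have : w * s + w * s = t := by rw [hts]; ring
        rw [this]
        exact lt_of_lt_of_le hx' h1
      exact (ENNReal.add_lt_add_iff_left ENNReal.ofReal_ne_top).1 h2
    have hgi : ∫⁻ y, g y = ∫⁻ y, (if ENNReal.ofReal t < ENNReal.ofReal (2 * w) * h y then h y else 0) := by
      refine lintegral_congr fun y => ?_
      have hiff : ENNReal.ofReal s < h y ↔ ENNReal.ofReal t < ENNReal.ofReal (2 * w) * h y := by
        have e : ENNReal.ofReal t = ENNReal.ofReal (2 * w) * ENNReal.ofReal s := by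
          rw [← ENNReal.ofReal_mul (by positivity)]
          congr 1
          rw [hts]; ring
        rw [e]
        exact (ENNReal.mul_lt_mul_iff_right (by simp only [ne_eq, ENNReal.ofReal_eq_zero, not_le]; positivity)
          ENNReal.ofReal_ne_top).symm
      simp only [hg, hiff]
    have h3 := hweak g hgm (ENNReal.ofReal (w * s))
    rw [← hgi]
    calc volume {x : E d | ENNReal.ofReal t < MB h x}
        ≤ volume {x : E d | ENNReal.ofReal (w * s) < MB g x} := measure_mono hsub
      _ = ENNReal.ofReal (1 / (w * s)) * (ENNReal.ofReal (w * s) *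
            volume {x : E d | ENNReal.ofReal (w * s) < MB g x}) := by
          rw [← mul_assoc, ← ENNReal.ofReal_mul (by positivity)]
          have : 1 / (w * s) * (w * s) = 1 := by field_simp
          rw [this, ENNReal.ofReal_one, one_mul]
      _ ≤ ENNReal.ofReal (1 / (w * s)) * (ENNReal.ofReal C * ∫⁻ y, g y) := by gcongr
      _ = ENNReal.ofReal (2 * C / t) * ∫⁻ y, g y := by
          rw [← mul_assoc, ← ENNReal.ofReal_mul (by positivity)]
          congr 2
          rw [hts]
          field_simp
  -- layer cake
  have hMB := MB_meas h hh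
  calc ∫⁻ x, MB h x ^ r
      = ∫⁻ x, ∫⁻ t in Ioi (0 : ℝ), (if ENNReal.ofReal t < MB h x then
          ENNReal.ofReal (r * t ^ (r - 1)) else 0) := by
        refine lintegral_congr fun x => ?_
        rw [B2_pt r hr0]
    _ = ∫⁻ t in Ioi (0 : ℝ), ∫⁻ x, (if ENNReal.ofReal t < MB h x then
          ENNReal.ofReal (r * t ^ (r - 1)) else 0) := by
        rw [lintegral_lintegral_swap]
        refine Measurable.aemeasurable ?_
        refine Measurable.ite ?_ ?_ measurable_const
        · exact measurableSet_lt (ENNReal.measurable_ofReal.comp measurable_snd)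
            (hMB.comp measurable_fst)
        · fun_prop
    _ ≤ ∫⁻ t in Ioi (0 : ℝ), ∫⁻ x, ENNReal.ofReal (2 * C * r / (r - 1)) *
          ((if ENNReal.ofReal t < ENNReal.ofReal (2 * w) * h x then
            ENNReal.ofReal ((r - 1) * t ^ (r - 1 - 1)) else 0) * h x) := by
        refine setLIntegral_mono' measurableSet_Ioi fun t ht => ?_
        have ht' : (0 : ℝ) < t := ht
        have e1 : ∫⁻ x, (if ENNReal.ofReal t < MB h x then ENNReal.ofReal (r * t ^ (r - 1)) else 0) =
            ENNReal.ofReal (r * t ^ (r - 1)) * volume {x : E d | ENNReal.ofReal t < MB h x} := by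
          have : ∀ x, (if ENNReal.ofReal t < MB h x then ENNReal.ofReal (r * t ^ (r - 1)) else 0) =
              {x : E d | ENNReal.ofReal t < MB h x}.indicator
                (fun _ => ENNReal.ofReal (r * t ^ (r - 1))) x := by
            intro x
            by_cases hx : ENNReal.ofReal t < MB h x
            · rw [if_pos hx, indicator_of_mem (show x ∈ {x : E d | ENNReal.ofReal t < MB h x} from hx)]
            · rw [if_neg hx, indicator_of_notMem (show x ∉ {x : E d | ENNReal.ofReal t < MB h x} from hx)]
          rw [lintegral_congr this, lintegral_indicator_const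
            (measurableSet_lt measurable_const hMB)]
        rw [e1]
        calc ENNReal.ofReal (r * t ^ (r - 1)) * volume {x : E d | ENNReal.ofReal t < MB h x}
            ≤ ENNReal.ofReal (r * t ^ (r - 1)) * (ENNReal.ofReal (2 * C / t) *
              ∫⁻ y, (if ENNReal.ofReal t < ENNReal.ofReal (2 * w) * h y then h y else 0)) := by
              gcongr
              exact key t ht'
          _ = (ENNReal.ofReal (2 * C * r / (r - 1)) * ENNReal.ofReal ((r - 1) * t ^ (r - 1 - 1))) *
              ∫⁻ y, (if ENNReal.ofReal t < ENNReal.ofReal (2 * w) * h y then h y else 0) := by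
              rw [← mul_assoc, ← ENNReal.ofReal_mul (by positivity),
                ← ENNReal.ofReal_mul (by positivity)]
              congr 2
              rw [Real.rpow_sub_one ht'.ne' (r - 1)]
              field_simp
          _ = ∫⁻ x, ENNReal.ofReal (2 * C * r / (r - 1)) *
              ((if ENNReal.ofReal t < ENNReal.ofReal (2 * w) * h x then
                ENNReal.ofReal ((r - 1) * t ^ (r - 1 - 1)) else 0) * h x) := by
              rw [← lintegral_const_mul]
              · refine lintegral_congr fun x => ?_
                by_cases hx : ENNReal.ofReal t < ENNReal.ofReal (2 * w) * h x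
                · rw [if_pos hx, if_pos hx]; ring
                · rw [if_neg hx, if_neg hx]; simp
              · refine Measurable.ite ?_ hh measurable_const
                exact measurableSet_lt measurable_const (hh.const_mul _)
          _ ≤ _ := le_rfl
    _ = ∫⁻ x, ∫⁻ t in Ioi (0 : ℝ), ENNReal.ofReal (2 * C * r / (r - 1)) *
          ((if ENNReal.ofReal t < ENNReal.ofReal (2 * w) * h x then
            ENNReal.ofReal ((r - 1) * t ^ (r - 1 - 1)) else 0) * h x) := by
        rw [lintegral_lintegral_swap]
        refine Measurable.aemeasurable ?_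
        refine Measurable.const_mul (Measurable.mul (Measurable.ite ?_ ?_ measurable_const) ?_) _
        · exact measurableSet_lt (ENNReal.measurable_ofReal.comp measurable_fst)
            ((hh.comp measurable_snd).const_mul _)
        · fun_prop
        · exact hh.comp measurable_snd
    _ = ∫⁻ x, ENNReal.ofReal (2 * C * r / (r - 1) * (2 * w) ^ (r - 1)) * h x ^ r := by
        refine lintegral_congr fun x => ?_
        rw [lintegral_const_mul, lintegral_mul_const, B2_pt (r - 1) hr1,
          ENNReal.mul_rpow_of_nonneg _ _ hr1.le,
          ENNReal.ofReal_rpow_of_nonneg (by positivity) hr1.le,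
          ENNReal.ofReal_mul (by positivity)]
        · have e : h x ^ r = h x ^ (r - 1) * h x := by
            conv_lhs => rw [show r = (r - 1) + 1 by ring]
            rw [ENNReal.rpow_add_of_nonneg _ _ hr1.le zero_le_one, ENNReal.rpow_one]
          rw [e]
          ring
        · refine Measurable.ite ?_ ?_ measurable_const
          · exact measurableSet_lt ENNReal.measurable_ofReal measurable_const
          · fun_prop
        · refine Measurable.mul_const (Measurable.ite ?_ ?_ measurable_const) _
          · exact measurableSet_lt ENNReal.measurable_ofReal measurable_const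
          · fun_prop
    _ = _ := by
        rw [lintegral_const_mul]
        exact hh.pow_const _

end Pool.LibRF53
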