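import Pool.Agent.LibRF53.Defs

/-
PLAN (B3). ONLY Defs. conv_le_MB: wk k z <= 2^(kd) for |z| <= 2^-k and wk k z <= 2^(kd) 2^(-(d+1) i) for |z| in [2^(i-k), 2^(i+1-k)], i >= 0; so the integral is at most
sum over i of 2^(kd) 2^(-(d+1)(i-1)) int over closedBall x (2^(i-k)) of h <= sum over i of 2^(kd) 2^(-(d+1)(i-1)) 2^((i-k)d) MB h x = C sum 2^-i MB h x. (Pointwise: wk k z <= sum over i : N
of 2^(kd) 2^(-(d+1)(i-1)) * indicator (|z| <= 2^(i-k)), lintegral_tsum.) ball_le_MB: closedBall z (R 2^j) is contained in closedBall x (2^(j+n)) for 2 R <= 2^n, and int over that ball <=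
vl d (j+n) MB h x. MB_sq: Cauchy-Schwarz on the ball: ((2^j)^-d int_B h)^2 <= (2^j)^-d volume(B) (2^j)^-d int_B h^2 and volume(B) = w (2^j)^d.
-/

set_option autoImplicit false

noncomputable section

open MeasureTheory Metric Set Filter

namespace Pool.LibRF53

open Pool.LibSR53

private theorem B3_vl (d : ℕ) (j : ℤ) : vl d j ≠ 0 ∧ vl d j ≠ ⊤ := by
  unfold vl
  refine ⟨?_, ENNReal.ofReal_ne_top⟩
  rw [Ne, ENNReal.ofReal_eq_zero, not_le]
  positivity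

private theorem B3_int {d : ℕ} (h : E d → ENNReal) (j : ℤ) (x : E d) :
    ∫⁻ y in closedBall x ((2 : ℝ) ^ j), h y ≤ vl d j * MB h x := by
  obtain ⟨v0, vt⟩ := B3_vl d j
  have h1 : (vl d j)⁻¹ * ∫⁻ y in closedBall x ((2 : ℝ) ^ j), h y ≤ MB h x :=
    le_iSup (fun j : ℤ => (vl d j)⁻¹ * ∫⁻ y in closedBall x ((2 : ℝ) ^ j), h y) j
  calc ∫⁻ y in closedBall x ((2 : ℝ) ^ j), h y
      = vl d j * ((vl d j)⁻¹ * ∫⁻ y in closedBall x ((2 : ℝ) ^ j), h y) := by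
        rw [← mul_assoc, ENNReal.mul_inv_cancel v0 vt, one_mul]
    _ ≤ _ := mul_le_mul_right h1 _

theorem conv_le_MB (d : ℕ) : ∃ C : ℝ, 0 < C ∧ ∀ h : E d → ENNReal, Measurable h →
    ∀ (k : ℤ) (x : E d),
    ∫⁻ y, ENNReal.ofReal (wk k (x - y)) * h y ≤ ENNReal.ofReal C * MB h x := by
  refine ⟨2 ^ (d + 2), by positivity, fun h hh k x => ?_⟩
  have hs : (0 : ℝ) < (2 : ℝ) ^ k := by positivity
  -- pointwise
  have hpt : ∀ y : E d, ENNReal.ofReal (wk k (x - y)) ≤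
      ∑' i : ℕ, ENNReal.ofReal (((2 : ℝ) ^ k) ^ d * 2 ^ (d + 1) * (((2 : ℝ) ^ (d + 1))⁻¹) ^ i) *
        (closedBall x ((2 : ℝ) ^ ((i : ℤ) - k))).indicator 1 y := by
    intro y
    obtain ⟨i, hi1, hi2⟩ : ∃ i : ℕ, (2 : ℝ) ^ k * ‖x - y‖ ≤ 2 ^ i ∧
        (i = 0 ∨ (2 : ℝ) ^ (i - 1) < (2 : ℝ) ^ k * ‖x - y‖) := by
      classical
      have hex : ∃ i : ℕ, (2 : ℝ) ^ k * ‖x - y‖ ≤ 2 ^ i := by
        obtain ⟨n, hn⟩ := pow_unbounded_of_one_lt ((2 : ℝ) ^ k * ‖x - y‖) (by norm_num : (1 : ℝ) < 2)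
        exact ⟨n, hn.le⟩
      refine ⟨Nat.find hex, Nat.find_spec hex, ?_⟩
      rcases Nat.eq_zero_or_pos (Nat.find hex) with h0 | h0
      · exact Or.inl h0
      · refine Or.inr ?_
        have := Nat.find_min hex (m := Nat.find hex - 1) (by omega)
        push Not at this
        exact this
    refine le_trans ?_ (ENNReal.le_tsum i)
    have hmem : y ∈ closedBall x ((2 : ℝ) ^ ((i : ℤ) - k)) := by
      rw [mem_closedBall, dist_comm, dist_eq_norm, zpow_sub₀ (by norm_num), zpow_natCast, le_div_iff₀ hs]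
      linarith
    rw [Set.indicator_of_mem hmem, Pi.one_apply, mul_one]
    refine ENNReal.ofReal_le_ofReal ?_
    unfold wk
    have hnn : 0 ≤ (2 : ℝ) ^ k * ‖x - y‖ := by positivity
    rw [div_le_iff₀ (by positivity)]
    rcases hi2 with h0 | h0
    · rw [h0, pow_zero, mul_one]
      have h1 : (1 : ℝ) ≤ (1 + (2 : ℝ) ^ k * ‖x - y‖) ^ (d + 1) := one_le_pow₀ (by linarith)
      have h2 : (1 : ℝ) ≤ 2 ^ (d + 1) := one_le_pow₀ (by norm_num)
      have h3 : 0 ≤ ((2 : ℝ) ^ k) ^ d := by positivity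
      have h4 : (1 : ℝ) ≤ 2 ^ (d + 1) * (1 + (2 : ℝ) ^ k * ‖x - y‖) ^ (d + 1) := by nlinarith
      rw [mul_assoc]
      exact le_mul_of_one_le_right h3 h4
    · have h1 : ((2 : ℝ) ^ i) ^ (d + 1) ≤ 2 ^ (d + 1) * (1 + (2 : ℝ) ^ k * ‖x - y‖) ^ (d + 1) := by
        rw [← mul_pow]
        refine pow_le_pow_left₀ (by positivity) ?_ _
        have h5 : (2 : ℝ) ^ i ≤ 2 * 2 ^ (i - 1) := by
          rw [← pow_succ']
          exact pow_le_pow_right₀ (by norm_num) (by omega)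
        linarith
      have h2 : ((2 : ℝ) ^ (d + 1))⁻¹ ^ i * ((2 : ℝ) ^ i) ^ (d + 1) = 1 := by
        rw [inv_pow, ← pow_mul, ← pow_mul, mul_comm (d + 1) i]
        exact inv_mul_cancel₀ (by positivity)
      have h3 : 0 ≤ ((2 : ℝ) ^ k) ^ d := by positivity
      have h6 : 0 ≤ ((2 : ℝ) ^ (d + 1))⁻¹ ^ i := by positivity
      have h4 : (1 : ℝ) ≤ 2 ^ (d + 1) * ((2 : ℝ) ^ (d + 1))⁻¹ ^ i * (1 + (2 : ℝ) ^ k * ‖x - y‖) ^ (d + 1) := by
        calc (1 : ℝ) = ((2 : ℝ) ^ (d + 1))⁻¹ ^ i * ((2 : ℝ) ^ i) ^ (d + 1) := h2.symm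
          _ ≤ ((2 : ℝ) ^ (d + 1))⁻¹ ^ i * (2 ^ (d + 1) * (1 + (2 : ℝ) ^ k * ‖x - y‖) ^ (d + 1)) :=
            mul_le_mul_of_nonneg_left h1 h6
          _ = _ := by ring
      calc ((2 : ℝ) ^ k) ^ d ≤ ((2 : ℝ) ^ k) ^ d *
            (2 ^ (d + 1) * ((2 : ℝ) ^ (d + 1))⁻¹ ^ i * (1 + (2 : ℝ) ^ k * ‖x - y‖) ^ (d + 1)) :=
            le_mul_of_one_le_right h3 h4
        _ = _ := by ring
  have hterm : ∀ i : ℕ, ∫⁻ y, (ENNReal.ofReal (((2 : ℝ) ^ k) ^ d * 2 ^ (d + 1) * (((2 : ℝ) ^ (d + 1))⁻¹) ^ i) *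
      (closedBall x ((2 : ℝ) ^ ((i : ℤ) - k))).indicator 1 y) * h y ≤
      ENNReal.ofReal (2 ^ (d + 1) * (1 / 2 : ℝ) ^ i) * MB h x := by
    intro i
    have e1 : ∀ y, (ENNReal.ofReal (((2 : ℝ) ^ k) ^ d * 2 ^ (d + 1) * (((2 : ℝ) ^ (d + 1))⁻¹) ^ i) *
        (closedBall x ((2 : ℝ) ^ ((i : ℤ) - k))).indicator 1 y) * h y =
        ENNReal.ofReal (((2 : ℝ) ^ k) ^ d * 2 ^ (d + 1) * (((2 : ℝ) ^ (d + 1))⁻¹) ^ i) *
          (closedBall x ((2 : ℝ) ^ ((i : ℤ) - k))).indicator h y := by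
      intro y
      by_cases hy : y ∈ closedBall x ((2 : ℝ) ^ ((i : ℤ) - k))
      · rw [Set.indicator_of_mem hy, Set.indicator_of_mem hy, Pi.one_apply, mul_one]
      · rw [Set.indicator_of_notMem hy, Set.indicator_of_notMem hy, mul_zero, zero_mul]
    simp only [e1]
    rw [lintegral_const_mul _ (hh.indicator measurableSet_closedBall),
      lintegral_indicator measurableSet_closedBall]
    refine (mul_le_mul_right (B3_int h ((i : ℤ) - k) x) _).trans (le_of_eq ?_)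
    rw [← mul_assoc]
    congr 1
    unfold vl
    rw [← ENNReal.ofReal_mul (by positivity)]
    congr 1
    have hk : ((2 : ℝ) ^ k) ≠ 0 := hs.ne'
    rw [zpow_sub₀ (by norm_num : (2 : ℝ) ≠ 0), zpow_natCast, div_pow, inv_pow, ← pow_mul, ← pow_mul, one_div, inv_pow,
      show (d + 1) * i = i * d + i by ring, pow_add 2 (i * d) i]
    field_simp
  calc ∫⁻ y, ENNReal.ofReal (wk k (x - y)) * h y
      ≤ ∫⁻ y, ∑' i : ℕ, (ENNReal.ofReal (((2 : ℝ) ^ k) ^ d * 2 ^ (d + 1) * (((2 : ℝ) ^ (d + 1))⁻¹) ^ i) *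
        (closedBall x ((2 : ℝ) ^ ((i : ℤ) - k))).indicator 1 y) * h y := by
        refine lintegral_mono fun y => ?_
        rw [ENNReal.tsum_mul_right]
        exact mul_le_mul_left (hpt y) _
    _ = ∑' i : ℕ, ∫⁻ y, (ENNReal.ofReal (((2 : ℝ) ^ k) ^ d * 2 ^ (d + 1) * (((2 : ℝ) ^ (d + 1))⁻¹) ^ i) *
        (closedBall x ((2 : ℝ) ^ ((i : ℤ) - k))).indicator 1 y) * h y := by
        refine lintegral_tsum fun i => ?_
        exact (((measurable_one.indicator measurableSet_closedBall).const_mul _).mul hh).aemeasurable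
    _ ≤ ∑' i : ℕ, ENNReal.ofReal (2 ^ (d + 1) * (1 / 2 : ℝ) ^ i) * MB h x := ENNReal.tsum_le_tsum hterm
    _ = ENNReal.ofReal (2 ^ (d + 2)) * MB h x := by
        rw [ENNReal.tsum_mul_right]
        congr 1
        rw [← ENNReal.ofReal_tsum_of_nonneg (fun i => by positivity)
          ((summable_geometric_of_lt_one (by norm_num) (by norm_num)).mul_left _), tsum_mul_left,
          tsum_geometric_of_lt_one (by norm_num) (by norm_num)]
        congr 1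
        rw [pow_succ 2 (d + 1)]
        norm_num

theorem ball_le_MB (d : ℕ) (R : ℝ) (hR : 0 < R) : ∃ C : ℝ, 0 < C ∧ ∀ h : E d → ENNReal,
    Measurable h → ∀ (j : ℤ) (x z : E d), dist x z ≤ R * (2 : ℝ) ^ j →
    ∫⁻ y in closedBall z (R * (2 : ℝ) ^ j), h y ≤ ENNReal.ofReal C * (vl d j * MB h x) := by
  obtain ⟨n, hn⟩ := pow_unbounded_of_one_lt (2 * R) (by norm_num : (1 : ℝ) < 2)
  refine ⟨((2 : ℝ) ^ n) ^ d, by positivity, fun h _ j x z hxz => ?_⟩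
  have hj : (0 : ℝ) < (2 : ℝ) ^ j := by positivity
  have hsub : closedBall z (R * (2 : ℝ) ^ j) ⊆ closedBall x ((2 : ℝ) ^ (j + n)) := by
    intro y hy
    rw [mem_closedBall] at hy ⊢
    have h1 : dist y x ≤ dist y z + dist x z := by
      rw [dist_comm x z]
      exact dist_triangle _ _ _
    have h2 : (2 : ℝ) ^ (j + (n : ℤ)) = (2 : ℝ) ^ n * (2 : ℝ) ^ j := by
      rw [zpow_add₀ (by norm_num), zpow_natCast, mul_comm]
    rw [h2]
    nlinarith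
  refine (lintegral_mono_set hsub).trans ((B3_int h (j + n) x).trans (le_of_eq ?_))
  rw [← mul_assoc]
  congr 1
  unfold vl
  rw [← ENNReal.ofReal_mul (by positivity), zpow_add₀ (by norm_num), zpow_natCast, mul_pow, mul_comm]

theorem MB_sq (d : ℕ) : ∃ C : ℝ, 0 < C ∧ ∀ h : E d → ENNReal, Measurable h → ∀ x : E d,
    MB h x ≤ ENNReal.ofReal C * (MB (fun y => h y ^ (2 : ℝ)) x) ^ (1 / 2 : ℝ) := by
  obtain ⟨w, hw⟩ : ∃ w, w = (volume : Measure (E d)) (ball 0 1) := ⟨_, rfl⟩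
  have hwt : w ≠ ⊤ := by
    rw [hw]
    exact measure_ball_lt_top.ne
  refine ⟨w.toReal ^ (1 / 2 : ℝ) + 1, by positivity, fun h hh x => ?_⟩
  have hC : w ^ (1 / 2 : ℝ) ≤ ENNReal.ofReal (w.toReal ^ (1 / 2 : ℝ) + 1) := by
    rw [← ENNReal.ofReal_toReal hwt, ENNReal.ofReal_rpow_of_nonneg ENNReal.toReal_nonneg (by norm_num),
      ENNReal.toReal_ofReal ENNReal.toReal_nonneg]
    exact ENNReal.ofReal_le_ofReal (by linarith)
  conv_lhs => unfold MB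
  refine iSup_le fun j => ?_
  obtain ⟨v0, vt⟩ := B3_vl d j
  have hvol : (volume : Measure (E d)) (closedBall x ((2 : ℝ) ^ j)) = vl d j * w := by
    rw [Measure.addHaar_closedBall _ _ (by positivity), hw]
    unfold vl
    rw [finrank_euclideanSpace, Fintype.card_fin]
  have hho : ∫⁻ y in closedBall x ((2 : ℝ) ^ j), h y ≤
      (∫⁻ y in closedBall x ((2 : ℝ) ^ j), h y ^ (2 : ℝ)) ^ (1 / 2 : ℝ) * (vl d j * w) ^ (1 / 2 : ℝ) := by
    have h1 := ENNReal.lintegral_mul_le_Lp_mul_Lq ((volume : Measure (E d)).restrict (closedBall x ((2 : ℝ) ^ j)))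
      (p := 2) (q := 2) (Real.HolderConjugate.two_two) (f := h) (g := fun _ => 1) hh.aemeasurable
      aemeasurable_const
    have h2 : ∫⁻ y in closedBall x ((2 : ℝ) ^ j), (h * (fun _ => 1 : E d → ENNReal)) y = ∫⁻ y in closedBall x ((2 : ℝ) ^ j), h y := by
      simp
    rw [h2] at h1
    refine h1.trans (le_of_eq ?_)
    congr 2
    simp [hvol]
  have hMB : (vl d j)⁻¹ * ∫⁻ y in closedBall x ((2 : ℝ) ^ j), h y ^ (2 : ℝ) ≤ MB (fun y => h y ^ (2 : ℝ)) x :=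
    le_iSup (fun j : ℤ => (vl d j)⁻¹ * ∫⁻ y in closedBall x ((2 : ℝ) ^ j), h y ^ (2 : ℝ)) j
  calc (vl d j)⁻¹ * ∫⁻ y in closedBall x ((2 : ℝ) ^ j), h y
      ≤ (vl d j)⁻¹ * ((∫⁻ y in closedBall x ((2 : ℝ) ^ j), h y ^ (2 : ℝ)) ^ (1 / 2 : ℝ) *
        (vl d j * w) ^ (1 / 2 : ℝ)) := mul_le_mul_right hho _
    _ = w ^ (1 / 2 : ℝ) * ((vl d j)⁻¹ * ∫⁻ y in closedBall x ((2 : ℝ) ^ j), h y ^ (2 : ℝ)) ^ (1 / 2 : ℝ) := by
        rw [ENNReal.mul_rpow_of_nonneg _ _ (by norm_num), ENNReal.mul_rpow_of_nonneg _ _ (by norm_num)]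
        have h3 : (vl d j)⁻¹ * vl d j ^ (1 / 2 : ℝ) = (vl d j)⁻¹ ^ (1 / 2 : ℝ) := by
          have h4 : (vl d j)⁻¹ = (vl d j)⁻¹ ^ (1 / 2 : ℝ) * (vl d j)⁻¹ ^ (1 / 2 : ℝ) := by
            rw [← ENNReal.rpow_add_of_nonneg _ _ (by norm_num) (by norm_num)]
            norm_num
          conv_lhs => rw [h4]
          rw [mul_assoc, ← ENNReal.mul_rpow_of_nonneg _ _ (by norm_num), ENNReal.inv_mul_cancel v0 vt,
            ENNReal.one_rpow, mul_one]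
        rw [← h3]
        ring
    _ ≤ ENNReal.ofReal (w.toReal ^ (1 / 2 : ℝ) + 1) * (MB (fun y => h y ^ (2 : ℝ)) x) ^ (1 / 2 : ℝ) :=
        mul_le_mul' hC (ENNReal.rpow_le_rpow hMB (by norm_num))

theorem MB_mono {d : ℕ} {h h' : E d → ENNReal} (hh : ∀ x, h x ≤ h' x) (x : E d) :
    MB h x ≤ MB h' x := by
  unfold MB
  exact iSup_mono fun j => mul_le_mul_right (lintegral_mono fun y => hh y) _

end Pool.LibRF53
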