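import Pool.Agent.LibRF53.Defs
import Pool.Agent.LibSR53.K1

/-
PLAN (C0). ONLY Defs + Mathlib. Put b(x) = Real.smoothTransition ((4 - |x|^2) / 3): smooth (norm_sq is smooth), radial, in [0,1], = 1 for |x| <= 1, = 0 for |x| >= 2, nonincreasing in |x|
(Real.smoothTransition monotone). phi0 x = b x - b (2x), phi1 x = b (x/2) - b (4x), phi2 x = b (x/4) - b (8x), chi = b: smooth with compact support, so Schwartz
(HasCompactSupport.toSchwartzMap, see exists_eta in LibTP53.MA for the pattern). psi1 = F^-1 phi1, psi2 = F^-1 phi2 (ft1, ft2: fourier_ex and fourierInv_ex in LibSR53.K1 - you may import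
Pool.Agent.LibSR53.K1 - and FourierTransform.fourier_fourierInv_eq). rad1, rad2: the inverse transform of a radial function is radial (reflection U with U x = y, see MB_inv in LibTP53.MB:
copy). sum_tendsto: telescoping: the sum over -n <= k <= n of b (2^-k x) - b (2^(1-k) x) is b (2^-n x) - b (2^(n+1) x), eventually 1 - 0 for x /= 0. sum_le: every finite sum is a sum of
nonnegative terms, contained in an interval -n..n, whose sum is a difference of two numbers of [0,1], so between 0 and 1.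
-/

set_option autoImplicit false

noncomputable section

open MeasureTheory Metric Set Filter
open scoped FourierTransform

namespace Pool.LibRF53

open Pool.LibSR53

private theorem C0_inv {d : ℕ} (φ : E d → ℂ) (hφ : ∀ ξ ξ', ‖ξ‖ = ‖ξ'‖ → φ ξ = φ ξ')
    (v w : E d) (h : ‖v‖ = ‖w‖) : ∫ ξ, ex v ξ * φ ξ = ∫ ξ, ex w ξ * φ ξ := by
  set U : E d ≃ₗᵢ[ℝ] E d := (ℝ ∙ (v - w))ᗮ.reflection with hU
  have h1 : U v = w := Submodule.reflection_sub h
  rw [← U.measurePreserving.integral_comp U.toHomeomorph.measurableEmbedding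
    (fun ξ => ex w ξ * φ ξ)]
  refine integral_congr_ae (Eventually.of_forall fun ξ => ?_)
  beta_reduce
  have h2 : ex w (U ξ) = ex v ξ := by
    unfold ex
    rw [← h1, U.inner_map_map]
  rw [h2, hφ (U ξ) ξ (U.norm_map ξ)]

/-- the profile -/
private def pr (t : ℝ) : ℝ := Real.smoothTransition ((4 - t ^ 2) / 3)

private theorem pr_nonneg (t : ℝ) : 0 ≤ pr t := Real.smoothTransition.nonneg _

private theorem pr_le_one (t : ℝ) : pr t ≤ 1 := Real.smoothTransition.le_one _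

private theorem pr_one {t : ℝ} (h0 : 0 ≤ t) (h : t ≤ 1) : pr t = 1 := by
  unfold pr
  apply Real.smoothTransition.one_of_one_le
  nlinarith

private theorem pr_zero {t : ℝ} (h : 2 ≤ t) : pr t = 0 := by
  unfold pr
  apply Real.smoothTransition.zero_of_nonpos
  nlinarith

private theorem pr_anti {s t : ℝ} (h0 : 0 ≤ s) (h : s ≤ t) : pr t ≤ pr s := by
  unfold pr
  apply Real.smoothTransition.monotone
  have : s ^ 2 ≤ t ^ 2 := by gcongr
  linarith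

private theorem pr_smooth {d : ℕ} (c : ℝ) :
    ContDiff ℝ ((⊤ : ℕ∞) : WithTop ℕ∞) fun ξ : E d => pr (c * ‖ξ‖) := by
  have h1 : (fun ξ : E d => pr (c * ‖ξ‖)) =
      fun ξ : E d => Real.smoothTransition ((4 - c ^ 2 * ‖ξ‖ ^ 2) / 3) := by
    funext ξ
    unfold pr
    rw [mul_pow]
  rw [h1]
  refine Real.smoothTransition.contDiff.comp ?_
  have h2 : ContDiff ℝ ((⊤ : ℕ∞) : WithTop ℕ∞) fun ξ : E d => ‖ξ‖ ^ 2 := contDiff_norm_sq ℝ
  exact (contDiff_const.sub (contDiff_const.mul h2)).div_const 3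

/-- a difference of two dilates of the profile as a Schwartz function -/
private theorem mk {d : ℕ} (a c : ℝ) (ha : 0 < a) (hac : a ≤ c) :
    ∃ φ : SchwartzMap (E d) ℂ, ∀ ξ, φ ξ = ((pr (a * ‖ξ‖) - pr (c * ‖ξ‖) : ℝ) : ℂ) := by
  have hcs : HasCompactSupport fun ξ : E d => ((pr (a * ‖ξ‖) - pr (c * ‖ξ‖) : ℝ) : ℂ) := by
    refine HasCompactSupport.intro (isCompact_closedBall (0 : E d) (2 / a)) fun ξ hξ => ?_
    rw [mem_closedBall_zero_iff, not_le, div_lt_iff₀ ha] at hξ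
    have h1 : 2 ≤ a * ‖ξ‖ := by linarith [mul_comm a ‖ξ‖]
    have h2 : 2 ≤ c * ‖ξ‖ := h1.trans (mul_le_mul_of_nonneg_right hac (norm_nonneg ξ))
    rw [pr_zero h1, pr_zero h2]
    simp
  have hcd : ContDiff ℝ ((⊤ : ℕ∞) : WithTop ℕ∞)
      fun ξ : E d => ((pr (a * ‖ξ‖) - pr (c * ‖ξ‖) : ℝ) : ℂ) :=
    Complex.ofRealCLM.contDiff.comp ((pr_smooth a).sub (pr_smooth c))
  exact ⟨hcs.toSchwartzMap hcd, fun ξ => rfl⟩

private theorem mkχ {d : ℕ} :
    ∃ φ : SchwartzMap (E d) ℂ, ∀ ξ, φ ξ = ((pr ‖ξ‖ : ℝ) : ℂ) := by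
  have hcs : HasCompactSupport fun ξ : E d => ((pr ‖ξ‖ : ℝ) : ℂ) := by
    refine HasCompactSupport.intro (isCompact_closedBall (0 : E d) 2) fun ξ hξ => ?_
    rw [mem_closedBall_zero_iff, not_le] at hξ
    rw [pr_zero hξ.le]
    simp
  have hcd : ContDiff ℝ ((⊤ : ℕ∞) : WithTop ℕ∞)
      fun ξ : E d => ((pr ‖ξ‖ : ℝ) : ℂ) := by
    have h := pr_smooth (d := d) 1
    simp only [one_mul] at h
    exact Complex.ofRealCLM.contDiff.comp h
  exact ⟨hcs.toSchwartzMap hcd, fun ξ => rfl⟩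

private theorem tele (t : ℝ) (n : ℕ) :
    ∑ k ∈ Finset.Icc (-(n : ℤ)) n, (pr (((2 : ℝ) ^ k)⁻¹ * t) - pr (2 * (((2 : ℝ) ^ k)⁻¹ * t))) =
      pr (((2 : ℝ) ^ n)⁻¹ * t) - pr (2 * ((2 : ℝ) ^ n * t)) := by
  induction n with
  | zero => simp
  | succ n ih =>
    have hI : Finset.Icc (-((n + 1 : ℕ) : ℤ)) ((n + 1 : ℕ) : ℤ) =
        insert (-((n + 1 : ℕ) : ℤ)) (insert ((n + 1 : ℕ) : ℤ) (Finset.Icc (-(n : ℤ)) n)) := by
      ext k
      simp only [Finset.mem_insert, Finset.mem_Icc]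
      push_cast
      omega
    rw [hI, Finset.sum_insert, Finset.sum_insert, ih]
    · have e1 : (((2 : ℝ) ^ (-((n + 1 : ℕ) : ℤ)))⁻¹) = 2 ^ (n + 1) := by
        rw [zpow_neg, inv_inv, zpow_natCast]
      have e2 : (((2 : ℝ) ^ ((n + 1 : ℕ) : ℤ))⁻¹) = ((2 : ℝ) ^ (n + 1))⁻¹ := by
        rw [zpow_natCast]
      rw [e1, e2]
      have e3 : 2 * (((2 : ℝ) ^ (n + 1))⁻¹ * t) = ((2 : ℝ) ^ n)⁻¹ * t := by
        rw [pow_succ]
        field_simp
      have e4 : 2 * ((2 : ℝ) ^ n * t) = 2 ^ (n + 1) * t := by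
        rw [pow_succ]
        ring
      rw [e3, e4]
      ring
    · rw [Finset.mem_Icc]
      push_cast
      omega
    · rw [Finset.mem_insert, Finset.mem_Icc]
      push_cast
      omega

theorem cut_exists (d : ℕ) (hd : 1 ≤ d) : Nonempty (Cut d) := by
  obtain ⟨φ0, h0⟩ := mk (d := d) 1 2 one_pos (by norm_num)
  obtain ⟨φ1, h1⟩ := mk (d := d) (1 / 2) 4 (by norm_num) (by norm_num)
  obtain ⟨φ2, h2⟩ := mk (d := d) (1 / 4) 8 (by norm_num) (by norm_num)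
  obtain ⟨χ, hχ⟩ := mkχ (d := d)
  have hterm : ∀ (k : ℤ) (ξ : E d), φ0 (((2 : ℝ) ^ k)⁻¹ • ξ) =
      ((pr (((2 : ℝ) ^ k)⁻¹ * ‖ξ‖) - pr (2 * (((2 : ℝ) ^ k)⁻¹ * ‖ξ‖)) : ℝ) : ℂ) := by
    intro k ξ
    rw [h0, norm_smul, Real.norm_of_nonneg (by positivity), one_mul]
  have hnn : ∀ (k : ℤ) (ξ : E d),
      0 ≤ pr (((2 : ℝ) ^ k)⁻¹ * ‖ξ‖) - pr (2 * (((2 : ℝ) ^ k)⁻¹ * ‖ξ‖)) := by
    intro k ξ
    have h3 : 0 ≤ ((2 : ℝ) ^ k)⁻¹ * ‖ξ‖ := by positivity
    have := pr_anti h3 (by linarith : ((2 : ℝ) ^ k)⁻¹ * ‖ξ‖ ≤ 2 * (((2 : ℝ) ^ k)⁻¹ * ‖ξ‖))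
    linarith
  have hr1 : ∀ x y : E d, ‖x‖ = ‖y‖ → φ1 x = φ1 y := fun x y h => by rw [h1, h1, h]
  have hr2 : ∀ x y : E d, ‖x‖ = ‖y‖ → φ2 x = φ2 y := fun x y h => by rw [h2, h2, h]
  refine ⟨⟨φ0, φ1, φ2, 𝓕⁻ φ1, 𝓕⁻ φ2, χ, ?_, ?_, ?_, ?_, ?_, ?_, ?_, ?_, ?_, ?_, ?_, ?_, ?_, ?_,
    ?_, ?_, ?_⟩⟩
  · intro x y h
    rw [h0, h0, h]
  · intro x y h
    rw [fourierInv_ex, fourierInv_ex]
    exact C0_inv _ hr1 x y h
  · intro x y h
    rw [fourierInv_ex, fourierInv_ex]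
    exact C0_inv _ hr2 x y h
  · intro x y h
    rw [hχ, hχ, h]
  · intro ξ
    refine ⟨_, ?_, ?_, h0 ξ⟩
    · have := pr_anti (s := 1 * ‖ξ‖) (t := 2 * ‖ξ‖) (by positivity)
        (by linarith [norm_nonneg ξ])
      linarith
    · have := pr_nonneg (2 * ‖ξ‖)
      have := pr_le_one (1 * ‖ξ‖)
      linarith
  · intro ξ
    exact ⟨_, pr_nonneg _, pr_le_one _, hχ ξ⟩
  · intro ξ hξ
    have hn := norm_nonneg ξ
    constructor
    · by_contra hc
      push Not at hc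
      apply hξ
      rw [h0, pr_one (t := 1 * ‖ξ‖) (by linarith) (by linarith),
        pr_one (t := 2 * ‖ξ‖) (by linarith) (by linarith)]
      simp
    · by_contra hc
      push Not at hc
      apply hξ
      rw [h0, pr_zero (t := 1 * ‖ξ‖) (by linarith), pr_zero (t := 2 * ‖ξ‖) (by linarith)]
      simp
  · intro ξ hξ
    have hn := norm_nonneg ξ
    constructor
    · by_contra hc
      push Not at hc
      apply hξ
      rw [h1, pr_one (t := 1 / 2 * ‖ξ‖) (by linarith) (by linarith),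
        pr_one (t := 4 * ‖ξ‖) (by linarith) (by linarith)]
      simp
    · by_contra hc
      push Not at hc
      apply hξ
      rw [h1, pr_zero (t := 1 / 2 * ‖ξ‖) (by linarith), pr_zero (t := 4 * ‖ξ‖) (by linarith)]
      simp
  · intro ξ hξ
    have hn := norm_nonneg ξ
    constructor
    · by_contra hc
      push Not at hc
      apply hξ
      rw [h2, pr_one (t := 1 / 4 * ‖ξ‖) (by linarith) (by linarith),
        pr_one (t := 8 * ‖ξ‖) (by linarith) (by linarith)]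
      simp
    · by_contra hc
      push Not at hc
      apply hξ
      rw [h2, pr_zero (t := 1 / 4 * ‖ξ‖) (by linarith), pr_zero (t := 8 * ‖ξ‖) (by linarith)]
      simp
  · intro ξ ha hb
    rw [h1, pr_one (t := 1 / 2 * ‖ξ‖) (by linarith) (by linarith),
      pr_zero (t := 4 * ‖ξ‖) (by linarith)]
    simp
  · intro ξ ha hb
    rw [h2, pr_one (t := 1 / 4 * ‖ξ‖) (by linarith) (by linarith),
      pr_zero (t := 8 * ‖ξ‖) (by linarith)]
    simp
  · intro ξ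
    rw [← fourier_ex, FourierTransform.fourier_fourierInv_eq]
  · intro ξ
    rw [← fourier_ex, FourierTransform.fourier_fourierInv_eq]
  · intro S ξ
    obtain ⟨n, hn⟩ : ∃ n : ℕ, S ⊆ Finset.Icc (-(n : ℤ)) n := by
      refine ⟨S.sup fun k => k.natAbs, fun k hk => ?_⟩
      have h3 : k.natAbs ≤ S.sup fun k => k.natAbs := Finset.le_sup (f := fun k => k.natAbs) hk
      rw [Finset.mem_Icc]
      omega
    have h4 : ∑ k ∈ S, φ0 (((2 : ℝ) ^ k)⁻¹ • ξ) =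
        ((∑ k ∈ S, (pr (((2 : ℝ) ^ k)⁻¹ * ‖ξ‖) - pr (2 * (((2 : ℝ) ^ k)⁻¹ * ‖ξ‖))) : ℝ) : ℂ) := by
      rw [Complex.ofReal_sum]
      exact Finset.sum_congr rfl fun k _ => hterm k ξ
    rw [h4, Complex.norm_real, Real.norm_of_nonneg (Finset.sum_nonneg fun k _ => hnn k ξ)]
    calc ∑ k ∈ S, (pr (((2 : ℝ) ^ k)⁻¹ * ‖ξ‖) - pr (2 * (((2 : ℝ) ^ k)⁻¹ * ‖ξ‖)))
        ≤ ∑ k ∈ Finset.Icc (-(n : ℤ)) n,
            (pr (((2 : ℝ) ^ k)⁻¹ * ‖ξ‖) - pr (2 * (((2 : ℝ) ^ k)⁻¹ * ‖ξ‖))) :=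
          Finset.sum_le_sum_of_subset_of_nonneg hn fun k _ _ => hnn k ξ
      _ = _ := tele ‖ξ‖ n
      _ ≤ 1 := by
          have := pr_le_one (((2 : ℝ) ^ n)⁻¹ * ‖ξ‖)
          have := pr_nonneg (2 * ((2 : ℝ) ^ n * ‖ξ‖))
          linarith
  · intro ξ hξ
    have hp : 0 < ‖ξ‖ := norm_pos_iff.2 hξ
    have h4 : ∀ n : ℕ, ∑ k ∈ Finset.Icc (-(n : ℤ)) n, φ0 (((2 : ℝ) ^ k)⁻¹ • ξ) =
        ((pr (((2 : ℝ) ^ n)⁻¹ * ‖ξ‖) - pr (2 * ((2 : ℝ) ^ n * ‖ξ‖)) : ℝ) : ℂ) := by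
      intro n
      rw [← tele ‖ξ‖ n, Complex.ofReal_sum]
      exact Finset.sum_congr rfl fun k _ => hterm k ξ
    simp only [h4]
    refine tendsto_const_nhds.congr' ?_
    have hlim : Tendsto (fun n : ℕ => (2 : ℝ) ^ n) atTop atTop :=
      tendsto_pow_atTop_atTop_of_one_lt (by norm_num)
    filter_upwards [hlim.eventually_ge_atTop ‖ξ‖, hlim.eventually_ge_atTop ‖ξ‖⁻¹] with n ha hb
    have hpn : (0 : ℝ) < 2 ^ n := by positivity
    have h5 : ((2 : ℝ) ^ n)⁻¹ * ‖ξ‖ ≤ 1 := by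
      rw [inv_mul_le_iff₀ hpn]
      linarith
    have h6 : 2 ≤ 2 * ((2 : ℝ) ^ n * ‖ξ‖) := by
      have := mul_le_mul_of_nonneg_right hb hp.le
      rw [inv_mul_cancel₀ hp.ne'] at this
      linarith
    rw [pr_one (by positivity) h5, pr_zero h6]
    simp
  · intro x hx
    rw [hχ, pr_one (norm_nonneg x) hx]
    simp
  · intro x hx
    rw [hχ, pr_zero hx]
    simp

end Pool.LibRF53
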