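import Pool.Agent.LibRF53.Defs

/-
PLAN (C1). ONLY Defs. Decay: |psi x| <= C (1+|x|)^-(d+1), and the same for the operator norm of the derivative with exponent d+2 (SchwartzMap.decay / one_add_le_sup_seminorm_apply for fderiv =
iteratedFDeriv 1). dl_bound: direct. dl_low: put u = y - w, v = z - w, p = x - w: |psi (2^k u) - psi (2^k v)| <= 2^k |u - v| sup over the segment of |psi'| (Convex.norm_image_sub_le_of_norm_fderiv_le
on the segment), every point of the segment 2^k [u,v] has distance <= 2^k R 2^j <= R from 2^k p, so 1 + |point| >= (1 + 2^k |p|)/(1+R); |u - v| <= 2 R 2^j. dl_high: on the segment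
[u,v] all points have norm >= |u|/2, so |psi (2^k u) - psi (2^k v)| <= 2^k |u-v| C (1 + 2^k |u|/2)^-(d+2); multiply by 2^(kd) and sum: sum over k of 2^(k(d+1)) min(1, (2^k |u|/2)^-(d+2)) <=
C |u|^-(d+1): put s = |u|, the terms with 2^k s <= 1 are at most geometric with sum <= 2 s^-(d+1), the others <= C s^-(d+2) 2^-k, sum over 2^k > 1/s <= C s^-(d+1). (Finite sums over S are
bounded by the tsum over Z, or compare with i = k - floor(-log2 s).)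
-/

set_option autoImplicit false

noncomputable section

open MeasureTheory Metric Set Filter

namespace Pool.LibRF53

open Pool.LibSR53

private theorem C1_dec {d : ℕ} (ψ : SchwartzMap (E d) ℂ) (n : ℕ) : ∃ C : ℝ, 0 < C ∧ ∀ x : E d,
    ‖ψ x‖ ≤ C / (1 + ‖x‖) ^ n ∧ ‖fderiv ℝ ψ x‖ ≤ C / (1 + ‖x‖) ^ n := by
  have hM : 0 ≤ (Finset.Iic ((n, 1) : ℕ × ℕ)).sup
      (fun m => SchwartzMap.seminorm ℝ m.1 m.2) ψ := apply_nonneg _ _
  refine ⟨2 ^ n * (Finset.Iic ((n, 1) : ℕ × ℕ)).sup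
    (fun m => SchwartzMap.seminorm ℝ m.1 m.2) ψ + 1, by positivity, fun x => ⟨?_, ?_⟩⟩
  · rw [le_div_iff₀ (by positivity), mul_comm]
    have h := SchwartzMap.one_add_le_sup_seminorm_apply (𝕜 := ℝ) (m := (n, 1)) (le_refl n)
      (Nat.zero_le 1) ψ x
    rw [norm_iteratedFDeriv_zero] at h
    exact h.trans (le_add_of_nonneg_right zero_le_one)
  · rw [le_div_iff₀ (by positivity), mul_comm]
    have h := SchwartzMap.one_add_le_sup_seminorm_apply (𝕜 := ℝ) (m := (n, 1)) (le_refl n)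
      (le_refl 1) ψ x
    rw [norm_iteratedFDeriv_one] at h
    exact h.trans (le_add_of_nonneg_right zero_le_one)

private theorem C1_seg {d : ℕ} (ψ : SchwartzMap (E d) ℂ) (k : ℤ) (u v : E d) (B : ℝ)
    (hB : ∀ q ∈ segment ℝ u v, ‖fderiv ℝ ψ ((2 : ℝ) ^ k • q)‖ ≤ B) :
    ‖dl ψ k u - dl ψ k v‖ ≤ ((2 : ℝ) ^ k) ^ d * (B * ((2 : ℝ) ^ k * ‖u - v‖)) := by
  have h2 : (0 : ℝ) < (2 : ℝ) ^ k := by positivity
  have h1 : ‖ψ ((2 : ℝ) ^ k • u) - ψ ((2 : ℝ) ^ k • v)‖ ≤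
      B * ‖(2 : ℝ) ^ k • u - (2 : ℝ) ^ k • v‖ := by
    refine Convex.norm_image_sub_le_of_norm_fderiv_le (𝕜 := ℝ)
      (s := segment ℝ ((2 : ℝ) ^ k • u) ((2 : ℝ) ^ k • v)) (fun x _ => ψ.differentiableAt) ?_
      (convex_segment _ _) (right_mem_segment _ _ _) (left_mem_segment _ _ _)
    rintro q' ⟨a, b, ha, hb, hab, rfl⟩
    have h4 : a • (2 : ℝ) ^ k • u + b • (2 : ℝ) ^ k • v = (2 : ℝ) ^ k • (a • u + b • v) := by
      rw [smul_add, smul_comm a, smul_comm b]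
    rw [h4]
    exact hB _ ⟨a, b, ha, hb, hab, rfl⟩
  have h3 : dl ψ k u - dl ψ k v = ((((2 : ℝ) ^ k) ^ d : ℝ) : ℂ) *
      (ψ ((2 : ℝ) ^ k • u) - ψ ((2 : ℝ) ^ k • v)) := by
    simp only [dl]
    ring
  rw [h3, norm_mul, Complex.norm_real, Real.norm_of_nonneg (by positivity)]
  refine mul_le_mul_of_nonneg_left ?_ (by positivity)
  rwa [← smul_sub, norm_smul, Real.norm_of_nonneg h2.le] at h1

private theorem C1_term (d : ℕ) (k n : ℤ) (s : ℝ) (hs : 0 < s) (h1 : (2 : ℝ) ^ n ≤ s)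
    (h2 : s < (2 : ℝ) ^ (n + 1)) :
    ((2 : ℝ) ^ k) ^ (d + 1) / (1 + (2 : ℝ) ^ k * s / 2) ^ (d + 2) ≤
      2 ^ (d + 2) / s ^ (d + 1) * (2 * (1 / 2) ^ (k + n).natAbs) := by
  have hk : (0 : ℝ) < (2 : ℝ) ^ k := by positivity
  have ht : 0 < (2 : ℝ) ^ k * s := by positivity
  have hkn : (2 : ℝ) ^ (k + n) ≤ (2 : ℝ) ^ k * s := by
    rw [zpow_add₀ two_ne_zero]
    exact mul_le_mul_of_nonneg_left h1 hk.le
  have hkn' : (2 : ℝ) ^ k * s < (2 : ℝ) ^ (k + n + 1) := by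
    rw [add_assoc, zpow_add₀ two_ne_zero]
    exact mul_lt_mul_of_pos_left h2 hk
  have key : ((2 : ℝ) ^ k * s) ^ (d + 1) / (1 + (2 : ℝ) ^ k * s / 2) ^ (d + 2) ≤
      2 ^ (d + 2) * (2 * (1 / 2) ^ (k + n).natAbs) := by
    generalize (2 : ℝ) ^ k * s = t at *
    rcases le_or_gt 0 (k + n) with h | h
    · obtain ⟨a, ha⟩ := Int.eq_ofNat_of_zero_le h
      rw [ha, Int.natAbs_natCast]
      rw [ha, zpow_natCast] at hkn
      have h3 : t ^ (d + 1) / (1 + t / 2) ^ (d + 2) ≤ t ^ (d + 1) / (t / 2) ^ (d + 2) := by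
        gcongr
        linarith
      have h4 : t ^ (d + 1) / (t / 2) ^ (d + 2) = 2 ^ (d + 2) * (1 / t) := by
        rw [div_pow]
        field_simp
        ring
      have h5 : 1 / t ≤ (1 / 2) ^ a := by
        rw [one_div_pow]
        exact one_div_le_one_div_of_le (by positivity) hkn
      rw [h4] at h3
      refine h3.trans (mul_le_mul_of_nonneg_left (h5.trans ?_) (by positivity))
      have h6 : (0 : ℝ) < (1 / 2) ^ a := by positivity
      linarith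
    · have h3 : t ≤ 1 := by
        refine hkn'.le.trans (zpow_le_one_of_nonpos₀ (by norm_num) (by omega))
      obtain ⟨a, ha⟩ : ∃ a : ℕ, k + n = -(a : ℤ) := ⟨(k + n).natAbs, by omega⟩
      rw [ha, Int.natAbs_neg, Int.natAbs_natCast]
      have h4 : t ≤ 2 * (1 / 2) ^ a := by
        refine hkn'.le.trans (le_of_eq ?_)
        rw [ha, zpow_add₀ two_ne_zero, zpow_neg, zpow_natCast, zpow_one, one_div_pow, one_div]
        ring
      have h5 : t ^ (d + 1) / (1 + t / 2) ^ (d + 2) ≤ t := by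
        have h6 : t ^ (d + 1) ≤ t := by
          calc t ^ (d + 1) ≤ t ^ 1 := pow_le_pow_of_le_one ht.le h3 (by omega)
            _ = t := pow_one t
        have h7 : 1 ≤ (1 + t / 2) ^ (d + 2) := one_le_pow₀ (by linarith)
        exact (div_le_self (by positivity) h7).trans h6
      have h8 : (1 : ℝ) ≤ 2 ^ (d + 2) := one_le_pow₀ (by norm_num)
      have h9 : (0 : ℝ) ≤ 2 * (1 / 2) ^ a := by positivity
      calc _ ≤ 1 * (2 * (1 / 2) ^ a) := by rw [one_mul]; exact h5.trans h4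
        _ ≤ _ := mul_le_mul_of_nonneg_right h8 h9
  have h3 : ((2 : ℝ) ^ k) ^ (d + 1) / (1 + (2 : ℝ) ^ k * s / 2) ^ (d + 2) =
      (((2 : ℝ) ^ k * s) ^ (d + 1) / (1 + (2 : ℝ) ^ k * s / 2) ^ (d + 2)) / s ^ (d + 1) := by
    rw [mul_pow]
    field_simp
  rw [h3, div_mul_eq_mul_div]
  exact div_le_div_of_nonneg_right key (by positivity)

private theorem C1_summable : Summable fun i : ℤ => ((1 : ℝ) / 2) ^ i.natAbs := by
  refine Summable.of_nat_of_neg ?_ ?_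
  · simpa using summable_geometric_of_lt_one (r := (1 : ℝ) / 2) (by norm_num) (by norm_num)
  · simpa using summable_geometric_of_lt_one (r := (1 : ℝ) / 2) (by norm_num) (by norm_num)

private theorem C1_sum (d : ℕ) (S : Finset ℤ) (s : ℝ) (hs : 0 < s) :
    ∑ k ∈ S, ((2 : ℝ) ^ k) ^ (d + 1) / (1 + (2 : ℝ) ^ k * s / 2) ^ (d + 2) ≤
      2 ^ (d + 2) * (2 * ∑' i : ℤ, ((1 : ℝ) / 2) ^ i.natAbs) / s ^ (d + 1) := by
  obtain ⟨n, h1, h2⟩ := exists_mem_Ico_zpow hs (one_lt_two (α := ℝ))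
  refine (Finset.sum_le_sum fun k _ => C1_term d k n s hs h1 h2).trans ?_
  rw [← Finset.mul_sum, ← Finset.mul_sum, mul_div_right_comm]
  refine mul_le_mul_of_nonneg_left ?_ (by positivity)
  refine mul_le_mul_of_nonneg_left ?_ (by norm_num)
  have h3 : ∑ k ∈ S, ((1 : ℝ) / 2) ^ (k + n).natAbs =
      ∑ i ∈ S.map (Equiv.addRight n).toEmbedding, ((1 : ℝ) / 2) ^ i.natAbs := by
    rw [Finset.sum_map]
    rfl
  rw [h3]
  exact C1_summable.sum_le_tsum _ fun i _ => by positivity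

theorem dl_bound {d : ℕ} (ψ : SchwartzMap (E d) ℂ) : ∃ C : ℝ, 0 < C ∧ ∀ (k : ℤ) (x : E d),
    ‖dl ψ k x‖ ≤ C * wk k x := by
  obtain ⟨C, hC, h⟩ := C1_dec ψ (d + 1)
  refine ⟨C, hC, fun k x => ?_⟩
  have h2 : (0 : ℝ) < (2 : ℝ) ^ k := by positivity
  rw [dl, norm_mul, Complex.norm_real, Real.norm_of_nonneg (by positivity), wk]
  have h1 := (h ((2 : ℝ) ^ k • x)).1
  rw [norm_smul, Real.norm_of_nonneg h2.le] at h1
  calc _ ≤ ((2 : ℝ) ^ k) ^ d * (C / (1 + (2 : ℝ) ^ k * ‖x‖) ^ (d + 1)) :=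
        mul_le_mul_of_nonneg_left h1 (by positivity)
    _ = _ := by ring

theorem dl_low {d : ℕ} (ψ : SchwartzMap (E d) ℂ) (R : ℝ) (hR : 0 < R) : ∃ C : ℝ, 0 < C ∧
    ∀ j k : ℤ, j + k ≤ 0 → ∀ x y z w : E d, dist x y ≤ R * (2 : ℝ) ^ j →
    dist x z ≤ R * (2 : ℝ) ^ j →
    ‖dl ψ k (y - w) - dl ψ k (z - w)‖ ≤ C * (2 : ℝ) ^ (j + k) * wk k (x - w) := by
  obtain ⟨C, hC, h⟩ := C1_dec ψ (d + 1)
  refine ⟨2 * R * C * (1 + R) ^ (d + 1), by positivity, fun j k hjk x y z w hy hz => ?_⟩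
  have hk : (0 : ℝ) < (2 : ℝ) ^ k := by positivity
  have hj : (0 : ℝ) < (2 : ℝ) ^ j := by positivity
  have hjk' : (2 : ℝ) ^ j * (2 : ℝ) ^ k ≤ 1 := by
    rw [← zpow_add₀ two_ne_zero]
    exact zpow_le_one_of_nonpos₀ (by norm_num) hjk
  have hyz : ‖(y - w) - (z - w)‖ ≤ 2 * R * (2 : ℝ) ^ j := by
    rw [sub_sub_sub_cancel_right, ← dist_eq_norm]
    have h1 := dist_triangle_left y z x
    linarith
  have hseg : ∀ q ∈ segment ℝ (y - w) (z - w), ‖fderiv ℝ ψ ((2 : ℝ) ^ k • q)‖ ≤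
      C * (1 + R) ^ (d + 1) / (1 + (2 : ℝ) ^ k * ‖x - w‖) ^ (d + 1) := by
    intro q hq
    have h1 : q ∈ closedBall (x - w) (R * (2 : ℝ) ^ j) := by
      refine (convex_closedBall _ _).segment_subset ?_ ?_ hq
      · rw [mem_closedBall, dist_sub_right, dist_comm]
        exact hy
      · rw [mem_closedBall, dist_sub_right, dist_comm]
        exact hz
    rw [mem_closedBall, dist_comm, dist_eq_norm] at h1
    have h2 : ‖x - w‖ ≤ ‖q‖ + R * (2 : ℝ) ^ j := by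
      have h3 := norm_sub_norm_le (x - w) q
      linarith
    have h3 : 1 + (2 : ℝ) ^ k * ‖x - w‖ ≤ (1 + R) * (1 + (2 : ℝ) ^ k * ‖q‖) := by
      have h4 : (2 : ℝ) ^ k * ‖x - w‖ ≤ (2 : ℝ) ^ k * ‖q‖ + R * ((2 : ℝ) ^ j * (2 : ℝ) ^ k) := by
        nlinarith
      have h5 : R * ((2 : ℝ) ^ j * (2 : ℝ) ^ k) ≤ R := by nlinarith
      nlinarith [mul_nonneg hR.le (mul_nonneg hk.le (norm_nonneg q))]
    refine ((h _).2).trans ?_
    rw [norm_smul, Real.norm_of_nonneg hk.le, div_le_div_iff₀ (by positivity) (by positivity),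
      mul_assoc, ← mul_pow]
    exact mul_le_mul_of_nonneg_left (pow_le_pow_left₀ (by positivity) h3 _) hC.le
  refine (C1_seg ψ k _ _ _ hseg).trans ?_
  rw [wk, zpow_add₀ two_ne_zero]
  calc _ ≤ ((2 : ℝ) ^ k) ^ d * (C * (1 + R) ^ (d + 1) / (1 + (2 : ℝ) ^ k * ‖x - w‖) ^ (d + 1) *
        ((2 : ℝ) ^ k * (2 * R * (2 : ℝ) ^ j))) := by gcongr
    _ = _ := by ring

theorem dl_high {d : ℕ} (ψ : SchwartzMap (E d) ℂ) : ∃ C : ℝ, 0 < C ∧
    ∀ (S : Finset ℤ) (u v : E d), u ≠ 0 → 2 * ‖u - v‖ ≤ ‖u‖ →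
    ∑ k ∈ S, ‖dl ψ k u - dl ψ k v‖ ≤ C * ‖u - v‖ / ‖u‖ ^ (d + 1) := by
  obtain ⟨C, hC, h⟩ := C1_dec ψ (d + 2)
  have hT : 0 ≤ ∑' i : ℤ, ((1 : ℝ) / 2) ^ i.natAbs := tsum_nonneg fun i => by positivity
  refine ⟨C * (2 ^ (d + 2) * (2 * ∑' i : ℤ, ((1 : ℝ) / 2) ^ i.natAbs)) + 1, by positivity,
    fun S u v hu huv => ?_⟩
  have hu0 : 0 < ‖u‖ := norm_pos_iff.2 hu
  have hterm : ∀ k ∈ S, ‖dl ψ k u - dl ψ k v‖ ≤ C * ‖u - v‖ *
      (((2 : ℝ) ^ k) ^ (d + 1) / (1 + (2 : ℝ) ^ k * ‖u‖ / 2) ^ (d + 2)) := by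
    intro k _
    have hk : (0 : ℝ) < (2 : ℝ) ^ k := by positivity
    have hseg : ∀ q ∈ segment ℝ u v, ‖fderiv ℝ ψ ((2 : ℝ) ^ k • q)‖ ≤
        C / (1 + (2 : ℝ) ^ k * ‖u‖ / 2) ^ (d + 2) := by
      intro q hq
      have h1 : q ∈ closedBall u ‖u - v‖ := by
        refine (convex_closedBall _ _).segment_subset ?_ ?_ hq
        · exact mem_closedBall_self (norm_nonneg _)
        · rw [mem_closedBall, dist_comm, dist_eq_norm]
      rw [mem_closedBall, dist_comm, dist_eq_norm] at h1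
      have h2 : ‖u‖ / 2 ≤ ‖q‖ := by
        have h3 := norm_sub_norm_le u q
        linarith
      refine ((h _).2).trans ?_
      rw [norm_smul, Real.norm_of_nonneg hk.le]
      have h3 : (2 : ℝ) ^ k * ‖u‖ / 2 ≤ (2 : ℝ) ^ k * ‖q‖ := by nlinarith
      gcongr
    refine (C1_seg ψ k u v _ hseg).trans (le_of_eq ?_)
    ring
  refine (Finset.sum_le_sum hterm).trans ?_
  rw [← Finset.mul_sum]
  have h1 := C1_sum d S ‖u‖ hu0
  have h2 : 0 ≤ C * ‖u - v‖ := by positivity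
  refine (mul_le_mul_of_nonneg_left h1 h2).trans ?_
  rw [mul_div_assoc']
  refine div_le_div_of_nonneg_right ?_ (by positivity)
  nlinarith [norm_nonneg (u - v)]

end Pool.LibRF53
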