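import Pool.Agent.LibRF53.C1
import Pool.Agent.LibWaveDir.Plancherel

/-
PLAN (C2). L2 estimate for the pieces. f bounded with bounded support, so integrable and in L2; dl psi k is Schwartz-like (integrable, bounded). cv (dl psi k) f is the convolution of two integrable
functions (Mathlib convolution up to the order, Real.fourier_mul_convolution_eq) with Fourier transform phi(2^-k xi) * (F f) xi; it is in L1 and bounded, so in L2, and
Pool.Agent.LibWaveDir.plancherel (import; F of Mathlib, see fourier_ex / ex for the conversion) gives int |cv|^2 = int |phi(2^-k xi)|^2 |F f|^2. For every xi at most 7 integers k have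
1/8 <= 2^-k |xi| <= 8, so the sum over k of |phi(2^-k xi)|^2 is <= 7 sup |phi|^2 (phi bounded: continuous with compact support, or |phi| <= int |psi|). Sum over k, Plancherel for f.
cv_facts: cv (dl psi k) f is continuous, bounded, integrable (Bi).
-/

set_option autoImplicit false

noncomputable section

open MeasureTheory Metric Set Filter

namespace Pool.LibRF53

open Pool.LibSR53

open scoped FourierTransform

private theorem C2_cv {d : ℕ} (K f : E d → ℂ) :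
    cv K f = MeasureTheory.convolution f K (ContinuousLinearMap.mul ℂ ℂ) volume := by
  funext x
  unfold cv MeasureTheory.convolution
  refine integral_congr_ae (Eventually.of_forall fun y => ?_)
  change K (x - y) * f y = f y * K (x - y)
  exact mul_comm _ _

private theorem C2_bdd {d : ℕ} (ψ : SchwartzMap (E d) ℂ) : ∃ B : ℝ, 0 ≤ B ∧ ∀ x, ‖ψ x‖ ≤ B :=
  ⟨SchwartzMap.seminorm ℂ 0 0 ψ, apply_nonneg _ _, fun x => SchwartzMap.norm_le_seminorm ℂ ψ x⟩

private theorem C2_pow {k : ℤ} : (0 : ℝ) < (2 : ℝ) ^ k := zpow_pos (by norm_num) k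

private theorem C2_dl_cont {d : ℕ} (ψ : SchwartzMap (E d) ℂ) (k : ℤ) : Continuous (dl ψ k) := by
  unfold dl
  exact continuous_const.mul (ψ.continuous.comp (continuous_const_smul _))

private theorem C2_dl_int {d : ℕ} (ψ : SchwartzMap (E d) ℂ) (k : ℤ) : Integrable (dl ψ k) := by
  unfold dl
  exact (ψ.integrable.comp_smul C2_pow.ne').const_mul _

private theorem C2_dl_bdd {d : ℕ} (ψ : SchwartzMap (E d) ℂ) (k : ℤ) :
    ∃ B : ℝ, 0 ≤ B ∧ ∀ x, ‖dl ψ k x‖ ≤ B := by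
  obtain ⟨B, hB0, hB⟩ := C2_bdd ψ
  have h1 : (0 : ℝ) ≤ ((2 : ℝ) ^ k) ^ d := pow_nonneg C2_pow.le d
  refine ⟨((2 : ℝ) ^ k) ^ d * B, mul_nonneg h1 hB0, fun x => ?_⟩
  unfold dl
  rw [norm_mul, Complex.norm_real, Real.norm_of_nonneg h1]
  exact mul_le_mul_of_nonneg_left (hB _) h1

private theorem C2_f_int {d : ℕ} {f : E d → ℂ} (hf : Bd f) : Integrable f := by
  obtain ⟨B, hB⟩ := hf.bdd
  obtain ⟨R, hR⟩ := hf.supp
  have h1 : IntegrableOn f (closedBall (0 : E d) R) volume :=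
    Measure.integrableOn_of_bounded (M := B) measure_closedBall_lt_top.ne
      hf.meas.aestronglyMeasurable (Eventually.of_forall fun x => hB x)
  refine (integrableOn_iff_integrable_of_support_subset ?_).1 h1
  intro x hx
  rw [mem_closedBall_zero_iff]
  by_contra hcon
  exact hx (hR x (not_le.1 hcon))

private theorem C2_memLp {d : ℕ} {g : E d → ℂ} (hg : Integrable g) {B : ℝ}
    (hB : ∀ x, ‖g x‖ ≤ B) : MemLp g 2 := by
  rw [memLp_two_iff_integrable_sq_norm hg.aestronglyMeasurable]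
  refine Integrable.mono' (hg.norm.const_mul B) (hg.aestronglyMeasurable.norm.pow 2)
    (Eventually.of_forall fun x => ?_)
  rw [Real.norm_of_nonneg (sq_nonneg _), sq]
  exact mul_le_mul_of_nonneg_right (hB x) (norm_nonneg _)

theorem cv_Bi {d : ℕ} (ψ : SchwartzMap (E d) ℂ) (k : ℤ) (f : E d → ℂ) (hf : Bd f) :
    Bi (cv (dl ψ k) f) := by
  have hfi := C2_f_int hf
  have hdi := C2_dl_int ψ k
  have hdc := C2_dl_cont ψ k
  obtain ⟨B, hB0, hB⟩ := C2_dl_bdd ψ k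
  refine ⟨?_, ⟨B * ∫ y, ‖f y‖, fun x => ?_⟩, ?_⟩
  · rw [C2_cv]
    refine BddAbove.continuous_convolution_right_of_integrable _ ?_ hfi hdc
    refine ⟨B, ?_⟩
    rintro _ ⟨x, rfl⟩
    exact hB x
  · unfold cv
    rw [← integral_const_mul]
    refine norm_integral_le_of_norm_le (hfi.norm.const_mul B) (Eventually.of_forall fun y => ?_)
    rw [norm_mul]
    exact mul_le_mul_of_nonneg_right (hB _) (norm_nonneg _)
  · rw [C2_cv]
    exact hfi.integrable_convolution _ hdi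

private theorem C2_fourier {d : ℕ} (g : E d → ℂ) (ξ : E d) : 𝓕 g ξ = ∫ w, ex (-w) ξ * g w := by
  rw [Real.fourier_eq']
  refine integral_congr_ae (Eventually.of_forall fun w => ?_)
  simp only [ex, smul_eq_mul, inner_neg_left]
  congr 2
  push_cast
  ring

private theorem C2_fourier_dl {d : ℕ} (ψ φ : SchwartzMap (E d) ℂ)
    (hφ : ∀ ξ, ∫ w, ex (-w) ξ * ψ w = φ ξ) (k : ℤ) (ξ : E d) :
    𝓕 (dl ψ k) ξ = φ (((2 : ℝ) ^ k)⁻¹ • ξ) := by
  obtain ⟨a, ha⟩ : ∃ a : ℝ, a = (2 : ℝ) ^ k := ⟨_, rfl⟩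
  have ha0 : 0 < a := by rw [ha]; exact C2_pow
  rw [C2_fourier]
  have h1 : ∀ w : E d, ex (-w) ξ * dl ψ k w =
      ((a ^ d : ℝ) : ℂ) * (fun u : E d => ex (-(a⁻¹ • u)) ξ * ψ u) (a • w) := by
    intro w
    change ex (-w) ξ * dl ψ k w = ((a ^ d : ℝ) : ℂ) * (ex (-(a⁻¹ • a • w)) ξ * ψ (a • w))
    rw [smul_smul, inv_mul_cancel₀ ha0.ne', one_smul]
    unfold dl
    rw [← ha]
    ring
  have h2 : ∫ w : E d, ex (-w) ξ * dl ψ k w = ((a ^ d : ℝ) : ℂ) *
      ∫ w : E d, (fun u : E d => ex (-(a⁻¹ • u)) ξ * ψ u) (a • w) := by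
    rw [← integral_const_mul]
    exact integral_congr_ae (Eventually.of_forall h1)
  have h5 := Measure.integral_comp_smul (volume : Measure (E d))
    (fun u : E d => ex (-(a⁻¹ • u)) ξ * ψ u) a
  rw [h2, h5, finrank_euclideanSpace_fin, ← hφ, ← ha]
  have h3 : ∀ u : E d, ex (-(a⁻¹ • u)) ξ * ψ u = ex (-u) (a⁻¹ • ξ) * ψ u := by
    intro u
    unfold ex
    rw [inner_neg_left, inner_neg_left, real_inner_smul_left, real_inner_smul_right]
  have h4 : ∫ u : E d, (fun u : E d => ex (-(a⁻¹ • u)) ξ * ψ u) u =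
      ∫ w : E d, ex (-w) (a⁻¹ • ξ) * ψ w :=
    integral_congr_ae (Eventually.of_forall h3)
  rw [h4, abs_of_pos (by positivity), Complex.real_smul, ← mul_assoc, ← Complex.ofReal_mul,
    mul_inv_cancel₀ (pow_pos ha0 d).ne', Complex.ofReal_one, one_mul]

private theorem C2_count {d : ℕ} (ξ : E d) (S : Finset ℤ) :
    (S.filter fun k : ℤ => 1 / 8 ≤ ‖((2 : ℝ) ^ k)⁻¹ • ξ‖ ∧ ‖((2 : ℝ) ^ k)⁻¹ • ξ‖ ≤ 8).card ≤ 7 := by
  obtain ⟨A, hA⟩ : ∃ A : Finset ℤ, A = S.filter fun k : ℤ =>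
    1 / 8 ≤ ‖((2 : ℝ) ^ k)⁻¹ • ξ‖ ∧ ‖((2 : ℝ) ^ k)⁻¹ • ξ‖ ≤ 8 := ⟨_, rfl⟩
  rw [← hA]
  rcases A.eq_empty_or_nonempty with h0 | h0
  · rw [h0]
    simp
  · have hmem : ∀ k ∈ A, ‖ξ‖ ≤ 8 * (2 : ℝ) ^ k ∧ (2 : ℝ) ^ k ≤ 8 * ‖ξ‖ := by
      intro k hk
      rw [hA, Finset.mem_filter, norm_smul, norm_inv, Real.norm_of_nonneg C2_pow.le] at hk
      have hp : (0 : ℝ) < (2 : ℝ) ^ k := C2_pow
      obtain ⟨-, h1, h2⟩ := hk
      rw [inv_mul_eq_div] at h1 h2
      rw [div_le_iff₀ hp] at h2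
      rw [le_div_iff₀ hp] at h1
      constructor
      · linarith
      · linarith
    have hsub : A ⊆ Finset.Icc (A.min' h0) (A.min' h0 + 6) := by
      intro k hk
      rw [Finset.mem_Icc]
      refine ⟨Finset.min'_le A k hk, ?_⟩
      have h1 := (hmem _ (Finset.min'_mem A h0)).1
      have h2 := (hmem k hk).2
      have h3 : (2 : ℝ) ^ k ≤ (2 : ℝ) ^ (A.min' h0 + 6) := by
        rw [zpow_add₀ (by norm_num)]
        have h4 : (2 : ℝ) ^ (6 : ℤ) = 64 := by norm_num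
        rw [h4]
        linarith
      exact (zpow_le_zpow_iff_right₀ (by norm_num)).1 h3
    refine (Finset.card_le_card hsub).trans ?_
    rw [Int.card_Icc]
    omega

theorem sq_L2 {d : ℕ} (ψ φ : SchwartzMap (E d) ℂ) (hφ : ∀ ξ, ∫ w, ex (-w) ξ * ψ w = φ ξ)
    (hs : ∀ ξ, φ ξ ≠ 0 → 1 / 8 ≤ ‖ξ‖ ∧ ‖ξ‖ ≤ 8) : ∃ C : ℝ, 0 < C ∧
    ∀ (S : Finset ℤ) (f : E d → ℂ), Bd f →
    ∑ k ∈ S, ∫⁻ x, ‖cv (dl ψ k) f x‖ₑ ^ (2 : ℝ) ≤ ENNReal.ofReal C * ∫⁻ x, ‖f x‖ₑ ^ (2 : ℝ) := by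
  obtain ⟨M, hM0, hM⟩ := C2_bdd φ
  refine ⟨7 * M ^ 2 + 1, by positivity, fun S f hf => ?_⟩
  have hfi := C2_f_int hf
  obtain ⟨B, hB⟩ := hf.bdd
  have hf2 := C2_memLp hfi hB
  have hfc : Continuous (𝓕 f) :=
    VectorFourier.fourierIntegral_continuous Real.continuous_fourierChar
      (innerSL ℝ).continuous₂ hfi
  have h1 : ∀ k : ℤ, ∫⁻ x, ‖cv (dl ψ k) f x‖ₑ ^ (2 : ℝ) =
      ∫⁻ ξ, ‖𝓕 f ξ‖ₑ ^ 2 * ‖φ (((2 : ℝ) ^ k)⁻¹ • ξ)‖ₑ ^ 2 := by
    intro k
    have hb := cv_Bi ψ k f hf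
    obtain ⟨B', hB'⟩ := hb.bdd
    have h2 := Pool.Agent.LibWaveDir.plancherel (cv (dl ψ k) f) hb.int (C2_memLp hb.int hB')
    simp only [ENNReal.rpow_two]
    rw [← h2]
    refine lintegral_congr fun ξ => ?_
    rw [C2_cv, Real.fourier_mul_convolution_eq hfi (C2_dl_int ψ k), C2_fourier_dl ψ φ hφ,
      enorm_mul, mul_pow]
  have h3 : ∫⁻ x, ‖f x‖ₑ ^ (2 : ℝ) = ∫⁻ ξ, ‖𝓕 f ξ‖ₑ ^ 2 := by
    simp only [ENNReal.rpow_two]
    exact (Pool.Agent.LibWaveDir.plancherel f hfi hf2).symm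
  rw [Finset.sum_congr rfl fun k _ => h1 k, h3, ← lintegral_finset_sum]
  · rw [← lintegral_const_mul]
    · refine lintegral_mono fun ξ => ?_
      rw [← Finset.mul_sum, mul_comm]
      refine mul_le_mul_left ?_ _
      have h4 : ∀ k ∈ S, ‖φ (((2 : ℝ) ^ k)⁻¹ • ξ)‖ₑ ^ 2 ≤
          if 1 / 8 ≤ ‖((2 : ℝ) ^ k)⁻¹ • ξ‖ ∧ ‖((2 : ℝ) ^ k)⁻¹ • ξ‖ ≤ 8 then
            ENNReal.ofReal (M ^ 2) else 0 := by
        intro k _
        split_ifs with h5
        · rw [ENNReal.ofReal_pow hM0]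
          refine pow_le_pow_left' ?_ 2
          rw [← ofReal_norm]
          exact ENNReal.ofReal_le_ofReal (hM _)
        · have h6 : φ (((2 : ℝ) ^ k)⁻¹ • ξ) = 0 := by
            by_contra h7
            exact h5 (hs _ h7)
          rw [h6]
          simp
      refine (Finset.sum_le_sum h4).trans ?_
      rw [← Finset.sum_filter, Finset.sum_const, nsmul_eq_mul]
      have h8 : ((S.filter fun k : ℤ => 1 / 8 ≤ ‖((2 : ℝ) ^ k)⁻¹ • ξ‖ ∧
          ‖((2 : ℝ) ^ k)⁻¹ • ξ‖ ≤ 8).card : ENNReal) ≤ 7 := by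
        exact_mod_cast C2_count ξ S
      refine (mul_le_mul_left h8 _).trans ?_
      rw [show (7 : ENNReal) = ENNReal.ofReal 7 by norm_num, ← ENNReal.ofReal_mul (by norm_num)]
      exact ENNReal.ofReal_le_ofReal (by linarith)
    · exact (hfc.measurable.enorm.pow_const 2)
  · intro k _
    refine (hfc.measurable.enorm.pow_const 2).mul ?_
    exact ((φ.continuous.comp (continuous_const_smul _)).measurable.enorm.pow_const 2)

end Pool.LibRF53
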