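import Pool.Agent.LibRF53.C2
import Pool.Agent.LibRF53.A1
import Pool.Agent.LibRF53.B3

/-
PLAN (C3). The sharp function of the vector (psi_k * f)_k. Fix Q = Q j a, x0 in Q (Q_nonempty), s = sqrt d, B = closedBall x0 ((4 s + 4) 2^j), f1 = f 1_B, f2 = f - f1 (both Bd). c = vector of
cv (dl psi k) f2 x0. For y in Q: vec y - c = (cv (dl psi k) f1 y)_k + (cv (dl psi k) f2 y - cv (dl psi k) f2 x0)_k. First part: int over Q of the norm <= (vl d j)^(1/2) (sum over k of int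
|cv (dl psi k) f1|^2)^(1/2) <= (vl d j)^(1/2) (C int_B |f|^2)^(1/2) <= C vl d j (MB |f|^2 x)^(1/2) (sq_L2, ball_le_MB with dist x x0 <= s 2^j, Q_dist). Second part: the norm in
EuclideanSpace is at most the sum of the norms of the coordinates, <= int_(w not in B) (sum over k of |dl psi k (x0 - w) - dl psi k (y - w)|) |f w| <= int_(w not in B) C |x0 - y| |x0-w|^-(d+1) |f w|
(dl_high: |x0 - y| <= s 2^j <= |x0 - w|/2) and for w not in B: s 2^j |x0 - w|^-(d+1) <= C wk (-j) (x - w), so <= C MB |f| x (conv_le_MB) <= C (MB |f|^2 x)^(1/2) (MB_sq).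
-/

set_option autoImplicit false

noncomputable section

open MeasureTheory Metric Set Filter

namespace Pool.LibRF53

open Pool.LibSR53

private lemma C3_norm_le {S : Finset ℤ} (v : S → ℂ) :
    ‖(WithLp.toLp 2 v : EuclideanSpace ℂ S)‖ₑ ≤ ∑ k : S, ‖v k‖ₑ := by
  have h : ‖(WithLp.toLp 2 v : EuclideanSpace ℂ S)‖ ≤ ∑ k : S, ‖v k‖ := by
    rw [EuclideanSpace.norm_eq]
    refine Real.sqrt_le_iff.2 ⟨Finset.sum_nonneg fun _ _ => norm_nonneg _, ?_⟩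
    exact Finset.sum_sq_le_sq_sum_of_nonneg fun _ _ => norm_nonneg _
  rw [← ofReal_norm]
  refine (ENNReal.ofReal_le_ofReal h).trans (le_of_eq ?_)
  rw [ENNReal.ofReal_sum_of_nonneg fun _ _ => norm_nonneg _]
  exact Finset.sum_congr rfl fun k _ => ofReal_norm (v k)

private lemma C3_norm_sq {S : Finset ℤ} (v : S → ℂ) :
    ‖(WithLp.toLp 2 v : EuclideanSpace ℂ S)‖ₑ ^ (2 : ℝ) = ∑ k : S, ‖v k‖ₑ ^ (2 : ℝ) := by
  rw [← ofReal_norm, ENNReal.rpow_two, ← ENNReal.ofReal_pow (norm_nonneg _),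
    EuclideanSpace.norm_sq_eq, ENNReal.ofReal_sum_of_nonneg fun _ _ => by positivity]
  refine Finset.sum_congr rfl fun k _ => ?_
  rw [ENNReal.rpow_two, ENNReal.ofReal_pow (norm_nonneg _), ofReal_norm]

private lemma C3_Bd_ind {d : ℕ} {f : E d → ℂ} (hf : Bd f) {s : Set (E d)} (hs : MeasurableSet s) :
    Bd (s.indicator f) := by
  obtain ⟨B, hB⟩ := hf.bdd
  obtain ⟨R, hR⟩ := hf.supp
  refine ⟨hf.meas.indicator hs, ⟨B, fun x => (norm_indicator_le_norm_self f x).trans (hB x)⟩,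
    ⟨R, fun x hx => ?_⟩⟩
  by_cases hxs : x ∈ s
  · rw [Set.indicator_of_mem hxs, hR x hx]
  · rw [Set.indicator_of_notMem hxs]

private lemma C3_Bd_int {d : ℕ} {f : E d → ℂ} (hf : Bd f) : Integrable f := by
  obtain ⟨B, hB⟩ := hf.bdd
  obtain ⟨R, hR⟩ := hf.supp
  have h1 : Function.support f ⊆ closedBall (0 : E d) R := by
    intro x hx
    rw [mem_closedBall_zero_iff]
    by_contra h
    exact hx (hR x (not_le.1 h))
  rw [← integrableOn_iff_integrable_of_support_subset h1]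
  exact Measure.integrableOn_of_bounded (M := B) measure_closedBall_lt_top.ne
    hf.meas.aestronglyMeasurable (Filter.Eventually.of_forall fun x => hB x)

private lemma C3_dl_cont {d : ℕ} (ψ : SchwartzMap (E d) ℂ) (k : ℤ) : Continuous (dl ψ k) := by
  unfold dl
  exact continuous_const.mul (ψ.continuous.comp (continuous_const_smul _))

private lemma C3_cv_int {d : ℕ} (ψ : SchwartzMap (E d) ℂ) (k : ℤ) {f : E d → ℂ} (hf : Bd f)
    (y : E d) : Integrable (fun w => dl ψ k (y - w) * f w) := by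
  obtain ⟨C, hC, h⟩ := dl_bound ψ
  refine (C3_Bd_int hf).bdd_mul (c := C * ((2 : ℝ) ^ k) ^ d)
    ((C3_dl_cont ψ k).comp (continuous_const.sub continuous_id)).aestronglyMeasurable
    (Filter.Eventually.of_forall fun w => (h k (y - w)).trans ?_)
  refine mul_le_mul_of_nonneg_left ?_ hC.le
  unfold wk
  refine div_le_self (by positivity) (one_le_pow₀ ?_)
  have : 0 ≤ (2 : ℝ) ^ k * ‖y - w‖ := by positivity
  linarith

private lemma C3_cv_add {d : ℕ} (ψ : SchwartzMap (E d) ℂ) (k : ℤ) {f : E d → ℂ} (hf : Bd f)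
    {s : Set (E d)} (hs : MeasurableSet s) (y : E d) :
    cv (dl ψ k) f y = cv (dl ψ k) (s.indicator f) y + cv (dl ψ k) (sᶜ.indicator f) y := by
  unfold cv
  rw [← integral_add (C3_cv_int ψ k (C3_Bd_ind hf hs) y)
    (C3_cv_int ψ k (C3_Bd_ind hf hs.compl) y)]
  refine integral_congr_ae (Filter.Eventually.of_forall fun w => ?_)
  have h := congrFun (Set.indicator_self_add_compl s f) w
  change s.indicator f w + sᶜ.indicator f w = f w at h
  simp only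
  rw [← mul_add, h]

private lemma C3_part1 {d : ℕ} (ψ : SchwartzMap (E d) ℂ) {C2 : ℝ} (S : Finset ℤ) {f : E d → ℂ}
    (hf : Bd f)
    (h2 : ∑ k ∈ S, ∫⁻ x, ‖cv (dl ψ k) f x‖ₑ ^ (2 : ℝ) ≤ ENNReal.ofReal C2 * ∫⁻ x, ‖f x‖ₑ ^ (2 : ℝ))
    (j : ℤ) (a : Fin d → ℤ) :
    ∫⁻ y in Q j a, ‖(WithLp.toLp 2 fun k : S => cv (dl ψ k) f y : EuclideanSpace ℂ S)‖ₑ ≤
      (vl d j) ^ (1 / 2 : ℝ) *
        (ENNReal.ofReal C2 * ∫⁻ x, ‖f x‖ₑ ^ (2 : ℝ)) ^ (1 / 2 : ℝ) := by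
  have hcont : Continuous (fun y : E d =>
      (WithLp.toLp 2 fun k : S => cv (dl ψ k) f y : EuclideanSpace ℂ S)) :=
    (PiLp.continuous_toLp 2 _).comp (continuous_pi fun k => (cv_Bi ψ k f hf).cont)
  have hm : Measurable (fun y : E d =>
      ‖(WithLp.toLp 2 fun k : S => cv (dl ψ k) f y : EuclideanSpace ℂ S)‖ₑ) :=
    hcont.enorm.measurable
  have hpq : (2 : ℝ).HolderConjugate 2 := Real.HolderConjugate.two_two
  have h3 := ENNReal.lintegral_mul_le_Lp_mul_Lq (volume.restrict (Q j a : Set (E d))) hpq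
    (f := fun y => ‖(WithLp.toLp 2 fun k : S => cv (dl ψ k) f y : EuclideanSpace ℂ S)‖ₑ)
    (g := fun _ => 1) hm.aemeasurable aemeasurable_const
  simp only [Pi.mul_apply, mul_one, ENNReal.one_rpow, lintegral_const, Measure.restrict_apply_univ,
    one_mul] at h3
  rw [Q_vol, mul_comm] at h3
  refine h3.trans (mul_le_mul_right ?_ _)
  refine ENNReal.rpow_le_rpow ?_ (by norm_num)
  refine le_trans ?_ h2
  refine (setLIntegral_le_lintegral _ _).trans (le_of_eq ?_)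
  simp only [C3_norm_sq]
  rw [lintegral_finsetSum]
  · exact Finset.sum_coe_sort S (fun k => ∫⁻ x, ‖cv (dl ψ k) f x‖ₑ ^ (2 : ℝ))
  · intro k _
    exact ((cv_Bi ψ k f hf).cont.enorm.measurable).pow_const _

theorem sq_sharp {d : ℕ} (ψ φ : SchwartzMap (E d) ℂ) (hφ : ∀ ξ, ∫ w, ex (-w) ξ * ψ w = φ ξ)
    (hs : ∀ ξ, φ ξ ≠ 0 → 1 / 8 ≤ ‖ξ‖ ∧ ‖ξ‖ ≤ 8) : ∃ C : ℝ, 0 < C ∧
    ∀ (S : Finset ℤ) (f : E d → ℂ), Bd f → ∀ (j : ℤ) (a : Fin d → ℤ),
    ∃ c : EuclideanSpace ℂ S, ∀ x ∈ Q j a,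
      ∫⁻ y in Q j a, ‖(WithLp.toLp 2 fun k : S => cv (dl ψ k) f y) - c‖ₑ ≤
        vl d j * (ENNReal.ofReal C * (MB (fun y => ‖f y‖ₑ ^ (2 : ℝ)) x) ^ (1 / 2 : ℝ)) := by
  obtain ⟨C2, hC2, H2⟩ := sq_L2 ψ φ hφ hs
  obtain ⟨C1, hC1, H1⟩ := dl_high ψ
  obtain ⟨C3, hC3, H3⟩ := conv_le_MB d
  obtain ⟨C5, hC5, H5⟩ := MB_sq d
  have hs0 : 0 ≤ √(d : ℝ) := Real.sqrt_nonneg _
  obtain ⟨C4, hC4, H4⟩ := ball_le_MB d (4 * √(d : ℝ) + 4) (by positivity)
  set C' : ℝ := C1 * √(d : ℝ) * 3 ^ (d + 1) with hC'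
  have hC'0 : 0 ≤ C' := by positivity
  refine ⟨√(C2 * C4) + C' * C3 * C5, by positivity, fun S f hf j a => ?_⟩
  obtain ⟨x0, hx0⟩ := Q_nonempty (d := d) j a
  set B : Set (E d) := closedBall x0 ((4 * √(d : ℝ) + 4) * (2 : ℝ) ^ j) with hB
  have hBm : MeasurableSet B := measurableSet_closedBall
  have hf1 : Bd (B.indicator f) := C3_Bd_ind hf hBm
  have hf2 : Bd (Bᶜ.indicator f) := C3_Bd_ind hf hBm.compl
  refine ⟨WithLp.toLp 2 fun k : S => cv (dl ψ k) (Bᶜ.indicator f) x0, fun x hx => ?_⟩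
  have h2j : (0 : ℝ) < (2 : ℝ) ^ j := by positivity
  set M : ENNReal := MB (fun y => ‖f y‖ₑ ^ (2 : ℝ)) x with hM
  have hfm : Measurable (fun y => ‖f y‖ₑ) := hf.meas.enorm
  have hfm2 : Measurable (fun y => ‖f y‖ₑ ^ (2 : ℝ)) := hfm.pow_const _
  have hx0x : dist x0 x ≤ √(d : ℝ) * (2 : ℝ) ^ j := Q_dist hx0 hx
  -- the second part
  have hD : ∀ y ∈ (Q j a : Set (E d)), ∑ k : S, ‖cv (dl ψ k) (Bᶜ.indicator f) y -
      cv (dl ψ k) (Bᶜ.indicator f) x0‖ₑ ≤ ENNReal.ofReal (C' * C3 * C5) * M ^ (1 / 2 : ℝ) := by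
    intro y hy
    have hyx0 : dist x0 y ≤ √(d : ℝ) * (2 : ℝ) ^ j := Q_dist hx0 hy
    have e1 : ∀ k : S, ‖cv (dl ψ k) (Bᶜ.indicator f) y - cv (dl ψ k) (Bᶜ.indicator f) x0‖ₑ ≤
        ∫⁻ w, ‖dl ψ k (x0 - w) - dl ψ k (y - w)‖ₑ * ‖Bᶜ.indicator f w‖ₑ := by
      intro k
      unfold cv
      rw [← integral_sub (C3_cv_int ψ k hf2 y) (C3_cv_int ψ k hf2 x0)]
      refine (enorm_integral_le_lintegral_enorm _).trans (le_of_eq ?_)
      refine lintegral_congr fun w => ?_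
      rw [← sub_mul, enorm_mul, ← enorm_neg, neg_sub]
    have e2 : ∑ k : S, ∫⁻ w, ‖dl ψ k (x0 - w) - dl ψ k (y - w)‖ₑ * ‖Bᶜ.indicator f w‖ₑ =
        ∫⁻ w, (∑ k ∈ S, ‖dl ψ k (x0 - w) - dl ψ k (y - w)‖ₑ) * ‖Bᶜ.indicator f w‖ₑ := by
      have hm : ∀ k : ℤ, Measurable
          (fun w : E d => ‖dl ψ k (x0 - w) - dl ψ k (y - w)‖ₑ * ‖Bᶜ.indicator f w‖ₑ) := by
        intro k
        refine Measurable.mul ?_ hf2.meas.enorm
        exact (((C3_dl_cont ψ k).comp (continuous_const.sub continuous_id)).sub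
          ((C3_dl_cont ψ k).comp (continuous_const.sub continuous_id))).enorm.measurable
      rw [Finset.sum_coe_sort S (fun k => ∫⁻ w, ‖dl ψ k (x0 - w) - dl ψ k (y - w)‖ₑ *
        ‖Bᶜ.indicator f w‖ₑ), ← lintegral_finsetSum S fun k _ => hm k]
      refine lintegral_congr fun w => ?_
      rw [Finset.sum_mul]
    have e3 : ∀ w : E d, (∑ k ∈ S, ‖dl ψ k (x0 - w) - dl ψ k (y - w)‖ₑ) * ‖Bᶜ.indicator f w‖ₑ ≤
        ENNReal.ofReal C' * (ENNReal.ofReal (wk (-j) (x - w)) * ‖f w‖ₑ) := by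
      intro w
      by_cases hw : w ∈ B
      · have h0 : Bᶜ.indicator f w = 0 := Set.indicator_of_notMem (Set.notMem_compl_iff.2 hw) f
        rw [h0, enorm_zero, mul_zero]
        exact zero_le
      · have h0 : Bᶜ.indicator f w = f w := Set.indicator_of_mem hw f
        rw [h0, ← mul_assoc]
        refine mul_le_mul_left ?_ _
        have hw1 : (4 * √(d : ℝ) + 4) * (2 : ℝ) ^ j < ‖x0 - w‖ := by
          rw [hB, mem_closedBall, not_le, dist_comm, dist_eq_norm] at hw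
          exact hw
        have hw0 : 0 < ‖x0 - w‖ := lt_of_le_of_lt (by positivity) hw1
        have hu : x0 - w ≠ 0 := norm_pos_iff.1 hw0
        have huv : (x0 - w) - (y - w) = x0 - y := by abel
        have hxy : ‖x0 - y‖ ≤ √(d : ℝ) * (2 : ℝ) ^ j := by rw [← dist_eq_norm]; exact hyx0
        have h1 := H1 S (x0 - w) (y - w) hu (by
          rw [huv]
          nlinarith [mul_nonneg hs0 h2j.le])
        rw [huv] at h1
        have h2 : ∑ k ∈ S, ‖dl ψ k (x0 - w) - dl ψ k (y - w)‖ₑ =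
            ENNReal.ofReal (∑ k ∈ S, ‖dl ψ k (x0 - w) - dl ψ k (y - w)‖) := by
          rw [ENNReal.ofReal_sum_of_nonneg fun _ _ => norm_nonneg _]
          exact Finset.sum_congr rfl fun k _ => (ofReal_norm _).symm
        rw [h2, ← ENNReal.ofReal_mul hC'0]
        refine ENNReal.ofReal_le_ofReal (h1.trans ?_)
        -- C1 * |x0 - y| / |x0 - w|^(d+1) ≤ C' * wk (-j) (x - w)
        have h3 : ‖x - w‖ ≤ 2 * ‖x0 - w‖ := by
          have h4 : x - w = (x - x0) + (x0 - w) := by abel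
          have h5 : ‖x - x0‖ ≤ √(d : ℝ) * (2 : ℝ) ^ j := by
            rw [← dist_eq_norm, dist_comm]; exact hx0x
          rw [h4]
          refine (norm_add_le _ _).trans ?_
          nlinarith [mul_nonneg hs0 h2j.le]
        have hjj : (2 : ℝ) ^ (-j) * (2 : ℝ) ^ j = 1 := by
          rw [← zpow_add₀ (by norm_num), neg_add_cancel, zpow_zero]
        have h2nj : (0 : ℝ) < (2 : ℝ) ^ (-j) := by positivity
        have h6 : 1 + (2 : ℝ) ^ (-j) * ‖x - w‖ ≤ 3 * ((2 : ℝ) ^ (-j) * ‖x0 - w‖) := by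
          have h7 : 1 ≤ (2 : ℝ) ^ (-j) * ‖x0 - w‖ := by
            rw [← hjj]
            refine mul_le_mul_of_nonneg_left ?_ h2nj.le
            nlinarith [mul_nonneg hs0 h2j.le]
          have h8 := mul_le_mul_of_nonneg_left h3 h2nj.le
          linarith
        have h9 : ((2 : ℝ) ^ (-j)) ^ d / (3 * ((2 : ℝ) ^ (-j) * ‖x0 - w‖)) ^ (d + 1) ≤
            wk (-j) (x - w) := by
          unfold wk
          refine div_le_div_of_nonneg_left (by positivity) (by positivity) ?_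
          exact pow_le_pow_left₀ (by positivity) h6 _
        have h10 : ((2 : ℝ) ^ (-j)) ^ d / (3 * ((2 : ℝ) ^ (-j) * ‖x0 - w‖)) ^ (d + 1) =
            (2 : ℝ) ^ j / (3 ^ (d + 1) * ‖x0 - w‖ ^ (d + 1)) := by
          have h11 : ((2 : ℝ) ^ (-j)) ^ d * (2 : ℝ) ^ (-j) = ((2 : ℝ) ^ (-j)) ^ (d + 1) :=
            (pow_succ _ _).symm
          rw [mul_pow, mul_pow, ← h11]
          have h12 : (2 : ℝ) ^ j = ((2 : ℝ) ^ (-j))⁻¹ := by rw [zpow_neg, inv_inv]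
          rw [h12]
          field_simp
        calc C1 * ‖x0 - y‖ / ‖x0 - w‖ ^ (d + 1)
            ≤ C1 * (√(d : ℝ) * (2 : ℝ) ^ j) / ‖x0 - w‖ ^ (d + 1) := by gcongr
          _ = C' * ((2 : ℝ) ^ j / (3 ^ (d + 1) * ‖x0 - w‖ ^ (d + 1))) := by
              rw [hC']
              field_simp
          _ = C' * (((2 : ℝ) ^ (-j)) ^ d / (3 * ((2 : ℝ) ^ (-j) * ‖x0 - w‖)) ^ (d + 1)) := by
              rw [h10]
          _ ≤ C' * wk (-j) (x - w) := mul_le_mul_of_nonneg_left h9 hC'0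
    calc ∑ k : S, ‖cv (dl ψ k) (Bᶜ.indicator f) y - cv (dl ψ k) (Bᶜ.indicator f) x0‖ₑ
        ≤ ∑ k : S, ∫⁻ w, ‖dl ψ k (x0 - w) - dl ψ k (y - w)‖ₑ * ‖Bᶜ.indicator f w‖ₑ :=
          Finset.sum_le_sum fun k _ => e1 k
      _ = ∫⁻ w, (∑ k ∈ S, ‖dl ψ k (x0 - w) - dl ψ k (y - w)‖ₑ) * ‖Bᶜ.indicator f w‖ₑ := e2
      _ ≤ ∫⁻ w, ENNReal.ofReal C' * (ENNReal.ofReal (wk (-j) (x - w)) * ‖f w‖ₑ) :=
          lintegral_mono e3
      _ = ENNReal.ofReal C' * ∫⁻ w, ENNReal.ofReal (wk (-j) (x - w)) * ‖f w‖ₑ :=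
          lintegral_const_mul' _ _ ENNReal.ofReal_ne_top
      _ ≤ ENNReal.ofReal C' * (ENNReal.ofReal C3 * (ENNReal.ofReal C5 * M ^ (1 / 2 : ℝ))) := by
          gcongr
          exact (H3 _ hfm (-j) x).trans (mul_le_mul_right (H5 _ hfm x) _)
      _ = ENNReal.ofReal (C' * C3 * C5) * M ^ (1 / 2 : ℝ) := by
          rw [← mul_assoc, ← mul_assoc, ← ENNReal.ofReal_mul hC'0,
            ← ENNReal.ofReal_mul (by positivity)]
  -- the first part
  have hP1 : ∫⁻ y in Q j a, ‖(WithLp.toLp 2 fun k : S => cv (dl ψ k) (B.indicator f) y :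
      EuclideanSpace ℂ S)‖ₑ ≤ vl d j * (ENNReal.ofReal (√(C2 * C4)) * M ^ (1 / 2 : ℝ)) := by
    refine (C3_part1 ψ S hf1 (H2 S _ hf1) j a).trans ?_
    have g1 : ∫⁻ y, ‖B.indicator f y‖ₑ ^ (2 : ℝ) = ∫⁻ y in B, ‖f y‖ₑ ^ (2 : ℝ) := by
      rw [← lintegral_indicator hBm]
      refine lintegral_congr fun y => ?_
      by_cases hy : y ∈ B
      · rw [Set.indicator_of_mem hy, Set.indicator_of_mem hy]
      · rw [Set.indicator_of_notMem hy, Set.indicator_of_notMem hy, enorm_zero,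
          ENNReal.zero_rpow_of_pos (by norm_num)]
    have g2 : ∫⁻ y in B, ‖f y‖ₑ ^ (2 : ℝ) ≤ ENNReal.ofReal C4 * (vl d j * M) := by
      refine H4 _ hfm2 j x x0 ?_
      rw [dist_comm]
      refine hx0x.trans ?_
      refine mul_le_mul_of_nonneg_right ?_ h2j.le
      linarith
    rw [g1]
    have hv := (vl_ne (d := d) j)
    calc (vl d j) ^ (1 / 2 : ℝ) * (ENNReal.ofReal C2 * ∫⁻ y in B, ‖f y‖ₑ ^ (2 : ℝ)) ^ (1 / 2 : ℝ)
        ≤ (vl d j) ^ (1 / 2 : ℝ) *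
            (ENNReal.ofReal C2 * (ENNReal.ofReal C4 * (vl d j * M))) ^ (1 / 2 : ℝ) := by
          gcongr
      _ = (vl d j) ^ (1 / 2 : ℝ) * ((ENNReal.ofReal (C2 * C4)) ^ (1 / 2 : ℝ) *
            ((vl d j) ^ (1 / 2 : ℝ) * M ^ (1 / 2 : ℝ))) := by
          rw [← mul_assoc (ENNReal.ofReal C2), ← ENNReal.ofReal_mul hC2.le,
            ENNReal.mul_rpow_of_nonneg _ _ (by norm_num : (0 : ℝ) ≤ 1 / 2),
            ENNReal.mul_rpow_of_nonneg _ _ (by norm_num : (0 : ℝ) ≤ 1 / 2)]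
      _ = ((vl d j) ^ (1 / 2 : ℝ) * (vl d j) ^ (1 / 2 : ℝ)) *
            ((ENNReal.ofReal (C2 * C4)) ^ (1 / 2 : ℝ) * M ^ (1 / 2 : ℝ)) := by ring
      _ = vl d j * (ENNReal.ofReal (√(C2 * C4)) * M ^ (1 / 2 : ℝ)) := by
          rw [← ENNReal.rpow_add _ _ hv.1 hv.2, ENNReal.ofReal_rpow_of_nonneg (by positivity)
            (by norm_num), ← Real.sqrt_eq_rpow]
          norm_num
  have hsum : ∀ y ∈ (Q j a : Set (E d)), ‖(WithLp.toLp 2 fun k : S => cv (dl ψ k) f y :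
      EuclideanSpace ℂ S) - (WithLp.toLp 2 fun k : S => cv (dl ψ k) (Bᶜ.indicator f) x0)‖ₑ ≤
      ‖(WithLp.toLp 2 fun k : S => cv (dl ψ k) (B.indicator f) y : EuclideanSpace ℂ S)‖ₑ +
        ENNReal.ofReal (C' * C3 * C5) * M ^ (1 / 2 : ℝ) := by
    intro y hy
    have h1 : (WithLp.toLp 2 fun k : S => cv (dl ψ k) f y : EuclideanSpace ℂ S) -
        (WithLp.toLp 2 fun k : S => cv (dl ψ k) (Bᶜ.indicator f) x0) =
        (WithLp.toLp 2 fun k : S => cv (dl ψ k) (B.indicator f) y : EuclideanSpace ℂ S) +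
        (WithLp.toLp 2 fun k : S => (cv (dl ψ k) (Bᶜ.indicator f) y -
          cv (dl ψ k) (Bᶜ.indicator f) x0) : EuclideanSpace ℂ S) := by
      ext k
      simp only [PiLp.sub_apply, PiLp.add_apply]
      rw [C3_cv_add ψ k hf hBm y]
      ring
    rw [h1]
    refine (enorm_add_le _ _).trans ?_
    gcongr
    exact (C3_norm_le _).trans (hD y hy)
  calc ∫⁻ y in Q j a, ‖(WithLp.toLp 2 fun k : S => cv (dl ψ k) f y : EuclideanSpace ℂ S) -
        (WithLp.toLp 2 fun k : S => cv (dl ψ k) (Bᶜ.indicator f) x0)‖ₑ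
      ≤ ∫⁻ y in Q j a, (‖(WithLp.toLp 2 fun k : S => cv (dl ψ k) (B.indicator f) y :
          EuclideanSpace ℂ S)‖ₑ + ENNReal.ofReal (C' * C3 * C5) * M ^ (1 / 2 : ℝ)) :=
        setLIntegral_mono' (Q_meas j a) hsum
    _ = (∫⁻ y in Q j a, ‖(WithLp.toLp 2 fun k : S => cv (dl ψ k) (B.indicator f) y :
          EuclideanSpace ℂ S)‖ₑ) + ENNReal.ofReal (C' * C3 * C5) * M ^ (1 / 2 : ℝ) * vl d j := by
        rw [lintegral_add_right _ measurable_const, lintegral_const, Measure.restrict_apply_univ,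
          Q_vol]
    _ ≤ vl d j * (ENNReal.ofReal (√(C2 * C4)) * M ^ (1 / 2 : ℝ)) +
          ENNReal.ofReal (C' * C3 * C5) * M ^ (1 / 2 : ℝ) * vl d j := by
        gcongr
    _ = vl d j * (ENNReal.ofReal (√(C2 * C4) + C' * C3 * C5) * M ^ (1 / 2 : ℝ)) := by
        rw [ENNReal.ofReal_add (Real.sqrt_nonneg _) (by positivity)]
        ring

end Pool.LibRF53
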