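import Pool.Agent.LibRF53.C3
import Pool.Agent.LibRF53.A5
import Pool.Agent.LibRF53.B2

/-
PLAN (C4). SQ: FS with H = EuclideanSpace C S, g y = vec y (continuous, in L2 by cv_Bi and sq_L2; the square of the norm is the sum of the squares: EuclideanSpace.norm_eq), G x =
C (MB |f|^2 x)^(1/2), sharp hypothesis = sq_sharp; int G^q = C^q int (MB |f|^2)^(q/2) <= C int |f|^q by MB_strong with r = q/2 > 1. SQq: |cv (dl psi k) f x| <= C MB |f| x (dl_bound, conv_le_MB),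
so |h_k|^q <= |h_k|^2 (C MB |f|)^(q-2); sum over k; Hoelder with exponents q/2 and q/(q-2) (ENNReal.lintegral_mul_le_Lp_mul_Lq), SQ and MB_strong with r = q.
-/

set_option autoImplicit false

noncomputable section

open MeasureTheory Metric Set Filter

namespace Pool.LibRF53

open Pool.LibSR53

private lemma c4_vec_sq {d : ℕ} (S : Finset ℤ) (u : ℤ → E d → ℂ) (y : E d) :
    ‖(WithLp.toLp 2 fun k : S => u k y : EuclideanSpace ℂ S)‖ₑ ^ (2 : ℝ) =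
      ∑ k ∈ S, ‖u k y‖ₑ ^ (2 : ℝ) := by
  have h1 : ∀ z : ℂ, ‖z‖ₑ ^ (2 : ℝ) = ENNReal.ofReal (‖z‖ ^ 2) := by
    intro z
    rw [ENNReal.ofReal_pow (norm_nonneg z), ofReal_norm,
      show (2 : ℝ) = ((2 : ℕ) : ℝ) by norm_num, ENNReal.rpow_natCast]
  have h2 : ‖(WithLp.toLp 2 fun k : S => u k y : EuclideanSpace ℂ S)‖ₑ ^ (2 : ℝ) =
      ENNReal.ofReal (‖(WithLp.toLp 2 fun k : S => u k y : EuclideanSpace ℂ S)‖ ^ 2) := by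
    rw [ENNReal.ofReal_pow (norm_nonneg _), ofReal_norm,
      show (2 : ℝ) = ((2 : ℕ) : ℝ) by norm_num, ENNReal.rpow_natCast]
  rw [h2, EuclideanSpace.norm_sq_eq, ENNReal.ofReal_sum_of_nonneg (fun _ _ => sq_nonneg _)]
  rw [← Finset.sum_coe_sort S (fun k => ‖u k y‖ₑ ^ (2 : ℝ))]
  refine Finset.sum_congr rfl fun k _ => ?_
  rw [h1]

private lemma c4_f_two {d : ℕ} (f : E d → ℂ) (hf : Bd f) : ∫⁻ x, ‖f x‖ₑ ^ (2 : ℝ) ≠ ⊤ := by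
  obtain ⟨B, hB⟩ := hf.bdd
  obtain ⟨R, hR⟩ := hf.supp
  have hle : ∀ x, ‖f x‖ₑ ^ (2 : ℝ) ≤
      (closedBall (0 : E d) R).indicator (fun _ => ENNReal.ofReal B ^ (2 : ℝ)) x := by
    intro x
    by_cases hx : x ∈ closedBall (0 : E d) R
    · rw [Set.indicator_of_mem hx]
      refine ENNReal.rpow_le_rpow ?_ (by norm_num)
      rw [← ofReal_norm]
      exact ENNReal.ofReal_le_ofReal (hB x)
    · rw [mem_closedBall, dist_zero_right, not_le] at hx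
      rw [hR x hx]
      simp
  refine ne_top_of_le_ne_top ?_ (lintegral_mono hle)
  rw [lintegral_indicator isClosed_closedBall.measurableSet, setLIntegral_const]
  refine ENNReal.mul_ne_top ?_ measure_closedBall_lt_top.ne
  exact (ENNReal.rpow_lt_top_of_nonneg (by norm_num) ENNReal.ofReal_ne_top).ne

private lemma c4_sum_rpow (S : Finset ℤ) (a : ℤ → ENNReal) (r : ℝ) (hr : 1 ≤ r) :
    ∑ k ∈ S, a k ^ r ≤ (∑ k ∈ S, a k) ^ r := by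
  classical
  induction S using Finset.induction_on with
  | empty => simp
  | insert k S hk ih =>
    rw [Finset.sum_insert hk, Finset.sum_insert hk]
    exact (add_le_add le_rfl ih).trans (ENNReal.add_rpow_le_rpow_add _ _ hr)

theorem SQ {d : ℕ} (hd : 1 ≤ d) (ψ φ : SchwartzMap (E d) ℂ)
    (hφ : ∀ ξ, ∫ w, ex (-w) ξ * ψ w = φ ξ) (hs : ∀ ξ, φ ξ ≠ 0 → 1 / 8 ≤ ‖ξ‖ ∧ ‖ξ‖ ≤ 8)
    (q : ℝ) (hq : 2 < q) : ∃ C : ℝ, 0 < C ∧ ∀ (S : Finset ℤ) (f : E d → ℂ), Bd f →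
    ∫⁻ x, (∑ k ∈ S, ‖cv (dl ψ k) f x‖ₑ ^ (2 : ℝ)) ^ (q / 2) ≤
      ENNReal.ofReal C * ∫⁻ x, ‖f x‖ₑ ^ q := by
  obtain ⟨C1, hC1, H1⟩ := FS d hd q hq
  obtain ⟨C2, hC2, H2⟩ := sq_sharp ψ φ hφ hs
  obtain ⟨C3, hC3, H3⟩ := MB_strong d hd (q / 2) (by linarith)
  obtain ⟨C4, hC4, H4⟩ := sq_L2 ψ φ hφ hs
  refine ⟨C1 * (C2 ^ q * C3), by positivity, ?_⟩
  intro S f hf
  set g : E d → EuclideanSpace ℂ S :=
    fun y => WithLp.toLp 2 fun k : S => cv (dl ψ k) f y with hg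
  have hgc : Continuous g :=
    (PiLp.continuous_toLp 2 _).comp (continuous_pi fun k => (cv_Bi ψ k f hf).cont)
  have hgsq : ∀ y, ‖g y‖ₑ ^ (2 : ℝ) = ∑ k ∈ S, ‖cv (dl ψ k) f y‖ₑ ^ (2 : ℝ) :=
    fun y => c4_vec_sq S (fun k => cv (dl ψ k) f) y
  have hmk : ∀ k, Measurable fun y => ‖cv (dl ψ k) f y‖ₑ ^ (2 : ℝ) := fun k =>
    ((cv_Bi ψ k f hf).cont.measurable.enorm).pow_const _
  have hg2 : ∫⁻ x, ‖g x‖ₑ ^ (2 : ℝ) ≠ ⊤ := by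
    have : ∫⁻ x, ‖g x‖ₑ ^ (2 : ℝ) = ∑ k ∈ S, ∫⁻ x, ‖cv (dl ψ k) f x‖ₑ ^ (2 : ℝ) := by
      rw [← lintegral_finsetSum S fun k _ => hmk k]
      exact lintegral_congr hgsq
    rw [this]
    exact ne_top_of_le_ne_top (ENNReal.mul_ne_top ENNReal.ofReal_ne_top (c4_f_two f hf)) (H4 S f hf)
  have hfm : Measurable fun y => ‖f y‖ₑ ^ (2 : ℝ) := (hf.meas.enorm).pow_const _
  set G : E d → ENNReal := fun x =>
    ENNReal.ofReal C2 * (MB (fun y => ‖f y‖ₑ ^ (2 : ℝ)) x) ^ (1 / 2 : ℝ) with hG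
  have hGm : Measurable G := ((MB_meas _ hfm).pow_const _).const_mul _
  have hFS := H1 (EuclideanSpace ℂ S) g hgc hg2 G hGm (H2 S f hf)
  have hq0 : 0 ≤ q := by linarith
  calc ∫⁻ x, (∑ k ∈ S, ‖cv (dl ψ k) f x‖ₑ ^ (2 : ℝ)) ^ (q / 2)
      = ∫⁻ x, ‖g x‖ₑ ^ q := by
        refine lintegral_congr fun x => ?_
        rw [← hgsq, ← ENNReal.rpow_mul]
        congr 1
        ring
    _ ≤ ENNReal.ofReal C1 * ∫⁻ x, G x ^ q := hFS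
    _ = ENNReal.ofReal C1 * (ENNReal.ofReal C2 ^ q *
          ∫⁻ x, MB (fun y => ‖f y‖ₑ ^ (2 : ℝ)) x ^ (q / 2)) := by
        rw [← lintegral_const_mul _ ((MB_meas _ hfm).pow_const _)]
        congr 1
        refine lintegral_congr fun x => ?_
        rw [hG, ENNReal.mul_rpow_of_nonneg _ _ hq0, ← ENNReal.rpow_mul]
        congr 2
        ring
    _ ≤ ENNReal.ofReal C1 * (ENNReal.ofReal C2 ^ q *
          (ENNReal.ofReal C3 * ∫⁻ x, (‖f x‖ₑ ^ (2 : ℝ)) ^ (q / 2))) := by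
        gcongr
        exact H3 _ hfm
    _ = ENNReal.ofReal (C1 * (C2 ^ q * C3)) * ∫⁻ x, ‖f x‖ₑ ^ q := by
        have h1 : ∀ x, (‖f x‖ₑ ^ (2 : ℝ)) ^ (q / 2) = ‖f x‖ₑ ^ q := by
          intro x
          rw [← ENNReal.rpow_mul]
          congr 1
          ring
        rw [lintegral_congr h1, ENNReal.ofReal_mul hC1.le, ENNReal.ofReal_mul (by positivity),
          ENNReal.ofReal_rpow_of_pos hC2]
        simp only [mul_assoc]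

theorem SQq {d : ℕ} (hd : 1 ≤ d) (ψ φ : SchwartzMap (E d) ℂ)
    (hφ : ∀ ξ, ∫ w, ex (-w) ξ * ψ w = φ ξ) (hs : ∀ ξ, φ ξ ≠ 0 → 1 / 8 ≤ ‖ξ‖ ∧ ‖ξ‖ ≤ 8)
    (q : ℝ) (hq : 2 < q) : ∃ C : ℝ, 0 < C ∧ ∀ (S : Finset ℤ) (f : E d → ℂ), Bd f →
    ∑ k ∈ S, ∫⁻ x, ‖cv (dl ψ k) f x‖ₑ ^ q ≤ ENNReal.ofReal C * ∫⁻ x, ‖f x‖ₑ ^ q := by
  obtain ⟨C, hC, H⟩ := SQ hd ψ φ hφ hs q hq
  refine ⟨C, hC, fun S f hf => ?_⟩
  have hmk : ∀ k, Measurable fun y => ‖cv (dl ψ k) f y‖ₑ ^ q := fun k =>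
    ((cv_Bi ψ k f hf).cont.measurable.enorm).pow_const _
  rw [← lintegral_finsetSum S fun k _ => hmk k]
  refine le_trans (lintegral_mono fun x => ?_) (H S f hf)
  have h1 : ∀ k, ‖cv (dl ψ k) f x‖ₑ ^ q = (‖cv (dl ψ k) f x‖ₑ ^ (2 : ℝ)) ^ (q / 2) := by
    intro k
    rw [← ENNReal.rpow_mul]
    congr 1
    ring
  calc ∑ k ∈ S, ‖cv (dl ψ k) f x‖ₑ ^ q
      = ∑ k ∈ S, (‖cv (dl ψ k) f x‖ₑ ^ (2 : ℝ)) ^ (q / 2) := Finset.sum_congr rfl fun k _ => h1 k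
    _ ≤ _ := c4_sum_rpow S (fun k => ‖cv (dl ψ k) f x‖ₑ ^ (2 : ℝ)) (q / 2) (by linarith)

end Pool.LibRF53
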