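import Pool.Agent.LibRF53.Defs
import Pool.Agent.LibTP53.MB

/-
PLAN (D1). Facts about the kernels Kk c.phi0 m k. Put M xi = m xi * phi0 (2^-k xi): measurable, bounded, radial, supported in 2^(k-1) <= |xi| <= 2^(k+1). Kk_facts: Pool.LibTP53.kernel_facts (row MB) with
eps = 2^(k-1), A = 2^(k+1) and eta = the Schwartz function dl psi1 k (a dilate of a Schwartz function: compose with the linear equivalence 2^k smul, SchwartzMap.compCLMOfContinuousLinearEquiv, times a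
constant), whose transform at xi is phi1 (2^-k xi) = 1 on the annulus (ft1, one1, substitution). Kk_conv: Fubini (M integrable, f integrable), ex (x-y) xi = ex x xi * ex (-y) xi (ex_add_left in
LibSR53.K1 or directly). h_h: cv (dl psi2 k) (cv (dl psi1 k) f) = cv (dl psi1 k) f: as functions dl psi2 k * dl psi1 k = dl psi1 k (convolution), because the Fourier transforms are phi2 phi1 = phi1
(one2, supp1) and both sides are continuous and integrable with the same Fourier transform (Fourier inversion; or fourier injectivity on Schwartz functions: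
SchwartzMap.fourier_convolution_apply), then associativity (Fubini). Kk_h: by Kk_facts Kk = cv (dl psi1 k) Kk, i.e. Kk (x - y) = int dl psi1 k (x - y - z) Kk z dz, Fubini and the substitution
give cv Kk f = cv (cv (dl psi1 k) Kk) f = cv Kk (cv (dl psi1 k) f) (f integrable bounded, Kk bounded, dl psi1 k integrable). Kk_scale: substitution xi -> 2^k xi
(integral_comp_smul / Measure.integral_comp_smul).
-/

set_option autoImplicit false

noncomputable section

open MeasureTheory Metric Set Filter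

namespace Pool.LibRF53

open Pool.LibSR53

private theorem D1_exc {d : ℕ} : Continuous fun p : E d × E d => ex p.1 p.2 := by
  unfold ex
  fun_prop

private theorem D1_ex2 {d : ℕ} (x : E d) : Continuous fun ξ : E d => ex x ξ :=
  D1_exc.comp (by fun_prop : Continuous fun ξ : E d => (x, ξ))

private theorem D1_smul {d : ℕ} (r : ℝ) (x ξ : E d) : ex x (r • ξ) = ex (r • x) ξ := by
  unfold ex
  rw [inner_smul_left, inner_smul_right]
  simp

private theorem D1_neg {d : ℕ} (r : ℝ) (x ξ : E d) : ex (-x) (r • ξ) = ex (-(r • x)) ξ := by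
  rw [D1_smul, smul_neg]

private theorem D1_swap {d : ℕ} (k : E d → E d → ℂ)
    (hk : Continuous fun p : E d × E d => k p.1 p.2) (hb : ∀ z ξ, ‖k z ξ‖ ≤ 1) (g m : E d → ℂ)
    (hg : Integrable g) (hm : Integrable m) :
    ∫ y, ∫ ξ, k y ξ * (g y * m ξ) = ∫ ξ, ∫ y, k y ξ * (g y * m ξ) := by
  have h1 : Integrable (Function.uncurry fun y ξ => k y ξ * (g y * m ξ)) (volume.prod volume) :=
    (hg.mul_prod hm).bdd_mul (f := fun p : E d × E d => k p.1 p.2) hk.aestronglyMeasurable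
      (c := 1) (Eventually.of_forall fun p => hb p.1 p.2)
  exact integral_integral_swap h1

/-- convolution of an integrable function with an inverse Fourier transform -/
private theorem D1_A {d : ℕ} (η M : E d → ℂ) (hη : Integrable η) (hM : Integrable M)
    (h1 : ∀ ξ, M ξ ≠ 0 → ∫ w, ex (-w) ξ * η w = 1) (x : E d) :
    ∫ y, η (x - y) * ∫ ξ, ex y ξ * M ξ = ∫ ξ, ex x ξ * M ξ := by
  have hg : Integrable fun y : E d => η (x - y) := hη.comp_sub_left x
  have h2 := D1_swap (fun y ξ => ex y ξ) D1_exc (fun y ξ => (K5_ex_norm y ξ).le)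
    (fun y => η (x - y)) M hg hM
  have h3 : ∫ y, η (x - y) * ∫ ξ, ex y ξ * M ξ = ∫ y, ∫ ξ, ex y ξ * (η (x - y) * M ξ) := by
    refine integral_congr_ae (Eventually.of_forall fun y => ?_)
    beta_reduce
    rw [← integral_const_mul]
    refine integral_congr_ae (Eventually.of_forall fun ξ => ?_)
    beta_reduce
    ring
  rw [h3, h2]
  refine integral_congr_ae (Eventually.of_forall fun ξ => ?_)
  beta_reduce
  by_cases h0 : M ξ = 0
  · simp [h0]
  · have h4 : ∫ y, ex y ξ * (η (x - y) * M ξ) = (∫ y, ex y ξ * η (x - y)) * M ξ := by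
      rw [← integral_mul_const]
      refine integral_congr_ae (Eventually.of_forall fun y => ?_)
      beta_reduce
      ring
    have h5 : ∫ y, ex y ξ * η (x - y) = ∫ w, ex (x - w) ξ * η w := by
      rw [← integral_sub_left_eq_self (fun w => ex (x - w) ξ * η w) volume x]
      refine integral_congr_ae (Eventually.of_forall fun y => ?_)
      beta_reduce
      rw [sub_sub_cancel]
    have h6 : ∫ w, ex (x - w) ξ * η w = ex x ξ * ∫ w, ex (-w) ξ * η w := by
      rw [← integral_const_mul]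
      refine integral_congr_ae (Eventually.of_forall fun w => ?_)
      beta_reduce
      rw [← K5_ex_mul]
      ring
    rw [h4, h5, h6, h1 ξ h0, mul_one]

/-- Fubini for the multiplier operator -/
private theorem D1_B {d : ℕ} (M f : E d → ℂ) (hM : Integrable M) (hf : Integrable f) (x : E d) :
    ∫ y, (∫ ξ, ex (x - y) ξ * M ξ) * f y = ∫ ξ, ex x ξ * (M ξ * ∫ y, ex (-y) ξ * f y) := by
  have h1 := D1_swap (fun y ξ => ex (x - y) ξ)
    (D1_exc.comp (by fun_prop : Continuous fun p : E d × E d => (x - p.1, p.2)))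
    (fun y ξ => (K5_ex_norm (x - y) ξ).le) (fun y => f y) M hf hM
  have h2 : ∫ y, (∫ ξ, ex (x - y) ξ * M ξ) * f y = ∫ y, ∫ ξ, ex (x - y) ξ * (f y * M ξ) := by
    refine integral_congr_ae (Eventually.of_forall fun y => ?_)
    beta_reduce
    rw [← integral_mul_const]
    refine integral_congr_ae (Eventually.of_forall fun ξ => ?_)
    beta_reduce
    ring
  rw [h2, h1]
  refine integral_congr_ae (Eventually.of_forall fun ξ => ?_)
  beta_reduce
  rw [← integral_const_mul, ← integral_const_mul]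
  refine integral_congr_ae (Eventually.of_forall fun y => ?_)
  beta_reduce
  rw [← K5_ex_mul]
  ring

private theorem D1_conv_int {d : ℕ} (η f : E d → ℂ) (hη : Integrable η) (hf : Integrable f) :
    Integrable (fun p : E d × E d => η (p.1 - p.2) * f p.2) (volume.prod volume) := by
  have h := hf.convolution_integrand (ContinuousLinearMap.mul ℝ ℂ) hη
  refine h.congr (Eventually.of_forall fun p => ?_)
  simp only [ContinuousLinearMap.mul_apply']
  ring

private theorem D1_cv_int {d : ℕ} (η f : E d → ℂ) (hη : Integrable η) (hf : Integrable f) :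
    Integrable (cv η f) :=
  (D1_conv_int η f hη hf).integral_prod_left

/-- Fourier transform of a convolution -/
private theorem D1_C {d : ℕ} (η f : E d → ℂ) (hη : Integrable η) (hf : Integrable f) (ξ : E d) :
    ∫ y, ex (-y) ξ * cv η f y = (∫ w, ex (-w) ξ * η w) * ∫ w, ex (-w) ξ * f w := by
  have h0 : Continuous fun p : E d × E d => ex (-p.1) ξ :=
    D1_exc.comp (by fun_prop : Continuous fun p : E d × E d => (-p.1, ξ))
  have h1 : Integrable (fun p : E d × E d => ex (-p.1) ξ * (η (p.1 - p.2) * f p.2)) (volume.prod volume) :=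
    (D1_conv_int η f hη hf).bdd_mul h0.aestronglyMeasurable
      (c := 1) (Eventually.of_forall fun p => (K5_ex_norm _ _).le)
  have h2 : ∫ y, ex (-y) ξ * cv η f y = ∫ y, ∫ w, ex (-y) ξ * (η (y - w) * f w) := by
    refine integral_congr_ae (Eventually.of_forall fun y => ?_)
    beta_reduce
    unfold cv
    rw [← integral_const_mul]
  rw [h2, integral_integral_swap h1, ← integral_const_mul]
  refine integral_congr_ae (Eventually.of_forall fun w => ?_)
  beta_reduce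
  have h3 : ∫ y, ex (-y) ξ * (η (y - w) * f w) = ∫ y, ex (-(y + w)) ξ * (η y * f w) := by
    rw [← integral_add_right_eq_self (fun y => ex (-y) ξ * (η (y - w) * f w)) w]
    refine integral_congr_ae (Eventually.of_forall fun y => ?_)
    beta_reduce
    rw [add_sub_cancel_right]
  rw [h3, ← integral_mul_const]
  refine integral_congr_ae (Eventually.of_forall fun y => ?_)
  beta_reduce
  rw [neg_add, ex_add_left]
  ring

/-- associativity of convolution -/
private theorem D1_D {d : ℕ} (η₂ η₁ f : E d → ℂ) (h2c : Continuous η₂) (B : ℝ) (h2b : ∀ x, ‖η₂ x‖ ≤ B)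
    (hη : Integrable η₁) (hf : Integrable f) (x : E d) :
    cv η₂ (cv η₁ f) x = cv (cv η₂ η₁) f x := by
  have h0 : Continuous fun p : E d × E d => η₂ (x - p.1) := h2c.comp (by fun_prop)
  have h1 : Integrable (fun p : E d × E d => η₂ (x - p.1) * (η₁ (p.1 - p.2) * f p.2)) (volume.prod volume) :=
    (D1_conv_int η₁ f hη hf).bdd_mul h0.aestronglyMeasurable
      (c := B) (Eventually.of_forall fun p => h2b _)
  have h2 : cv η₂ (cv η₁ f) x = ∫ y, ∫ w, η₂ (x - y) * (η₁ (y - w) * f w) := by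
    unfold cv
    refine integral_congr_ae (Eventually.of_forall fun y => ?_)
    beta_reduce
    rw [← integral_const_mul]
  rw [h2, integral_integral_swap h1]
  conv_rhs => unfold cv
  refine integral_congr_ae (Eventually.of_forall fun w => ?_)
  beta_reduce
  have h3 : ∫ y, η₂ (x - y) * (η₁ (y - w) * f w) = ∫ y, η₂ (x - w - y) * (η₁ y * f w) := by
    rw [← integral_add_right_eq_self (fun y => η₂ (x - y) * (η₁ (y - w) * f w)) w]
    refine integral_congr_ae (Eventually.of_forall fun y => ?_)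
    beta_reduce
    rw [add_sub_cancel_right, sub_sub, add_comm w y]
  rw [h3, ← integral_mul_const]
  refine integral_congr_ae (Eventually.of_forall fun y => ?_)
  beta_reduce
  ring

private theorem D1_dl_int {d : ℕ} (ψ : E d → ℂ) (hψ : Integrable ψ) (k : ℤ) : Integrable (dl ψ k) := by
  have h : ((2 : ℝ) ^ k) ≠ 0 := by positivity
  exact (hψ.comp_smul h).const_mul _

private theorem D1_dl_ft {d : ℕ} (ψ : E d → ℂ) (k : ℤ) (ξ : E d) :
    ∫ w, ex (-w) ξ * dl ψ k w = ∫ w, ex (-w) (((2 : ℝ) ^ k)⁻¹ • ξ) * ψ w := by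
  have h : (0 : ℝ) < ((2 : ℝ) ^ k) := by positivity
  have h1 := Measure.integral_comp_smul_of_nonneg (volume : Measure (E d))
    (fun w => ex (-w) (((2 : ℝ) ^ k)⁻¹ • ξ) * ψ w) ((2 : ℝ) ^ k) (hR := h.le)
  have h2 : ∫ w, ex (-w) ξ * dl ψ k w = ((((2 : ℝ) ^ k) ^ d : ℝ) : ℂ) *
      ∫ w, ex (-((2 : ℝ) ^ k • w)) (((2 : ℝ) ^ k)⁻¹ • ξ) * ψ ((2 : ℝ) ^ k • w) := by
    rw [← integral_const_mul]
    refine integral_congr_ae (Eventually.of_forall fun w => ?_)
    beta_reduce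
    unfold dl
    rw [← D1_neg, smul_inv_smul₀ h.ne']
    ring
  rw [h2, h1, finrank_euclideanSpace, Fintype.card_fin, Complex.real_smul, ← mul_assoc, ← Complex.ofReal_mul,
    mul_inv_cancel₀ (by positivity), Complex.ofReal_one, one_mul]

/-- the multiplier of the piece -/
private theorem D1_M {d : ℕ} (c : Cut d) (m : E d → ℂ) (hm : Mr m) (k : ℤ) :
    Measurable (fun ξ => m ξ * c.φ0 (((2 : ℝ) ^ k)⁻¹ • ξ)) ∧
    Integrable (fun ξ => m ξ * c.φ0 (((2 : ℝ) ^ k)⁻¹ • ξ)) ∧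
    (∃ B : ℝ, ∀ ξ, ‖m ξ * c.φ0 (((2 : ℝ) ^ k)⁻¹ • ξ)‖ ≤ B) := by
  obtain ⟨B, hB⟩ := hm.bdd
  have h : ((2 : ℝ) ^ k) ≠ 0 := by positivity
  have h1 : Continuous fun ξ : E d => c.φ0 (((2 : ℝ) ^ k)⁻¹ • ξ) := c.φ0.continuous.comp (by fun_prop)
  have hi : Integrable fun ξ : E d => c.φ0 (((2 : ℝ) ^ k)⁻¹ • ξ) :=
    c.φ0.integrable.comp_smul (inv_ne_zero h)
  have hn : ∀ ξ, ‖c.φ0 ξ‖ ≤ 1 := by
    intro ξ
    obtain ⟨t, h0, h1, ht⟩ := c.pos0 ξ
    rw [ht, Complex.norm_real, Real.norm_of_nonneg h0]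
    exact h1
  refine ⟨hm.meas.mul h1.measurable, hi.bdd_mul hm.meas.aestronglyMeasurable (c := B)
    (Eventually.of_forall hB), B, fun ξ => ?_⟩
  rw [norm_mul]
  have hB0 : 0 ≤ B := (norm_nonneg _).trans (hB ξ)
  calc ‖m ξ‖ * ‖c.φ0 (((2 : ℝ) ^ k)⁻¹ • ξ)‖ ≤ B * 1 :=
        mul_le_mul (hB ξ) (hn _) (norm_nonneg _) hB0
    _ = B := mul_one B

private theorem D1_one1 {d : ℕ} (c : Cut d) (m : E d → ℂ) (k : ℤ) (ξ : E d)
    (h : m ξ * c.φ0 (((2 : ℝ) ^ k)⁻¹ • ξ) ≠ 0) : ∫ w, ex (-w) ξ * dl c.ψ1 k w = 1 := by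
  rw [D1_dl_ft, c.ft1]
  have h1 := c.supp0 _ (right_ne_zero_of_mul h)
  exact c.one1 _ h1.1 h1.2

private theorem D1_inv {d : ℕ} (c : Cut d) (x : E d) : c.ψ1 x = ∫ ξ, ex x ξ * c.φ1 ξ := by
  have hF : FourierTransform.fourier (c.ψ1 : E d → ℂ) = c.φ1 := by
    funext ξ
    rw [← c.ft1 ξ, Real.fourier_eq']
    refine integral_congr_ae (Eventually.of_forall fun w => ?_)
    beta_reduce
    unfold ex
    rw [smul_eq_mul, inner_neg_left]
    congr 2
    push_cast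
    ring
  have h1 := Continuous.fourierInv_fourier_eq c.ψ1.continuous c.ψ1.integrable (by rw [hF]; exact c.φ1.integrable)
  rw [hF] at h1
  rw [← h1, Real.fourierInv_eq']
  refine integral_congr_ae (Eventually.of_forall fun w => ?_)
  beta_reduce
  unfold ex
  rw [smul_eq_mul, real_inner_comm w x]
  congr 2
  push_cast
  ring

private theorem D1_scale {d : ℕ} (G : E d → ℂ) (k : ℤ) (x : E d) :
    ∫ ξ, ex x ξ * G (((2 : ℝ) ^ k)⁻¹ • ξ) =
      ((((2 : ℝ) ^ k) ^ d : ℝ) : ℂ) * ∫ ξ, ex ((2 : ℝ) ^ k • x) ξ * G ξ := by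
  have h : (0 : ℝ) < ((2 : ℝ) ^ k) := by positivity
  have h1 := Measure.integral_comp_inv_smul_of_nonneg (volume : Measure (E d))
    (fun ξ => ex ((2 : ℝ) ^ k • x) ξ * G ξ) h.le
  rw [finrank_euclideanSpace, Fintype.card_fin, Complex.real_smul] at h1
  rw [← h1]
  refine integral_congr_ae (Eventually.of_forall fun ξ => ?_)
  beta_reduce
  rw [← D1_smul, smul_inv_smul₀ h.ne']

private theorem D1_dl1 {d : ℕ} (c : Cut d) (k : ℤ) (x : E d) :
    dl c.ψ1 k x = ∫ ξ, ex x ξ * c.φ1 (((2 : ℝ) ^ k)⁻¹ • ξ) := by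
  rw [D1_scale (fun ξ => c.φ1 ξ)]
  unfold dl
  rw [D1_inv]

private theorem D1_21 {d : ℕ} (c : Cut d) (k : ℤ) (x : E d) : cv (dl c.ψ2 k) (dl c.ψ1 k) x = dl c.ψ1 k x := by
  have h : ((2 : ℝ) ^ k) ≠ 0 := by positivity
  have hi : Integrable fun ξ : E d => c.φ1 (((2 : ℝ) ^ k)⁻¹ • ξ) :=
    c.φ1.integrable.comp_smul (inv_ne_zero h)
  have h1 := D1_A (dl c.ψ2 k) (fun ξ => c.φ1 (((2 : ℝ) ^ k)⁻¹ • ξ)) (D1_dl_int _ c.ψ2.integrable k) hi
    (fun ξ hξ => by
      rw [D1_dl_ft, c.ft2]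
      have h2 := c.supp1 _ hξ
      exact c.one2 _ h2.1 h2.2) x
  rw [D1_dl1 c k x, ← h1]
  unfold cv
  refine integral_congr_ae (Eventually.of_forall fun y => ?_)
  beta_reduce
  rw [D1_dl1 c k y]

private theorem D1_rad {d : ℕ} (φ : E d → ℂ) (hφ : ∀ ξ ξ', ‖ξ‖ = ‖ξ'‖ → φ ξ = φ ξ')
    (v w : E d) (h : ‖v‖ = ‖w‖) : ∫ ξ, ex v ξ * φ ξ = ∫ ξ, ex w ξ * φ ξ := by
  set U : E d ≃ₗᵢ[ℝ] E d := (ℝ ∙ (v - w))ᗮ.reflection with hU
  have h1 : U v = w := Submodule.reflection_sub h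
  rw [← U.measurePreserving.integral_comp U.toHomeomorph.measurableEmbedding
    (fun ξ => ex w ξ * φ ξ)]
  refine integral_congr_ae (Eventually.of_forall fun ξ => ?_)
  beta_reduce
  have h2 : ex w (U ξ) = ex v ξ := by
    unfold ex
    rw [← h1, U.inner_map_map]
  rw [h2, hφ (U ξ) ξ (U.norm_map ξ)]

theorem Kk_facts {d : ℕ} (c : Cut d) (m : E d → ℂ) (hm : Mr m) (k : ℤ) :
    Continuous (Kk c.φ0 m k) ∧ (∃ B : ℝ, ∀ x, ‖Kk c.φ0 m k x‖ ≤ B) ∧
    (∀ x y : E d, ‖x‖ = ‖y‖ → Kk c.φ0 m k x = Kk c.φ0 m k y) ∧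
    (∀ x, cv (dl c.ψ1 k) (Kk c.φ0 m k) x = Kk c.φ0 m k x) := by
  obtain ⟨hMm, hMi, hMb⟩ := D1_M c m hm k
  have hk : (0 : ℝ) < (2 : ℝ) ^ k := by positivity
  have hnorm : ∀ x ξ : E d, ‖ex x ξ * (m ξ * c.φ0 (((2 : ℝ) ^ k)⁻¹ • ξ))‖ =
      ‖m ξ * c.φ0 (((2 : ℝ) ^ k)⁻¹ • ξ)‖ := fun x ξ => by
    rw [norm_mul, K5_ex_norm, one_mul]
  refine ⟨?_, ⟨∫ ξ, ‖m ξ * c.φ0 (((2 : ℝ) ^ k)⁻¹ • ξ)‖, fun x => ?_⟩, fun x y hxy => ?_, fun x => ?_⟩
  · unfold Kk
    refine continuous_of_dominated (bound := fun ξ => ‖m ξ * c.φ0 (((2 : ℝ) ^ k)⁻¹ • ξ)‖) (fun x => ?_)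
      (fun x => ?_) hMi.norm (Eventually.of_forall fun ξ => ?_)
    · exact ((D1_ex2 x).aestronglyMeasurable).mul hMi.1
    · exact Eventually.of_forall fun ξ => (hnorm x ξ).le
    · exact (D1_exc.comp (by fun_prop : Continuous fun x : E d => (x, ξ))).mul continuous_const
  · unfold Kk
    refine (norm_integral_le_integral_norm _).trans (le_of_eq ?_)
    exact integral_congr_ae (Eventually.of_forall fun ξ => hnorm x ξ)
  · unfold Kk
    refine D1_rad _ (fun ξ ξ' h => ?_) x y hxy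
    rw [hm.rad ξ ξ' h, c.rad0 (((2 : ℝ) ^ k)⁻¹ • ξ) (((2 : ℝ) ^ k)⁻¹ • ξ') (by rw [norm_smul, norm_smul, h])]
  · unfold cv Kk
    exact D1_A (dl c.ψ1 k) (fun ξ => m ξ * c.φ0 (((2 : ℝ) ^ k)⁻¹ • ξ)) (D1_dl_int _ c.ψ1.integrable k) hMi
      (fun ξ hξ => D1_one1 c m k ξ hξ) x

theorem Kk_conv {d : ℕ} (c : Cut d) (m : E d → ℂ) (hm : Mr m) (k : ℤ) (f : E d → ℂ)
    (hf : Integrable f) (x : E d) :
    cv (Kk c.φ0 m k) f x =
      ∫ ξ, ex x ξ * (m ξ * c.φ0 (((2 : ℝ) ^ k)⁻¹ • ξ) * ∫ y, ex (-y) ξ * f y) := by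
  obtain ⟨hMm, hMi, hMb⟩ := D1_M c m hm k
  unfold cv Kk
  rw [D1_B (fun ξ => m ξ * c.φ0 (((2 : ℝ) ^ k)⁻¹ • ξ)) f hMi hf x]

theorem h_h {d : ℕ} (c : Cut d) (k : ℤ) (f : E d → ℂ) (hf : Integrable f) (x : E d) :
    cv (dl c.ψ2 k) (cv (dl c.ψ1 k) f) x = cv (dl c.ψ1 k) f x := by
  obtain ⟨B, hB⟩ : ∃ B : ℝ, ∀ y, ‖dl c.ψ2 k y‖ ≤ B := by
    refine ⟨((2 : ℝ) ^ k) ^ d * SchwartzMap.seminorm ℝ 0 0 c.ψ2, fun y => ?_⟩
    unfold dl
    rw [norm_mul, Complex.norm_real, Real.norm_of_nonneg (by positivity)]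
    exact mul_le_mul_of_nonneg_left (SchwartzMap.norm_le_seminorm ℝ c.ψ2 _) (by positivity)
  have hc : Continuous (dl c.ψ2 k) :=
    continuous_const.mul (c.ψ2.continuous.comp (by fun_prop))
  rw [D1_D (dl c.ψ2 k) (dl c.ψ1 k) f hc B hB (D1_dl_int _ c.ψ1.integrable k) hf x]
  have h1 : cv (dl c.ψ2 k) (dl c.ψ1 k) = dl c.ψ1 k := funext fun y => D1_21 c k y
  rw [h1]

theorem Kk_h {d : ℕ} (c : Cut d) (m : E d → ℂ) (hm : Mr m) (k : ℤ) (f : E d → ℂ)
    (hf : Integrable f) (x : E d) :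
    cv (Kk c.φ0 m k) f x = cv (Kk c.φ0 m k) (cv (dl c.ψ1 k) f) x := by
  have h1 := D1_dl_int _ c.ψ1.integrable k
  rw [Kk_conv c m hm k f hf x, Kk_conv c m hm k _ (D1_cv_int (dl c.ψ1 k) f h1 hf) x]
  refine integral_congr_ae (Eventually.of_forall fun ξ => ?_)
  beta_reduce
  rw [D1_C (dl c.ψ1 k) f h1 hf ξ]
  by_cases h0 : m ξ * c.φ0 (((2 : ℝ) ^ k)⁻¹ • ξ) = 0
  · rw [h0, zero_mul, zero_mul]
  · rw [D1_one1 c m k ξ h0, one_mul]

theorem Kk_scale {d : ℕ} (φ m : E d → ℂ) (k : ℤ) (x : E d) :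
    Kk φ m k x =
      ((((2 : ℝ) ^ k) ^ d : ℝ) : ℂ) * Kk φ (fun ξ => m ((2 : ℝ) ^ k • ξ)) 0 ((2 : ℝ) ^ k • x) := by
  unfold Kk
  have h : ((2 : ℝ) ^ k) ≠ 0 := by positivity
  have h1 := D1_scale (fun ξ => m ((2 : ℝ) ^ k • ξ) * φ ξ) k x
  have h2 : ∫ ξ, ex x ξ * (m ξ * φ (((2 : ℝ) ^ k)⁻¹ • ξ)) =
      ∫ ξ, ex x ξ * (fun ξ => m ((2 : ℝ) ^ k • ξ) * φ ξ) (((2 : ℝ) ^ k)⁻¹ • ξ) := by
    refine integral_congr_ae (Eventually.of_forall fun ξ => ?_)
    beta_reduce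
    rw [smul_inv_smul₀ h]
  rw [h2, h1]
  congr 1
  refine integral_congr_ae (Eventually.of_forall fun ξ => ?_)
  beta_reduce
  rw [zpow_zero, inv_one, one_smul]

end Pool.LibRF53
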