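import Pool.Agent.LibRF53.Defs
import Pool.Agent.LibSR53.K4
import Pool.Agent.LibWaveDir.Plancherel

/-
PLAN (D2). Pairing with radial functions. M bounded, radial, supported in 1/2 <= |xi| <= 2, w likewise. g v = int ex v xi * w xi; by radial_avg (LibSR53.K4) |g v| <= C int |w xi| (1 + |v||xi|)^(-nu d)
<= C' (1+|v|)^(-nu d) int |w|, and (1+|v|)^(-nu d) is in L^q, q = p/(p-1), because q nu > d, i.e. q (d-1)/2 > d, equivalent to p < 2 d/(d+1) (integrable_one_add_norm or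
integrable_rpow_neg_one_add...). Multiplication formula with Gaussian regularisation: for t > 0 put u_t x = g (-x) * exp (-pi t |x|^2), integrable; K x = int ex x xi M xi; int K u_t =
int M(xi) (int ex x xi u_t x dx) dxi (Fubini), and int ex x xi u_t x dx = int w(zeta) G_t (xi - zeta) dzeta with the Gaussian kernel G_t y = t^(-d/2) exp (-pi |y|^2 / t) (Fourier transform of a
Gaussian: fourier_gaussian_innerProductSpace or integral_cexp_neg_mul_sq_norm_add...), and int M(xi) w(zeta) G_t(xi - zeta) -> int M w as t -> 0 (approximate identity: M bounded with bounded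
support, w integrable: the convolution G_t * w tends to w in L1, or a.e. by a Lebesgue argument; or use w continuous first ... any proof; alternatively L2 Plancherel via
Pool.Agent.LibWaveDir.fourier_ae_eq and inner_fourier_eq). |int K u_t| <= |K|_p |u_t|_q <= N C'' int |w| for all t.
-/

set_option autoImplicit false

noncomputable section

open MeasureTheory Metric Set Filter

namespace Pool.LibRF53

open Pool.LibSR53

open scoped FourierTransform InnerProductSpace in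
private theorem D2_int {d : ℕ} (M : E d → ℂ) (hM : Mr M)
    (hs : ∀ ξ, M ξ ≠ 0 → 1 / 2 ≤ ‖ξ‖ ∧ ‖ξ‖ ≤ 2) : Integrable M ∧ MemLp M 2 := by
  obtain ⟨B, hB⟩ := hM.bdd
  have hmeas : AEStronglyMeasurable M volume := hM.meas.aestronglyMeasurable
  have hint : Integrable M := by
    have h1 : IntegrableOn M (closedBall 0 2) :=
      Measure.integrableOn_of_bounded (M := B) (measure_closedBall_lt_top.ne) hmeas
        (ae_of_all _ hB)
    rw [← integrableOn_iff_integrable_of_support_subset (s := closedBall 0 2)]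
    · exact h1
    · intro ξ hξ
      rw [mem_closedBall_zero_iff]
      exact (hs ξ hξ).2
  refine ⟨hint, (memLp_two_iff_integrable_sq_norm hmeas).2 ?_⟩
  refine (hint.norm.const_mul B).mono' (hmeas.norm.pow 2) (ae_of_all _ fun ξ => ?_)
  rw [Real.norm_eq_abs, abs_of_nonneg (sq_nonneg _), sq]
  exact mul_le_mul_of_nonneg_right (hB ξ) (norm_nonneg _)

open scoped FourierTransform InnerProductSpace in
private theorem D2_four {d : ℕ} (w : E d → ℂ) (x : E d) : 𝓕 w x = ∫ ξ, ex (-x) ξ * w ξ := by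
  rw [Real.fourier_eq']
  congr 1
  funext ξ
  rw [smul_eq_mul]
  congr 1
  unfold ex
  congr 1
  rw [inner_neg_left, real_inner_comm]
  push_cast
  ring

open scoped FourierTransform InnerProductSpace in
private theorem D2_pars {d : ℕ} (M w : E d → ℂ) (hM1 : Integrable M) (hM2 : MemLp M 2)
    (hw1 : Integrable w) (hw2 : MemLp w 2) :
    ∫ ξ, M ξ * w ξ = ∫ x, (∫ ξ, ex x ξ * M ξ) * 𝓕 w x := by
  set M' : E d → ℂ := fun ξ => (starRingEnd ℂ) (M ξ) with hM'
  have hm' : AEStronglyMeasurable M' volume :=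
    Complex.continuous_conj.comp_aestronglyMeasurable hM1.1
  have hM'1 : Integrable M' := hM1.mono hm' (ae_of_all _ fun ξ => by
    rw [hM']; simp)
  have hM'2 : MemLp M' 2 := hM2.of_le hm' (ae_of_all _ fun ξ => by
    rw [hM']; simp)
  have h1 := Lp.inner_fourier_eq (hM'2.toLp M') (hw2.toLp w)
  rw [L2.inner_def, L2.inner_def] at h1
  have h2 : ∫ a, (inner ℂ ((𝓕 (hM'2.toLp M') : Lp ℂ 2 (volume : Measure (E d))) a)
      ((𝓕 (hw2.toLp w) : Lp ℂ 2 (volume : Measure (E d))) a) : ℂ) =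
      ∫ x, (∫ ξ, ex x ξ * M ξ) * 𝓕 w x := by
    apply integral_congr_ae
    filter_upwards [Pool.Agent.LibWaveDir.fourier_ae_eq M' hM'1 hM'2,
      Pool.Agent.LibWaveDir.fourier_ae_eq w hw1 hw2] with x hx1 hx2
    rw [hx1, hx2, RCLike.inner_apply, mul_comm]
    congr 1
    rw [D2_four, ← integral_conj]
    congr 1
    funext ξ
    rw [hM', map_mul, Complex.conj_conj]
    congr 1
    unfold ex
    rw [← Complex.exp_conj]
    congr 1
    rw [inner_neg_left]
    simp only [map_mul, Complex.conj_I, Complex.conj_ofReal, map_ofNat]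
    push_cast
    ring
  have h3 : ∫ a, (inner ℂ (hM'2.toLp M' a) (hw2.toLp w a) : ℂ) = ∫ ξ, M ξ * w ξ := by
    apply integral_congr_ae
    filter_upwards [hM'2.coeFn_toLp, hw2.coeFn_toLp] with x hx1 hx2
    rw [hx1, hx2, RCLike.inner_apply, mul_comm, hM']
    simp
  rw [← h3, ← h1, h2]

theorem pairing (d : ℕ) (hd : 2 ≤ d) (p : ℝ) (hp1 : 1 < p)
    (hp2 : p < 2 * (d : ℝ) / ((d : ℝ) + 1)) : ∃ C : ℝ, 0 < C ∧ ∀ M w : E d → ℂ, Mr M → Mr w →
    (∀ ξ, M ξ ≠ 0 → 1 / 2 ≤ ‖ξ‖ ∧ ‖ξ‖ ≤ 2) → (∀ ξ, w ξ ≠ 0 → 1 / 2 ≤ ‖ξ‖ ∧ ‖ξ‖ ≤ 2) →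
    ∀ N : ℝ, 0 ≤ N → ∫⁻ x, ‖∫ ξ, ex x ξ * M ξ‖ₑ ^ p ≤ ENNReal.ofReal N ^ p →
    ‖∫ ξ, M ξ * w ξ‖ ≤ C * N * ∫ ξ, ‖w ξ‖ := by
  obtain ⟨C, hC, hrad⟩ := radial_avg d hd
  have hd0 : (2 : ℝ) ≤ d := by exact_mod_cast hd
  set ν : ℝ := nu d with hν
  have hν0 : 0 < ν := by
    rw [hν]; unfold nu; linarith
  set q : ℝ := p / (p - 1) with hq
  have hpq : p.HolderConjugate q := Real.HolderConjugate.conjExponent hp1
  have hq0 : 0 < q := hpq.symm.pos
  have hνq : (d : ℝ) < ν * q := by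
    have h1 : p * ((d : ℝ) + 1) < 2 * d := by
      rwa [lt_div_iff₀ (by linarith)] at hp2
    have h2 : (d : ℝ) * (p - 1) < ν * p := by
      rw [hν]; unfold nu; nlinarith
    rw [hq, mul_div_assoc', lt_div_iff₀ (by linarith)]
    exact h2
  set I : ENNReal := ∫⁻ x : E d, ENNReal.ofReal ((1 + ‖x‖) ^ (-(ν * q))) with hI
  have hIfin : I < ⊤ := by
    apply finite_integral_one_add_norm
    rw [finrank_euclideanSpace, Fintype.card_fin]
    exact hνq
  have hA : I ^ (1 / q) ≠ ⊤ := ENNReal.rpow_ne_top_of_nonneg (by positivity) hIfin.ne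
  set A : ℝ := (I ^ (1 / q)).toReal with hAdef
  refine ⟨C * 2 ^ ν * A + 1, by positivity, ?_⟩
  intro M w hM hw hMs hws N hN hK
  obtain ⟨hM1, hM2⟩ := D2_int M hM hMs
  obtain ⟨hw1, hw2⟩ := D2_int w hw hws
  set W : ℝ := ∫ ξ, ‖w ξ‖ with hW
  have hW0 : 0 ≤ W := integral_nonneg fun _ => norm_nonneg _
  -- decay of the Fourier transform of w
  have hdec : ∀ x : E d, ‖FourierTransform.fourier w x‖ ≤ C * 2 ^ ν * W * (1 + ‖x‖) ^ (-ν) := by
    intro x
    rw [D2_four]
    refine (hrad w hw1 hw.rad (-x)).trans ?_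
    have hx1 : 0 < 1 + ‖x‖ := by positivity
    have h1 : ∫ ξ, ‖w ξ‖ * (1 + ‖-x‖ * ‖ξ‖) ^ (-nu d) ≤
        ∫ ξ, ‖w ξ‖ * (2 ^ ν * (1 + ‖x‖) ^ (-ν)) := by
      apply integral_mono_of_nonneg
      · exact ae_of_all _ fun ξ => by positivity
      · exact hw1.norm.mul_const _
      · refine ae_of_all _ fun ξ => ?_
        show ‖w ξ‖ * (1 + ‖-x‖ * ‖ξ‖) ^ (-nu d) ≤ ‖w ξ‖ * (2 ^ ν * (1 + ‖x‖) ^ (-ν))
        by_cases hξ : w ξ = 0
        · simp [hξ]
        · apply mul_le_mul_of_nonneg_left _ (norm_nonneg _)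
          rw [norm_neg, ← hν]
          have h2 := (hws ξ hξ).1
          have h3 : (1 + ‖x‖) / 2 ≤ 1 + ‖x‖ * ‖ξ‖ := by
            have := mul_le_mul_of_nonneg_left h2 (norm_nonneg x)
            linarith [norm_nonneg x]
          have h4 : (1 + ‖x‖ * ‖ξ‖) ^ (-ν) ≤ ((1 + ‖x‖) / 2) ^ (-ν) :=
            Real.rpow_le_rpow_of_nonpos (by positivity) h3 (by linarith)
          refine h4.trans (le_of_eq ?_)
          rw [Real.div_rpow hx1.le (by norm_num), Real.rpow_neg (by norm_num : (0 : ℝ) ≤ 2), div_inv_eq_mul,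
            mul_comm]
    rw [integral_mul_const] at h1
    calc C * ∫ ξ, ‖w ξ‖ * (1 + ‖-x‖ * ‖ξ‖) ^ (-nu d) ≤ C * (W * (2 ^ ν * (1 + ‖x‖) ^ (-ν))) :=
          mul_le_mul_of_nonneg_left h1 hC.le
      _ = C * 2 ^ ν * W * (1 + ‖x‖) ^ (-ν) := by ring
  have hmul0 : 0 ≤ C * 2 ^ ν * W := by positivity
  -- the two norms
  have hFq : (∫⁻ x : E d, ‖FourierTransform.fourier w x‖ₑ ^ q) ^ (1 / q) ≤
      ENNReal.ofReal (C * 2 ^ ν * W) * I ^ (1 / q) := by
    have h1 : ∫⁻ x : E d, ‖FourierTransform.fourier w x‖ₑ ^ q ≤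
        ENNReal.ofReal (C * 2 ^ ν * W) ^ q * I := by
      rw [hI, ← lintegral_const_mul']
      · apply lintegral_mono
        intro x
        show ‖FourierTransform.fourier w x‖ₑ ^ q ≤
          ENNReal.ofReal (C * 2 ^ ν * W) ^ q * ENNReal.ofReal ((1 + ‖x‖) ^ (-(ν * q)))
        have h2 : ‖FourierTransform.fourier w x‖ₑ ≤
            ENNReal.ofReal (C * 2 ^ ν * W) * ENNReal.ofReal ((1 + ‖x‖) ^ (-ν)) := by
          rw [← ENNReal.ofReal_mul hmul0, ← ofReal_norm]
          exact ENNReal.ofReal_le_ofReal (hdec x)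
        refine (ENNReal.rpow_le_rpow h2 hq0.le).trans (le_of_eq ?_)
        rw [ENNReal.mul_rpow_of_nonneg _ _ hq0.le]
        congr 1
        rw [ENNReal.ofReal_rpow_of_pos (by positivity), ← Real.rpow_mul (by positivity)]
        congr 2
        ring
      · exact ENNReal.rpow_ne_top_of_nonneg hq0.le ENNReal.ofReal_ne_top
    refine (ENNReal.rpow_le_rpow h1 (by positivity)).trans (le_of_eq ?_)
    rw [ENNReal.mul_rpow_of_nonneg _ _ (by positivity), ← ENNReal.rpow_mul,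
      mul_one_div_cancel hq0.ne', ENNReal.rpow_one]
  have hKp : (∫⁻ x : E d, ‖∫ ξ, ex x ξ * M ξ‖ₑ ^ p) ^ (1 / p) ≤ ENNReal.ofReal N := by
    refine (ENNReal.rpow_le_rpow hK (by positivity)).trans (le_of_eq ?_)
    rw [← ENNReal.rpow_mul, mul_one_div_cancel (by linarith), ENNReal.rpow_one]
  have hKm : AEMeasurable (fun x : E d => ‖∫ ξ, ex x ξ * M ξ‖ₑ) volume := by
    have h1 : ∀ x : E d, ∫ ξ, ex x ξ * M ξ = FourierTransform.fourier M (-x) := by
      intro x
      rw [D2_four, neg_neg]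
    have h2 : Continuous (fun x : E d => FourierTransform.fourier M (-x)) :=
      (VectorFourier.fourierIntegral_continuous Real.continuous_fourierChar
        (by exact continuous_inner) hM1).comp continuous_neg
    simp only [h1]
    exact h2.measurable.enorm.aemeasurable
  have hFm : AEMeasurable (fun x : E d => ‖FourierTransform.fourier w x‖ₑ) volume := by
    have h2 : Continuous (fun x : E d => FourierTransform.fourier w x) :=
      (VectorFourier.fourierIntegral_continuous Real.continuous_fourierChar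
        (by exact continuous_inner) hw1)
    exact h2.measurable.enorm.aemeasurable
  have hfin : ‖∫ ξ, M ξ * w ξ‖ₑ ≤ ENNReal.ofReal N * (ENNReal.ofReal (C * 2 ^ ν * W) * I ^ (1 / q)) := by
    rw [D2_pars M w hM1 hM2 hw1 hw2]
    calc ‖∫ x, (∫ ξ, ex x ξ * M ξ) * FourierTransform.fourier w x‖ₑ
        ≤ ∫⁻ x, ‖(∫ ξ, ex x ξ * M ξ) * FourierTransform.fourier w x‖ₑ := enorm_integral_le_lintegral_enorm _
      _ = ∫⁻ x, ((fun x : E d => ‖∫ ξ, ex x ξ * M ξ‖ₑ) * (fun x : E d => ‖FourierTransform.fourier w x‖ₑ)) x := by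
          congr 1
          funext x
          rw [enorm_mul, Pi.mul_apply]
      _ ≤ (∫⁻ x : E d, ‖∫ ξ, ex x ξ * M ξ‖ₑ ^ p) ^ (1 / p) *
          (∫⁻ x : E d, ‖FourierTransform.fourier w x‖ₑ ^ q) ^ (1 / q) :=
          ENNReal.lintegral_mul_le_Lp_mul_Lq volume hpq hKm hFm
      _ ≤ _ := mul_le_mul' hKp hFq
  have hlast : ‖∫ ξ, M ξ * w ξ‖ ≤ N * (C * 2 ^ ν * W * A) := by
    have h1 : ENNReal.ofReal N * (ENNReal.ofReal (C * 2 ^ ν * W) * I ^ (1 / q)) =
        ENNReal.ofReal (N * (C * 2 ^ ν * W * A)) := by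
      rw [ENNReal.ofReal_mul hN, ENNReal.ofReal_mul hmul0, hAdef, ENNReal.ofReal_toReal hA]
    rw [h1, ← ofReal_norm] at hfin
    exact (ENNReal.ofReal_le_ofReal_iff (by positivity)).1 hfin
  have hNW : 0 ≤ N * W := mul_nonneg hN hW0
  calc ‖∫ ξ, M ξ * w ξ‖ ≤ N * (C * 2 ^ ν * W * A) := hlast
    _ = (C * 2 ^ ν * A) * (N * W) := by ring
    _ ≤ (C * 2 ^ ν * A + 1) * (N * W) := mul_le_mul_of_nonneg_right (by linarith) hNW
    _ = (C * 2 ^ ν * A + 1) * N * W := by ring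

end Pool.LibRF53
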