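import Pool.Agent.LibRF53.D2

/-
PLAN (D3). For k : Z put M xi = m (2^k xi) phi0 xi (radial, bounded, support in the annulus; Kk phi0 (m (2^k .)) 0 x = int ex x xi M xi, since 2^0 = 1). With C1 from D2 and
S = {xi | C1 N < |M xi|} (radial set, inside the annulus, finite measure) and w = conj M / |M| on S, 0 elsewhere: int M w = int_S |M| and int |w| = vol S, so int_S |M| <= C1 N vol S, and |M| > C1 N on S,
so vol S = 0. Hence |m (2^k xi)| phi0 xi <= C1 N for a.e. xi, i.e. |m xi| phi0 (2^-k xi) <= C1 N for a.e. xi (measure preserving up to a constant), for all k simultaneously (countable). For xi /= 0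
the sums over -n..n of phi0 (2^-k xi) tend to 1 and at most three k give a nonzero term (supp0: 1/2 <= 2^-k |xi| <= 2), so some phi0 (2^-k xi) >= 1/4: |m xi| <= 4 C1 N. C = 4 C1.
-/

set_option autoImplicit false

noncomputable section

open MeasureTheory Metric Set Filter

namespace Pool.LibRF53

open Pool.LibSR53

private theorem D3_phi_le {d : ℕ} (c : Cut d) (ξ : E d) : ‖c.φ0 ξ‖ ≤ 1 := by
  obtain ⟨t, h0, h1, h2⟩ := c.pos0 ξ
  rw [h2, Complex.norm_real, Real.norm_eq_abs, abs_of_nonneg h0]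
  exact h1

open Classical in
/-- the test function -/
private def D3w {d : ℕ} (M : E d → ℂ) (A : ℝ) (ξ : E d) : ℂ :=
  if A < ‖M ξ‖ then (starRingEnd ℂ) (M ξ) / (‖M ξ‖ : ℂ) else 0

private theorem D3w_norm {d : ℕ} (M : E d → ℂ) {A : ℝ} (hA : 0 ≤ A) (ξ : E d) :
    ‖D3w M A ξ‖ = Set.indicator {ξ | A < ‖M ξ‖} (fun _ => (1 : ℝ)) ξ := by
  unfold D3w
  by_cases h : A < ‖M ξ‖
  · have hne : ‖M ξ‖ ≠ 0 := (lt_of_le_of_lt hA h).ne'
    rw [if_pos h, Set.indicator_of_mem (show ξ ∈ {ξ | A < ‖M ξ‖} from h), norm_div,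
      Complex.norm_real, norm_norm, RCLike.norm_conj, div_self hne]
  · rw [if_neg h, Set.indicator_of_notMem (show ξ ∉ {ξ | A < ‖M ξ‖} from h), norm_zero]

private theorem D3w_mul {d : ℕ} (M : E d → ℂ) {A : ℝ} (hA : 0 ≤ A) (ξ : E d) :
    M ξ * D3w M A ξ = ((Set.indicator {ξ | A < ‖M ξ‖} (fun ξ => ‖M ξ‖) ξ : ℝ) : ℂ) := by
  unfold D3w
  by_cases h : A < ‖M ξ‖
  · have hne : (‖M ξ‖ : ℂ) ≠ 0 := by
      exact_mod_cast (lt_of_le_of_lt hA h).ne'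
    rw [if_pos h, Set.indicator_of_mem (show ξ ∈ {ξ | A < ‖M ξ‖} from h), ← mul_div_assoc,
      Complex.mul_conj, Complex.normSq_eq_norm_sq]
    push_cast
    rw [sq, mul_div_assoc, div_self hne, mul_one]
  · rw [if_neg h, Set.indicator_of_notMem (show ξ ∉ {ξ | A < ‖M ξ‖} from h), mul_zero,
      Complex.ofReal_zero]

private theorem D3_ae {d : ℕ} {C1 N : ℝ} (hC1 : 0 < C1) (hN : 0 ≤ N) {M : E d → ℂ} (hM : Mr M)
    (hs : ∀ ξ, M ξ ≠ 0 → 1 / 2 ≤ ‖ξ‖ ∧ ‖ξ‖ ≤ 2)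
    (hpair : ∀ w : E d → ℂ, Mr w → (∀ ξ, w ξ ≠ 0 → 1 / 2 ≤ ‖ξ‖ ∧ ‖ξ‖ ≤ 2) →
      ‖∫ ξ, M ξ * w ξ‖ ≤ C1 * N * ∫ ξ, ‖w ξ‖) :
    ∀ᵐ ξ : E d, ‖M ξ‖ ≤ C1 * N := by
  have hA : 0 ≤ C1 * N := mul_nonneg hC1.le hN
  set A := C1 * N with hAd
  have hSm : MeasurableSet {ξ : E d | A < ‖M ξ‖} := measurableSet_lt measurable_const hM.meas.norm
  have hSb : {ξ : E d | A < ‖M ξ‖} ⊆ closedBall 0 2 := by
    intro ξ hξ
    have h1 : M ξ ≠ 0 := by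
      intro h0
      have h2 : A < ‖M ξ‖ := hξ
      rw [h0, norm_zero] at h2
      exact absurd h2 (not_lt.2 hA)
    rw [mem_closedBall_zero_iff]
    exact (hs ξ h1).2
  have hSf : volume {ξ : E d | A < ‖M ξ‖} ≠ ⊤ :=
    ((measure_mono hSb).trans_lt measure_closedBall_lt_top).ne
  have hw : Mr (D3w M A) := by
    refine ⟨?_, ⟨1, fun ξ => ?_⟩, ?_⟩
    · unfold D3w
      refine Measurable.ite hSm ?_ measurable_const
      refine Measurable.div ?_ ?_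
      · exact (Complex.continuous_conj.measurable).comp hM.meas
      · exact Complex.measurable_ofReal.comp hM.meas.norm
    · rw [D3w_norm M hA]
      exact Set.indicator_le_self' (fun _ _ => zero_le_one) ξ |>.trans le_rfl
    · intro ξ ξ' h
      unfold D3w
      rw [hM.rad ξ ξ' h]
  have hws : ∀ ξ, D3w M A ξ ≠ 0 → 1 / 2 ≤ ‖ξ‖ ∧ ‖ξ‖ ≤ 2 := by
    intro ξ h
    apply hs ξ
    intro h0
    apply h
    unfold D3w
    rw [h0, norm_zero, if_neg (not_lt.2 hA)]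
  have h1 := hpair _ hw hws
  obtain ⟨B, hB⟩ := hM.bdd
  have hint : Integrable (Set.indicator {ξ : E d | A < ‖M ξ‖} (fun ξ => ‖M ξ‖)) := by
    rw [integrable_indicator_iff hSm]
    refine Measure.integrableOn_of_bounded (M := B) hSf hM.meas.norm.aestronglyMeasurable ?_
    exact Eventually.of_forall fun ξ => by rw [norm_norm]; exact hB ξ
  have hint1 : Integrable (Set.indicator {ξ : E d | A < ‖M ξ‖} (fun _ => (1 : ℝ))) := by
    rw [integrable_indicator_iff hSm]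
    exact integrableOn_const hSf
  simp only [D3w_mul M hA, D3w_norm M hA] at h1
  rw [integral_complex_ofReal, Complex.norm_real, Real.norm_eq_abs] at h1
  have h2 : 0 ≤ ∫ ξ, Set.indicator {ξ : E d | A < ‖M ξ‖} (fun ξ => ‖M ξ‖) ξ :=
    integral_nonneg fun ξ => Set.indicator_nonneg (fun _ _ => norm_nonneg _) ξ
  rw [abs_of_nonneg h2] at h1
  have h3 : ∫ ξ, (Set.indicator {ξ : E d | A < ‖M ξ‖} (fun ξ => ‖M ξ‖) ξ -
      A * Set.indicator {ξ : E d | A < ‖M ξ‖} (fun _ => (1 : ℝ)) ξ) ≤ 0 := by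
    rw [integral_sub hint (hint1.const_mul A), integral_const_mul]
    linarith
  have h4 : ∀ ξ : E d, 0 ≤ Set.indicator {ξ : E d | A < ‖M ξ‖} (fun ξ => ‖M ξ‖) ξ -
      A * Set.indicator {ξ : E d | A < ‖M ξ‖} (fun _ => (1 : ℝ)) ξ := by
    intro ξ
    by_cases h : ξ ∈ {ξ : E d | A < ‖M ξ‖}
    · rw [Set.indicator_of_mem h, Set.indicator_of_mem h, mul_one]
      exact sub_nonneg.2 (le_of_lt h)
    · rw [Set.indicator_of_notMem h, Set.indicator_of_notMem h, mul_zero, sub_zero]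
  have h5 := le_antisymm h3 (integral_nonneg h4)
  rw [integral_eq_zero_iff_of_nonneg h4 (hint.sub (hint1.const_mul A))] at h5
  filter_upwards [h5] with ξ hξ
  by_contra hcon
  have h6 : ξ ∈ {ξ : E d | A < ‖M ξ‖} := not_le.1 hcon
  have h7 : Set.indicator {ξ : E d | A < ‖M ξ‖} (fun ξ => ‖M ξ‖) ξ -
      A * Set.indicator {ξ : E d | A < ‖M ξ‖} (fun _ => (1 : ℝ)) ξ = 0 := hξ
  rw [Set.indicator_of_mem h6, Set.indicator_of_mem h6, mul_one] at h7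
  have h8 : A < ‖M ξ‖ := h6
  linarith

private theorem D3_scale {d : ℕ} {P : E d → Prop} (h : ∀ᵐ ξ : E d, P ξ) {a : ℝ} (ha : a ≠ 0) :
    ∀ᵐ ξ : E d, P (a • ξ) := by
  rw [ae_iff] at h ⊢
  have h1 : {ξ : E d | ¬ P (a • ξ)} = (a • ·) ⁻¹' {ξ | ¬ P ξ} := rfl
  rw [h1, Measure.addHaar_preimage_smul _ ha, h, mul_zero]

private theorem D3_one {d : ℕ} (c : Cut d) (ξ : E d) (hξ : ξ ≠ 0) :
    ∃ k : ℤ, 1 / 4 ≤ ‖c.φ0 (((2 : ℝ) ^ k)⁻¹ • ξ)‖ := by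
  by_contra hcon
  push Not at hcon
  have h0 := c.sum_tendsto ξ hξ
  have h1 := (Metric.tendsto_atTop.1 h0) (1 / 4) (by norm_num)
  obtain ⟨n, hn⟩ := h1
  have h2 := hn n le_rfl
  rw [dist_eq_norm] at h2
  have hpos : 0 < ‖ξ‖ := norm_pos_iff.2 hξ
  set k0 := Int.log 2 ‖ξ‖ with hk0
  have hlo : (2 : ℝ) ^ k0 ≤ ‖ξ‖ := by
    have := Int.zpow_log_le_self (b := 2) (by norm_num) hpos
    simpa using this
  have hhi : ‖ξ‖ < (2 : ℝ) ^ (k0 + 1) := by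
    have := Int.lt_zpow_succ_log_self (b := 2) (by norm_num) ‖ξ‖
    simpa using this
  have hsub : ∀ k ∈ Finset.Icc (-(n : ℤ)) n, k ∉ Finset.Icc (k0 - 1) (k0 + 1) →
      ‖c.φ0 (((2 : ℝ) ^ k)⁻¹ • ξ)‖ = 0 := by
    intro k _ hk
    by_contra hne
    apply hk
    have h3 := c.supp0 _ (fun h => hne (by rw [h, norm_zero]))
    have h2k : (0 : ℝ) < (2 : ℝ) ^ k := zpow_pos (by norm_num) k
    rw [norm_smul, norm_inv, Real.norm_eq_abs, abs_of_pos h2k] at h3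
    obtain ⟨h4, h5⟩ := h3
    rw [inv_mul_eq_div, le_div_iff₀ h2k] at h4
    rw [inv_mul_eq_div, div_le_iff₀ h2k] at h5
    rw [Finset.mem_Icc]
    constructor
    · have h6 : (2 : ℝ) ^ (k0 - 1) ≤ (2 : ℝ) ^ k := by
        rw [zpow_sub_one₀ (by norm_num)]
        linarith
      exact (zpow_le_zpow_iff_right₀ (by norm_num)).1 h6
    · have h6 : (2 : ℝ) ^ k < (2 : ℝ) ^ (k0 + 2) := by
        have h7 : (2 : ℝ) ^ (k0 + 2) = (2 : ℝ) ^ (k0 + 1) * 2 := by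
          rw [show k0 + 2 = (k0 + 1) + 1 by ring, zpow_add_one₀ (by norm_num)]
        rw [h7]
        linarith
      have h8 := (zpow_lt_zpow_iff_right₀ (by norm_num)).1 h6
      omega
  have h3 : ‖∑ k ∈ Finset.Icc (-(n : ℤ)) n, c.φ0 (((2 : ℝ) ^ k)⁻¹ • ξ)‖ ≤ 3 / 4 := by
    refine (norm_sum_le _ _).trans ?_
    rw [← Finset.sum_filter_add_sum_filter_not (Finset.Icc (-(n : ℤ)) n)
      (fun k => k ∈ Finset.Icc (k0 - 1) (k0 + 1))]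
    have h4 : ∑ k ∈ (Finset.Icc (-(n : ℤ)) n).filter (fun k => ¬ k ∈ Finset.Icc (k0 - 1) (k0 + 1)),
        ‖c.φ0 (((2 : ℝ) ^ k)⁻¹ • ξ)‖ = 0 := by
      apply Finset.sum_eq_zero
      intro k hk
      rw [Finset.mem_filter] at hk
      exact hsub k hk.1 hk.2
    rw [h4, add_zero]
    refine (Finset.sum_le_card_nsmul _ _ (1 / 4) (fun k _ => (hcon k).le)).trans ?_
    rw [nsmul_eq_mul]
    have h5 : ((Finset.Icc (-(n : ℤ)) n).filter (fun k => k ∈ Finset.Icc (k0 - 1) (k0 + 1))).card ≤ 3 := by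
      have h6 : (Finset.Icc (-(n : ℤ)) n).filter (fun k => k ∈ Finset.Icc (k0 - 1) (k0 + 1)) ⊆
          Finset.Icc (k0 - 1) (k0 + 1) := by
        intro k hk
        exact (Finset.mem_filter.1 hk).2
      refine (Finset.card_le_card h6).trans ?_
      rw [Int.card_Icc]
      omega
    have h6 : ((((Finset.Icc (-(n : ℤ)) n).filter
        (fun k => k ∈ Finset.Icc (k0 - 1) (k0 + 1))).card : ℕ) : ℝ) ≤ 3 := by exact_mod_cast h5
    linarith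
  have h4 : (1 : ℝ) ≤ ‖∑ k ∈ Finset.Icc (-(n : ℤ)) n, c.φ0 (((2 : ℝ) ^ k)⁻¹ • ξ)‖ +
      ‖∑ k ∈ Finset.Icc (-(n : ℤ)) n, c.φ0 (((2 : ℝ) ^ k)⁻¹ • ξ) - 1‖ := by
    have h5 := norm_sub_norm_le (1 : ℂ) (∑ k ∈ Finset.Icc (-(n : ℤ)) n, c.φ0 (((2 : ℝ) ^ k)⁻¹ • ξ))
    rw [norm_one, norm_sub_rev] at h5
    linarith
  linarith

theorem mult_bound (d : ℕ) (hd : 2 ≤ d) (c : Cut d) (p : ℝ) (hp1 : 1 < p)
    (hp2 : p < 2 * (d : ℝ) / ((d : ℝ) + 1)) : ∃ C : ℝ, 0 < C ∧ ∀ m : E d → ℂ, Mr m →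
    ∀ N : ℝ, 0 ≤ N → HN c m p N → ∀ᵐ ξ : E d, ‖m ξ‖ ≤ C * N := by
  obtain ⟨C1, hC1, hpair⟩ := pairing d hd p hp1 hp2
  refine ⟨4 * C1, by positivity, ?_⟩
  intro m hm N hN hHN
  have hnt : Nontrivial (E d) := by
    have : Nonempty (Fin d) := ⟨⟨0, by omega⟩⟩
    infer_instance
  have key : ∀ k : ℤ, ∀ᵐ ξ : E d, ‖m ξ * c.φ0 (((2 : ℝ) ^ k)⁻¹ • ξ)‖ ≤ C1 * N := by
    intro k
    have h2k : (2 : ℝ) ^ k ≠ 0 := (zpow_pos (by norm_num) k).ne'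
    have hM : Mr (fun ξ : E d => m ((2 : ℝ) ^ k • ξ) * c.φ0 ξ) := by
      obtain ⟨B, hB⟩ := hm.bdd
      refine ⟨?_, ⟨B, fun ξ => ?_⟩, ?_⟩
      · exact (hm.meas.comp (measurable_const_smul _)).mul c.φ0.continuous.measurable
      · rw [norm_mul]
        calc ‖m ((2 : ℝ) ^ k • ξ)‖ * ‖c.φ0 ξ‖ ≤ ‖m ((2 : ℝ) ^ k • ξ)‖ * 1 :=
              mul_le_mul_of_nonneg_left (D3_phi_le c ξ) (norm_nonneg _)
          _ ≤ B := by rw [mul_one]; exact hB _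
      · intro ξ ξ' h
        have h1 : m ((2 : ℝ) ^ k • ξ) = m ((2 : ℝ) ^ k • ξ') := by
          apply hm.rad
          rw [norm_smul, norm_smul, h]
        show m ((2 : ℝ) ^ k • ξ) * c.φ0 ξ = m ((2 : ℝ) ^ k • ξ') * c.φ0 ξ'
        rw [h1, c.rad0 ξ ξ' h]
    have hs : ∀ ξ : E d, m ((2 : ℝ) ^ k • ξ) * c.φ0 ξ ≠ 0 → 1 / 2 ≤ ‖ξ‖ ∧ ‖ξ‖ ≤ 2 :=
      fun ξ h => c.supp0 ξ (right_ne_zero_of_mul h)
    have hK : ∫⁻ x, ‖∫ ξ, ex x ξ * (m ((2 : ℝ) ^ k • ξ) * c.φ0 ξ)‖ₑ ^ p ≤ ENNReal.ofReal N ^ p := by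
      have h1 := hHN k
      have h2 : ∀ x : E d, Kk c.φ0 (fun ξ => m ((2 : ℝ) ^ k • ξ)) 0 x =
          ∫ ξ, ex x ξ * (m ((2 : ℝ) ^ k • ξ) * c.φ0 ξ) := by
        intro x
        unfold Kk
        simp only [zpow_zero, inv_one, one_smul]
      simp only [h2] at h1
      exact h1
    have h3 := D3_ae hC1 hN hM hs (fun w hw hws => hpair _ w hM hw hs hws N hN hK)
    have h4 := D3_scale h3 (inv_ne_zero h2k)
    filter_upwards [h4] with ξ hξ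
    have h5 : (2 : ℝ) ^ k • ((2 : ℝ) ^ k)⁻¹ • ξ = ξ := by
      rw [smul_smul, mul_inv_cancel₀ h2k, one_smul]
    rw [h5] at hξ
    exact hξ
  have hall : ∀ᵐ ξ : E d, ∀ k : ℤ, ‖m ξ * c.φ0 (((2 : ℝ) ^ k)⁻¹ • ξ)‖ ≤ C1 * N := ae_all_iff.2 key
  have hne : ∀ᵐ ξ : E d, ξ ≠ 0 := by
    rw [ae_iff]
    have : {ξ : E d | ¬ ξ ≠ 0} = {0} := by
      ext ξ
      simp
    rw [this]
    exact measure_singleton 0
  filter_upwards [hall, hne] with ξ h1 h2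
  obtain ⟨k, hk⟩ := D3_one c ξ h2
  have h3 := h1 k
  rw [norm_mul] at h3
  have h4 : ‖m ξ‖ * (1 / 4) ≤ ‖m ξ‖ * ‖c.φ0 (((2 : ℝ) ^ k)⁻¹ • ξ)‖ :=
    mul_le_mul_of_nonneg_left hk (norm_nonneg _)
  linarith

end Pool.LibRF53
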