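import Pool.Agent.LibRF53.D3

/-
(D3b) replace m by a multiplier bounded everywhere (typed by helper32).
-/

set_option autoImplicit false

noncomputable section

open MeasureTheory Metric Set Filter

namespace Pool.LibRF53

open Pool.LibSR53

private theorem dil_ae {d : ℕ} (k : ℤ) {s : E d → Prop} (h : ∀ᵐ ξ : E d, s ξ) :
    ∀ᵐ ξ : E d, s ((2 : ℝ) ^ k • ξ) := by
  have hq : Measure.QuasiMeasurePreserving (fun ξ : E d => (2 : ℝ) ^ k • ξ) volume volume := by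
    refine ⟨measurable_const_smul _, ?_⟩
    have hne : ((2 : ℝ) ^ k) ≠ 0 := by positivity
    rw [Measure.map_addHaar_smul volume hne]
    exact Measure.smul_absolutelyContinuous
  exact hq.ae h

theorem mult_repl (d : ℕ) (hd : 2 ≤ d) (c : Cut d) (p : ℝ) (hp1 : 1 < p)
    (hp2 : p < 2 * (d : ℝ) / ((d : ℝ) + 1)) : ∃ C : ℝ, 0 < C ∧ ∀ m : E d → ℂ, Mr m →
    ∀ N : ℝ, 0 ≤ N → HN c m p N → ∃ m' : E d → ℂ, Mr m' ∧ (∀ ξ, ‖m' ξ‖ ≤ C * N) ∧
      HN c m' p N ∧ ∀ (k : ℤ) (x : E d), Kk c.φ0 m' k x = Kk c.φ0 m k x := by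
  obtain ⟨C, hC, hb⟩ := mult_bound d hd c p hp1 hp2
  refine ⟨C, hC, ?_⟩
  intro m hm N hN hHN
  have hCN : 0 ≤ C * N := mul_nonneg hC.le hN
  have hae0 := hb m hm N hN hHN
  classical
  have hae : ∀ᵐ ξ : E d, (if ‖m ξ‖ ≤ C * N then m ξ else 0) = m ξ := by
    filter_upwards [hae0] with ξ hξ
    rw [if_pos hξ]
  have hbd : ∀ ξ : E d, ‖(if ‖m ξ‖ ≤ C * N then m ξ else 0)‖ ≤ C * N := by
    intro ξ
    split_ifs with h
    · exact h
    · rw [norm_zero]; exact hCN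
  refine ⟨fun ξ => if ‖m ξ‖ ≤ C * N then m ξ else 0, ?_, hbd, ?_, ?_⟩
  · refine ⟨?_, ⟨C * N, hbd⟩, ?_⟩
    · exact Measurable.ite (measurableSet_le hm.meas.norm measurable_const) hm.meas
        measurable_const
    · intro ξ ξ' h
      have := hm.rad ξ ξ' h
      simp only [this]
  · intro k
    have h1 := hHN k
    have h2 : ∀ x : E d, Kk c.φ0 (fun ξ : E d =>
        (if ‖m ((2 : ℝ) ^ k • ξ)‖ ≤ C * N then m ((2 : ℝ) ^ k • ξ) else 0)) 0 x =
        Kk c.φ0 (fun ξ => m ((2 : ℝ) ^ k • ξ)) 0 x := by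
      intro x
      unfold Kk
      apply integral_congr_ae
      filter_upwards [dil_ae k hae] with ξ hξ
      rw [hξ]
    simp only [h2]
    exact h1
  · intro k x
    unfold Kk
    apply integral_congr_ae
    filter_upwards [hae] with ξ hξ
    rw [hξ]

end Pool.LibRF53
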