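import Pool.Agent.LibRF53.Defs

/-
PLAN (D4). ONLY Defs. Size of the Fourier transform of the near part. Fubini and the substitution x = 2^j u: int ex (-x) xi * nk c m j k x dx = int m(eta) phi0 (2^-k eta) * 2^(jd) X(2^j (xi - eta)) deta,
X zeta = int ex (-x) zeta * chi x dx (chi Schwartz, so X = the Fourier transform is Schwartz: |X zeta| <= A (1+|zeta|)^-(d+2)). |m| <= M0, |phi0| <= 1 (pos0), support 2^(k-1) <= |eta| <= 2^(k+1).
(1) always <= M0 int 2^(jd) |X (2^j (xi - eta))| deta = M0 int |X|. (2) 4 |xi| <= 2^k: |xi - eta| >= 2^(k-2), so (1 + 2^j |xi - eta|)^-(d+2) <= (2^(j+k-2))^-1 (1 + 2^j|xi-eta|)^-(d+1): <=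
C M0 2^-(j+k). (3) |xi| >= 4 2^k: |xi - eta| >= |xi|/2, so <= C M0 (2^j |xi|)^-1 <= C M0 2^k/|xi| because 2^-j <= 2^k. (4) 2^k < 4|xi| < 16 2^k: bd >= 1/4 and (1). bd_sum: for the k in S with
4|xi| <= 2^k: sum of 4^-(j+k) over 0 <= j+k: <= 4/3. For the others 2^k < 4|xi|: min(1, 2^k/|xi|)^2 <= 16 (2^k / (4|xi|))^2..., geometric: the sum over 2^k < 4|xi| of min(1, (2^k/|xi|)^2)
<= 2 + 1 + 1/3 + ... (compare with the largest such k).
-/

set_option autoImplicit false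

noncomputable section

open MeasureTheory Metric Set Filter

namespace Pool.LibRF53

open Pool.LibSR53

private lemma D4_norm_ex {d : ℕ} (v ξ : E d) : ‖ex v ξ‖ = 1 := by
  unfold ex
  rw [show 2 * (Real.pi : ℂ) * Complex.I * ((inner ℝ v ξ : ℝ) : ℂ) =
    ((2 * Real.pi * inner ℝ v ξ : ℝ) : ℂ) * Complex.I by push_cast; ring]
  exact Complex.norm_exp_ofReal_mul_I _

private lemma D4_ex_mul {d : ℕ} (x ξ η : E d) : ex (-x) ξ * ex x η = ex (-x) (ξ - η) := by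
  unfold ex
  rw [← Complex.exp_add, inner_neg_left, inner_neg_left, inner_sub_right]
  congr 1
  push_cast
  ring

private lemma D4_ex_smul {d : ℕ} (t : ℝ) (u ζ : E d) : ex (-(t • u)) ζ = ex (-u) (t • ζ) := by
  unfold ex
  rw [inner_neg_left, inner_neg_left, real_inner_smul_left, real_inner_smul_right]

private lemma D4_cont {d : ℕ} : Continuous fun p : E d × E d => ex p.1 p.2 := by
  unfold ex
  fun_prop

open scoped FourierTransform in
private lemma D4_decay {d : ℕ} (χ : SchwartzMap (E d) ℂ) : ∃ A : ℝ, 0 < A ∧ ∀ ζ : E d,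
    ‖∫ x, ex (-x) ζ * χ x‖ ≤ A * ((1 + ‖ζ‖) ^ (d + 2))⁻¹ := by
  refine ⟨1 + 2 ^ (d + 2) * (Finset.Iic ((d + 2, 0) : ℕ × ℕ)).sup
    (fun m => SchwartzMap.seminorm ℝ m.1 m.2) (𝓕 χ : SchwartzMap (E d) ℂ), ?_, fun ζ => ?_⟩
  · have : 0 ≤ (Finset.Iic ((d + 2, 0) : ℕ × ℕ)).sup
      (fun m => SchwartzMap.seminorm ℝ m.1 m.2) (𝓕 χ : SchwartzMap (E d) ℂ) := apply_nonneg _ _
    positivity
  have h1 : (𝓕 χ : SchwartzMap (E d) ℂ) ζ = ∫ w, ex (-w) ζ * χ w := by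
    rw [SchwartzMap.fourier_coe, Real.fourier_eq']
    refine integral_congr_ae (Eventually.of_forall fun w => ?_)
    simp only [ex, smul_eq_mul, inner_neg_left]
    congr 2
    push_cast
    ring
  have h2 := SchwartzMap.one_add_le_sup_seminorm_apply (𝕜 := ℝ) (m := (d + 2, 0)) (k := d + 2)
    (n := 0) le_rfl le_rfl (𝓕 χ : SchwartzMap (E d) ℂ) ζ
  rw [norm_iteratedFDeriv_zero, h1] at h2
  have h3 : (0 : ℝ) < (1 + ‖ζ‖) ^ (d + 2) := by positivity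
  rw [← div_eq_mul_inv, le_div_iff₀ h3, mul_comm]
  simp only at h2
  linarith

private lemma D4_scale {d : ℕ} (χ : SchwartzMap (E d) ℂ) (j : ℤ) (ζ : E d) :
    ∫ x, ex (-x) ζ * χ (((2 : ℝ) ^ j)⁻¹ • x) =
      (((2 : ℝ) ^ j) ^ d : ℝ) • ∫ x, ex (-x) ((2 : ℝ) ^ j • ζ) * χ x := by
  have hpos : (0 : ℝ) < (2 : ℝ) ^ j := by positivity
  have h1 := Measure.integral_comp_inv_smul (volume : Measure (E d))
    (fun x : E d => ex (-x) ((2 : ℝ) ^ j • ζ) * χ x) ((2 : ℝ) ^ j)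
  rw [finrank_euclideanSpace_fin, abs_of_pos (by positivity)] at h1
  rw [← h1]
  refine integral_congr_ae (Eventually.of_forall fun x => ?_)
  simp only []
  rw [← D4_ex_smul, smul_inv_smul₀ hpos.ne']

private lemma D4_int (d : ℕ) : Integrable (fun x : E d => ((1 + ‖x‖) ^ (d + 1))⁻¹) := by
  have h1 := integrable_one_add_norm (E := E d) (μ := volume) (r := (d : ℝ) + 1)
    (by rw [finrank_euclideanSpace_fin]; linarith)
  refine h1.congr (Eventually.of_forall fun x => ?_)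
  simp only []
  rw [Real.rpow_neg (by positivity)]
  congr 1
  exact_mod_cast Real.rpow_natCast (1 + ‖x‖) (d + 1)

private lemma D4_int2 (d : ℕ) (j : ℤ) (ξ : E d) :
    Integrable (fun η : E d => ((1 + ‖(2 : ℝ) ^ j • (ξ - η)‖) ^ (d + 1))⁻¹) ∧
    ∫ η : E d, ((1 + ‖(2 : ℝ) ^ j • (ξ - η)‖) ^ (d + 1))⁻¹ =
      (((2 : ℝ) ^ j) ^ d)⁻¹ * ∫ x : E d, ((1 + ‖x‖) ^ (d + 1))⁻¹ := by
  have hpos : (0 : ℝ) < (2 : ℝ) ^ j := by positivity
  constructor
  · have h1 : Integrable (fun x : E d => ((1 + ‖(2 : ℝ) ^ j • x‖) ^ (d + 1))⁻¹) :=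
      (D4_int d).comp_smul hpos.ne'
    exact h1.comp_sub_left ξ
  · rw [integral_sub_left_eq_self (fun x : E d => ((1 + ‖(2 : ℝ) ^ j • x‖) ^ (d + 1))⁻¹) volume ξ]
    have h1 := Measure.integral_comp_smul (volume : Measure (E d))
      (fun x : E d => ((1 + ‖x‖) ^ (d + 1))⁻¹) ((2 : ℝ) ^ j)
    rw [h1, finrank_euclideanSpace_fin, abs_of_pos (by positivity), smul_eq_mul]

/-- the geometry -/
private lemma D4_geom {d : ℕ} (j k : ℤ) (hjk : 0 ≤ j + k) (ξ η : E d)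
    (h1 : 1 / 2 ≤ ‖((2 : ℝ) ^ k)⁻¹ • η‖) (h2 : ‖((2 : ℝ) ^ k)⁻¹ • η‖ ≤ 2) :
    1 ≤ 4 * bd j k ξ * (1 + ‖(2 : ℝ) ^ j • (ξ - η)‖) := by
  have hk : (0 : ℝ) < (2 : ℝ) ^ k := by positivity
  have hj : (0 : ℝ) < (2 : ℝ) ^ j := by positivity
  have hjk1 : (1 : ℝ) ≤ (2 : ℝ) ^ j * (2 : ℝ) ^ k := by
    rw [← zpow_add₀ (by norm_num : (2 : ℝ) ≠ 0)]
    exact one_le_zpow₀ (by norm_num) hjk
  rw [norm_smul, norm_inv, Real.norm_eq_abs, abs_of_pos hk, inv_mul_eq_div] at h1 h2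
  rw [le_div_iff₀ hk] at h1
  rw [div_le_iff₀ hk] at h2
  rw [norm_smul, Real.norm_eq_abs, abs_of_pos hj]
  have htri1 : ‖η‖ - ‖ξ‖ ≤ ‖ξ - η‖ := by
    have := norm_sub_norm_le η ξ
    rwa [norm_sub_rev] at this
  have htri2 : ‖ξ‖ - ‖η‖ ≤ ‖ξ - η‖ := norm_sub_norm_le ξ η
  have hn : 0 ≤ ‖ξ - η‖ := norm_nonneg _
  unfold bd
  split_ifs with hc
  · have h3 : (2 : ℝ) ^ k / 4 ≤ ‖ξ - η‖ := by linarith
    have h4 : (2 : ℝ) ^ (-(j + k)) = ((2 : ℝ) ^ j * (2 : ℝ) ^ k)⁻¹ := by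
      rw [zpow_neg, zpow_add₀ (by norm_num : (2 : ℝ) ≠ 0)]
    rw [h4]
    have h5 : (0 : ℝ) < (2 : ℝ) ^ j * (2 : ℝ) ^ k := by positivity
    have h6 : (2 : ℝ) ^ j * (2 : ℝ) ^ k / 4 ≤ (2 : ℝ) ^ j * ‖ξ - η‖ := by
      have := mul_le_mul_of_nonneg_left h3 hj.le
      linarith
    rw [mul_comm 4, mul_assoc, inv_mul_eq_div, le_div_iff₀ h5]
    linarith
  · push Not at hc
    have hξ : 0 < ‖ξ‖ := by
      by_contra hcon
      have : ‖ξ‖ = 0 := le_antisymm (not_lt.mp hcon) (norm_nonneg _)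
      rw [this] at hc
      linarith
    by_cases hbig : 4 * (2 : ℝ) ^ k ≤ ‖ξ‖
    · have h3 : ‖ξ‖ / 2 ≤ ‖ξ - η‖ := by linarith
      have h4 : (2 : ℝ) ^ k / ‖ξ‖ ≤ 1 := by
        rw [div_le_one hξ]; linarith
      rw [min_eq_right h4]
      have h6 : (2 : ℝ) ^ j * (‖ξ‖ / 2) ≤ (2 : ℝ) ^ j * ‖ξ - η‖ :=
        mul_le_mul_of_nonneg_left h3 hj.le
      have h7 : 4 * ((2 : ℝ) ^ k / ‖ξ‖) * ((2 : ℝ) ^ j * (‖ξ‖ / 2)) =
          2 * ((2 : ℝ) ^ j * (2 : ℝ) ^ k) := by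
        field_simp
        ring
      have h8 : 4 * ((2 : ℝ) ^ k / ‖ξ‖) * ((2 : ℝ) ^ j * (‖ξ‖ / 2)) ≤
          4 * ((2 : ℝ) ^ k / ‖ξ‖) * (1 + (2 : ℝ) ^ j * ‖ξ - η‖) := by
        apply mul_le_mul_of_nonneg_left _ (by positivity)
        linarith
      linarith
    · push Not at hbig
      have h4 : 1 / 4 ≤ min 1 ((2 : ℝ) ^ k / ‖ξ‖) := by
        refine le_min (by norm_num) ?_
        rw [le_div_iff₀ hξ]
        linarith
      have h5 : 1 ≤ 1 + (2 : ℝ) ^ j * ‖ξ - η‖ := by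
        have : 0 ≤ (2 : ℝ) ^ j * ‖ξ - η‖ := by positivity
        linarith
      have h6 : 0 ≤ 1 + (2 : ℝ) ^ j * ‖ξ - η‖ := by linarith
      nlinarith

private lemma D4_bd_nonneg {d : ℕ} (j k : ℤ) (ξ : E d) : 0 ≤ bd j k ξ := by
  unfold bd
  split_ifs
  · positivity
  · exact le_min (by norm_num) (by positivity)

theorem near_mult {d : ℕ} (c : Cut d) : ∃ C : ℝ, 0 < C ∧ ∀ (m : E d → ℂ) (M0 : ℝ), Measurable m →
    (∀ ξ, ‖m ξ‖ ≤ M0) → ∀ j k : ℤ, 0 ≤ j + k → ∀ ξ : E d,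
    ‖∫ x, ex (-x) ξ * nk c m j k x‖ ≤ C * M0 * bd j k ξ := by
  obtain ⟨A, hA, hAb⟩ := D4_decay c.χ
  set J : ℝ := ∫ x : E d, ((1 + ‖x‖) ^ (d + 1))⁻¹ with hJ
  have hJ0 : 0 ≤ J := integral_nonneg fun x => by positivity
  refine ⟨4 * A * J + 1, by positivity, fun m M0 hm hM j k hjk ξ => ?_⟩
  have hM0 : 0 ≤ M0 := le_trans (norm_nonneg _) (hM 0)
  have hk : (0 : ℝ) < (2 : ℝ) ^ k := by positivity
  have hj : (0 : ℝ) < (2 : ℝ) ^ j := by positivity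
  set mφ : E d → ℂ := fun η => m η * c.φ0 (((2 : ℝ) ^ k)⁻¹ • η) with hmφ
  set χ' : E d → ℂ := fun x => c.χ (((2 : ℝ) ^ j)⁻¹ • x) with hχ'
  have hφi : Integrable (fun η : E d => c.φ0 (((2 : ℝ) ^ k)⁻¹ • η)) :=
    c.φ0.integrable.comp_smul (inv_ne_zero hk.ne')
  have hχi : Integrable χ' := c.χ.integrable.comp_smul (inv_ne_zero hj.ne')
  have hmi : Integrable mφ := hφi.bdd_mul (c := M0) hm.aestronglyMeasurable
    (Eventually.of_forall hM)
  have hF : Integrable (fun t : E d × E d => (ex (-t.1) ξ * ex t.1 t.2) * (χ' t.1 * mφ t.2))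
      (volume.prod volume) := by
    have h0 : Integrable (fun t : E d × E d => χ' t.1 * mφ t.2) (volume.prod volume) :=
      hχi.mul_prod hmi
    refine h0.bdd_mul (c := 1) ?_ (Eventually.of_forall fun t => ?_)
    · have h1 : Continuous fun t : E d × E d => ex (-t.1) ξ * ex t.1 t.2 :=
        (D4_cont.comp (continuous_fst.neg.prodMk continuous_const)).mul D4_cont
      exact h1.aestronglyMeasurable
    · rw [norm_mul, D4_norm_ex, D4_norm_ex, one_mul]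
  have h1 : ∫ x, ex (-x) ξ * nk c m j k x =
      ∫ x, ∫ η, (ex (-x) ξ * ex x η) * (χ' x * mφ η) := by
    refine integral_congr_ae (Eventually.of_forall fun x => ?_)
    simp only [nk, Kk]
    rw [← integral_mul_const, ← integral_const_mul]
    refine integral_congr_ae (Eventually.of_forall fun η => ?_)
    simp only [hmφ, hχ']
    ring
  rw [h1, integral_integral_swap hF]
  have h2 : ∀ η, ∫ x, (ex (-x) ξ * ex x η) * (χ' x * mφ η) =
      mφ η * ((((2 : ℝ) ^ j) ^ d : ℝ) • ∫ x, ex (-x) ((2 : ℝ) ^ j • (ξ - η)) * c.χ x) := by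
    intro η
    rw [← D4_scale, ← integral_const_mul]
    refine integral_congr_ae (Eventually.of_forall fun x => ?_)
    simp only [hχ']
    rw [D4_ex_mul]
    ring
  simp only [h2]
  obtain ⟨hi, hiv⟩ := D4_int2 d j ξ
  have hbd := D4_bd_nonneg j k ξ
  have h3 : ∀ η, ‖mφ η * ((((2 : ℝ) ^ j) ^ d : ℝ) •
      ∫ x, ex (-x) ((2 : ℝ) ^ j • (ξ - η)) * c.χ x)‖ ≤
      (M0 * ((2 : ℝ) ^ j) ^ d * A * (4 * bd j k ξ)) *
        ((1 + ‖(2 : ℝ) ^ j • (ξ - η)‖) ^ (d + 1))⁻¹ := by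
    intro η
    by_cases h0 : c.φ0 (((2 : ℝ) ^ k)⁻¹ • η) = 0
    · simp only [hmφ, h0, mul_zero, zero_mul, norm_zero]
      positivity
    · obtain ⟨hs1, hs2⟩ := c.supp0 _ h0
      have hg := D4_geom j k hjk ξ η hs1 hs2
      obtain ⟨t, ht0, ht1, ht⟩ := c.pos0 (((2 : ℝ) ^ k)⁻¹ • η)
      have hm1 : ‖mφ η‖ ≤ M0 := by
        simp only [hmφ]
        rw [norm_mul, ht, Complex.norm_real, Real.norm_eq_abs, abs_of_nonneg ht0]
        calc ‖m η‖ * t ≤ M0 * 1 := mul_le_mul (hM η) ht1 ht0 hM0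
          _ = M0 := mul_one _
      set y : ℝ := 1 + ‖(2 : ℝ) ^ j • (ξ - η)‖ with hy
      have hy0 : 0 < y := by positivity
      have hX := hAb ((2 : ℝ) ^ j • (ξ - η))
      rw [← hy] at hX
      have h4 : (y ^ (d + 2))⁻¹ ≤ (4 * bd j k ξ) * (y ^ (d + 1))⁻¹ := by
        rw [pow_succ y (d + 1), mul_inv, mul_comm]
        apply mul_le_mul_of_nonneg_right _ (by positivity)
        rw [inv_le_iff_one_le_mul₀ hy0]
        exact hg
      rw [norm_mul, norm_smul, Real.norm_eq_abs, abs_of_pos (by positivity : (0 : ℝ) < ((2 : ℝ) ^ j) ^ d)]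
      calc ‖mφ η‖ * (((2 : ℝ) ^ j) ^ d * ‖∫ x, ex (-x) ((2 : ℝ) ^ j • (ξ - η)) * c.χ x‖)
          ≤ M0 * (((2 : ℝ) ^ j) ^ d * (A * ((4 * bd j k ξ) * (y ^ (d + 1))⁻¹))) := by
            apply mul_le_mul hm1 _ (by positivity) hM0
            apply mul_le_mul_of_nonneg_left _ (by positivity)
            exact hX.trans (mul_le_mul_of_nonneg_left h4 hA.le)
        _ = _ := by ring
  calc ‖∫ η, mφ η * ((((2 : ℝ) ^ j) ^ d : ℝ) •
      ∫ x, ex (-x) ((2 : ℝ) ^ j • (ξ - η)) * c.χ x)‖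
      ≤ ∫ η, (M0 * ((2 : ℝ) ^ j) ^ d * A * (4 * bd j k ξ)) *
        ((1 + ‖(2 : ℝ) ^ j • (ξ - η)‖) ^ (d + 1))⁻¹ :=
        norm_integral_le_of_norm_le (hi.const_mul _) (Eventually.of_forall h3)
    _ = (4 * A * J) * M0 * bd j k ξ := by
        rw [integral_const_mul, hiv, ← hJ]
        have : (((2 : ℝ) ^ j) ^ d) ≠ 0 := by positivity
        field_simp
    _ ≤ (4 * A * J + 1) * M0 * bd j k ξ := by
        have : 0 ≤ M0 * bd j k ξ := mul_nonneg hM0 hbd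
        nlinarith

private lemma D4_geo (S : Finset ℤ) (e : ℤ → ℕ) (he : Set.InjOn e S) :
    ∑ k ∈ S, ((1 : ℝ) / 4) ^ e k ≤ 4 / 3 := by
  rw [← Finset.sum_image (f := fun n => ((1 : ℝ) / 4) ^ n) (g := e) he]
  have hs : Summable (fun n : ℕ => ((1 : ℝ) / 4) ^ n) :=
    summable_geometric_of_lt_one (by norm_num) (by norm_num)
  calc _ ≤ ∑' n : ℕ, ((1 : ℝ) / 4) ^ n := hs.sum_le_tsum _ (fun _ _ => by positivity)
    _ = 4 / 3 := by rw [tsum_geometric_of_lt_one (by norm_num) (by norm_num)]; norm_num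

theorem bd_sum (d : ℕ) : ∃ C : ℝ, 0 < C ∧ ∀ (j : ℤ) (S : Finset ℤ), (∀ k ∈ S, 0 ≤ j + k) →
    ∀ ξ : E d, ∑ k ∈ S, bd j k ξ ^ 2 ≤ C := by
  refine ⟨4 / 3 + 16 * (4 / 3), by norm_num, fun j S hS ξ => ?_⟩
  classical
  rw [← Finset.sum_filter_add_sum_filter_not S (fun k => 4 * ‖ξ‖ ≤ (2 : ℝ) ^ k)]
  apply add_le_add
  · calc ∑ k ∈ S.filter (fun k => 4 * ‖ξ‖ ≤ (2 : ℝ) ^ k), bd j k ξ ^ 2
        = ∑ k ∈ S.filter (fun k => 4 * ‖ξ‖ ≤ (2 : ℝ) ^ k), ((1 : ℝ) / 4) ^ (j + k).toNat := by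
          refine Finset.sum_congr rfl fun k hk => ?_
          obtain ⟨hkS, hk1⟩ := Finset.mem_filter.mp hk
          have h0 := hS k hkS
          unfold bd
          rw [if_pos hk1]
          obtain ⟨n, hn⟩ := Int.eq_ofNat_of_zero_le h0
          rw [hn, zpow_neg, zpow_natCast, Int.toNat_natCast, ← inv_pow,
            ← pow_mul, mul_comm n 2, pow_mul]
          norm_num
      _ ≤ 4 / 3 := by
          apply D4_geo
          intro a ha b hb hab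
          have h1 := hS a (Finset.mem_filter.mp (Finset.mem_coe.mp ha)).1
          have h2 := hS b (Finset.mem_filter.mp (Finset.mem_coe.mp hb)).1
          simp only at hab
          omega
  · set K : ℤ := Int.log 2 ‖ξ‖ with hK
    have hmem : ∀ k ∈ S.filter (fun k => ¬ 4 * ‖ξ‖ ≤ (2 : ℝ) ^ k), 0 < ‖ξ‖ ∧ k ≤ K + 2 := by
      intro k hk
      obtain ⟨hkS, hk1⟩ := Finset.mem_filter.mp hk
      push Not at hk1
      have hk0 : (0 : ℝ) < (2 : ℝ) ^ k := by positivity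
      have hξ : 0 < ‖ξ‖ := by linarith
      refine ⟨hξ, ?_⟩
      have h1 : ‖ξ‖ < (2 : ℝ) ^ (K + 1) := by
        have := Int.lt_zpow_succ_log_self (b := 2) (by norm_num) ‖ξ‖
        exact_mod_cast this
      have h2 : (2 : ℝ) ^ k < (2 : ℝ) ^ (K + 3) := by
        calc (2 : ℝ) ^ k < 4 * ‖ξ‖ := hk1
          _ < 4 * (2 : ℝ) ^ (K + 1) := by linarith
          _ = (2 : ℝ) ^ (K + 3) := by
              rw [zpow_add₀ (by norm_num : (2 : ℝ) ≠ 0), zpow_add₀ (by norm_num : (2 : ℝ) ≠ 0)]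
              norm_num
              ring
      have h3 := (zpow_lt_zpow_iff_right₀ (by norm_num : (1 : ℝ) < 2)).mp h2
      omega
    calc ∑ k ∈ S.filter (fun k => ¬ 4 * ‖ξ‖ ≤ (2 : ℝ) ^ k), bd j k ξ ^ 2
        ≤ ∑ k ∈ S.filter (fun k => ¬ 4 * ‖ξ‖ ≤ (2 : ℝ) ^ k),
            16 * ((1 : ℝ) / 4) ^ (K + 2 - k).toNat := by
          refine Finset.sum_le_sum fun k hk => ?_
          obtain ⟨hξ, hk2⟩ := hmem k hk
          obtain ⟨hkS, hk1⟩ := Finset.mem_filter.mp hk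
          have hk0 : (0 : ℝ) < (2 : ℝ) ^ k := by positivity
          have hK1 : (2 : ℝ) ^ K ≤ ‖ξ‖ := by
            have := Int.zpow_log_le_self (R := ℝ) (b := 2) (by norm_num) hξ
            exact_mod_cast this
          obtain ⟨n, hn⟩ := Int.eq_ofNat_of_zero_le (by omega : 0 ≤ K + 2 - k)
          have hkn : K = k + n - 2 := by
            omega
          have hb : bd j k ξ ≤ 4 * ((1 : ℝ) / 2) ^ n := by
            unfold bd
            rw [if_neg hk1]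
            refine (min_le_right _ _).trans ?_
            rw [div_le_iff₀ hξ]
            have h5 : (2 : ℝ) ^ K = (2 : ℝ) ^ k * (2 : ℝ) ^ n / 4 := by
              rw [hkn, zpow_sub₀ (by norm_num : (2 : ℝ) ≠ 0), zpow_add₀ (by norm_num : (2 : ℝ) ≠ 0),
                zpow_natCast]
              norm_num
            have h6 : (2 : ℝ) ^ k = 4 * ((1 : ℝ) / 2) ^ n * (2 : ℝ) ^ K := by
              rw [h5, div_pow, one_pow]
              field_simp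
            calc (2 : ℝ) ^ k = 4 * ((1 : ℝ) / 2) ^ n * (2 : ℝ) ^ K := h6
              _ ≤ 4 * ((1 : ℝ) / 2) ^ n * ‖ξ‖ := by
                  apply mul_le_mul_of_nonneg_left hK1 (by positivity)
          have hb0 := D4_bd_nonneg j k ξ
          calc bd j k ξ ^ 2 ≤ (4 * ((1 : ℝ) / 2) ^ n) ^ 2 := pow_le_pow_left₀ hb0 hb 2
            _ = 16 * ((1 : ℝ) / 4) ^ (K + 2 - k).toNat := by
                rw [hn, Int.toNat_natCast, mul_pow, ← pow_mul, mul_comm n 2,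
                  pow_mul]
                norm_num
      _ = 16 * ∑ k ∈ S.filter (fun k => ¬ 4 * ‖ξ‖ ≤ (2 : ℝ) ^ k),
            ((1 : ℝ) / 4) ^ (K + 2 - k).toNat := by rw [Finset.mul_sum]
      _ ≤ 16 * (4 / 3) := by
          apply mul_le_mul_of_nonneg_left _ (by norm_num)
          apply D4_geo
          intro a ha b hb hab
          have h1 := (hmem a (Finset.mem_coe.mp ha)).2
          have h2 := (hmem b (Finset.mem_coe.mp hb)).2
          simp only at hab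
          omega

end Pool.LibRF53
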