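import Pool.Agent.LibRF53.D4
import Pool.Agent.LibWaveDir.Plancherel

/-
PLAN (D5). L2 estimate for the near parts. nk c m j k is bounded, measurable with bounded support (|Kk| <= int |m phi0|, chi = 0 for |x| >= 2), H k likewise, so all convolutions are integrable and
bounded. The Fourier transform of F = sum over k of cv (nk c m j k) (H k) is sum mu_k xi * (H k)^ xi (Real.fourier_mul_convolution_eq or Fubini), |mu_k| <= C M0 bd j k (near_mult), so by
Cauchy-Schwarz |F^ xi|^2 <= (C M0)^2 (sum of bd^2) (sum of |(H k)^ xi|^2) <= C' M0^2 sum of |(H k)^|^2 (bd_sum). Plancherel (Pool.Agent.LibWaveDir.plancherel, functions in L1 and L2) on both sides.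
Use fourier_ex-type conversion between Mathlib's Fourier transform and ex (Real.fourier_eq').
-/

set_option autoImplicit false

noncomputable section

open MeasureTheory Metric Set Filter

namespace Pool.LibRF53

open Pool.LibSR53

private theorem d5_ex_norm {d : ℕ} (v ξ : E d) : ‖ex v ξ‖ = 1 := by
  unfold ex
  rw [show 2 * (Real.pi : ℂ) * Complex.I * ((inner ℝ v ξ : ℝ) : ℂ) =
    ((2 * Real.pi * inner ℝ v ξ : ℝ) : ℂ) * Complex.I by push_cast; ring]
  exact Complex.norm_exp_ofReal_mul_I _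

private theorem d5_ex_contl {d : ℕ} (ξ : E d) : Continuous fun v : E d => ex v ξ := by
  unfold ex
  fun_prop

private theorem d5_ex_contr {d : ℕ} (v : E d) : Continuous fun ξ : E d => ex v ξ := by
  unfold ex
  fun_prop

private theorem d5_four {d : ℕ} (f : E d → ℂ) (ξ : E d) :
    FourierTransform.fourier f ξ = ∫ w, ex (-w) ξ * f w := by
  rw [Real.fourier_eq']
  refine integral_congr_ae (Eventually.of_forall fun w => ?_)
  simp only [ex, smul_eq_mul, inner_neg_left]
  congr 2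
  push_cast
  ring

private theorem d5_int {d : ℕ} {f : E d → ℂ} (hf : Bd f) : Integrable f := by
  obtain ⟨B, hB⟩ := hf.bdd
  obtain ⟨R, hR⟩ := hf.supp
  have h1 : IntegrableOn f (closedBall (0 : E d) R) := by
    refine Measure.integrableOn_of_bounded (M := B) ?_ hf.meas.aestronglyMeasurable
      (Eventually.of_forall hB)
    exact measure_closedBall_lt_top.ne
  rw [← integrableOn_iff_integrable_of_support_subset (s := closedBall (0 : E d) R)]
  · exact h1
  · intro x hx
    by_contra hcon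
    rw [mem_closedBall, dist_zero_right, not_le] at hcon
    exact hx (hR x hcon)

private theorem d5_memLp {d : ℕ} {f : E d → ℂ} (hf : Integrable f) (B : ℝ) (hB : ∀ x, ‖f x‖ ≤ B) :
    MemLp f 2 := by
  rw [memLp_two_iff_integrable_sq_norm hf.aestronglyMeasurable]
  refine Integrable.mono' (hf.norm.const_mul B) (hf.aestronglyMeasurable.norm.pow 2)
    (Eventually.of_forall fun x => ?_)
  rw [Real.norm_of_nonneg (by positivity), sq]
  exact mul_le_mul_of_nonneg_right (hB x) (norm_nonneg _)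

private theorem d5_Kk_cont {d : ℕ} (c : Cut d) (m : E d → ℂ) (M0 : ℝ) (hm : Measurable m)
    (hb : ∀ ξ, ‖m ξ‖ ≤ M0) (k : ℤ) : Continuous (Kk c.φ0 m k) := by
  have hk : ((2 : ℝ) ^ k)⁻¹ ≠ 0 := by positivity
  have h1 : Integrable fun ξ : E d => c.φ0 (((2 : ℝ) ^ k)⁻¹ • ξ) :=
    (c.φ0.integrable (μ := (volume : Measure (E d)))).comp_smul hk
  have h2 : Integrable fun ξ : E d => m ξ * c.φ0 (((2 : ℝ) ^ k)⁻¹ • ξ) :=
    h1.bdd_mul hm.aestronglyMeasurable (Eventually.of_forall hb)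
  unfold Kk
  refine continuous_of_dominated (bound := fun ξ => ‖m ξ * c.φ0 (((2 : ℝ) ^ k)⁻¹ • ξ)‖) ?_ ?_ h2.norm ?_
  · intro x
    exact (d5_ex_contr x).aestronglyMeasurable.mul h2.aestronglyMeasurable
  · intro x
    refine Eventually.of_forall fun ξ => ?_
    rw [norm_mul, d5_ex_norm, one_mul]
  · refine Eventually.of_forall fun ξ => ?_
    exact (d5_ex_contl ξ).mul continuous_const

private theorem d5_nk_cont {d : ℕ} (c : Cut d) (m : E d → ℂ) (M0 : ℝ) (hm : Measurable m)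
    (hb : ∀ ξ, ‖m ξ‖ ≤ M0) (j k : ℤ) : Continuous (nk c m j k) := by
  unfold nk
  exact (d5_Kk_cont c m M0 hm hb k).mul (c.χ.continuous.comp (continuous_const_smul _))

private theorem d5_nk_supp {d : ℕ} (c : Cut d) (m : E d → ℂ) (j k : ℤ) :
    HasCompactSupport (nk c m j k) := by
  refine HasCompactSupport.intro (isCompact_closedBall (0 : E d) (2 * (2 : ℝ) ^ j)) ?_
  intro x hx
  rw [mem_closedBall, dist_zero_right, not_le] at hx
  have hj : (0 : ℝ) < (2 : ℝ) ^ j := by positivity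
  unfold nk
  rw [c.χzero, mul_zero]
  rw [norm_smul, Real.norm_of_nonneg (by positivity)]
  calc (2 : ℝ) = ((2 : ℝ) ^ j)⁻¹ * (2 * (2 : ℝ) ^ j) := by field_simp
    _ ≤ ((2 : ℝ) ^ j)⁻¹ * ‖x‖ := mul_le_mul_of_nonneg_left hx.le (by positivity)

private theorem d5_cv {d : ℕ} (K f : E d → ℂ) :
    cv K f = MeasureTheory.convolution f K (ContinuousLinearMap.mul ℂ ℂ) volume := by
  funext x
  unfold cv
  simp only [MeasureTheory.convolution, ContinuousLinearMap.mul_apply']
  exact integral_congr_ae (Eventually.of_forall fun y => mul_comm _ _)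

theorem near_L2 {d : ℕ} (c : Cut d) : ∃ C : ℝ, 0 < C ∧ ∀ (m : E d → ℂ) (M0 : ℝ), Measurable m →
    0 ≤ M0 → (∀ ξ, ‖m ξ‖ ≤ M0) → ∀ (j : ℤ) (S : Finset ℤ), (∀ k ∈ S, 0 ≤ j + k) →
    ∀ H : ℤ → E d → ℂ, (∀ k, Bd (H k)) →
    ∫⁻ x, ‖∑ k ∈ S, cv (nk c m j k) (H k) x‖ₑ ^ (2 : ℝ) ≤
      ENNReal.ofReal (C * M0 ^ 2) * ∑ k ∈ S, ∫⁻ x, ‖H k x‖ₑ ^ (2 : ℝ) := by
  obtain ⟨C1, hC1, h1⟩ := near_mult c
  obtain ⟨C2, hC2, h2⟩ := bd_sum d
  refine ⟨C1 ^ 2 * C2, by positivity, fun m M0 hm hM hb j S hS H hH => ?_⟩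
  have hKi : ∀ k, Integrable (nk c m j k) := fun k =>
    (d5_nk_cont c m M0 hm hb j k).integrable_of_hasCompactSupport (d5_nk_supp c m j k)
  have hHi : ∀ k, Integrable (H k) := fun k => d5_int (hH k)
  have hcvi : ∀ k, Integrable (cv (nk c m j k) (H k)) := by
    intro k
    rw [d5_cv]
    exact (hHi k).integrable_convolution (ContinuousLinearMap.mul ℂ ℂ) (hKi k)
  have hcvb : ∀ k, ∃ B : ℝ, ∀ x, ‖cv (nk c m j k) (H k) x‖ ≤ B := by
    intro k
    obtain ⟨B, hB⟩ := (d5_nk_supp c m j k).exists_bound_of_continuous (d5_nk_cont c m M0 hm hb j k)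
    refine ⟨∫ y, B * ‖H k y‖, fun x => ?_⟩
    unfold cv
    refine norm_integral_le_of_norm_le ((hHi k).norm.const_mul B) (Eventually.of_forall fun y => ?_)
    rw [norm_mul]
    exact mul_le_mul_of_nonneg_right (hB _) (norm_nonneg _)
  choose B hB using hcvb
  have hFi : Integrable (fun x => ∑ k ∈ S, cv (nk c m j k) (H k) x) :=
    integrable_finsetSum _ fun k _ => hcvi k
  have hF2 : MemLp (fun x => ∑ k ∈ S, cv (nk c m j k) (H k) x) 2 := by
    refine d5_memLp hFi (∑ k ∈ S, B k) fun x => ?_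
    exact (norm_sum_le _ _).trans (Finset.sum_le_sum fun k _ => hB k x)
  have hH2 : ∀ k, MemLp (H k) 2 := by
    intro k
    obtain ⟨b, hb'⟩ := (hH k).bdd
    exact d5_memLp (hHi k) b hb'
  have hP := Pool.Agent.LibWaveDir.plancherel _ hFi hF2
  have hPk : ∀ k, ∫⁻ w, ‖FourierTransform.fourier (H k) w‖ₑ ^ 2 = ∫⁻ w, ‖H k w‖ₑ ^ 2 := fun k =>
    Pool.Agent.LibWaveDir.plancherel _ (hHi k) (hH2 k)
  simp only [ENNReal.rpow_two]
  rw [← hP]
  -- the Fourier transform of the sum
  have hF : ∀ ξ, FourierTransform.fourier (fun x => ∑ k ∈ S, cv (nk c m j k) (H k) x) ξ =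
      ∑ k ∈ S, FourierTransform.fourier (nk c m j k) ξ * FourierTransform.fourier (H k) ξ := by
    intro ξ
    rw [d5_four]
    simp only [Finset.mul_sum]
    rw [integral_finsetSum]
    · refine Finset.sum_congr rfl fun k _ => ?_
      rw [← d5_four, d5_cv, Real.fourier_mul_convolution_eq (hHi k) (hKi k), mul_comm]
    · intro k _
      refine (hcvi k).bdd_mul (c := 1) ?_ (Eventually.of_forall fun w => ?_)
      · exact ((d5_ex_contl ξ).comp continuous_neg).aestronglyMeasurable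
      · rw [d5_ex_norm]
  have hpt : ∀ ξ, ‖FourierTransform.fourier (fun x => ∑ k ∈ S, cv (nk c m j k) (H k) x) ξ‖ₑ ^ 2 ≤
      ENNReal.ofReal (C1 ^ 2 * C2 * M0 ^ 2) * ∑ k ∈ S, ‖FourierTransform.fourier (H k) ξ‖ₑ ^ 2 := by
    intro ξ
    have e1 : ‖FourierTransform.fourier (fun x => ∑ k ∈ S, cv (nk c m j k) (H k) x) ξ‖ ^ 2 ≤
        C1 ^ 2 * C2 * M0 ^ 2 * ∑ k ∈ S, ‖FourierTransform.fourier (H k) ξ‖ ^ 2 := by
      rw [hF]
      have e2 : ‖∑ k ∈ S, FourierTransform.fourier (nk c m j k) ξ * FourierTransform.fourier (H k) ξ‖ ≤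
          ∑ k ∈ S, ‖FourierTransform.fourier (nk c m j k) ξ‖ * ‖FourierTransform.fourier (H k) ξ‖ := by
        refine (norm_sum_le _ _).trans (Finset.sum_le_sum fun k _ => ?_)
        rw [norm_mul]
      have e3 : (∑ k ∈ S, ‖FourierTransform.fourier (nk c m j k) ξ‖ * ‖FourierTransform.fourier (H k) ξ‖) ^ 2 ≤
          (∑ k ∈ S, ‖FourierTransform.fourier (nk c m j k) ξ‖ ^ 2) *
            ∑ k ∈ S, ‖FourierTransform.fourier (H k) ξ‖ ^ 2 := Finset.sum_mul_sq_le_sq_mul_sq _ _ _
      have e4 : ∑ k ∈ S, ‖FourierTransform.fourier (nk c m j k) ξ‖ ^ 2 ≤ C1 ^ 2 * C2 * M0 ^ 2 := by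
        have e5 : ∀ k ∈ S, ‖FourierTransform.fourier (nk c m j k) ξ‖ ^ 2 ≤
            (C1 * M0) ^ 2 * bd j k ξ ^ 2 := by
          intro k hk
          rw [← mul_pow]
          refine pow_le_pow_left₀ (norm_nonneg _) ?_ 2
          rw [d5_four]
          exact h1 m M0 hm hb j k (hS k hk) ξ
        refine (Finset.sum_le_sum e5).trans ?_
        rw [← Finset.mul_sum]
        have e6 := mul_le_mul_of_nonneg_left (h2 j S hS ξ) (sq_nonneg (C1 * M0))
        refine e6.trans (le_of_eq ?_)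
        ring
      refine (pow_le_pow_left₀ (norm_nonneg _) e2 2).trans (e3.trans ?_)
      exact mul_le_mul_of_nonneg_right e4 (Finset.sum_nonneg fun k _ => by positivity)
    have e7 := ENNReal.ofReal_le_ofReal e1
    rw [ENNReal.ofReal_mul (by positivity), ENNReal.ofReal_sum_of_nonneg (fun k _ => by positivity),
      ENNReal.ofReal_pow (norm_nonneg _), ofReal_norm] at e7
    refine e7.trans (le_of_eq ?_)
    congr 1
    refine Finset.sum_congr rfl fun k _ => ?_
    rw [ENNReal.ofReal_pow (norm_nonneg _), ofReal_norm]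
  refine (lintegral_mono hpt).trans ?_
  have hmeas : ∀ k, Measurable fun ξ => ‖FourierTransform.fourier (H k) ξ‖ₑ ^ 2 := by
    intro k
    have hc : Continuous (FourierTransform.fourier (H k)) :=
      VectorFourier.fourierIntegral_continuous Real.continuous_fourierChar
        (innerSL ℝ).continuous₂ (hHi k)
    exact hc.enorm.measurable.pow_const 2
  rw [lintegral_const_mul _ (Finset.measurable_sum _ fun k _ => hmeas k),
    lintegral_finsetSum _ fun k _ => hmeas k]
  exact le_of_eq (by rw [Finset.sum_congr rfl fun k _ => hPk k])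

end Pool.LibRF53
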