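import Pool.Agent.LibRF53.D1
import Pool.Agent.LibWaveDir.Plancherel

/-
PLAN (D6). The function u = cv (Kk c.phi0 m k) f for f bounded measurable of bounded support. Kk is continuous and bounded (Kk_facts), f integrable: u is continuous (dominated convergence:
continuous_of_dominated; or convolution lemmas) and bounded. L2: by Kk_conv u x = int ex x xi G xi, G xi = m xi phi0 (2^-k xi) f^ xi, bounded measurable with bounded support (supp0), so G is in L1 and L2;
u x = (F G) (-x) with Mathlib's Fourier transform, Pool.Agent.LibWaveDir.plancherel: int |u|^2 = int |G|^2 < infinity (the exponent there is a natural number 2: ENNReal.rpow_two /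
rpow_natCast). Last part: cv (dl psi1 k) Kk = Kk (Kk_facts), so by Fubini (dl psi1 k integrable, Kk bounded, f integrable) cv (dl psi1 k) (cv Kk f) = cv (cv (dl psi1 k) Kk) f = cv Kk f: write
x - y - z, substitution in the inner integral (integral_sub_right_eq_self / integral_sub_left_eq_self).
-/

set_option autoImplicit false

noncomputable section

open MeasureTheory Metric Set Filter

namespace Pool.LibRF53

open Pool.LibSR53

private theorem d6_memLp {d : ℕ} {f : E d → ℂ} (hf : Bd f) (p : ENNReal) : MemLp f p := by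
  obtain ⟨hm, ⟨B, hB⟩, ⟨R, hR⟩⟩ := hf
  have h1 : MemLp f p (volume.restrict (closedBall (0 : E d) R)) := by
    have : IsFiniteMeasure ((volume : Measure (E d)).restrict (closedBall (0 : E d) R)) :=
      ⟨by rw [Measure.restrict_apply_univ]; exact measure_closedBall_lt_top⟩
    exact MemLp.of_bound hm.aestronglyMeasurable B (Eventually.of_forall hB)
  have h2 : (closedBall (0 : E d) R).indicator f = f := by
    ext x
    by_cases hx : x ∈ closedBall (0 : E d) R
    · rw [indicator_of_mem hx]
    · rw [indicator_of_notMem hx]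
      rw [mem_closedBall_zero_iff, not_le] at hx
      exact (hR x hx).symm
  rw [← h2]
  exact (memLp_indicator_iff_restrict measurableSet_closedBall).2 h1

private theorem d6_int {d : ℕ} {f : E d → ℂ} (hf : Bd f) : Integrable f :=
  memLp_one_iff_integrable.1 (d6_memLp hf 1)

private theorem d6_norm_ex {d : ℕ} (v ξ : E d) : ‖ex v ξ‖ = 1 := by
  unfold ex
  rw [show (2 * (Real.pi : ℂ) * Complex.I * ((inner ℝ v ξ : ℝ) : ℂ)) =
    ((2 * Real.pi * (inner ℝ v ξ : ℝ) : ℝ) : ℂ) * Complex.I by push_cast; ring]
  exact Complex.norm_exp_ofReal_mul_I _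

private theorem d6_cont_ex {d : ℕ} : Continuous (fun p : E d × E d => ex p.1 p.2) := by
  unfold ex
  fun_prop

private theorem d6_fourier {d : ℕ} (G : E d → ℂ) (x : E d) :
    ∫ ξ, ex x ξ * G ξ = FourierTransform.fourier G (-x) := by
  rw [Real.fourier_eq]
  apply integral_congr_ae
  filter_upwards with ξ
  rw [Circle.smul_def, Real.fourierChar_apply, smul_eq_mul]
  congr 1
  unfold ex
  congr 1
  rw [inner_neg_right, real_inner_comm]
  push_cast
  ring

theorem u_facts {d : ℕ} (c : Cut d) (m : E d → ℂ) (hm : Mr m) (k : ℤ) (f : E d → ℂ)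
    (hf : Bd f) :
    Continuous (cv (Kk c.φ0 m k) f) ∧ (∃ B : ℝ, ∀ x, ‖cv (Kk c.φ0 m k) f x‖ ≤ B) ∧
    ∫⁻ x, ‖cv (Kk c.φ0 m k) f x‖ₑ ^ (2 : ℝ) ≠ ⊤ ∧
    ∀ x, cv (dl c.ψ1 k) (cv (Kk c.φ0 m k) f) x = cv (Kk c.φ0 m k) f x := by
  obtain ⟨hKc, ⟨BK, hBK⟩, -, hKr⟩ := Kk_facts c m hm k
  have hfi : Integrable f := d6_int hf
  have hfm := hf.meas
  have hBK0 : 0 ≤ BK := (norm_nonneg _).trans (hBK 0)
  refine ⟨?_, ?_, ?_, ?_⟩
  · unfold cv
    refine continuous_of_dominated (F := fun x y => Kk c.φ0 m k (x - y) * f y)
      (bound := fun y => BK * ‖f y‖) ?_ ?_ ?_ ?_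
    · intro x
      exact ((hKc.comp (continuous_const.sub continuous_id)).aestronglyMeasurable).mul
        hfm.aestronglyMeasurable
    · intro x
      filter_upwards with y
      rw [norm_mul]
      exact mul_le_mul_of_nonneg_right (hBK _) (norm_nonneg _)
    · exact hfi.norm.const_mul BK
    · filter_upwards with y
      exact (hKc.comp (continuous_id.sub continuous_const)).mul continuous_const
  · refine ⟨∫ y, BK * ‖f y‖, fun x => ?_⟩
    unfold cv
    refine norm_integral_le_of_norm_le (hfi.norm.const_mul BK) ?_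
    filter_upwards with y
    rw [norm_mul]
    exact mul_le_mul_of_nonneg_right (hBK _) (norm_nonneg _)
  · obtain ⟨Bm, hBm⟩ := hm.bdd
    set G : E d → ℂ := fun ξ => m ξ * c.φ0 (((2 : ℝ) ^ k)⁻¹ • ξ) * ∫ y, ex (-y) ξ * f y with hG
    have hcont : Continuous (fun ξ : E d => ∫ y, ex (-y) ξ * f y) := by
      refine continuous_of_dominated (F := fun ξ y => ex (-y) ξ * f y)
        (bound := fun y => ‖f y‖) ?_ ?_ ?_ ?_
      · intro ξ
        refine Continuous.aestronglyMeasurable ?_ |>.mul hfm.aestronglyMeasurable
        exact d6_cont_ex.comp (continuous_neg.prodMk continuous_const)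
      · intro ξ
        filter_upwards with y
        rw [norm_mul, d6_norm_ex, one_mul]
      · exact hfi.norm
      · filter_upwards with y
        exact (d6_cont_ex.comp (continuous_const.prodMk continuous_id)).mul continuous_const
    have h2k : (0 : ℝ) < (2 : ℝ) ^ k := by positivity
    have hBd : Bd G := by
      refine ⟨?_, ?_, ?_⟩
      · refine (hm.meas.mul ?_).mul hcont.measurable
        exact (c.φ0.continuous.comp (continuous_const_smul _)).measurable
      · refine ⟨Bm * 1 * ∫ y, ‖f y‖, fun ξ => ?_⟩
        rw [hG]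
        simp only [norm_mul]
        have hBm0 : 0 ≤ Bm := (norm_nonneg _).trans (hBm 0)
        refine mul_le_mul (mul_le_mul (hBm ξ) ?_ (norm_nonneg _) hBm0) ?_ (norm_nonneg _)
          (by positivity)
        · obtain ⟨t, h0, h1, h2⟩ := c.pos0 (((2 : ℝ) ^ k)⁻¹ • ξ)
          rw [h2, Complex.norm_real, Real.norm_of_nonneg h0]
          exact h1
        · refine norm_integral_le_of_norm_le hfi.norm ?_
          filter_upwards with y
          rw [norm_mul, d6_norm_ex, one_mul]
      · refine ⟨2 * (2 : ℝ) ^ k, fun ξ hξ => ?_⟩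
        have h0 : c.φ0 (((2 : ℝ) ^ k)⁻¹ • ξ) = 0 := by
          by_contra hne
          have h1 := (c.supp0 _ hne).2
          rw [norm_smul, norm_inv, Real.norm_of_nonneg h2k.le, inv_mul_le_iff₀ h2k] at h1
          linarith
        rw [hG]
        simp only [h0, mul_zero, zero_mul]
    have hu : ∀ x, cv (Kk c.φ0 m k) f x = FourierTransform.fourier G (-x) := by
      intro x
      rw [Kk_conv c m hm k f hfi x, ← d6_fourier]
    have h1 : ∫⁻ x, ‖cv (Kk c.φ0 m k) f x‖ₑ ^ (2 : ℝ) =
        ∫⁻ x, ‖FourierTransform.fourier G (-x)‖ₑ ^ 2 := by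
      apply lintegral_congr
      intro x
      rw [hu x, ENNReal.rpow_two]
    have h2 : ∫⁻ x, ‖FourierTransform.fourier G (-x)‖ₑ ^ 2 =
        ∫⁻ x, ‖FourierTransform.fourier G x‖ₑ ^ 2 :=
      lintegral_neg_eq_self (fun x => ‖FourierTransform.fourier G x‖ₑ ^ 2)
    have hG2 : MemLp G 2 := d6_memLp hBd 2
    rw [h1, h2, Pool.Agent.LibWaveDir.plancherel G (d6_int hBd) hG2]
    have h3 := hG2.eLpNorm_lt_top
    rw [eLpNorm_lt_top_iff_lintegral_rpow_enorm_lt_top (by norm_num) (by norm_num)] at h3
    simp only [ENNReal.toReal_ofNat, ENNReal.rpow_two] at h3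
    exact h3.ne
  · intro x
    have h2k : ((2 : ℝ) ^ k) ≠ 0 := by positivity
    have hψc : Continuous (dl c.ψ1 k) := by
      unfold dl
      exact continuous_const.mul (c.ψ1.continuous.comp (continuous_const_smul _))
    have hψi : Integrable (dl c.ψ1 k) := by
      unfold dl
      exact ((c.ψ1.integrable (μ := volume)).comp_smul h2k).const_mul _
    have hint : Integrable (Function.uncurry fun (y z : E d) =>
        dl c.ψ1 k (x - y) * (Kk c.φ0 m k (y - z) * f z)) (volume.prod volume) := by
      have hdom : Integrable (fun p : E d × E d => ‖dl c.ψ1 k (x - p.1)‖ * (BK * ‖f p.2‖))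
          (volume.prod volume) :=
        ((hψi.comp_sub_left x).norm).mul_prod (hfi.norm.const_mul BK)
      refine hdom.mono' ?_ ?_
      · refine AEStronglyMeasurable.mul ?_ (AEStronglyMeasurable.mul ?_ ?_)
        · exact (hψc.comp (continuous_const.sub continuous_fst)).aestronglyMeasurable
        · exact (hKc.comp (continuous_fst.sub continuous_snd)).aestronglyMeasurable
        · exact (hfm.comp measurable_snd).aestronglyMeasurable
      · filter_upwards with p
        simp only [Function.uncurry]
        rw [norm_mul, norm_mul]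
        exact mul_le_mul_of_nonneg_left (mul_le_mul_of_nonneg_right (hBK _) (norm_nonneg _))
          (norm_nonneg _)
    show ∫ y, dl c.ψ1 k (x - y) * (∫ z, Kk c.φ0 m k (y - z) * f z) =
      ∫ z, Kk c.φ0 m k (x - z) * f z
    calc ∫ y, dl c.ψ1 k (x - y) * (∫ z, Kk c.φ0 m k (y - z) * f z)
        = ∫ y, ∫ z, dl c.ψ1 k (x - y) * (Kk c.φ0 m k (y - z) * f z) := by
          apply integral_congr_ae
          filter_upwards with y
          rw [integral_const_mul]
      _ = ∫ z, ∫ y, dl c.ψ1 k (x - y) * (Kk c.φ0 m k (y - z) * f z) :=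
          integral_integral_swap hint
      _ = ∫ z, Kk c.φ0 m k (x - z) * f z := by
          apply integral_congr_ae
          filter_upwards with z
          have e1 : (∫ y, dl c.ψ1 k (x - y) * (Kk c.φ0 m k (y - z) * f z)) =
              (∫ y, dl c.ψ1 k (x - y) * Kk c.φ0 m k (y - z)) * f z := by
            rw [← integral_mul_const]
            apply integral_congr_ae
            filter_upwards with y
            ring
          rw [e1]
          congr 1
          rw [← hKr (x - z)]
          unfold cv
          rw [← integral_sub_right_eq_self (fun y => dl c.ψ1 k (x - z - y) * Kk c.φ0 m k y) z]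
          apply integral_congr_ae
          filter_upwards with y
          rw [show x - z - (y - z) = x - y by abel]

end Pool.LibRF53
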