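import Pool.Agent.LibSR53.Defs

/-
LibRF53 (MP_d34678_an): radial Fourier multipliers without support condition, Stein-Tomas range.
Definitions.
-/

set_option autoImplicit false

noncomputable section

open MeasureTheory Metric Set Filter

namespace Pool.LibRF53

open Pool.LibSR53

/-- index of the dyadic cube of side 2^j containing x -/
def ix {d : ℕ} (j : ℤ) (x : E d) : Fin d → ℤ := fun i => ⌊x i / (2 : ℝ) ^ j⌋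

/-- dyadic cube of side 2^j -/
def Q {d : ℕ} (j : ℤ) (a : Fin d → ℤ) : Set (E d) := {x | ix j x = a}

/-- volume of a cube of side 2^j -/
def vl (d : ℕ) (j : ℤ) : ENNReal := ENNReal.ofReal (((2 : ℝ) ^ j) ^ d)

/-- average over the dyadic cube of side 2^j containing x -/
def Av {d : ℕ} (j : ℤ) (h : E d → ENNReal) (x : E d) : ENNReal :=
  (vl d j)⁻¹ * ∫⁻ y in Q j (ix j x), h y

/-- dyadic maximal function -/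
def Md {d : ℕ} (h : E d → ENNReal) (x : E d) : ENNReal := ⨆ j : ℤ, Av j h x

/-- maximal function over centred balls of radius 2^j -/
def MB {d : ℕ} (h : E d → ENNReal) (x : E d) : ENNReal :=
  ⨆ j : ℤ, (vl d j)⁻¹ * ∫⁻ y in closedBall x ((2 : ℝ) ^ j), h y

/-- bounded measurable functions of bounded support -/
structure Bd {d : ℕ} (f : E d → ℂ) : Prop where
  meas : Measurable f
  bdd : ∃ B : ℝ, ∀ x, ‖f x‖ ≤ B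
  supp : ∃ R : ℝ, ∀ x, R < ‖x‖ → f x = 0

/-- bounded continuous integrable functions -/
structure Bi {d : ℕ} (f : E d → ℂ) : Prop where
  cont : Continuous f
  bdd : ∃ B : ℝ, ∀ x, ‖f x‖ ≤ B
  int : Integrable f

/-- bounded measurable radial multipliers -/
structure Mr {d : ℕ} (m : E d → ℂ) : Prop where
  meas : Measurable m
  bdd : ∃ B : ℝ, ∀ ξ, ‖m ξ‖ ≤ B
  rad : ∀ ξ ξ' : E d, ‖ξ‖ = ‖ξ'‖ → m ξ = m ξ'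

/-- convolution -/
def cv {d : ℕ} (K f : E d → ℂ) (x : E d) : ℂ := ∫ y, K (x - y) * f y

/-- L1 normalised dilate -/
def dl {d : ℕ} (ψ : E d → ℂ) (k : ℤ) (x : E d) : ℂ :=
  ((((2 : ℝ) ^ k) ^ d : ℝ) : ℂ) * ψ ((2 : ℝ) ^ k • x)

/-- the weight 2^(kd) (1 + 2^k |x|)^(-d-1) -/
def wk {d : ℕ} (k : ℤ) (x : E d) : ℝ := ((2 : ℝ) ^ k) ^ d / (1 + (2 : ℝ) ^ k * ‖x‖) ^ (d + 1)

/-- kernel of the piece of the multiplier at frequency 2^k -/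
def Kk {d : ℕ} (φ m : E d → ℂ) (k : ℤ) (x : E d) : ℂ :=
  ∫ ξ, ex x ξ * (m ξ * φ (((2 : ℝ) ^ k)⁻¹ • ξ))

/-- the fixed cutoff functions: phi0 is the dyadic partition of unity, phi1 = 1 on the support of
phi0, phi2 = 1 on the support of phi1, psi1 and psi2 their inverse Fourier transforms, chi a cutoff
in space -/
structure Cut (d : ℕ) where
  φ0 : SchwartzMap (E d) ℂ
  φ1 : SchwartzMap (E d) ℂ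
  φ2 : SchwartzMap (E d) ℂ
  ψ1 : SchwartzMap (E d) ℂ
  ψ2 : SchwartzMap (E d) ℂ
  χ : SchwartzMap (E d) ℂ
  rad0 : ∀ x y : E d, ‖x‖ = ‖y‖ → φ0 x = φ0 y
  rad1 : ∀ x y : E d, ‖x‖ = ‖y‖ → ψ1 x = ψ1 y
  rad2 : ∀ x y : E d, ‖x‖ = ‖y‖ → ψ2 x = ψ2 y
  radχ : ∀ x y : E d, ‖x‖ = ‖y‖ → χ x = χ y
  pos0 : ∀ ξ, ∃ t : ℝ, 0 ≤ t ∧ t ≤ 1 ∧ φ0 ξ = (t : ℂ)
  posχ : ∀ x, ∃ t : ℝ, 0 ≤ t ∧ t ≤ 1 ∧ χ x = (t : ℂ)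
  supp0 : ∀ ξ, φ0 ξ ≠ 0 → 1 / 2 ≤ ‖ξ‖ ∧ ‖ξ‖ ≤ 2
  supp1 : ∀ ξ, φ1 ξ ≠ 0 → 1 / 4 ≤ ‖ξ‖ ∧ ‖ξ‖ ≤ 4
  supp2 : ∀ ξ, φ2 ξ ≠ 0 → 1 / 8 ≤ ‖ξ‖ ∧ ‖ξ‖ ≤ 8
  one1 : ∀ ξ : E d, 1 / 2 ≤ ‖ξ‖ → ‖ξ‖ ≤ 2 → φ1 ξ = 1
  one2 : ∀ ξ : E d, 1 / 4 ≤ ‖ξ‖ → ‖ξ‖ ≤ 4 → φ2 ξ = 1
  ft1 : ∀ ξ, ∫ w, ex (-w) ξ * ψ1 w = φ1 ξ
  ft2 : ∀ ξ, ∫ w, ex (-w) ξ * ψ2 w = φ2 ξ
  sum_le : ∀ (S : Finset ℤ) (ξ : E d), ‖∑ k ∈ S, φ0 (((2 : ℝ) ^ k)⁻¹ • ξ)‖ ≤ 1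
  sum_tendsto : ∀ ξ : E d, ξ ≠ 0 →
    Tendsto (fun n : ℕ => ∑ k ∈ Finset.Icc (-(n : ℤ)) n, φ0 (((2 : ℝ) ^ k)⁻¹ • ξ)) atTop (nhds 1)
  χone : ∀ x : E d, ‖x‖ ≤ 1 → χ x = 1
  χzero : ∀ x : E d, 2 ≤ ‖x‖ → χ x = 0

/-- the part of the kernel in the ball of radius 2^j -/
def nk {d : ℕ} (c : Cut d) (m : E d → ℂ) (j k : ℤ) (x : E d) : ℂ :=
  Kk c.φ0 m k x * c.χ (((2 : ℝ) ^ j)⁻¹ • x)

/-- the rest -/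
def fk {d : ℕ} (c : Cut d) (m : E d → ℂ) (j k : ℤ) (x : E d) : ℂ :=
  Kk c.φ0 m k x * (1 - c.χ (((2 : ℝ) ^ j)⁻¹ • x))

/-- the kernel condition -/
def HN {d : ℕ} (c : Cut d) (m : E d → ℂ) (p N : ℝ) : Prop :=
  ∀ k : ℤ, ∫⁻ x, ‖Kk c.φ0 (fun ξ => m ((2 : ℝ) ^ k • ξ)) 0 x‖ₑ ^ p ≤ ENNReal.ofReal N ^ p

/-- size of the Fourier transform of the near part -/
def bd {d : ℕ} (j k : ℤ) (ξ : E d) : ℝ :=
  if 4 * ‖ξ‖ ≤ (2 : ℝ) ^ k then (2 : ℝ) ^ (-(j + k)) else min 1 ((2 : ℝ) ^ k / ‖ξ‖)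

/-- the operator of Q1 -/
def Vg {d : ℕ} (η : SchwartzMap (E d) ℂ) (g : E d × ℝ → ℂ) (x : E d) : ℂ :=
  ∫ r in Ioi (1 : ℝ), ∫ z, Fk η z r x * g (z, r)

/-- the measure r^(d-1) dr on r > 1 -/
def rM (d : ℕ) : Measure ℝ :=
  (volume.restrict (Ioi (1 : ℝ))).withDensity (fun r => ENNReal.ofReal (r ^ (d - 1)))

/-- the measure dx r^(d-1) dr -/
def nM (d : ℕ) : Measure (E d × ℝ) := (volume : Measure (E d)).prod (rM d)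

/-- local L2 average of g(., r) over the cube of side 2^l containing x -/
def Gg {d : ℕ} (l : ℤ) (g : E d × ℝ → ℂ) (z : E d × ℝ) : ENNReal :=
  (Av l (fun y => ‖g (y, z.2)‖ₑ ^ (2 : ℝ)) z.1) ^ (1 / 2 : ℝ)

/-- admissible g for the cube size 2^l: only radii larger than 2^l -/
structure Ad {d : ℕ} (l : ℕ) (g : E d × ℝ → ℂ) : Prop where
  meas : Measurable g
  bdd : ∃ B : ℝ, ∀ z, ‖g z‖ ≤ B
  supp : HasCompactSupport g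
  big : ∀ (y : E d) (r : ℝ), r ≤ (2 : ℝ) ^ l → g (y, r) = 0

end Pool.LibRF53
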