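import Pool.Agent.LibRF53.D5
import Pool.Agent.LibRF53.B3
import Pool.Agent.LibRF53.A1

/-
PLAN (H2). Near part. For y in Q j a and x0 in Q j a: nk c m j k (y - z) /= 0 only for |y - z| <= 2 2^j (chizero), so cv (nk c m j k) (h k) y = cv (nk c m j k) (H k) y with H k = h k * indicator of
closedBall x0 ((sqrt d + 3) 2^j) (Bd: h k bounded continuous). Cauchy-Schwarz on Q j a (Q_vol), near_L2, and the sum over k of int |H k|^2 = int over the ball of the sum of |h k|^2 <=
C vl d j MB (sum |h k|^2) x (ball_le_MB, dist x x0 <= sqrt d 2^j). Total: vl^(1/2) (C M0^2 vl MB)^(1/2).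
-/

set_option autoImplicit false

noncomputable section

open MeasureTheory Metric Set Filter

namespace Pool.LibRF53

open Pool.LibSR53

private theorem meas_Kk {d : ℕ} (φ : SchwartzMap (E d) ℂ) {m : E d → ℂ} (hm : Measurable m)
    (k : ℤ) : Measurable (Kk φ m k) := by
  have h : StronglyMeasurable (Function.uncurry
      (fun (x ξ : E d) => ex x ξ * (m ξ * φ (((2 : ℝ) ^ k)⁻¹ • ξ)))) := by
    apply Measurable.stronglyMeasurable
    apply Measurable.mul
    · unfold ex
      have hc : Continuous (fun p : E d × E d => Complex.exp (2 * (Real.pi : ℂ) * Complex.I *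
          ((inner ℝ p.1 p.2 : ℝ) : ℂ))) := by fun_prop
      exact hc.measurable
    · apply Measurable.mul
      · exact hm.comp measurable_snd
      · have hc : Continuous (fun p : E d × E d => φ (((2 : ℝ) ^ k)⁻¹ • p.2)) :=
          φ.continuous.comp (by fun_prop)
        exact hc.measurable
  exact (StronglyMeasurable.integral_prod_right (ν := (volume : Measure (E d))) h).measurable

private theorem meas_nk {d : ℕ} (c : Cut d) {m : E d → ℂ} (hm : Measurable m) (j k : ℤ) :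
    Measurable (nk c m j k) := by
  unfold nk
  apply Measurable.mul
  · exact meas_Kk c.φ0 hm k
  · have hc : Continuous (fun x : E d => c.χ (((2 : ℝ) ^ j)⁻¹ • x)) :=
      c.χ.continuous.comp (by fun_prop)
    exact hc.measurable

private theorem meas_cv {d : ℕ} {K f : E d → ℂ} (hK : Measurable K) (hf : Measurable f) :
    Measurable (cv K f) := by
  have h : StronglyMeasurable (Function.uncurry (fun (x y : E d) => K (x - y) * f y)) := by
    apply Measurable.stronglyMeasurable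
    apply Measurable.mul
    · exact hK.comp (measurable_fst.sub measurable_snd)
    · exact hf.comp measurable_snd
  exact (StronglyMeasurable.integral_prod_right (ν := (volume : Measure (E d))) h).measurable

private theorem nk_zero {d : ℕ} (c : Cut d) (m : E d → ℂ) (j k : ℤ) (x : E d)
    (hx : 2 * (2 : ℝ) ^ j ≤ ‖x‖) : nk c m j k x = 0 := by
  unfold nk
  rw [c.χzero, mul_zero]
  have h2 : (0 : ℝ) < (2 : ℝ) ^ j := by positivity
  rw [norm_smul, norm_inv, Real.norm_of_nonneg h2.le, ← div_eq_inv_mul, le_div_iff₀ h2]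
  exact hx

private theorem holder_two {d : ℕ} (A : Set (E d)) (F : E d → ENNReal) (hF : Measurable F) :
    ∫⁻ y in A, F y ≤ (volume A) ^ (1 / 2 : ℝ) * (∫⁻ y in A, F y ^ (2 : ℝ)) ^ (1 / 2 : ℝ) := by
  have hpq : Real.HolderConjugate 2 2 := Real.HolderConjugate.two_two
  have h := ENNReal.lintegral_mul_le_Lp_mul_Lq (volume.restrict A) hpq
    (f := fun _ => 1) (g := F) aemeasurable_const hF.aemeasurable
  simpa using h

theorem near_part {d : ℕ} (c : Cut d) : ∃ C : ℝ, 0 < C ∧ ∀ (m : E d → ℂ) (M0 : ℝ), Measurable m →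
    0 ≤ M0 → (∀ ξ, ‖m ξ‖ ≤ M0) → ∀ (S : Finset ℤ) (h : ℤ → E d → ℂ),
    (∀ k, Continuous (h k)) → (∀ k, ∃ B, ∀ x, ‖h k x‖ ≤ B) →
    ∀ (j : ℤ) (a : Fin d → ℤ) (x : E d), x ∈ Q j a →
    ∫⁻ y in Q j a, ‖∑ k ∈ S.filter (fun k => 0 ≤ j + k), cv (nk c m j k) (h k) y‖ₑ ≤
      vl d j * (ENNReal.ofReal (C * M0) *
        (MB (fun y => ∑ k ∈ S, ‖h k y‖ₑ ^ (2 : ℝ)) x) ^ (1 / 2 : ℝ)) := by
  obtain ⟨C0, hC0, h0⟩ := near_L2 c
  have hR : (0 : ℝ) < Real.sqrt d + 3 := by positivity
  obtain ⟨C1, hC1, h1⟩ := ball_le_MB d (Real.sqrt d + 3) hR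
  refine ⟨Real.sqrt (C0 * C1), Real.sqrt_pos.2 (mul_pos hC0 hC1), ?_⟩
  intro m M0 hm hM0 hmb S h hcont hbdd j a x hx
  have h2j : (0 : ℝ) < (2 : ℝ) ^ j := by positivity
  set B : Set (E d) := closedBall x ((Real.sqrt d + 3) * (2 : ℝ) ^ j) with hB
  have hBm : MeasurableSet B := measurableSet_closedBall
  set H : ℤ → E d → ℂ := fun k => B.indicator (h k) with hH
  have hHBd : ∀ k, Bd (H k) := by
    intro k
    obtain ⟨b, hb⟩ := hbdd k
    refine ⟨(hcont k).measurable.indicator hBm, ⟨b, fun y => ?_⟩,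
      ⟨‖x‖ + (Real.sqrt d + 3) * (2 : ℝ) ^ j, fun y hy => ?_⟩⟩
    · rw [hH]
      by_cases hyB : y ∈ B
      · simp only [Set.indicator_of_mem hyB]
        exact hb y
      · simp only [Set.indicator_of_notMem hyB, norm_zero]
        exact le_trans (norm_nonneg _) (hb y)
    · rw [hH]
      have : y ∉ B := by
        intro hyB
        rw [hB, mem_closedBall, dist_eq_norm] at hyB
        have := norm_le_norm_add_norm_sub' y x
        linarith
      simp only [Set.indicator_of_notMem this]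
  set T : Finset ℤ := S.filter (fun k => 0 ≤ j + k) with hT
  have heq : ∀ y ∈ Q j a, ∀ k, cv (nk c m j k) (h k) y = cv (nk c m j k) (H k) y := by
    intro y hy k
    unfold cv
    congr 1
    ext z
    by_cases hz : z ∈ B
    · rw [hH]
      simp only [Set.indicator_of_mem hz]
    · rw [nk_zero c m j k (y - z), zero_mul, zero_mul]
      by_contra hlt
      push Not at hlt
      apply hz
      rw [hB, mem_closedBall]
      have e1 : dist z x ≤ dist z y + dist y x := dist_triangle _ _ _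
      have e2 : dist y x ≤ Real.sqrt d * (2 : ℝ) ^ j := Q_dist hy hx
      have e3 : dist z y = ‖y - z‖ := by rw [dist_comm, dist_eq_norm]
      nlinarith
  have hFm : Measurable (fun y => ‖∑ k ∈ T, cv (nk c m j k) (H k) y‖ₑ) := by
    apply Measurable.enorm
    apply Finset.measurable_sum
    intro k _
    exact meas_cv (meas_nk c hm j k) (hHBd k).meas
  have s1 : ∫⁻ y in Q j a, ‖∑ k ∈ T, cv (nk c m j k) (h k) y‖ₑ =
      ∫⁻ y in Q j a, ‖∑ k ∈ T, cv (nk c m j k) (H k) y‖ₑ := by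
    apply setLIntegral_congr_fun (Q_meas j a)
    intro y hy
    simp only
    rw [Finset.sum_congr rfl (fun k _ => heq y hy k)]
  have s2 := holder_two (Q j a) _ hFm
  have s3 : ∫⁻ y in Q j a, ‖∑ k ∈ T, cv (nk c m j k) (H k) y‖ₑ ^ (2 : ℝ) ≤
      ENNReal.ofReal (C0 * M0 ^ 2) * ∑ k ∈ T, ∫⁻ x, ‖H k x‖ₑ ^ (2 : ℝ) := by
    refine le_trans (setLIntegral_le_lintegral _ _) ?_
    apply h0 m M0 hm hM0 hmb j T _ H hHBd
    intro k hk
    rw [hT, Finset.mem_filter] at hk
    exact hk.2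
  have s4 : ∑ k ∈ T, ∫⁻ x, ‖H k x‖ₑ ^ (2 : ℝ) ≤
      ∫⁻ y in B, ∑ k ∈ S, ‖h k y‖ₑ ^ (2 : ℝ) := by
    rw [lintegral_finsetSum]
    · refine le_trans (Finset.sum_le_sum_of_subset (Finset.filter_subset _ _)) ?_
      apply Finset.sum_le_sum
      intro k _
      rw [← lintegral_indicator hBm]
      apply lintegral_mono
      intro y
      rw [hH]
      by_cases hyB : y ∈ B
      · simp only [Set.indicator_of_mem hyB]
        exact le_refl _
      · simp only [Set.indicator_of_notMem hyB]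
        simp
    · intro k _
      exact ((hcont k).measurable.enorm).pow_const _
  have hgm : Measurable (fun y => ∑ k ∈ S, ‖h k y‖ₑ ^ (2 : ℝ)) := by
    apply Finset.measurable_sum
    intro k _
    exact ((hcont k).measurable.enorm).pow_const _
  have s5 : ∫⁻ y in B, ∑ k ∈ S, ‖h k y‖ₑ ^ (2 : ℝ) ≤ ENNReal.ofReal C1 *
      (vl d j * MB (fun y => ∑ k ∈ S, ‖h k y‖ₑ ^ (2 : ℝ)) x) := by
    apply h1 _ hgm j x x
    rw [dist_self]
    positivity
  rw [s1]
  refine le_trans s2 ?_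
  rw [Q_vol]
  have s6 : (∫⁻ y in Q j a, ‖∑ k ∈ T, cv (nk c m j k) (H k) y‖ₑ ^ (2 : ℝ)) ^ (1 / 2 : ℝ) ≤
      (ENNReal.ofReal (C0 * M0 ^ 2) * (ENNReal.ofReal C1 *
      (vl d j * MB (fun y => ∑ k ∈ S, ‖h k y‖ₑ ^ (2 : ℝ)) x))) ^ (1 / 2 : ℝ) := by
    apply ENNReal.rpow_le_rpow _ (by norm_num)
    refine le_trans s3 ?_
    gcongr
    exact le_trans s4 s5
  refine le_trans (mul_le_mul_right s6 _) ?_
  have s7 : ENNReal.ofReal (C0 * M0 ^ 2) * (ENNReal.ofReal C1 *
      (vl d j * MB (fun y => ∑ k ∈ S, ‖h k y‖ₑ ^ (2 : ℝ)) x)) =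
      vl d j * (ENNReal.ofReal (Real.sqrt (C0 * C1) * M0) ^ (2 : ℝ) *
        MB (fun y => ∑ k ∈ S, ‖h k y‖ₑ ^ (2 : ℝ)) x) := by
    have e1 : ENNReal.ofReal (Real.sqrt (C0 * C1) * M0) ^ (2 : ℝ) =
        ENNReal.ofReal (C0 * M0 ^ 2) * ENNReal.ofReal C1 := by
      rw [ENNReal.ofReal_rpow_of_nonneg (by positivity) (by norm_num),
        ← ENNReal.ofReal_mul (by positivity)]
      congr 1
      rw [Real.rpow_two, mul_pow, Real.sq_sqrt (by positivity)]
      ring
    rw [e1]
    ring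
  rw [s7, ENNReal.mul_rpow_of_nonneg _ _ (by norm_num), ENNReal.mul_rpow_of_nonneg _ _ (by norm_num),
    ← ENNReal.rpow_mul, ← mul_assoc, ← ENNReal.rpow_add_of_nonneg _ _ (by norm_num) (by norm_num)]
  norm_num

end Pool.LibRF53
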