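import Pool.Agent.LibRF53.A2

/-
PLAN (H3). Far part, pointwise in x. F k j : any measurable functions. For x in Q j a: int over Q j a of |sum over k in S, 0 <= j+k, of F j k| <= sum over k of int_Q |F j k| <= vl sum over k of a_k,
a_k = (Av j |F j k|^2 x)^(1/2) (Av_on, Av_jensen with s = 1, t = 2). For k with l = j + k >= 0 we have j = l - k, so a_k^q is one of the terms of Rf x without its factor (2^l)^(eps/2):
a_k <= (2^l)^(-eps/(2q)) (Rf x)^(1/q), and the sum over the different l of (2^l)^(-eps/(2q)) is bounded by a geometric series depending on eps and q only.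
Rf_meas: countable sum of measurable functions (Av_meas).
-/

set_option autoImplicit false

noncomputable section

open MeasureTheory Metric Set Filter

namespace Pool.LibRF53

open Pool.LibSR53

def Rf {d : ℕ} (q ε : ℝ) (S : Finset ℤ) (F : ℤ → ℤ → E d → ℂ) (x : E d) : ENNReal :=
  ∑' l : ℕ, ∑ k ∈ S, ENNReal.ofReal (((2 : ℝ) ^ l) ^ (ε / 2)) *
    (Av ((l : ℤ) - k) (fun y => ‖F ((l : ℤ) - k) k y‖ₑ ^ (2 : ℝ)) x) ^ (q / 2)

theorem Rf_meas {d : ℕ} (q ε : ℝ) (S : Finset ℤ) (F : ℤ → ℤ → E d → ℂ) :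
    Measurable (Rf q ε S F) := by
  unfold Rf
  refine Measurable.tsum fun l => ?_
  refine Finset.measurable_sum _ fun k _ => ?_
  exact ((Av_meas _ _).pow_const _).const_mul _

private theorem aux_w (q ε : ℝ) (hq : 2 < q) (l : ℕ) :
    ((ENNReal.ofReal (((2 : ℝ) ^ l) ^ (ε / 2)))⁻¹) ^ (1 / q) =
      ENNReal.ofReal (((2 : ℝ) ^ (-(ε / (2 * q)))) ^ l) := by
  have hq0 : q ≠ 0 := by linarith
  have h2 : (0 : ℝ) < ((2 : ℝ) ^ l) ^ (ε / 2) := by positivity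
  rw [← ENNReal.ofReal_inv_of_pos h2, ENNReal.ofReal_rpow_of_pos (inv_pos.2 h2)]
  congr 1
  rw [← Real.rpow_natCast (2 : ℝ) l, ← Real.rpow_mul (by norm_num), ← Real.rpow_neg (by norm_num),
    ← Real.rpow_mul (by norm_num), ← Real.rpow_natCast, ← Real.rpow_mul (by norm_num)]
  congr 1
  field_simp

private theorem aux_term (q ε : ℝ) (hq : 2 < q) (l : ℕ) (A R : ENNReal)
    (h : ENNReal.ofReal (((2 : ℝ) ^ l) ^ (ε / 2)) * A ^ (q / 2) ≤ R) :
    A ^ (1 / 2 : ℝ) ≤ ENNReal.ofReal (((2 : ℝ) ^ (-(ε / (2 * q)))) ^ l) * R ^ (1 / q) := by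
  have hq0 : q ≠ 0 := by linarith
  have hq1 : 0 ≤ 1 / q := by positivity
  have h2 : (0 : ℝ) < ((2 : ℝ) ^ l) ^ (ε / 2) := by positivity
  have hw0 : ENNReal.ofReal (((2 : ℝ) ^ l) ^ (ε / 2)) ≠ 0 := by
    rw [Ne, ENNReal.ofReal_eq_zero, not_le]
    exact h2
  have hw1 : ENNReal.ofReal (((2 : ℝ) ^ l) ^ (ε / 2)) ≠ ⊤ := ENNReal.ofReal_ne_top
  have h3 : A ^ (q / 2) ≤ (ENNReal.ofReal (((2 : ℝ) ^ l) ^ (ε / 2)))⁻¹ * R := by
    calc A ^ (q / 2) = (ENNReal.ofReal (((2 : ℝ) ^ l) ^ (ε / 2)))⁻¹ *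
          (ENNReal.ofReal (((2 : ℝ) ^ l) ^ (ε / 2)) * A ^ (q / 2)) := by
          rw [← mul_assoc, ENNReal.inv_mul_cancel hw0 hw1, one_mul]
      _ ≤ _ := by gcongr
  have h4 := ENNReal.rpow_le_rpow h3 hq1
  rw [← ENNReal.rpow_mul, ENNReal.mul_rpow_of_nonneg _ _ hq1, aux_w q ε hq l] at h4
  have h5 : q / 2 * (1 / q) = 1 / 2 := by field_simp
  rwa [h5] at h4

private theorem aux_geo (ρ : ℝ) (h0 : 0 ≤ ρ) (h1 : ρ < 1) (j : ℤ) (S : Finset ℤ) :
    ∑ k ∈ S.filter (fun k => 0 ≤ j + k), ENNReal.ofReal (ρ ^ (j + k).toNat) ≤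
      ENNReal.ofReal ((1 - ρ)⁻¹) := by
  have hinj : Set.InjOn (fun k : ℤ => (j + k).toNat) (S.filter (fun k => 0 ≤ j + k) : Finset ℤ) := by
    intro k hk k' hk' h
    have e1 := (Finset.mem_filter.1 (Finset.mem_coe.1 hk)).2
    have e2 := (Finset.mem_filter.1 (Finset.mem_coe.1 hk')).2
    have e3 : (j + k).toNat = (j + k').toNat := h
    omega
  have e : ∑ k ∈ S.filter (fun k => 0 ≤ j + k), ENNReal.ofReal (ρ ^ (j + k).toNat) =
      ∑ l ∈ (S.filter (fun k => 0 ≤ j + k)).image (fun k : ℤ => (j + k).toNat),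
        ENNReal.ofReal (ρ ^ l) := by
    rw [Finset.sum_image hinj]
  rw [e]
  refine (ENNReal.sum_le_tsum _).trans (le_of_eq ?_)
  rw [← ENNReal.ofReal_tsum_of_nonneg (fun n => pow_nonneg h0 n)
    (summable_geometric_of_lt_one h0 h1), tsum_geometric_of_lt_one h0 h1]

theorem far_point {d : ℕ} (q ε : ℝ) (hq : 2 < q) (hε : 0 < ε) : ∃ C : ℝ, 0 < C ∧
    ∀ (S : Finset ℤ) (F : ℤ → ℤ → E d → ℂ), (∀ j k, Measurable (F j k)) →
    ∀ (j : ℤ) (a : Fin d → ℤ) (x : E d), x ∈ Q j a →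
    ∫⁻ y in Q j a, ‖∑ k ∈ S.filter (fun k => 0 ≤ j + k), F j k y‖ₑ ≤
      vl d j * (ENNReal.ofReal C * (Rf q ε S F x) ^ (1 / q)) := by
  have hρ0 : (0 : ℝ) ≤ (2 : ℝ) ^ (-(ε / (2 * q))) := by positivity
  have hρ1 : (2 : ℝ) ^ (-(ε / (2 * q))) < 1 := by
    apply Real.rpow_lt_one_of_one_lt_of_neg (by norm_num)
    have : 0 < ε / (2 * q) := by positivity
    linarith
  refine ⟨(1 - (2 : ℝ) ^ (-(ε / (2 * q))))⁻¹, inv_pos.2 (by linarith), ?_⟩
  intro S F hF j a x hx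
  have h1 : ∫⁻ y in Q j a, ‖∑ k ∈ S.filter (fun k => 0 ≤ j + k), F j k y‖ₑ ≤
      ∑ k ∈ S.filter (fun k => 0 ≤ j + k), ∫⁻ y in Q j a, ‖F j k y‖ₑ := by
    rw [← lintegral_finsetSum' _ fun k _ => (hF j k).enorm.aemeasurable]
    exact lintegral_mono fun y => enorm_sum_le _ _
  refine h1.trans ?_
  have h2 : ∀ k ∈ S.filter (fun k => 0 ≤ j + k), ∫⁻ y in Q j a, ‖F j k y‖ₑ ≤
      vl d j * (ENNReal.ofReal (((2 : ℝ) ^ (-(ε / (2 * q)))) ^ (j + k).toNat) *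
        (Rf q ε S F x) ^ (1 / q)) := by
    intro k hk
    have hk' := Finset.mem_filter.1 hk
    rw [← Av_on j (fun y => ‖F j k y‖ₑ) hx]
    gcongr
    have e1 := Av_jensen j (fun y => ‖F j k y‖ₑ) (hF j k).enorm (s := 1) (t := 2) one_pos
      (by norm_num) x
    simp only [ENNReal.rpow_one, div_one] at e1
    refine e1.trans (aux_term q ε hq _ _ _ ?_)
    have hl : (((j + k).toNat : ℕ) : ℤ) - k = j := by
      rw [Int.toNat_of_nonneg hk'.2]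
      ring
    unfold Rf
    refine le_trans ?_ (ENNReal.le_tsum (j + k).toNat)
    have e2 : ENNReal.ofReal (((2 : ℝ) ^ (j + k).toNat) ^ (ε / 2)) *
        (Av j (fun y => ‖F j k y‖ₑ ^ (2 : ℝ)) x) ^ (q / 2) =
        (fun k' : ℤ => ENNReal.ofReal (((2 : ℝ) ^ (j + k).toNat) ^ (ε / 2)) *
          (Av (((j + k).toNat : ℤ) - k')
            (fun y => ‖F (((j + k).toNat : ℤ) - k') k' y‖ₑ ^ (2 : ℝ)) x) ^ (q / 2)) k := by
      simp only [hl]
    rw [e2]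
    exact Finset.single_le_sum (f := fun k' : ℤ =>
      ENNReal.ofReal (((2 : ℝ) ^ (j + k).toNat) ^ (ε / 2)) *
          (Av (((j + k).toNat : ℤ) - k')
            (fun y => ‖F (((j + k).toNat : ℤ) - k') k' y‖ₑ ^ (2 : ℝ)) x) ^ (q / 2))
      (fun _ _ => zero_le) hk'.1
  refine (Finset.sum_le_sum h2).trans ?_
  rw [← Finset.mul_sum, ← Finset.sum_mul]
  gcongr
  exact aux_geo _ hρ0 hρ1 j S

end Pool.LibRF53
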