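import Pool.Agent.LibRF53.H1
import Pool.Agent.LibRF53.H2
import Pool.Agent.LibRF53.H3
import Pool.Agent.LibRF53.D6
import Pool.Agent.LibRF53.C2

/-
PLAN (H4a). The sharp function of T = sum over S of u k, u k = cv (Kk phi0 m k) f. h k = cv (dl psi1 k) f (Bi: cv_Bi), u k = cv Kk (h k) (Kk_h, f integrable), u k continuous, bounded and
cv (dl psi1 k) (u k) = u k (u_facts). Given Q j a take x0 in it (Q_nonempty) and b = sum over k in S, j + k < 0, of u k x0. For y in Q j a: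
T y - b = sum over j + k < 0 of (u k y - u k x0) + sum over 0 <= j + k of cv (nk c m j k) (h k) y + sum over 0 <= j + k of cv (fk c m j k) (h k) y, since nk + fk = Kk pointwise (nk, fk bounded
and measurable, h k integrable, so the integrals add). First sum: low_part (psi = c.psi1), constant in y, times volume of Q j a = vl d j (Q_vol); second: near_part; third: far_point with
F j k = cv (fk c m j k) (h k) (measurable: fk measurable and bounded, h k continuous integrable; StronglyMeasurable.integral_prod_right or continuity). C = the sum of the three constants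
(near_part gives C * M0: ENNReal.ofReal_mul).
-/

set_option autoImplicit false

noncomputable section

open MeasureTheory Metric Set Filter

namespace Pool.LibRF53

open Pool.LibSR53

private theorem H4a_int {d : ℕ} {f : E d → ℂ} (hf : Bd f) : Integrable f := by
  obtain ⟨B, hB⟩ := hf.bdd
  obtain ⟨R, hR⟩ := hf.supp
  have h1 : IntegrableOn f (closedBall 0 R) := by
    refine Measure.integrableOn_of_bounded (M := B) ?_ hf.meas.aestronglyMeasurable ?_
    · exact measure_closedBall_lt_top.ne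
    · exact Eventually.of_forall hB
  refine (integrableOn_iff_integrable_of_support_subset ?_).mp h1
  intro x hx
  rw [mem_closedBall_zero_iff]
  by_contra hn
  exact hx (hR x (not_le.mp hn))

private theorem H4a_chi {d : ℕ} (c : Cut d) (x : E d) : ‖c.χ x‖ ≤ 1 ∧ ‖1 - c.χ x‖ ≤ 1 := by
  obtain ⟨t, h0, h1, ht⟩ := c.posχ x
  rw [ht]
  constructor
  · rw [Complex.norm_real, Real.norm_of_nonneg h0]
    exact h1
  · rw [← Complex.ofReal_one, ← Complex.ofReal_sub, Complex.norm_real, Real.norm_of_nonneg (by linarith)]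
    linarith

private theorem H4a_nk {d : ℕ} (c : Cut d) (m : E d → ℂ) (hm : Mr m) (j k : ℤ) :
    Continuous (nk c m j k) ∧ ∃ B : ℝ, ∀ x, ‖nk c m j k x‖ ≤ B := by
  obtain ⟨h1, ⟨B, hB⟩, -, -⟩ := Kk_facts c m hm k
  refine ⟨h1.mul (c.χ.continuous.comp (continuous_const_smul _)), B, fun x => ?_⟩
  unfold nk
  rw [norm_mul]
  have h2 := (H4a_chi c (((2 : ℝ) ^ j)⁻¹ • x)).1
  have h3 := hB x
  have h4 := norm_nonneg (Kk c.φ0 m k x)
  nlinarith [norm_nonneg (c.χ (((2 : ℝ) ^ j)⁻¹ • x))]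

private theorem H4a_fk {d : ℕ} (c : Cut d) (m : E d → ℂ) (hm : Mr m) (j k : ℤ) :
    Continuous (fk c m j k) ∧ ∃ B : ℝ, ∀ x, ‖fk c m j k x‖ ≤ B := by
  obtain ⟨h1, ⟨B, hB⟩, -, -⟩ := Kk_facts c m hm k
  refine ⟨h1.mul (continuous_const.sub (c.χ.continuous.comp (continuous_const_smul _))), B, fun x => ?_⟩
  unfold fk
  rw [norm_mul]
  have h2 := (H4a_chi c (((2 : ℝ) ^ j)⁻¹ • x)).2
  have h3 := hB x
  have h4 := norm_nonneg (Kk c.φ0 m k x)
  nlinarith [norm_nonneg (1 - c.χ (((2 : ℝ) ^ j)⁻¹ • x))]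

private theorem H4a_intg {d : ℕ} {K h : E d → ℂ} (hK : Continuous K) (hB : ∃ B : ℝ, ∀ x, ‖K x‖ ≤ B)
    (hh : Integrable h) (x : E d) : Integrable (fun y => K (x - y) * h y) := by
  obtain ⟨B, hB⟩ := hB
  exact hh.bdd_mul (hK.comp (continuous_const.sub continuous_id)).aestronglyMeasurable
    (Eventually.of_forall fun y => hB (x - y))

private theorem H4a_meas {d : ℕ} {K h : E d → ℂ} (hK : Continuous K) (hh : Continuous h) :
    Measurable (cv K h) := by
  have h1 : Continuous (fun z : E d × E d => K (z.1 - z.2) * h z.2) :=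
    (hK.comp (continuous_fst.sub continuous_snd)).mul (hh.comp continuous_snd)
  exact (h1.stronglyMeasurable.integral_prod_right (ν := (volume : Measure (E d)))).measurable

private theorem H4a_split {d : ℕ} (c : Cut d) (m : E d → ℂ) (hm : Mr m) (j k : ℤ) {h : E d → ℂ}
    (hh : Integrable h) (x : E d) :
    cv (Kk c.φ0 m k) h x = cv (nk c m j k) h x + cv (fk c m j k) h x := by
  have hn := H4a_nk c m hm j k
  have hf := H4a_fk c m hm j k
  unfold cv
  rw [← integral_add (H4a_intg hn.1 hn.2 hh x) (H4a_intg hf.1 hf.2 hh x)]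
  congr 1
  funext y
  unfold nk fk
  ring

theorem T_sharp {d : ℕ} (c : Cut d) (q ε : ℝ) (hq : 2 < q) (hε : 0 < ε) : ∃ C : ℝ, 0 < C ∧
    ∀ (m : E d → ℂ) (M0 : ℝ), Mr m → 0 ≤ M0 → (∀ ξ, ‖m ξ‖ ≤ M0) →
    ∀ (S : Finset ℤ) (f : E d → ℂ), Bd f → ∀ (j : ℤ) (a : Fin d → ℤ), ∃ b : ℂ, ∀ x ∈ Q j a,
    ∫⁻ y in Q j a, ‖(∑ k ∈ S, cv (Kk c.φ0 m k) f y) - b‖ₑ ≤
      vl d j * (ENNReal.ofReal C *
        ((∑ k ∈ S, (MB (fun z => ‖cv (Kk c.φ0 m k) f z‖ₑ) x) ^ q) ^ (1 / q) +
        ENNReal.ofReal M0 *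
          (MB (fun y => ∑ k ∈ S, ‖cv (dl c.ψ1 k) f y‖ₑ ^ (2 : ℝ)) x) ^ (1 / 2 : ℝ) +
        (Rf q ε S (fun j k => cv (fk c m j k) (cv (dl c.ψ1 k) f)) x) ^ (1 / q))) := by
  obtain ⟨C1, hC1, hlow⟩ := low_part c.ψ1 q (by linarith)
  obtain ⟨C2, hC2, hnear⟩ := near_part c
  obtain ⟨C3, hC3, hfar⟩ := far_point (d := d) q ε hq hε
  refine ⟨C1 + C2 + C3, by positivity, ?_⟩
  intro m M0 hm hM0 hmb S f hf j a
  have hfi := H4a_int hf
  set u : ℤ → E d → ℂ := fun k => cv (Kk c.φ0 m k) f with hu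
  set h : ℤ → E d → ℂ := fun k => cv (dl c.ψ1 k) f with hh
  have huf := fun k => u_facts c m hm k f hf
  have hhB : ∀ k, Bi (h k) := fun k => cv_Bi c.ψ1 k f hf
  obtain ⟨x0, hx0⟩ := Q_nonempty (d := d) j a
  refine ⟨∑ k ∈ S.filter (fun k => j + k < 0), u k x0, ?_⟩
  intro x hx
  have hsplit : ∀ y, (∑ k ∈ S, u k y) - ∑ k ∈ S.filter (fun k => j + k < 0), u k x0 =
      (∑ k ∈ S.filter (fun k => j + k < 0), (u k y - u k x0)) +
      ((∑ k ∈ S.filter (fun k => 0 ≤ j + k), cv (fk c m j k) (h k) y) +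
        ∑ k ∈ S.filter (fun k => 0 ≤ j + k), cv (nk c m j k) (h k) y) := by
    intro y
    have h1 : ∑ k ∈ S, u k y = (∑ k ∈ S.filter (fun k => j + k < 0), u k y) +
        ∑ k ∈ S.filter (fun k => 0 ≤ j + k), u k y := by
      rw [← Finset.sum_filter_add_sum_filter_not S (fun k => j + k < 0)]
      congr 1
      apply Finset.sum_congr _ fun _ _ => rfl
      apply Finset.filter_congr
      intro k _
      exact not_lt
    have h2 : ∀ k, u k y = cv (fk c m j k) (h k) y + cv (nk c m j k) (h k) y := by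
      intro k
      rw [hu]
      show cv (Kk c.φ0 m k) f y = _
      rw [Kk_h c m hm k f hfi y, H4a_split c m hm j k (hhB k).int y, add_comm]
    rw [h1, Finset.sum_sub_distrib, ← Finset.sum_add_distrib, Finset.sum_congr rfl fun k _ => h2 k]
    rw [Finset.sum_congr (s₁ := S.filter (fun k => 0 ≤ j + k)) rfl fun k _ => h2 k]
    ring
  have hA : Measurable fun y => ‖∑ k ∈ S.filter (fun k => j + k < 0), (u k y - u k x0)‖ₑ := by
    apply Measurable.enorm
    apply Finset.measurable_sum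
    intro k _
    exact ((huf k).1.measurable).sub_const _
  have hD : Measurable fun y => ‖∑ k ∈ S.filter (fun k => 0 ≤ j + k), cv (fk c m j k) (h k) y‖ₑ := by
    apply Measurable.enorm
    apply Finset.measurable_sum
    intro k _
    exact H4a_meas (H4a_fk c m hm j k).1 (hhB k).cont
  have hb1 : ∫⁻ y in Q j a, ‖∑ k ∈ S.filter (fun k => j + k < 0), (u k y - u k x0)‖ₑ ≤
      vl d j * (ENNReal.ofReal C1 * (∑ k ∈ S, (MB (fun z => ‖u k z‖ₑ) x) ^ q) ^ (1 / q)) := by
    calc ∫⁻ y in Q j a, ‖∑ k ∈ S.filter (fun k => j + k < 0), (u k y - u k x0)‖ₑ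
        ≤ ∫⁻ y in Q j a, ENNReal.ofReal C1 * (∑ k ∈ S, (MB (fun z => ‖u k z‖ₑ) x) ^ q) ^ (1 / q) := by
          apply setLIntegral_mono' (Q_meas j a)
          intro y hy
          exact hlow S u (fun k => (huf k).1) (fun k => (huf k).2.1) (fun k => (huf k).2.2.2) j a x y x0 hx hy hx0
      _ = _ := by
          rw [setLIntegral_const, Q_vol, mul_comm]
  have hb2 := hnear m M0 hm.meas hM0 hmb S h (fun k => (hhB k).cont) (fun k => (hhB k).bdd) j a x hx
  have hb3 := hfar S (fun j k => cv (fk c m j k) (h k))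
    (fun j k => H4a_meas (H4a_fk c m hm j k).1 (hhB k).cont) j a x hx
  have hC1' : ENNReal.ofReal C1 ≤ ENNReal.ofReal (C1 + C2 + C3) := ENNReal.ofReal_le_ofReal (by linarith)
  have hC2' : ENNReal.ofReal C2 ≤ ENNReal.ofReal (C1 + C2 + C3) := ENNReal.ofReal_le_ofReal (by linarith)
  have hC3' : ENNReal.ofReal C3 ≤ ENNReal.ofReal (C1 + C2 + C3) := ENNReal.ofReal_le_ofReal (by linarith)
  calc ∫⁻ y in Q j a, ‖(∑ k ∈ S, u k y) - ∑ k ∈ S.filter (fun k => j + k < 0), u k x0‖ₑ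
      ≤ ∫⁻ y in Q j a, (‖∑ k ∈ S.filter (fun k => j + k < 0), (u k y - u k x0)‖ₑ +
          (‖∑ k ∈ S.filter (fun k => 0 ≤ j + k), cv (fk c m j k) (h k) y‖ₑ +
            ‖∑ k ∈ S.filter (fun k => 0 ≤ j + k), cv (nk c m j k) (h k) y‖ₑ)) := by
        apply lintegral_mono
        intro y
        beta_reduce
        rw [hsplit y]
        exact (enorm_add_le _ _).trans (add_le_add le_rfl (enorm_add_le _ _))
    _ = (∫⁻ y in Q j a, ‖∑ k ∈ S.filter (fun k => j + k < 0), (u k y - u k x0)‖ₑ) +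
          ((∫⁻ y in Q j a, ‖∑ k ∈ S.filter (fun k => 0 ≤ j + k), cv (fk c m j k) (h k) y‖ₑ) +
            ∫⁻ y in Q j a, ‖∑ k ∈ S.filter (fun k => 0 ≤ j + k), cv (nk c m j k) (h k) y‖ₑ) := by
        rw [lintegral_add_left hA, lintegral_add_left hD]
    _ ≤ vl d j * (ENNReal.ofReal C1 * (∑ k ∈ S, (MB (fun z => ‖u k z‖ₑ) x) ^ q) ^ (1 / q)) +
          (vl d j * (ENNReal.ofReal C3 * (Rf q ε S (fun j k => cv (fk c m j k) (h k)) x) ^ (1 / q)) +
            vl d j * (ENNReal.ofReal (C2 * M0) *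
              (MB (fun y => ∑ k ∈ S, ‖h k y‖ₑ ^ (2 : ℝ)) x) ^ (1 / 2 : ℝ))) :=
        add_le_add hb1 (add_le_add hb3 hb2)
    _ ≤ _ := by
        rw [ENNReal.ofReal_mul hC2.le, ← mul_add, ← mul_add]
        refine mul_le_mul_right ?_ (vl d j)
        rw [mul_add, mul_add]
        have e1 : ENNReal.ofReal C2 * ENNReal.ofReal M0 *
              (MB (fun y => ∑ k ∈ S, ‖h k y‖ₑ ^ (2 : ℝ)) x) ^ (1 / 2 : ℝ) ≤
            ENNReal.ofReal (C1 + C2 + C3) * (ENNReal.ofReal M0 *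
              (MB (fun y => ∑ k ∈ S, ‖h k y‖ₑ ^ (2 : ℝ)) x) ^ (1 / 2 : ℝ)) := by
          rw [mul_assoc]
          gcongr
        rw [add_comm (ENNReal.ofReal C3 * _), ← add_assoc]
        gcongr

end Pool.LibRF53
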