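import Pool.Agent.LibRF53.H3b
import Pool.Agent.LibRF53.H4a
import Pool.Agent.LibRF53.C4
import Pool.Agent.LibRF53.D3b
import Pool.Agent.LibRF53.B2
import Pool.Agent.LibRF53.A5

/-
PLAN (H4). Main estimate in L^q. Fix m, N, f, S. By mult_repl replace m by m' with |m'| <= C1 N everywhere (the kernels are the same). T = sum over S of u k, u k = cv (Kk phi0 m' k) f: continuous and in
L2 (u_facts). T_sharp with M0 = C1 N and eps from Rf_int gives the hypothesis of FS (H = C, g = T) with G x = C (a x + C1 N b x + r x), a = (sum (MB |u k|)^q)^(1/q), b = (MB (sum |h k|^2))^(1/2),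
r = (Rf)^(1/q); G measurable (MB_meas, Rf_meas). (x+y+z)^q <= 3^(q-1) (...) or 3^q max <= 3^q (x^q+y^q+z^q). int a^q = sum int (MB |u k|)^q <= C sum int |u k|^q (MB_strong, r = q) <=
C N^q sum int |h k|^q (hfull; u k = cv Kk (h k) by Kk_h, h k Bi) <= C N^q int |f|^q (SQq with psi1, phi1). int b^q = int (MB (sum |h k|^2))^(q/2) <= C int (sum |h k|^2)^(q/2) (MB_strong,
r = q/2) <= C int |f|^q (SQ). int r^q = int Rf <= C N^q sum int |h k|^q (Rf_int) <= C N^q int |f|^q (SQq). psi1, phi1 satisfy the hypotheses of SQ, SQq: ft1, supp1.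
-/

set_option autoImplicit false

noncomputable section

open MeasureTheory Metric Set Filter

namespace Pool.LibRF53

open Pool.LibSR53

private theorem h4_three (x y z : ENNReal) (q : ℝ) (hq : 0 ≤ q) :
    (x + y + z) ^ q ≤ (3 : ENNReal) ^ q * (x ^ q + y ^ q + z ^ q) := by
  have h1 : x + y + z ≤ 3 * max (max x y) z := by
    have hx : x ≤ max (max x y) z := (le_max_left x y).trans (le_max_left _ _)
    have hy : y ≤ max (max x y) z := (le_max_right x y).trans (le_max_left _ _)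
    have hz : z ≤ max (max x y) z := le_max_right _ _
    calc x + y + z ≤ max (max x y) z + max (max x y) z + max (max x y) z :=
          add_le_add (add_le_add hx hy) hz
      _ = 3 * max (max x y) z := by ring
  calc (x + y + z) ^ q ≤ (3 * max (max x y) z) ^ q := ENNReal.rpow_le_rpow h1 hq
    _ = (3 : ENNReal) ^ q * (max (max x y) z) ^ q := ENNReal.mul_rpow_of_nonneg _ _ hq
    _ ≤ (3 : ENNReal) ^ q * (x ^ q + y ^ q + z ^ q) := by
        apply mul_le_mul_right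
        rcases max_choice (max x y) z with h | h
        · rw [h]
          rcases max_choice x y with h' | h'
          · rw [h']; exact le_trans le_self_add le_self_add
          · rw [h']; exact le_trans le_add_self le_self_add
        · rw [h]; exact le_add_self

private theorem h4_supp {d : ℕ} (c : Cut d) (ξ : E d) (h : c.φ1 ξ ≠ 0) :
    1 / 8 ≤ ‖ξ‖ ∧ ‖ξ‖ ≤ 8 := by
  obtain ⟨h1, h2⟩ := c.supp1 ξ h
  constructor <;> linarith

theorem main_q (d : ℕ) (hd : 2 ≤ d) (c : Cut d) (p q s : ℝ) (hpq : p.HolderConjugate q)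
    (hq : 2 < q) (hps : p < s) (hp2 : p < 2 * (d : ℝ) / ((d : ℝ) + 1))
    (he : ∃ C : ℝ, 0 < C ∧ ∀ (l : ℕ) (g : E d × ℝ → ℂ), Ad l g →
      ∫⁻ x, ‖Vg c.ψ2 g x‖ₑ ^ s ≤ ENNReal.ofReal C * ∫⁻ z, Gg (l : ℤ) g z ^ s ∂(nM d))
    (hfull : ∃ C : ℝ, 0 < C ∧ ∀ m : E d → ℂ, Mr m → ∀ N : ℝ, 0 ≤ N → HN c m p N →
      ∀ (k : ℤ) (f : E d → ℂ), Bi f →
      ∫⁻ x, ‖cv (Kk c.φ0 m k) f x‖ₑ ^ q ≤ ENNReal.ofReal (C * N ^ q) * ∫⁻ x, ‖f x‖ₑ ^ q) :
    ∃ C : ℝ, 0 < C ∧ ∀ m : E d → ℂ, Mr m → ∀ N : ℝ, 0 ≤ N → HN c m p N →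
      ∀ (S : Finset ℤ) (f : E d → ℂ), Bd f →
      ∫⁻ x, ‖∑ k ∈ S, cv (Kk c.φ0 m k) f x‖ₑ ^ q ≤
        ENNReal.ofReal (C * N ^ q) * ∫⁻ x, ‖f x‖ₑ ^ q := by
  have hq0 : 0 < q := by linarith
  have hd1 : 1 ≤ d := by omega
  obtain ⟨C1, hC1, hrepl⟩ := mult_repl d hd c p hpq.lt hp2
  obtain ⟨C2, ε, hC2, hε, hRf⟩ := Rf_int d hd c p q s hpq hq hps he
  obtain ⟨C3, hC3, hTs⟩ := T_sharp c q ε hq hε
  obtain ⟨C4, hC4, hFS⟩ := FS d hd1 q hq
  obtain ⟨C5, hC5, hMq⟩ := MB_strong d hd1 q (by linarith)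
  obtain ⟨C6, hC6, hM2⟩ := MB_strong d hd1 (q / 2) (by linarith)
  obtain ⟨C7, hC7, hF⟩ := hfull
  obtain ⟨C8, hC8, hSQ⟩ := SQ hd1 c.ψ1 c.φ1 c.ft1 (h4_supp c) q hq
  obtain ⟨C9, hC9, hSQq⟩ := SQq hd1 c.ψ1 c.φ1 c.ft1 (h4_supp c) q hq
  refine ⟨C4 * (C3 ^ q * (3 ^ q * (C5 * C7 * C9 + C1 ^ q * (C6 * C8) + C2 * C9))), by positivity, ?_⟩
  intro m hm N hN hHN S f hf
  obtain ⟨m', hm', hb', hHN', hK⟩ := hrepl m hm N hN hHN
  have hkk : ∀ k, Kk c.φ0 m k = Kk c.φ0 m' k := fun k => funext (fun x => (hK k x).symm)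
  simp only [hkk]
  have hfi : Integrable f := by
    obtain ⟨B, hB⟩ := hf.bdd
    obtain ⟨R, hR⟩ := hf.supp
    have h1 : IntegrableOn f (closedBall (0 : E d) R) := by
      apply Measure.integrableOn_of_bounded (M := B)
      · exact (isCompact_closedBall (0 : E d) R).measure_lt_top.ne
      · exact hf.meas.aestronglyMeasurable
      · exact Filter.Eventually.of_forall hB
    rw [← integrableOn_iff_integrable_of_support_subset (s := closedBall (0 : E d) R)]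
    · exact h1
    · intro x hx
      rw [mem_closedBall, dist_zero_right]
      by_contra hcon
      exact hx (hR x (not_le.1 hcon))
  set u : ℤ → E d → ℂ := fun k => cv (Kk c.φ0 m' k) f with hu
  set h : ℤ → E d → ℂ := fun k => cv (dl c.ψ1 k) f with hh
  have hu_cont : ∀ k, Continuous (u k) := fun k => (u_facts c m' hm' k f hf).1
  have hu_L2 : ∀ k, ∫⁻ x, ‖u k x‖ₑ ^ (2 : ℝ) ≠ ⊤ := fun k => (u_facts c m' hm' k f hf).2.2.1
  have hh_Bi : ∀ k, Bi (h k) := fun k => cv_Bi c.ψ1 k f hf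
  set A : E d → ENNReal := fun x => ∑ k ∈ S, (MB (fun z => ‖u k z‖ₑ) x) ^ q with hA
  set Bf : E d → ENNReal := fun x => MB (fun y => ∑ k ∈ S, ‖h k y‖ₑ ^ (2 : ℝ)) x with hBf
  set R : E d → ENNReal := Rf q ε S (fun j k => cv (fk c m' j k) (cv (dl c.ψ1 k) f)) with hR
  have hMu : ∀ k, Measurable (MB (fun z => ‖u k z‖ₑ)) := fun k =>
    MB_meas _ (hu_cont k).enorm.measurable
  have hsumM : Measurable (fun y => ∑ k ∈ S, ‖h k y‖ₑ ^ (2 : ℝ)) :=
    Finset.measurable_sum S (fun k _ => (hh_Bi k).cont.enorm.measurable.pow_const _)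
  have hAm : Measurable A := Finset.measurable_sum S (fun k _ => (hMu k).pow_const _)
  have hBm : Measurable Bf := MB_meas _ hsumM
  have hRm : Measurable R := Rf_meas q ε S _
  set G : E d → ENNReal := fun x => ENNReal.ofReal C3 *
    (A x ^ (1 / q) + ENNReal.ofReal (C1 * N) * Bf x ^ (1 / 2 : ℝ) + R x ^ (1 / q)) with hG
  have hGm : Measurable G :=
    (((hAm.pow_const _).add ((hBm.pow_const _).const_mul _)).add (hRm.pow_const _)).const_mul _
  have hL2 : ∫⁻ x, ‖∑ k ∈ S, u k x‖ₑ ^ (2 : ℝ) ≠ ⊤ := by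
    have h1 : ∀ x, ‖∑ k ∈ S, u k x‖ₑ ^ (2 : ℝ) ≤
        ((S.card : ENNReal) ^ ((2 : ℝ) - 1)) * ∑ k ∈ S, ‖u k x‖ₑ ^ (2 : ℝ) := by
      intro x
      calc ‖∑ k ∈ S, u k x‖ₑ ^ (2 : ℝ) ≤ (∑ k ∈ S, ‖u k x‖ₑ) ^ (2 : ℝ) :=
            ENNReal.rpow_le_rpow (enorm_sum_le _ _) (by norm_num)
        _ ≤ _ := ENNReal.rpow_sum_le_const_mul_sum_rpow _ _ (by norm_num)
    have h2 : ∫⁻ x, ‖∑ k ∈ S, u k x‖ₑ ^ (2 : ℝ) ≤
        ((S.card : ENNReal) ^ ((2 : ℝ) - 1)) * ∑ k ∈ S, ∫⁻ x, ‖u k x‖ₑ ^ (2 : ℝ) := by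
      calc ∫⁻ x, ‖∑ k ∈ S, u k x‖ₑ ^ (2 : ℝ) ≤
          ∫⁻ x, ((S.card : ENNReal) ^ ((2 : ℝ) - 1)) * ∑ k ∈ S, ‖u k x‖ₑ ^ (2 : ℝ) :=
            lintegral_mono h1
        _ = ((S.card : ENNReal) ^ ((2 : ℝ) - 1)) * ∑ k ∈ S, ∫⁻ x, ‖u k x‖ₑ ^ (2 : ℝ) := by
            rw [lintegral_const_mul _ (Finset.measurable_sum S
              (fun k _ => (hu_cont k).enorm.measurable.pow_const _)),
              lintegral_finsetSum S (fun k _ => (hu_cont k).enorm.measurable.pow_const _)]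
    apply ne_top_of_le_ne_top _ h2
    apply ENNReal.mul_ne_top
    · exact ENNReal.rpow_ne_top_of_nonneg (by norm_num) (ENNReal.natCast_ne_top _)
    · exact ENNReal.sum_ne_top.2 (fun k _ => hu_L2 k)
  have hmain := hFS ℂ (fun x => ∑ k ∈ S, u k x)
    (continuous_finsetSum S (fun k _ => hu_cont k)) hL2 G hGm
    (fun j a => hTs m' (C1 * N) hm' (by positivity) hb' S f hf j a)
  -- the three integrals
  set If : ENNReal := ∫⁻ x, ‖f x‖ₑ ^ q with hIf
  have hsum : ∑ k ∈ S, ∫⁻ x, ‖h k x‖ₑ ^ q ≤ ENNReal.ofReal C9 * If := hSQq S f hf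
  have iA : ∫⁻ x, A x ≤ ENNReal.ofReal (C5 * C7 * C9 * N ^ q) * If := by
    calc ∫⁻ x, A x = ∑ k ∈ S, ∫⁻ x, (MB (fun z => ‖u k z‖ₑ) x) ^ q :=
          lintegral_finsetSum S (fun k _ => (hMu k).pow_const _)
      _ ≤ ∑ k ∈ S, ENNReal.ofReal C5 * (ENNReal.ofReal (C7 * N ^ q) * ∫⁻ x, ‖h k x‖ₑ ^ q) := by
          apply Finset.sum_le_sum
          intro k _
          refine (hMq _ (hu_cont k).enorm.measurable).trans ?_
          apply mul_le_mul_right
          have h1 := hF m' hm' N hN hHN' k (h k) (hh_Bi k)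
          have h2 : cv (Kk c.φ0 m' k) (h k) = u k := by
            funext x
            first
              | exact Kk_h c m' hm' k f hfi x
              | exact (Kk_h c m' hm' k f hfi x).symm
          rw [h2] at h1
          exact h1
      _ = ENNReal.ofReal C5 * (ENNReal.ofReal (C7 * N ^ q) * ∑ k ∈ S, ∫⁻ x, ‖h k x‖ₑ ^ q) := by
          rw [← Finset.mul_sum, ← Finset.mul_sum]
      _ ≤ ENNReal.ofReal C5 * (ENNReal.ofReal (C7 * N ^ q) * (ENNReal.ofReal C9 * If)) := by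
          gcongr
      _ = ENNReal.ofReal (C5 * C7 * C9 * N ^ q) * If := by
          rw [← mul_assoc (ENNReal.ofReal (C7 * N ^ q)), ← ENNReal.ofReal_mul (by positivity),
            ← mul_assoc, ← ENNReal.ofReal_mul (by positivity)]
          congr 2
          ring
  have iB : ∫⁻ x, Bf x ^ (q / 2) ≤ ENNReal.ofReal (C6 * C8) * If := by
    calc ∫⁻ x, Bf x ^ (q / 2) ≤ ENNReal.ofReal C6 *
          ∫⁻ x, (∑ k ∈ S, ‖h k x‖ₑ ^ (2 : ℝ)) ^ (q / 2) := hM2 _ hsumM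
      _ ≤ ENNReal.ofReal C6 * (ENNReal.ofReal C8 * If) := by
          apply mul_le_mul_right
          exact hSQ S f hf
      _ = ENNReal.ofReal (C6 * C8) * If := by
          rw [← mul_assoc, ← ENNReal.ofReal_mul (by positivity)]
  have iR : ∫⁻ x, R x ≤ ENNReal.ofReal (C2 * C9 * N ^ q) * If := by
    calc ∫⁻ x, R x ≤ ENNReal.ofReal (C2 * N ^ q) * ∑ k ∈ S, ∫⁻ x, ‖h k x‖ₑ ^ q :=
          hRf m' hm' N hN hHN' S f hf
      _ ≤ ENNReal.ofReal (C2 * N ^ q) * (ENNReal.ofReal C9 * If) := by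
          gcongr
      _ = ENNReal.ofReal (C2 * C9 * N ^ q) * If := by
          rw [← mul_assoc, ← ENNReal.ofReal_mul (by positivity)]
          congr 2
          ring
  have hGq : ∀ x, G x ^ q ≤ ENNReal.ofReal (C3 ^ q * 3 ^ q) *
      (A x + ENNReal.ofReal (C1 ^ q * N ^ q) * Bf x ^ (q / 2) + R x) := by
    intro x
    have e1 : (A x ^ (1 / q)) ^ q = A x := by
      rw [← ENNReal.rpow_mul, one_div, inv_mul_cancel₀ hq0.ne', ENNReal.rpow_one]
    have e2 : (ENNReal.ofReal (C1 * N) * Bf x ^ (1 / 2 : ℝ)) ^ q =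
        ENNReal.ofReal (C1 ^ q * N ^ q) * Bf x ^ (q / 2) := by
      rw [ENNReal.mul_rpow_of_nonneg _ _ hq0.le, ← ENNReal.rpow_mul,
        ENNReal.ofReal_rpow_of_nonneg (by positivity) hq0.le, Real.mul_rpow hC1.le hN]
      congr 2
      ring
    have e3 : (R x ^ (1 / q)) ^ q = R x := by
      rw [← ENNReal.rpow_mul, one_div, inv_mul_cancel₀ hq0.ne', ENNReal.rpow_one]
    have e4 : ENNReal.ofReal (C3 ^ q * 3 ^ q) = ENNReal.ofReal C3 ^ q * (3 : ENNReal) ^ q := by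
      rw [ENNReal.ofReal_mul (by positivity), ENNReal.ofReal_rpow_of_nonneg hC3.le hq0.le]
      congr 1
      rw [← ENNReal.ofReal_rpow_of_nonneg (by norm_num) hq0.le]
      norm_num
    calc G x ^ q = ENNReal.ofReal C3 ^ q *
          (A x ^ (1 / q) + ENNReal.ofReal (C1 * N) * Bf x ^ (1 / 2 : ℝ) + R x ^ (1 / q)) ^ q :=
          ENNReal.mul_rpow_of_nonneg _ _ hq0.le
      _ ≤ ENNReal.ofReal C3 ^ q * ((3 : ENNReal) ^ q * ((A x ^ (1 / q)) ^ q +
          (ENNReal.ofReal (C1 * N) * Bf x ^ (1 / 2 : ℝ)) ^ q + (R x ^ (1 / q)) ^ q)) := by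
          apply mul_le_mul_right
          exact h4_three _ _ _ q hq0.le
      _ = _ := by rw [e1, e2, e3, e4, mul_assoc]
  calc ∫⁻ x, ‖∑ k ∈ S, u k x‖ₑ ^ q ≤ ENNReal.ofReal C4 * ∫⁻ x, G x ^ q := hmain
    _ ≤ ENNReal.ofReal C4 * ∫⁻ x, ENNReal.ofReal (C3 ^ q * 3 ^ q) *
      (A x + ENNReal.ofReal (C1 ^ q * N ^ q) * Bf x ^ (q / 2) + R x) := by
        apply mul_le_mul_right
        exact lintegral_mono hGq
    _ = ENNReal.ofReal C4 * (ENNReal.ofReal (C3 ^ q * 3 ^ q) *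
      ((∫⁻ x, A x) + ENNReal.ofReal (C1 ^ q * N ^ q) * (∫⁻ x, Bf x ^ (q / 2)) + ∫⁻ x, R x)) := by
        have m1 : Measurable (fun x => ENNReal.ofReal (C1 ^ q * N ^ q) * Bf x ^ (q / 2)) :=
          (hBm.pow_const _).const_mul _
        have m2 : Measurable (fun x => A x + ENNReal.ofReal (C1 ^ q * N ^ q) * Bf x ^ (q / 2)) :=
          hAm.add m1
        have m3 : Measurable (fun x => A x + ENNReal.ofReal (C1 ^ q * N ^ q) * Bf x ^ (q / 2) + R x) :=
          m2.add hRm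
        rw [lintegral_const_mul _ m3, lintegral_add_left m2, lintegral_add_left hAm,
          lintegral_const_mul _ (hBm.pow_const _)]
    _ ≤ ENNReal.ofReal C4 * (ENNReal.ofReal (C3 ^ q * 3 ^ q) *
      (ENNReal.ofReal (C5 * C7 * C9 * N ^ q) * If +
        ENNReal.ofReal (C1 ^ q * N ^ q) * (ENNReal.ofReal (C6 * C8) * If) +
        ENNReal.ofReal (C2 * C9 * N ^ q) * If)) := by
        gcongr
    _ = ENNReal.ofReal (C4 * (C3 ^ q * (3 ^ q * (C5 * C7 * C9 + C1 ^ q * (C6 * C8) + C2 * C9))) *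
        N ^ q) * If := by
        rw [← mul_assoc (ENNReal.ofReal (C1 ^ q * N ^ q)), ← ENNReal.ofReal_mul (by positivity),
          ← add_mul, ← add_mul, ← ENNReal.ofReal_add (by positivity) (by positivity),
          ← ENNReal.ofReal_add (by positivity) (by positivity), ← mul_assoc,
          ← ENNReal.ofReal_mul (by positivity), ← mul_assoc, ← ENNReal.ofReal_mul (by positivity)]
        congr 2
        ring

end Pool.LibRF53
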