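import Pool.Agent.LibRF53.Defs

/-
PLAN (G9b). ONLY Defs. Duality without cubes. u = cv K f (measurable, bounded: K bounded, f integrable). For R > 0: X_R = int over the ball of radius R of |u|^q < infinity. A y = conj (u y) |u y|^(q-2) on
the ball (0 where u = 0), 0 elsewhere: Bd. int u A = X_R, int |A|^p = X_R ((q-1) p = q), int u A = int f (cv K A) (Fubini, K even), Hoelder and the hypothesis: X_R <= |f|_q * (C X_R)^(1/p), so
X_R^(1/q) <= C^(1/p) |f|_q; power q, R -> infinity. (For q > 1 the function |u|^(q-1) is bounded.)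
-/

set_option autoImplicit false

noncomputable section

open MeasureTheory Metric Set Filter

namespace Pool.LibRF53

open Pool.LibSR53

private lemma cv_meas_aux {d : ℕ} (K f : E d → ℂ) (hK : Measurable K) (hf : Measurable f) :
    StronglyMeasurable (cv K f) := by
  unfold cv
  have h1 : StronglyMeasurable (Function.uncurry (fun x y : E d => K (x - y) * f y)) := by
    have h2 : Measurable (fun z : E d × E d => K (z.1 - z.2) * f z.2) :=
      (hK.comp (measurable_fst.sub measurable_snd)).mul (hf.comp measurable_snd)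
    exact h2.stronglyMeasurable
  exact h1.integral_prod_right

private lemma pair_aux {d : ℕ} (K : E d → ℂ) (hK : Measurable K)
    (hKb : ∃ B : ℝ, ∀ x, ‖K x‖ ≤ B) (hrad : ∀ x y : E d, ‖x‖ = ‖y‖ → K x = K y)
    (f A : E d → ℂ) (hf : Integrable f) (hA : Integrable A) :
    ∫ x, cv K f x * A x = ∫ y, f y * cv K A y := by
  obtain ⟨B, hB⟩ := hKb
  have hint : Integrable (fun z : E d × E d => K (z.1 - z.2) * (A z.1 * f z.2))
      (volume.prod volume) := by
    have h1 : Integrable (fun z : E d × E d => A z.1 * f z.2) (volume.prod volume) :=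
      hA.mul_prod hf
    refine h1.bdd_mul (c := B) ?_ (Filter.Eventually.of_forall fun z => hB _)
    exact (hK.comp (measurable_fst.sub measurable_snd)).aestronglyMeasurable
  have h2 : ∫ x, cv K f x * A x = ∫ x, ∫ y, K (x - y) * (A x * f y) := by
    congr 1
    funext x
    unfold cv
    rw [← integral_mul_const]
    congr 1
    funext y
    ring
  rw [h2, integral_integral_swap hint]
  congr 1
  funext y
  unfold cv
  rw [← integral_const_mul]
  congr 1
  funext x
  rw [hrad (y - x) (x - y) (norm_sub_rev _ _)]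
  ring

theorem dual_plain (d : ℕ) (p q : ℝ) (hpq : p.HolderConjugate q) (C : ENNReal) (hC : C ≠ ⊤)
    (K : E d → ℂ) (hK : Measurable K) (hKb : ∃ B : ℝ, ∀ x, ‖K x‖ ≤ B)
    (hrad : ∀ x y : E d, ‖x‖ = ‖y‖ → K x = K y)
    (h : ∀ A : E d → ℂ, Bd A → ∫⁻ x, ‖cv K A x‖ₑ ^ p ≤ C * ∫⁻ x, ‖A x‖ₑ ^ p)
    (f : E d → ℂ) (hf : Bi f) :
    ∫⁻ x, ‖cv K f x‖ₑ ^ q ≤ C ^ (q / p) * ∫⁻ x, ‖f x‖ₑ ^ q := by
  have hp1 : 1 < p := hpq.lt
  have hq1 : 1 < q := hpq.symm.lt
  have hp0 : 0 < p := hpq.pos
  have hq0 : 0 < q := hpq.symm.pos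
  have hqp : (q - 1) * p = q := hpq.symm.sub_one_mul_conj
  have hsum : 1 / p + 1 / q = 1 := by
    have := hpq.inv_add_inv_eq_one
    simpa [one_div] using this
  set u : E d → ℂ := cv K f with hu
  have humeas : Measurable u := (cv_meas_aux K f hK hf.cont.measurable).measurable
  obtain ⟨BK, hBK⟩ := hKb
  obtain ⟨Bu, hBu⟩ : ∃ B : ℝ, ∀ x, ‖u x‖ ≤ B := by
    refine ⟨∫ y, BK * ‖f y‖, fun x => ?_⟩
    rw [hu]
    unfold cv
    refine norm_integral_le_of_norm_le (hf.int.norm.const_mul BK)
      (Filter.Eventually.of_forall fun y => ?_)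
    rw [norm_mul]
    exact mul_le_mul_of_nonneg_right (hBK _) (norm_nonneg _)
  -- the key bound on balls
  have key : ∀ n : ℕ, ∫⁻ x in closedBall (0 : E d) n, ‖u x‖ₑ ^ q ≤
      C ^ (q / p) * ∫⁻ x, ‖f x‖ₑ ^ q := by
    intro n
    set D : Set (E d) := closedBall (0 : E d) n with hD
    have hDm : MeasurableSet D := isClosed_closedBall.measurableSet
    set X : ENNReal := ∫⁻ x in D, ‖u x‖ₑ ^ q with hX
    set F : ENNReal := ∫⁻ x, ‖f x‖ₑ ^ q with hF
    have hXfin : X ≠ ⊤ := by
      have h1 : X ≤ ∫⁻ x in D, (ENNReal.ofReal Bu) ^ q := by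
        refine lintegral_mono fun x => ?_
        refine ENNReal.rpow_le_rpow ?_ hq0.le
        rw [← ofReal_norm]
        exact ENNReal.ofReal_le_ofReal (hBu x)
      rw [lintegral_const] at h1
      refine ne_top_of_le_ne_top (ENNReal.mul_ne_top
        (ENNReal.rpow_ne_top_of_nonneg hq0.le ENNReal.ofReal_ne_top) ?_) h1
      rw [Measure.restrict_apply_univ]
      exact measure_closedBall_lt_top.ne
    set A : E d → ℂ := D.indicator
      (fun x => (starRingEnd ℂ) (u x) * ((‖u x‖ ^ (q - 2) : ℝ) : ℂ)) with hA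
    have hAmeas : Measurable A := by
      refine Measurable.indicator ?_ hDm
      refine (Complex.continuous_conj.measurable.comp humeas).mul ?_
      exact Complex.measurable_ofReal.comp (humeas.norm.pow_const _)
    have hnorm : ∀ x, ‖(starRingEnd ℂ) (u x) * ((‖u x‖ ^ (q - 2) : ℝ) : ℂ)‖ =
        ‖u x‖ ^ (q - 1) := by
      intro x
      rw [norm_mul, RCLike.norm_conj, Complex.norm_real, Real.norm_of_nonneg (by positivity)]
      rcases eq_or_lt_of_le (norm_nonneg (u x)) with h0 | h0
      · rw [← h0, zero_mul, Real.zero_rpow (by linarith)]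
      · rw [show q - 1 = 1 + (q - 2) by ring, Real.rpow_add h0, Real.rpow_one]
    have hBu0 : 0 ≤ Bu := (norm_nonneg _).trans (hBu 0)
    have hAb : ∀ x, ‖A x‖ ≤ Bu ^ (q - 1) := by
      intro x
      rw [hA]
      by_cases hx : x ∈ D
      · rw [indicator_of_mem hx, hnorm]
        exact Real.rpow_le_rpow (norm_nonneg _) (hBu x) (by linarith)
      · rw [indicator_of_notMem hx, norm_zero]
        positivity
    have hAsupp : ∀ x, (n : ℝ) < ‖x‖ → A x = 0 := by
      intro x hx
      rw [hA, indicator_of_notMem]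
      rw [hD, mem_closedBall, dist_zero_right]
      exact not_le.2 hx
    have hBd : Bd A := ⟨hAmeas, ⟨_, hAb⟩, ⟨n, hAsupp⟩⟩
    have hAint : Integrable A := by
      have h1 : IntegrableOn (fun _ : E d => Bu ^ (q - 1)) D volume :=
        integrableOn_const measure_closedBall_lt_top.ne
      have h2 : Integrable (D.indicator (fun _ : E d => Bu ^ (q - 1))) volume :=
        h1.integrable_indicator hDm
      refine h2.mono' hAmeas.aestronglyMeasurable (Filter.Eventually.of_forall fun x => ?_)
      by_cases hx : x ∈ D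
      · rw [indicator_of_mem hx]
        exact hAb x
      · rw [indicator_of_notMem hx, hA, indicator_of_notMem hx, norm_zero]
    -- the p-norm of A
    have hAp : ∫⁻ x, ‖A x‖ₑ ^ p = X := by
      rw [hX, ← lintegral_indicator hDm]
      congr 1
      funext x
      by_cases hx : x ∈ D
      · rw [indicator_of_mem hx, hA, indicator_of_mem hx, ← ofReal_norm, hnorm, ← ofReal_norm,
          ← ENNReal.ofReal_rpow_of_nonneg (norm_nonneg _) (by linarith : (0 : ℝ) ≤ q - 1),
          ← ENNReal.rpow_mul, hqp]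
      · rw [indicator_of_notMem hx, hA, indicator_of_notMem hx, enorm_zero,
          ENNReal.zero_rpow_of_pos hp0]
    -- the pairing
    have hpair : ‖∫ x, u x * A x‖ₑ = X := by
      have h1 : ∀ x, u x * A x = ((D.indicator (fun x => ‖u x‖ ^ q) x : ℝ) : ℂ) := by
        intro x
        by_cases hx : x ∈ D
        · rw [indicator_of_mem hx, hA, indicator_of_mem hx, ← mul_assoc, Complex.mul_conj,
            Complex.normSq_eq_norm_sq, ← Complex.ofReal_mul]
          congr 1
          rcases eq_or_lt_of_le (norm_nonneg (u x)) with h0 | h0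
          · rw [← h0, Real.zero_rpow hq0.ne']
            simp
          · rw [← Real.rpow_natCast, ← Real.rpow_add h0]
            norm_num
        · rw [indicator_of_notMem hx, hA, indicator_of_notMem hx]
          simp
      have h2 : ∫ x, u x * A x = ((∫ x, D.indicator (fun x => ‖u x‖ ^ q) x : ℝ) : ℂ) := by
        rw [← integral_complex_ofReal]
        congr 1
        funext x
        exact h1 x
      have h3 : 0 ≤ ∫ x, D.indicator (fun x => ‖u x‖ ^ q) x :=
        integral_nonneg fun x => indicator_nonneg (fun x _ => by positivity) x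
      rw [h2, ← ofReal_norm, Complex.norm_real, Real.norm_of_nonneg h3,
        integral_eq_lintegral_of_nonneg_ae
          (Filter.Eventually.of_forall fun x => indicator_nonneg (fun x _ => by positivity) x)
          ((humeas.norm.pow_const q).indicator hDm).aestronglyMeasurable]
      have h4 : ∫⁻ x, ENNReal.ofReal (D.indicator (fun x => ‖u x‖ ^ q) x) = X := by
        rw [hX, ← lintegral_indicator hDm]
        congr 1
        funext x
        by_cases hx : x ∈ D
        · rw [indicator_of_mem hx, indicator_of_mem hx, ← ofReal_norm,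
            ENNReal.ofReal_rpow_of_nonneg (norm_nonneg _) hq0.le]
        · rw [indicator_of_notMem hx, indicator_of_notMem hx, ENNReal.ofReal_zero]
      rw [h4, ENNReal.ofReal_toReal hXfin]
    have hmain : X ≤ F ^ (1 / q) * (C * X) ^ (1 / p) := by
      have h1 : X ≤ ∫⁻ y, ‖f y‖ₑ * ‖cv K A y‖ₑ := by
        rw [← hpair, hu, pair_aux K hK ⟨BK, hBK⟩ hrad f A hf.int hAint]
        refine (enorm_integral_le_lintegral_enorm _).trans (le_of_eq ?_)
        congr 1
        funext y
        rw [enorm_mul]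
      have h2 : ∫⁻ y, ‖f y‖ₑ * ‖cv K A y‖ₑ ≤
          (∫⁻ y, ‖f y‖ₑ ^ q) ^ (1 / q) * (∫⁻ y, ‖cv K A y‖ₑ ^ p) ^ (1 / p) :=
        ENNReal.lintegral_mul_le_Lp_mul_Lq volume hpq.symm
          hf.cont.enorm.measurable.aemeasurable
          (cv_meas_aux K A hK hAmeas).measurable.enorm.aemeasurable
      refine h1.trans (h2.trans (mul_le_mul' le_rfl ?_))
      refine ENNReal.rpow_le_rpow ?_ (by positivity)
      rw [← hAp]
      exact h A hBd
    by_cases hX0 : X = 0
    · rw [hX0]
      exact bot_le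
    -- divide
    have h5 : X ^ (1 / q) ≤ F ^ (1 / q) * C ^ (1 / p) := by
      rw [ENNReal.mul_rpow_of_nonneg _ _ (by positivity : (0 : ℝ) ≤ 1 / p), ← mul_assoc] at hmain
      have h6 : X ^ (1 / p) ≠ 0 := by
        rw [Ne, ENNReal.rpow_eq_zero_iff]
        rintro (⟨h, _⟩ | ⟨h, _⟩)
        · exact hX0 h
        · exact hXfin h
      have h7 : X ^ (1 / p) ≠ ⊤ := ENNReal.rpow_ne_top_of_nonneg (by positivity) hXfin
      have h8 : X = X ^ (1 / q) * X ^ (1 / p) := by
        rw [← ENNReal.rpow_add _ _ hX0 hXfin, add_comm, hsum, ENNReal.rpow_one]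
      exact (ENNReal.mul_le_mul_iff_left h6 h7).1 (h8.symm.le.trans hmain)
    have h9 := ENNReal.rpow_le_rpow h5 hq0.le
    rw [← ENNReal.rpow_mul, one_div_mul_cancel hq0.ne', ENNReal.rpow_one,
      ENNReal.mul_rpow_of_nonneg _ _ hq0.le, ← ENNReal.rpow_mul, one_div_mul_cancel hq0.ne',
      ENNReal.rpow_one, ← ENNReal.rpow_mul, mul_comm] at h9
    rwa [show 1 / p * q = q / p by ring] at h9
  have hun : ∫⁻ x, ‖u x‖ₑ ^ q = ∫⁻ x in ⋃ n : ℕ, closedBall (0 : E d) n, ‖u x‖ₑ ^ q := by
    rw [iUnion_closedBall_nat, Measure.restrict_univ]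
  rw [hun, setLIntegral_iUnion_of_directed]
  · exact iSup_le key
  · refine Monotone.directed_le ?_
    intro a b hab
    exact closedBall_subset_closedBall (by exact_mod_cast hab)

end Pool.LibRF53
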