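import Pool.Agent.LibRF53.D1
import Pool.Agent.LibRF53.G9b

/-
PLAN (H5). Back to L^p. K = sum over S of Kk c.phi0 m k: measurable, bounded, radial; cv K f = sum of cv. For a Schwartz function f (Bi) the function u = cv K f is measurable, bounded; test with A = conj u |u|^(p-2)
on the ball of radius R (0 where u = 0): Bd, int |A|^q = int over the ball of |u|^p =: X_R ((p-1) q = p), int u A = int f (cv K A) <= |f|_p |cv K A|_q <= |f|_p (B X_R)^(1/q) (Hoelder, hypothesis), so
X_R^(1/p) <= B^(1/q) |f|_p. R -> infinity. (Same argument as dual_plain in G9b with p and q exchanged: it may be applied directly: dual_plain d q p hpq.symm.) Then Fatou: for S = Icc (-n) n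
the functions sum over S of cv (Kk c.phi0 m k) f x = int ex x xi * (m xi * Phi_n xi * f^ xi) converge to int ex x xi (m xi f^ xi) for every x (Kk_conv, sum_tendsto a.e., sum_le, f^ integrable;
dominated convergence), lintegral_liminf_le.
-/

set_option autoImplicit false

noncomputable section

open MeasureTheory Metric Set Filter

namespace Pool.LibRF53

open Pool.LibSR53
open scoped FourierTransform

private theorem H5_ex_cont {d : ℕ} (x : E d) : Continuous fun ξ : E d => ex x ξ := by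
  unfold ex
  refine Complex.continuous_exp.comp ?_
  refine continuous_const.mul ?_
  exact Complex.continuous_ofReal.comp (continuous_const.inner continuous_id)

private theorem H5_Bd_int {d : ℕ} {A : E d → ℂ} (hA : Bd A) : Integrable A := by
  obtain ⟨B, hB⟩ := hA.bdd
  obtain ⟨R, hR⟩ := hA.supp
  have h1 : IntegrableOn A (closedBall (0 : E d) R) := by
    refine IntegrableOn.of_bound ?_ hA.meas.aestronglyMeasurable B (ae_of_all _ hB)
    exact measure_closedBall_lt_top
  refine (integrableOn_iff_integrable_of_support_subset ?_).1 h1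
  intro x hx
  rw [mem_closedBall, dist_zero_right]
  by_contra hn
  exact hx (hR x (not_le.1 hn))

private theorem H5_sch {d : ℕ} (f : SchwartzMap (E d) ℂ) : Bi (f : E d → ℂ) :=
  ⟨f.continuous, ⟨_, SchwartzMap.norm_le_seminorm ℝ f⟩, f.integrable⟩

private theorem H5_sum {d : ℕ} (c : Cut d) (m : E d → ℂ) (hm : Mr m) (S : Finset ℤ) (A : E d → ℂ)
    (hA : Integrable A) (x : E d) :
    cv (fun z => ∑ k ∈ S, Kk c.φ0 m k z) A x = ∑ k ∈ S, cv (Kk c.φ0 m k) A x := by
  unfold cv
  rw [← integral_finsetSum]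
  · refine integral_congr_ae (ae_of_all _ fun y => ?_)
    simp only [Finset.sum_mul]
  · intro k _
    obtain ⟨hc, ⟨B, hB⟩, -, -⟩ := Kk_facts c m hm k
    exact hA.bdd_mul ((hc.comp (continuous_const.sub continuous_id)).aestronglyMeasurable)
      (ae_of_all _ fun y => hB (x - y))

private theorem H5_meas {d : ℕ} (K f : E d → ℂ) (hK : Continuous K) (hf : Continuous f) :
    Measurable fun x => cv K f x := by
  have h : StronglyMeasurable (Function.uncurry fun (x y : E d) => K (x - y) * f y) := by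
    have h2 : Continuous (Function.uncurry fun (x y : E d) => K (x - y) * f y) := by
      exact (hK.comp (continuous_fst.sub continuous_snd)).mul (hf.comp continuous_snd)
    exact h2.stronglyMeasurable
  exact (h.integral_prod_right (ν := (volume : Measure (E d)))).measurable

theorem to_Lp {d : ℕ} (hd : 1 ≤ d) (c : Cut d) (m : E d → ℂ) (hm : Mr m) (p q : ℝ)
    (hpq : p.HolderConjugate q) (B : ENNReal) (hB : B ≠ ⊤)
    (h : ∀ (S : Finset ℤ) (f : E d → ℂ), Bd f →
      ∫⁻ x, ‖∑ k ∈ S, cv (Kk c.φ0 m k) f x‖ₑ ^ q ≤ B * ∫⁻ x, ‖f x‖ₑ ^ q)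
    (f : SchwartzMap (E d) ℂ) :
    ∫⁻ x, ‖∫ ξ, ex x ξ * (m ξ * ∫ y, ex (-y) ξ * f y)‖ₑ ^ p ≤
      B ^ (p / q) * ∫⁻ x, ‖f x‖ₑ ^ p := by
  have : Nonempty (Fin d) := ⟨⟨0, hd⟩⟩
  have : Nontrivial (E d) := inferInstance
  have hf := H5_sch f
  -- the kernels of the partial sums
  set KS : Finset ℤ → E d → ℂ := fun S z => ∑ k ∈ S, Kk c.φ0 m k z with hKS
  have hKc : ∀ S, Continuous (KS S) := fun S =>
    continuous_finsetSum S fun k _ => (Kk_facts c m hm k).1
  have hmain : ∀ S, ∫⁻ x, ‖cv (KS S) f x‖ₑ ^ p ≤ B ^ (p / q) * ∫⁻ x, ‖f x‖ₑ ^ p := by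
    intro S
    refine dual_plain d q p hpq.symm B hB (KS S) (hKc S).measurable ?_ ?_ ?_ f hf
    · choose Bk hBk using fun k => (Kk_facts c m hm k).2.1
      refine ⟨∑ k ∈ S, Bk k, fun x => ?_⟩
      exact (norm_sum_le _ _).trans (Finset.sum_le_sum fun k _ => hBk k x)
    · intro x y hxy
      exact Finset.sum_congr rfl fun k _ => (Kk_facts c m hm k).2.2.1 x y hxy
    · intro A hA
      have h1 := h S A hA
      refine le_trans (le_of_eq ?_) h1
      refine lintegral_congr fun x => ?_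
      rw [H5_sum c m hm S A (H5_Bd_int hA) x]
  -- the transform of f
  set F : E d → ℂ := fun ξ => ∫ y, ex (-y) ξ * f y with hF
  have hFe : ∀ ξ, F ξ = (𝓕 f : SchwartzMap (E d) ℂ) ξ := fun ξ => (fourier_ex f ξ).symm
  have hFc : Continuous F := by
    have : F = ((𝓕 f : SchwartzMap (E d) ℂ) : E d → ℂ) := funext hFe
    rw [this]
    exact (𝓕 f : SchwartzMap (E d) ℂ).continuous
  have hFi : Integrable F := by
    have : F = ((𝓕 f : SchwartzMap (E d) ℂ) : E d → ℂ) := funext hFe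
    rw [this]
    exact (𝓕 f : SchwartzMap (E d) ℂ).integrable
  obtain ⟨M, hM⟩ := hm.bdd
  have hφ1 : ∀ (k : ℤ) (ξ : E d), ‖c.φ0 (((2 : ℝ) ^ k)⁻¹ • ξ)‖ ≤ 1 := by
    intro k ξ
    have := c.sum_le {k} ξ
    simpa using this
  have hφc : ∀ k : ℤ, Continuous fun ξ : E d => c.φ0 (((2 : ℝ) ^ k)⁻¹ • ξ) := fun k =>
    c.φ0.continuous.comp (continuous_const_smul _)
  have hmF : Integrable fun ξ => m ξ * F ξ :=
    hFi.bdd_mul hm.meas.aestronglyMeasurable (ae_of_all _ hM)
  -- the formula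
  have hform : ∀ (S : Finset ℤ) (x : E d), cv (KS S) f x =
      ∫ ξ, ex x ξ * ((m ξ * F ξ) * ∑ k ∈ S, c.φ0 (((2 : ℝ) ^ k)⁻¹ • ξ)) := by
    intro S x
    have h1 : cv (KS S) f x = ∑ k ∈ S, cv (Kk c.φ0 m k) f x := H5_sum c m hm S f hf.int x
    rw [h1, Finset.sum_congr rfl fun k _ => Kk_conv c m hm k f hf.int x, ← integral_finsetSum]
    · refine integral_congr_ae (ae_of_all _ fun ξ => ?_)
      simp only [Finset.mul_sum]
      refine Finset.sum_congr rfl fun k _ => ?_
      ring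
    · intro k _
      have h2 : Integrable fun ξ => (ex x ξ * c.φ0 (((2 : ℝ) ^ k)⁻¹ • ξ)) * (m ξ * F ξ) := by
        refine hmF.bdd_mul (c := 1) ((H5_ex_cont x).mul (hφc k)).aestronglyMeasurable
          (ae_of_all _ fun ξ => ?_)
        rw [norm_mul, K5_ex_norm, one_mul]
        exact hφ1 k ξ
      refine h2.congr (ae_of_all _ fun ξ => ?_)
      show (ex x ξ * c.φ0 (((2 : ℝ) ^ k)⁻¹ • ξ)) * (m ξ * F ξ) =
        ex x ξ * (m ξ * c.φ0 (((2 : ℝ) ^ k)⁻¹ • ξ) * F ξ)
      ring
  have hne : ∀ᵐ ξ : E d, ξ ≠ 0 := by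
    rw [ae_iff]
    have : {a : E d | ¬ a ≠ 0} = {0} := by
      ext a
      simp
    rw [this]
    exact measure_singleton _
  have hlim : ∀ x : E d, Tendsto (fun n : ℕ => cv (KS (Finset.Icc (-(n : ℤ)) n)) f x) atTop
      (nhds (∫ ξ, ex x ξ * (m ξ * F ξ))) := by
    intro x
    simp only [hform]
    refine tendsto_integral_of_dominated_convergence (fun ξ => ‖m ξ * F ξ‖) ?_ hmF.norm ?_ ?_
    · intro n
      refine (H5_ex_cont x).aestronglyMeasurable.mul (hmF.aestronglyMeasurable.mul ?_)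
      exact (continuous_finsetSum _ fun k _ => hφc k).aestronglyMeasurable
    · intro n
      refine ae_of_all _ fun ξ => ?_
      rw [norm_mul, K5_ex_norm, one_mul, norm_mul]
      exact mul_le_of_le_one_right (norm_nonneg _) (c.sum_le _ ξ)
    · filter_upwards [hne] with ξ hξ
      have h1 := (c.sum_tendsto ξ hξ).const_mul (m ξ * F ξ)
      have h2 := h1.const_mul (ex x ξ)
      rw [mul_one] at h2
      exact h2
  have hp0 : 0 ≤ p := hpq.nonneg
  have hlim2 : ∀ x : E d, Tendsto (fun n : ℕ => ‖cv (KS (Finset.Icc (-(n : ℤ)) n)) f x‖ₑ ^ p) atTop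
      (nhds (‖∫ ξ, ex x ξ * (m ξ * F ξ)‖ₑ ^ p)) := fun x =>
    ((ENNReal.continuous_rpow_const).tendsto _).comp ((continuous_enorm.tendsto _).comp (hlim x))
  calc ∫⁻ x, ‖∫ ξ, ex x ξ * (m ξ * F ξ)‖ₑ ^ p
      = ∫⁻ x, liminf (fun n : ℕ => ‖cv (KS (Finset.Icc (-(n : ℤ)) n)) f x‖ₑ ^ p) atTop :=
        lintegral_congr fun x => (hlim2 x).liminf_eq.symm
    _ ≤ liminf (fun n : ℕ => ∫⁻ x, ‖cv (KS (Finset.Icc (-(n : ℤ)) n)) f x‖ₑ ^ p) atTop := by
        refine lintegral_liminf_le fun n => ?_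
        exact (H5_meas _ _ (hKc _) hf.cont).enorm.pow_const p
    _ ≤ B ^ (p / q) * ∫⁻ x, ‖f x‖ₑ ^ p := by
        refine liminf_le_of_le (by isBoundedDefault) fun b hb => ?_
        obtain ⟨n, hn⟩ := hb.exists
        exact hn.trans (hmain _)

end Pool.LibRF53
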