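import Pool.Agent.LibRF53.H6
import Pool.Agent.LibTP53.GB
import Pool.Agent.LibSR53.K1

/-
PLAN (H7). The kernel condition from one test function. F = Fourier transform of f0 (F xi = int ex (-y) xi f0 y, Schwartz, radial, not identically zero because f0 /= 0). decomp for phi0 and F. For
k : Z, s = 2^k: Kk phi0 (m (s .)) 0 x = int ex x xi m (s xi) phi0 xi = sum over i of int ex x xi rho_i xi (m (s xi) F (t_i xi)) = sum over i of cv (F^-1 rho_i) J_i x with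
J_i x = int ex x xi m (s xi) F (t_i xi) dxi (Fubini / convolution theorem), so by young_L1 (LibTP53.GB) its L^p norm is <= sum over i of |F^-1 rho_i|_1 |J_i|_p. With tau = s / t_i: the Fourier transform
of y -> f0 (tau y) at xi is tau^-d F (xi / tau); T x = int ex x xi m xi tau^-d F (xi/tau) dxi is the function of the hypothesis; substitution xi -> s xi: T (x/s) = t_i^d J_i x (s/tau = t_i). So
int |J_i|^p = t_i^(-dp) s^d int |T|^p <= t_i^(-dp) s^d B^p int |f0 (tau y)|^p dy = t_i^(-dp) s^d B^p tau^-d int |f0|^p = t_i^(d - dp) B^p int |f0|^p. N = C B with C depending on f0, p, rho_i,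
t_i only.
-/

set_option autoImplicit false

noncomputable section

open MeasureTheory Metric Set Filter

namespace Pool.LibRF53

open Pool.LibSR53

open scoped FourierTransform

private theorem H7_lint {d : ℕ} {r : ℝ} (hr : 0 < r) (f : E d → ENNReal) :
    ∫⁻ x, f (r • x) = ENNReal.ofReal ((r ^ d)⁻¹) * ∫⁻ x, f x := by
  have h1 := lintegral_map_equiv (μ := (volume : Measure (E d))) f
    (Homeomorph.smul (α := E d) (isUnit_iff_ne_zero.2 hr.ne').unit).toMeasurableEquiv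
  have h2 := Measure.map_addHaar_smul (volume : Measure (E d)) hr.ne'
  change ∫⁻ a, f a ∂(Measure.map (fun x : E d => r • x) volume) = ∫⁻ a, f (r • a) at h1
  rw [← h1, h2, lintegral_smul_measure, finrank_euclideanSpace_fin, smul_eq_mul,
    abs_of_nonneg (by positivity)]

private theorem H7_norm_ex {d : ℕ} (v ξ : E d) : ‖ex v ξ‖ = 1 := by
  unfold ex
  have h : 2 * (Real.pi : ℂ) * Complex.I * ((inner ℝ v ξ : ℝ) : ℂ) =
      ((2 * Real.pi * inner ℝ v ξ : ℝ) : ℂ) * Complex.I := by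
    push_cast
    ring
  rw [h, Complex.norm_exp_ofReal_mul_I]

private theorem H7_cont_ex {d : ℕ} : Continuous (fun z : E d × E d => ex z.1 z.2) := by
  unfold ex
  exact Complex.continuous_exp.comp (continuous_const.mul
    (Complex.continuous_ofReal.comp (continuous_fst.inner continuous_snd)))

private theorem H7_meas {d : ℕ} (h : E d → ℂ) (hh : AEStronglyMeasurable h volume) :
    AEStronglyMeasurable (fun x : E d => ∫ ξ, ex x ξ * h ξ) volume :=
  AEStronglyMeasurable.integral_prod_right' (f := fun z : E d × E d => ex z.1 z.2 * h z.2)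
    (H7_cont_ex.aestronglyMeasurable.mul hh.comp_snd)

/-- the Fourier transform of a radial function is radial -/
private theorem H7_rad {d : ℕ} (f0 : SchwartzMap (E d) ℂ)
    (hr : ∀ x y : E d, ‖x‖ = ‖y‖ → f0 x = f0 y) (x y : E d) (hxy : ‖x‖ = ‖y‖) :
    (𝓕 f0 : SchwartzMap (E d) ℂ) x = (𝓕 f0 : SchwartzMap (E d) ℂ) y := by
  have h1 := Real.fourier_comp_linearIsometry (Submodule.reflection (Submodule.span ℝ {x - y})ᗮ)
    (f0 : E d → ℂ) x
  rw [Submodule.reflection_sub hxy] at h1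
  have h2 : (f0 : E d → ℂ) ∘ (Submodule.reflection (Submodule.span ℝ {x - y})ᗮ) = f0 := by
    funext z
    exact hr _ _ (LinearIsometryEquiv.norm_map _ z)
  rw [h2] at h1
  rw [SchwartzMap.fourier_coe]
  exact h1

private theorem H7_ne {d : ℕ} (f0 : SchwartzMap (E d) ℂ) (h0 : f0 ≠ 0) :
    ∃ x, (𝓕 f0 : SchwartzMap (E d) ℂ) x ≠ 0 := by
  by_contra hn
  push Not at hn
  apply h0
  have h1 : (𝓕⁻ (𝓕 f0) : SchwartzMap (E d) ℂ) = f0 := FourierTransform.fourierInv_fourier_eq f0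
  rw [← h1]
  ext v
  rw [fourierInv_ex]
  have h2 : (fun ξ => ex v ξ * (𝓕 f0 : SchwartzMap (E d) ℂ) ξ) = fun _ => (0 : ℂ) := by
    funext ξ
    rw [hn ξ, mul_zero]
  rw [h2, integral_zero]
  rfl

private theorem H7_scale {d : ℕ} (f0 : SchwartzMap (E d) ℂ) {τ : ℝ} (hτ : 0 < τ) (ξ : E d) :
    ∫ y, ex (-y) ξ * f0 (τ • y) =
      (((τ ^ d)⁻¹ : ℝ) : ℂ) * (𝓕 f0 : SchwartzMap (E d) ℂ) (τ⁻¹ • ξ) := by
  rw [fourier_ex]
  have h1 := Measure.integral_comp_smul_of_nonneg (volume : Measure (E d))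
    (fun u : E d => ex (-u) (τ⁻¹ • ξ) * f0 u) τ (hR := hτ.le)
  rw [finrank_euclideanSpace_fin, Complex.real_smul] at h1
  rw [← h1]
  refine integral_congr_ae (Eventually.of_forall fun y => ?_)
  change ex (-y) ξ * f0 (τ • y) = ex (-(τ • y)) (τ⁻¹ • ξ) * f0 (τ • y)
  congr 1
  unfold ex
  congr 3
  rw [inner_neg_left, inner_neg_left, real_inner_smul_left, real_inner_smul_right]
  field_simp

/-- the convolution formula -/
private theorem H7_conv {d : ℕ} (g : SchwartzMap (E d) ℂ) (h : E d → ℂ) (hh : Integrable h)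
    (x : E d) :
    ∫ ξ, ex x ξ * ((∫ w, ex (-w) ξ * g w) * h ξ) = ∫ y, g (x - y) * ∫ ξ, ex y ξ * h ξ := by
  have hg : Integrable (fun y : E d => g (x - y)) := by
    have h1 : Integrable (fun y : E d => g y) := g.integrable
    exact h1.comp_sub_left x
  have hint : Integrable (Function.uncurry fun (y ξ : E d) => g (x - y) * (ex y ξ * h ξ))
      ((volume : Measure (E d)).prod volume) := by
    have h1 := hg.mul_prod hh
    refine h1.mono ?_ (Eventually.of_forall fun z => ?_)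
    · refine AEStronglyMeasurable.mul hg.aestronglyMeasurable.comp_fst ?_
      exact H7_cont_ex.aestronglyMeasurable.mul hh.aestronglyMeasurable.comp_snd
    · simp only [Function.uncurry, norm_mul, H7_norm_ex, one_mul]
      exact le_rfl
  have e1 : ∫ y, g (x - y) * ∫ ξ, ex y ξ * h ξ = ∫ y, ∫ ξ, g (x - y) * (ex y ξ * h ξ) := by
    refine integral_congr_ae (Eventually.of_forall fun y => ?_)
    exact (integral_const_mul _ _).symm
  rw [e1, integral_integral_swap hint]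
  refine integral_congr_ae (Eventually.of_forall fun ξ => ?_)
  change ex x ξ * ((∫ w, ex (-w) ξ * g w) * h ξ) = ∫ y, g (x - y) * (ex y ξ * h ξ)
  have e2 : ∫ y, g (x - y) * (ex y ξ * h ξ) =
      ∫ w, ex x ξ * h ξ * (ex (-w) ξ * g w) := by
    rw [← integral_sub_left_eq_self (fun w => ex x ξ * h ξ * (ex (-w) ξ * g w)) volume x]
    refine integral_congr_ae (Eventually.of_forall fun y => ?_)
    change g (x - y) * (ex y ξ * h ξ) = ex x ξ * h ξ * (ex (-(x - y)) ξ * g (x - y))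
    have e3 : ex y ξ = ex x ξ * ex (-(x - y)) ξ := by
      rw [← ex_add_left]
      congr 1
      abel
    rw [e3]
    ring
  rw [e2, integral_const_mul]
  ring

private theorem H7_int {d : ℕ} (m : E d → ℂ) (hm : Mr m) (F : SchwartzMap (E d) ℂ) {s t : ℝ}
    (ht : 0 < t) : Integrable (fun ξ : E d => m (s • ξ) * F (t • ξ)) := by
  obtain ⟨B0, hB0⟩ := hm.bdd
  have hF : Integrable (fun ξ : E d => F (t • ξ)) := by
    have h1 : Integrable (fun y : E d => F y) := F.integrable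
    exact h1.comp_smul ht.ne'
  refine (hF.norm.const_mul B0).mono' ?_ (Eventually.of_forall fun ξ => ?_)
  · exact (hm.meas.comp (measurable_const_smul s)).aestronglyMeasurable.mul hF.aestronglyMeasurable
  · rw [norm_mul]
    exact mul_le_mul_of_nonneg_right (hB0 _) (norm_nonneg _)

/-- the Lp norm of J -/
private theorem H7_J {d : ℕ} (p : ℝ) (hp : 1 < p) (f0 : SchwartzMap (E d) ℂ) (m : E d → ℂ)
    (B : ℝ) {s t : ℝ} (hs : 0 < s) (ht : 0 < t)
    (hB : ∀ t : ℝ, 0 < t →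
        ∫⁻ x, ‖∫ ξ, ex x ξ * (m ξ * ∫ y, ex (-y) ξ * f0 (t • y))‖ₑ ^ p ≤
          ENNReal.ofReal B ^ p * ∫⁻ x, ‖f0 (t • x)‖ₑ ^ p) :
    ∫⁻ x, ‖∫ ξ, ex x ξ * (m (s • ξ) * (𝓕 f0 : SchwartzMap (E d) ℂ) (t • ξ))‖ₑ ^ p ≤
      ENNReal.ofReal B ^ p * (ENNReal.ofReal (t ^ d) * ENNReal.ofReal ((t ^ d)⁻¹) ^ p *
        ∫⁻ x, ‖f0 x‖ₑ ^ p) := by
  have hp0 : 0 < p := by linarith
  have hτ : 0 < s / t := div_pos hs ht
  set τ := s / t with hτdef
  set F : SchwartzMap (E d) ℂ := 𝓕 f0 with hF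
  have hT : ∀ x : E d, ∫ ξ, ex x ξ * (m ξ * ∫ y, ex (-y) ξ * f0 (τ • y)) =
      ((t ^ d : ℝ) : ℂ) * ∫ ξ, ex (s • x) ξ * (m (s • ξ) * F (t • ξ)) := by
    intro x
    have h1 := Measure.integral_comp_smul_of_nonneg (volume : Measure (E d))
      (fun ξ : E d => ex x ξ * (m ξ * ∫ y, ex (-y) ξ * f0 (τ • y))) s (hR := hs.le)
    rw [finrank_euclideanSpace_fin, Complex.real_smul] at h1
    have h2 : ∫ ξ, ex x ξ * (m ξ * ∫ y, ex (-y) ξ * f0 (τ • y)) = ((s ^ d : ℝ) : ℂ) *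
        ∫ ξ : E d, ex x (s • ξ) * (m (s • ξ) * ∫ y, ex (-y) (s • ξ) * f0 (τ • y)) := by
      rw [h1, ← mul_assoc, ← Complex.ofReal_mul, mul_inv_cancel₀ (by positivity),
        Complex.ofReal_one, one_mul]
    rw [h2, ← integral_const_mul, ← integral_const_mul]
    refine integral_congr_ae (Eventually.of_forall fun ξ => ?_)
    change ((s ^ d : ℝ) : ℂ) * (ex x (s • ξ) * (m (s • ξ) * ∫ y, ex (-y) (s • ξ) * f0 (τ • y))) =
      ((t ^ d : ℝ) : ℂ) * (ex (s • x) ξ * (m (s • ξ) * F (t • ξ)))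
    rw [H7_scale f0 hτ, ← hF, smul_smul]
    have e1 : τ⁻¹ * s = t := by
      rw [hτdef]
      field_simp
    have e2 : ex x (s • ξ) = ex (s • x) ξ := by
      unfold ex
      rw [real_inner_smul_left, real_inner_smul_right]
    have e3 : ((s ^ d : ℝ) : ℂ) * (((τ ^ d)⁻¹ : ℝ) : ℂ) = ((t ^ d : ℝ) : ℂ) := by
      rw [← Complex.ofReal_mul]
      congr 1
      rw [hτdef, div_pow]
      field_simp
    rw [e1, e2, ← e3]
    ring
  have h3 := H7_lint hs (fun x : E d => ‖∫ ξ, ex x ξ * (m (s • ξ) * F (t • ξ))‖ₑ ^ p)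
  have h4 : ∫⁻ x : E d, ‖∫ ξ, ex x ξ * (m (s • ξ) * F (t • ξ))‖ₑ ^ p =
      ENNReal.ofReal (s ^ d) *
        ∫⁻ x : E d, ‖∫ ξ, ex (s • x) ξ * (m (s • ξ) * F (t • ξ))‖ₑ ^ p := by
    rw [h3, ← mul_assoc, ← ENNReal.ofReal_mul (by positivity), mul_inv_cancel₀ (by positivity),
      ENNReal.ofReal_one, one_mul]
  have h5 : ∀ x : E d, ‖∫ ξ, ex (s • x) ξ * (m (s • ξ) * F (t • ξ))‖ₑ ^ p =
      ENNReal.ofReal ((t ^ d)⁻¹) ^ p *
        ‖∫ ξ, ex x ξ * (m ξ * ∫ y, ex (-y) ξ * f0 (τ • y))‖ₑ ^ p := by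
    intro x
    rw [hT x, enorm_mul, ← ENNReal.mul_rpow_of_nonneg _ _ hp0.le, ← mul_assoc]
    have e1 : ‖((t ^ d : ℝ) : ℂ)‖ₑ = ENNReal.ofReal (t ^ d) := by
      rw [← ofReal_norm, Complex.norm_real, Real.norm_of_nonneg (by positivity)]
    rw [e1, ← ENNReal.ofReal_mul (by positivity), inv_mul_cancel₀ (by positivity),
      ENNReal.ofReal_one, one_mul]
  have h6 : ∫⁻ x : E d, ‖f0 (τ • x)‖ₑ ^ p = ENNReal.ofReal ((τ ^ d)⁻¹) * ∫⁻ x, ‖f0 x‖ₑ ^ p :=
    H7_lint hτ (fun x : E d => ‖f0 x‖ₑ ^ p)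
  rw [h4, lintegral_congr h5, lintegral_const_mul' _ _
    (ENNReal.rpow_ne_top_of_nonneg hp0.le ENNReal.ofReal_ne_top)]
  calc ENNReal.ofReal (s ^ d) * (ENNReal.ofReal ((t ^ d)⁻¹) ^ p *
        ∫⁻ x, ‖∫ ξ, ex x ξ * (m ξ * ∫ y, ex (-y) ξ * f0 (τ • y))‖ₑ ^ p) ≤
      ENNReal.ofReal (s ^ d) * (ENNReal.ofReal ((t ^ d)⁻¹) ^ p *
        (ENNReal.ofReal B ^ p * (ENNReal.ofReal ((τ ^ d)⁻¹) * ∫⁻ x, ‖f0 x‖ₑ ^ p))) := by
        gcongr
        rw [← h6]
        exact hB τ hτ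
    _ = ENNReal.ofReal B ^ p * ((ENNReal.ofReal (s ^ d) * ENNReal.ofReal ((τ ^ d)⁻¹)) *
        ENNReal.ofReal ((t ^ d)⁻¹) ^ p * ∫⁻ x, ‖f0 x‖ₑ ^ p) := by ring
    _ = _ := by
        rw [← ENNReal.ofReal_mul (by positivity)]
        congr 4
        rw [hτdef, div_pow]
        field_simp

theorem HN_of_test {d : ℕ} (hd : 1 ≤ d) (c : Cut d) (p : ℝ) (hp : 1 < p)
    (f0 : SchwartzMap (E d) ℂ) (hr : ∀ x y : E d, ‖x‖ = ‖y‖ → f0 x = f0 y) (h0 : f0 ≠ 0) :
    ∃ C : ℝ, 0 < C ∧ ∀ m : E d → ℂ, Mr m → ∀ B : ℝ, 0 ≤ B →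
      (∀ t : ℝ, 0 < t →
        ∫⁻ x, ‖∫ ξ, ex x ξ * (m ξ * ∫ y, ex (-y) ξ * f0 (t • y))‖ₑ ^ p ≤
          ENNReal.ofReal B ^ p * ∫⁻ x, ‖f0 (t • x)‖ₑ ^ p) →
      HN c m p (C * B) := by
  have hp0 : 0 < p := by linarith
  have hne : ENNReal.ofReal p ≠ 0 := by simpa using hp0
  have htop : ENNReal.ofReal p ≠ ⊤ := ENNReal.ofReal_ne_top
  obtain ⟨n, t, ρ, ht, hdec⟩ := decomp hd c.φ0 (𝓕 f0) c.supp0 (H7_rad f0 hr) (H7_ne f0 h0)
  obtain ⟨A, hA⟩ : ∃ A : ENNReal, A = ∫⁻ x, ‖f0 x‖ₑ ^ p := ⟨_, rfl⟩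
  have hAtop : A ≠ ⊤ := by
    rw [hA]
    have h1 := lintegral_rpow_enorm_lt_top_of_eLpNorm_lt_top hne htop
      (f0.memLp (ENNReal.ofReal p) volume).eLpNorm_lt_top
    rw [ENNReal.toReal_ofReal hp0.le] at h1
    exact h1.ne
  set g : Fin n → SchwartzMap (E d) ℂ := fun i => 𝓕⁻ (ρ i) with hg
  have hgρ : ∀ i ξ, ∫ w, ex (-w) ξ * g i w = ρ i ξ := by
    intro i ξ
    rw [← fourier_ex, hg]
    change (𝓕 (𝓕⁻ (ρ i)) : SchwartzMap (E d) ℂ) ξ = ρ i ξ
    rw [FourierTransform.fourier_fourierInv_eq]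
  set S : ENNReal := ∑ i, (∫⁻ x, ‖g i x‖ₑ) *
    (ENNReal.ofReal (t i ^ d) * ENNReal.ofReal ((t i ^ d)⁻¹) ^ p * A) ^ (1 / p) with hS
  have hStop : S ≠ ⊤ := by
    rw [hS]
    refine ENNReal.sum_ne_top.2 fun i _ => ?_
    refine ENNReal.mul_ne_top ?_ (ENNReal.rpow_ne_top_of_nonneg (by positivity) ?_)
    · have h1 : Integrable (g i) := (g i).integrable
      exact h1.2.ne
    · exact ENNReal.mul_ne_top (ENNReal.mul_ne_top ENNReal.ofReal_ne_top
        (ENNReal.rpow_ne_top_of_nonneg hp0.le ENNReal.ofReal_ne_top)) hAtop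
  refine ⟨S.toReal + 1, by positivity, ?_⟩
  intro m hm B hB0 hB k
  obtain ⟨s, hsdef⟩ : ∃ s : ℝ, s = (2 : ℝ) ^ k := ⟨_, rfl⟩
  have hs : 0 < s := by rw [hsdef]; positivity
  rw [← hsdef]
  -- the pieces
  have hInt : ∀ i, Integrable (fun ξ : E d => m (s • ξ) * (𝓕 f0 : SchwartzMap (E d) ℂ) (t i • ξ)) :=
    fun i => H7_int m hm _ (ht i)
  have hK : ∀ x, Kk c.φ0 (fun ξ => m (s • ξ)) 0 x =
      ∑ i, ∫ y, g i (x - y) * ∫ ξ, ex y ξ * (m (s • ξ) * (𝓕 f0 : SchwartzMap (E d) ℂ) (t i • ξ)) := by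
    intro x
    have h1 : ∀ i, ∫ y, g i (x - y) *
        ∫ ξ, ex y ξ * (m (s • ξ) * (𝓕 f0 : SchwartzMap (E d) ℂ) (t i • ξ)) =
        ∫ ξ, ex x ξ * (ρ i ξ * (m (s • ξ) * (𝓕 f0 : SchwartzMap (E d) ℂ) (t i • ξ))) := by
      intro i
      rw [← H7_conv (g i) _ (hInt i) x]
      refine integral_congr_ae (Eventually.of_forall fun ξ => ?_)
      change ex x ξ * ((∫ w, ex (-w) ξ * g i w) * _) = _
      rw [hgρ i ξ]
    rw [Finset.sum_congr rfl fun i _ => h1 i]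
    have h2 : ∀ i, Integrable (fun ξ : E d => ex x ξ * (ρ i ξ * (m (s • ξ) *
        (𝓕 f0 : SchwartzMap (E d) ℂ) (t i • ξ)))) := by
      intro i
      obtain ⟨B1, hB1⟩ := (ρ i).decay 0 0
      have hb : ∀ ξ, ‖ρ i ξ‖ ≤ B1 := by
        intro ξ
        have := hB1.2 ξ
        simpa using this
      refine ((hInt i).norm.const_mul B1).mono' ?_ (Eventually.of_forall fun ξ => ?_)
      · refine AEStronglyMeasurable.mul ?_ ((ρ i).continuous.aestronglyMeasurable.mul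
          (hInt i).aestronglyMeasurable)
        exact (H7_cont_ex.comp (continuous_const.prodMk continuous_id)).aestronglyMeasurable
      · rw [norm_mul, H7_norm_ex, one_mul, norm_mul]
        exact mul_le_mul_of_nonneg_right (hb ξ) (norm_nonneg _)
    rw [← integral_finsetSum _ fun i _ => h2 i]
    unfold Kk
    refine integral_congr_ae (Eventually.of_forall fun ξ => ?_)
    change ex x ξ * (m (s • ξ) * c.φ0 (((2 : ℝ) ^ (0 : ℤ))⁻¹ • ξ)) = _
    rw [zpow_zero, inv_one, one_smul, hdec ξ, Finset.mul_sum, Finset.mul_sum]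
    refine Finset.sum_congr rfl fun i _ => ?_
    ring
  have hJm : ∀ i, AEStronglyMeasurable (fun y : E d =>
      ∫ ξ, ex y ξ * (m (s • ξ) * (𝓕 f0 : SchwartzMap (E d) ℂ) (t i • ξ))) volume :=
    fun i => H7_meas _ (hInt i).aestronglyMeasurable
  have hcm : ∀ i, AEStronglyMeasurable (fun x : E d => ∫ y, g i (x - y) *
      ∫ ξ, ex y ξ * (m (s • ξ) * (𝓕 f0 : SchwartzMap (E d) ℂ) (t i • ξ))) volume := by
    intro i
    refine AEStronglyMeasurable.integral_prod_right' (f := fun z : E d × E d => g i (z.1 - z.2) *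
      ∫ ξ, ex z.2 ξ * (m (s • ξ) * (𝓕 f0 : SchwartzMap (E d) ℂ) (t i • ξ))) ?_
    refine AEStronglyMeasurable.mul ?_ (hJm i).comp_snd
    exact ((g i).continuous.comp (continuous_fst.sub continuous_snd)).aestronglyMeasurable
  have hJ : ∀ i, eLpNorm (fun y : E d =>
      ∫ ξ, ex y ξ * (m (s • ξ) * (𝓕 f0 : SchwartzMap (E d) ℂ) (t i • ξ))) (ENNReal.ofReal p)
      volume ≤ ENNReal.ofReal B *
        (ENNReal.ofReal (t i ^ d) * ENNReal.ofReal ((t i ^ d)⁻¹) ^ p * A) ^ (1 / p) := by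
    intro i
    have h1 := H7_J p hp f0 m B hs (ht i) hB
    rw [← hA] at h1
    rw [eLpNorm_eq_lintegral_rpow_enorm_toReal hne htop, ENNReal.toReal_ofReal hp0.le]
    refine (ENNReal.rpow_le_rpow h1 (by positivity)).trans (le_of_eq ?_)
    rw [ENNReal.mul_rpow_of_nonneg _ _ (by positivity), ← ENNReal.rpow_mul,
      mul_one_div_cancel hp0.ne', ENNReal.rpow_one]
  have hKn : eLpNorm (fun x => Kk c.φ0 (fun ξ => m (s • ξ)) 0 x) (ENNReal.ofReal p) volume ≤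
      ENNReal.ofReal ((S.toReal + 1) * B) := by
    have h1 : (fun x => Kk c.φ0 (fun ξ => m (s • ξ)) 0 x) =
        ∑ i, fun x => ∫ y, g i (x - y) *
          ∫ ξ, ex y ξ * (m (s • ξ) * (𝓕 f0 : SchwartzMap (E d) ℂ) (t i • ξ)) := by
      funext x
      rw [hK x, Finset.sum_apply]
    rw [h1]
    have h2 : (1 : ENNReal) ≤ ENNReal.ofReal p := by
      rw [← ENNReal.ofReal_one]
      exact ENNReal.ofReal_le_ofReal hp.le
    refine (eLpNorm_sum_le (fun i _ => hcm i) h2).trans ?_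
    have h3 : ∀ i ∈ (Finset.univ : Finset (Fin n)), eLpNorm (fun x => ∫ y, g i (x - y) *
          ∫ ξ, ex y ξ * (m (s • ξ) * (𝓕 f0 : SchwartzMap (E d) ℂ) (t i • ξ))) (ENNReal.ofReal p)
          volume ≤ ENNReal.ofReal B * ((∫⁻ x, ‖g i x‖ₑ) *
        (ENNReal.ofReal (t i ^ d) * ENNReal.ofReal ((t i ^ d)⁻¹) ^ p * A) ^ (1 / p)) := by
      intro i _
      have h4 := Pool.LibTP53.young_L1 d p hp (g i) _ (g i).continuous.aestronglyMeasurable (hJm i)
      refine h4.trans ((mul_le_mul_right (hJ i) _).trans (le_of_eq ?_))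
      ring
    refine (Finset.sum_le_sum h3).trans ?_
    rw [← Finset.mul_sum, ← hS, mul_comm, ENNReal.ofReal_mul (by positivity)]
    refine mul_le_mul_left ?_ _
    rw [← ENNReal.ofReal_toReal hStop]
    refine ENNReal.ofReal_le_ofReal ?_
    rw [ENNReal.toReal_ofReal ENNReal.toReal_nonneg]
    linarith
  have h5 : ∫⁻ x, ‖Kk c.φ0 (fun ξ => m (s • ξ)) 0 x‖ₑ ^ p =
      (eLpNorm (fun x => Kk c.φ0 (fun ξ => m (s • ξ)) 0 x) (ENNReal.ofReal p) volume) ^ p := by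
    rw [eLpNorm_eq_lintegral_rpow_enorm_toReal hne htop, ENNReal.toReal_ofReal hp0.le,
      ← ENNReal.rpow_mul, one_div_mul_cancel hp0.ne', ENNReal.rpow_one]
  rw [h5]
  exact ENNReal.rpow_le_rpow hKn hp0.le

end Pool.LibRF53
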