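import Pool.Agent.LibCA93.Fin
import Pool.Agent.LibRM53.RM2
import Pool.Agent.LibRF53.C0
import Pool.Agent.LibRF53.H4
import Pool.Agent.LibRF53.H5
import Pool.Agent.LibRF53.H7

/-
Radial Fourier multipliers without support condition, every dimension at least 3, in the open
Stein-Tomas range: assembly.
-/

set_option autoImplicit false

noncomputable section

open MeasureTheory Metric Set Filter

namespace Pool.LibRF53

open Pool.LibSR53

private theorem lp_pow {d : ℕ} (p : ℝ) (hp : 0 < p) (g : E d → ℂ) :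
    (eLpNorm g (ENNReal.ofReal p) volume) ^ p = ∫⁻ x, ‖g x‖ₑ ^ p := by
  rw [eLpNorm_eq_lintegral_rpow_enorm_toReal (by simpa using hp) (by simp),
    ENNReal.toReal_ofReal hp.le, ← ENNReal.rpow_mul, one_div, inv_mul_cancel₀ hp.ne',
    ENNReal.rpow_one]

private theorem van_of {d : ℕ} (ψ φ : SchwartzMap (E d) ℂ)
    (hφ : ∀ ξ, ∫ w, ex (-w) ξ * ψ w = φ ξ) (a : ℝ) (ha : 0 < a)
    (hs : ∀ ξ, φ ξ ≠ 0 → a ≤ ‖ξ‖) : ∃ ε : ℝ, 0 < ε ∧ Van ψ ε := by
  refine ⟨a, ha, fun ξ hξ => ?_⟩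
  have h0 : φ ξ = 0 := by
    by_contra h
    exact absurd (hs ξ h) (not_le.mpr hξ)
  rw [← h0, ← hφ ξ]
  refine integral_congr_ae (Eventually.of_forall fun w => ?_)
  simp only [ex, inner_neg_left]
  congr 2
  push_cast
  ring

private theorem Bd_memLp {d : ℕ} {A : E d → ℂ} (hA : Bd A) (p : ENNReal) : MemLp A p volume := by
  obtain ⟨B, hB⟩ := hA.bdd
  obtain ⟨R, hR⟩ := hA.supp
  refine (memLp_top_of_bound hA.meas.aestronglyMeasurable B
    (Eventually.of_forall hB)).mono_exponent_of_measure_support_ne_top (s := closedBall (0 : E d) R)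
    (fun x hx => hR x (by simpa using hx)) measure_closedBall_lt_top.ne le_top

private theorem st_le {d : ℕ} (hd : 3 ≤ d) {p : ℝ}
    (hp2 : p < 2 * ((d : ℝ) + 1) / ((d : ℝ) + 3)) : p < 2 * (d : ℝ) / ((d : ℝ) + 1) := by
  have h3 : (3 : ℝ) ≤ d := by exact_mod_cast hd
  refine hp2.trans_le ?_
  rw [div_le_div_iff₀ (by linarith) (by linarith)]
  nlinarith

private theorem st_two {d : ℕ} : 2 * ((d : ℝ) + 1) / ((d : ℝ) + 3) < 2 := by
  have h3 : (0 : ℝ) ≤ d := Nat.cast_nonneg d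
  rw [div_lt_iff₀ (by linarith)]
  linarith

private theorem he_of (d : ℕ) (hd : 3 ≤ d) (c : Cut d) (s : ℝ) (hs1 : 1 < s)
    (hs2 : s < 2 * ((d : ℝ) + 1) / ((d : ℝ) + 3)) :
    ∃ C : ℝ, 0 < C ∧ ∀ (l : ℕ) (g : E d × ℝ → ℂ), Ad l g →
      ∫⁻ x, ‖Vg c.ψ2 g x‖ₑ ^ s ≤ ENNReal.ofReal C * ∫⁻ z, Gg (l : ℤ) g z ^ s ∂(nM d) := by
  have hv := van_of c.ψ2 c.φ2 c.ft2 (1 / 8) (by norm_num) fun ξ h => (c.supp2 ξ h).1
  exact end_s d (by omega) c.ψ2 s hs1 (hs2.le.trans st_two.le)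
    (Pool.LibCA93.main d hd s hs1 hs2 c.ψ2 hv)

private theorem hfull_of (d : ℕ) (hd : 3 ≤ d) (c : Cut d) (p q : ℝ) (hpq : p.HolderConjugate q)
    (hp2 : p < 2 * ((d : ℝ) + 1) / ((d : ℝ) + 3)) :
    ∃ C : ℝ, 0 < C ∧ ∀ m : E d → ℂ, Mr m → ∀ N : ℝ, 0 ≤ N → HN c m p N →
      ∀ (k : ℤ) (f : E d → ℂ), Bi f →
      ∫⁻ x, ‖cv (Kk c.φ0 m k) f x‖ₑ ^ q ≤ ENNReal.ofReal (C * N ^ q) * ∫⁻ x, ‖f x‖ₑ ^ q := by
  have hp1 : 1 < p := hpq.lt
  have hp0 : 0 < p := by linarith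
  have hq0 : 0 < q := hpq.symm.pos
  have hv := van_of c.ψ1 c.φ1 c.ft1 (1 / 4) (by norm_num) fun ξ h => (c.supp1 ξ h).1
  obtain ⟨C, hC, h⟩ := Pool.LibRM53.mult_mainP d hd p hp1 hp2 c.ψ1 hv
  refine ⟨C ^ q, by positivity, fun m hm N hN hHN k f hf => ?_⟩
  refine full_scale c m k q hq0 (ENNReal.ofReal (C ^ q * N ^ q)) (fun f' hf' => ?_) f hf
  have hm' : Mr (fun ξ => m ((2 : ℝ) ^ k • ξ)) := by
    obtain ⟨h1, ⟨B, h2⟩, h3⟩ := hm
    refine ⟨h1.comp (measurable_const_smul _), ⟨B, fun ξ => h2 _⟩, fun ξ ξ' hξ => h3 _ _ ?_⟩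
    rw [norm_smul, norm_smul, hξ]
  obtain ⟨k1, k2, k3, k4⟩ := Kk_facts c _ hm' 0
  obtain ⟨h1, -⟩ := h _ k1 k2 k3 (fun x => by
    have h5 := k4 x
    simpa [cv, dl] using h5)
  have h6 := dual_plain d p q hpq (ENNReal.ofReal (C * N) ^ p)
    (ENNReal.rpow_ne_top_of_nonneg hp0.le ENNReal.ofReal_ne_top)
    (Kk c.φ0 (fun ξ => m ((2 : ℝ) ^ k • ξ)) 0) k1.measurable k2 k3 (fun A hA => by
      have h7 := h1 A (Bd_memLp hA _)
      have h8 := ENNReal.rpow_le_rpow h7 hp0.le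
      rw [ENNReal.mul_rpow_of_nonneg _ _ hp0.le, ENNReal.mul_rpow_of_nonneg _ _ hp0.le,
        lp_pow p hp0, lp_pow p hp0, lp_pow p hp0] at h8
      refine h8.trans ?_
      rw [ENNReal.ofReal_mul hC.le, ENNReal.mul_rpow_of_nonneg _ _ hp0.le]
      gcongr
      exact hHN k) f' hf'
  refine h6.trans (le_of_eq ?_)
  congr 1
  rw [← ENNReal.rpow_mul, mul_div_cancel₀ _ hp0.ne', ENNReal.ofReal_rpow_of_nonneg (by positivity)
    hq0.le, Real.mul_rpow hC.le hN]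

open scoped FourierTransform in
private theorem fin_inv {d : ℕ} (g : E d → ℂ) : 𝓕⁻ g = fun x => ∫ ξ, ex x ξ * g ξ := by
  funext x
  rw [Real.fourierInv_eq']
  refine integral_congr_ae (Eventually.of_forall fun ξ => ?_)
  simp only [ex, smul_eq_mul]
  rw [real_inner_comm]
  congr 2
  push_cast
  ring

open scoped FourierTransform in
private theorem fin_fwd {d : ℕ} (f : E d → ℂ) : 𝓕 f = fun ξ => ∫ y, ex (-y) ξ * f y := by
  funext ξ
  rw [Real.fourier_eq']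
  refine integral_congr_ae (Eventually.of_forall fun w => ?_)
  simp only [ex, smul_eq_mul, inner_neg_left]
  congr 2
  push_cast
  ring

/-- the lintegral form -/
theorem radial_lint (d : ℕ) (hd : 3 ≤ d) (p : ℝ) (hp1 : 1 < p)
    (hp2 : p < 2 * ((d : ℝ) + 1) / ((d : ℝ) + 3)) (f0 : SchwartzMap (E d) ℂ)
    (hr : ∀ x y : E d, ‖x‖ = ‖y‖ → f0 x = f0 y) (h0 : f0 ≠ 0) :
    ∃ C : ℝ, 0 < C ∧ ∀ m : E d → ℂ, Mr m → ∀ B : ℝ, 0 ≤ B →
      (∀ t : ℝ, 0 < t →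
        ∫⁻ x, ‖∫ ξ, ex x ξ * (m ξ * ∫ y, ex (-y) ξ * f0 (t • y))‖ₑ ^ p ≤
          ENNReal.ofReal B ^ p * ∫⁻ x, ‖f0 (t • x)‖ₑ ^ p) →
      ∀ f : SchwartzMap (E d) ℂ,
        ∫⁻ x, ‖∫ ξ, ex x ξ * (m ξ * ∫ y, ex (-y) ξ * f y)‖ₑ ^ p ≤
          ENNReal.ofReal (C * B) ^ p * ∫⁻ x, ‖f x‖ₑ ^ p := by
  obtain ⟨c⟩ := cut_exists d (by omega)
  have hp0 : 0 < p := by linarith
  set q : ℝ := p.conjExponent with hqd
  have hpq : p.HolderConjugate q := Real.HolderConjugate.conjExponent hp1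
  have hq0 : 0 < q := hpq.symm.pos
  have hpl2 : p < 2 := hp2.trans st_two
  have hq2 : 2 < q := by
    rw [hqd, Real.conjExponent, lt_div_iff₀ (by linarith)]
    linarith
  obtain ⟨s, hs1, hs2⟩ := exists_between hp2
  obtain ⟨C4, hC4, h4⟩ := main_q d (by omega) c p q s hpq hq2 hs1 (st_le hd hp2)
    (he_of d hd c s (hp1.trans hs1) hs2) (hfull_of d hd c p q hpq hp2)
  obtain ⟨C7, hC7, h7⟩ := HN_of_test (by omega) c p hp1 f0 hr h0
  refine ⟨C4 ^ (1 / q) * C7, by positivity, fun m hm B hB hB' f => ?_⟩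
  have h8 := h7 m hm B hB hB'
  have h9 := to_Lp (by omega) c m hm p q hpq (ENNReal.ofReal (C4 * (C7 * B) ^ q)) ENNReal.ofReal_ne_top
    (fun S f hf => h4 m hm (C7 * B) (by positivity) h8 S f hf) f
  refine h9.trans (le_of_eq ?_)
  congr 1
  have hqq : q * (p / q) = p := by field_simp
  rw [ENNReal.ofReal_rpow_of_nonneg (by positivity) (by positivity),
    ENNReal.ofReal_rpow_of_nonneg (by positivity) hp0.le]
  congr 1
  have e1 : ((C7 * B) ^ q) ^ (p / q) = (C7 * B) ^ p := by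
    rw [← Real.rpow_mul (by positivity), hqq]
  have e2 : (C4 ^ (1 / q)) ^ p = C4 ^ (p / q) := by
    rw [← Real.rpow_mul hC4.le]
    congr 1
    field_simp
  have e3 : (C4 ^ (1 / q) * (C7 * B)) ^ p = C4 ^ (p / q) * (C7 * B) ^ p := by
    rw [Real.mul_rpow (by positivity) (by positivity), e2]
  rw [Real.mul_rpow hC4.le (by positivity), e1, mul_assoc, e3]

open scoped FourierTransform in
/-- radial Fourier multipliers: one radial test function suffices -/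
theorem radial_full (d : ℕ) (hd : 3 ≤ d) (p : ℝ) (hp1 : 1 < p)
    (hp2 : p < 2 * ((d : ℝ) + 1) / ((d : ℝ) + 3)) (f0 : SchwartzMap (E d) ℂ)
    (hr : ∀ x y : E d, ‖x‖ = ‖y‖ → f0 x = f0 y) (h0 : f0 ≠ 0) :
    ∃ C : ℝ, 0 < C ∧ ∀ m : E d → ℂ, Measurable m → (∃ B : ℝ, ∀ ξ, ‖m ξ‖ ≤ B) →
      (∀ ξ ξ' : E d, ‖ξ‖ = ‖ξ'‖ → m ξ = m ξ') → ∀ B : ENNReal,
      (∀ t : ℝ, 0 < t →
        eLpNorm (𝓕⁻ (fun ξ => m ξ * 𝓕 (fun x : E d => f0 (t • x)) ξ)) (ENNReal.ofReal p) volume ≤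
          B * eLpNorm (fun x : E d => f0 (t • x)) (ENNReal.ofReal p) volume) →
      ∀ f : SchwartzMap (E d) ℂ,
        eLpNorm (𝓕⁻ (fun ξ => m ξ * 𝓕 (f : E d → ℂ) ξ)) (ENNReal.ofReal p) volume ≤
          ENNReal.ofReal C * B * eLpNorm f (ENNReal.ofReal p) volume := by
  have hp0 : 0 < p := by linarith
  have hpp : ENNReal.ofReal p ≠ 0 := by simpa using hp0
  obtain ⟨C, hC, h⟩ := radial_lint d hd p hp1 hp2 f0 hr h0
  refine ⟨C, hC, fun m hm hmb hrad B hB f => ?_⟩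
  by_cases hBt : B = ⊤
  · subst hBt
    by_cases hf0 : eLpNorm f (ENNReal.ofReal p) (volume : Measure (E d)) = 0
    · have hfz : (f : E d → ℂ) =ᵐ[volume] 0 :=
        (eLpNorm_eq_zero_iff f.continuous.aestronglyMeasurable hpp).1 hf0
      have hz : 𝓕⁻ (fun ξ => m ξ * 𝓕 (f : E d → ℂ) ξ) = fun _ => 0 := by
        rw [fin_inv, fin_fwd]
        have h1 : (fun ξ : E d => ∫ y, ex (-y) ξ * f y) = fun _ => 0 := by
          funext ξ
          rw [← integral_zero (E d) ℂ (μ := volume)]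
          refine integral_congr_ae ?_
          filter_upwards [hfz] with y hy
          simp [hy]
        funext x
        rw [h1]
        simp
      rw [hz]
      simp
    · rw [ENNReal.mul_top (by simpa using hC), ENNReal.top_mul hf0]
      exact le_top
  · have hBr : ENNReal.ofReal B.toReal = B := ENNReal.ofReal_toReal hBt
    have h1 := h m ⟨hm, hmb, hrad⟩ B.toReal ENNReal.toReal_nonneg (fun t ht => by
      have h2 := ENNReal.rpow_le_rpow (hB t ht) hp0.le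
      rw [ENNReal.mul_rpow_of_nonneg _ _ hp0.le, lp_pow p hp0, lp_pow p hp0, fin_inv,
        fin_fwd] at h2
      rw [hBr]
      exact h2) f
    have h3 := ENNReal.rpow_le_rpow h1 (by positivity : 0 ≤ 1 / p)
    rw [ENNReal.mul_rpow_of_nonneg _ _ (by positivity), ← ENNReal.rpow_mul,
      mul_one_div_cancel hp0.ne', ENNReal.rpow_one, ENNReal.ofReal_mul hC.le, hBr] at h3
    rw [eLpNorm_eq_lintegral_rpow_enorm_toReal hpp (by simp),
      eLpNorm_eq_lintegral_rpow_enorm_toReal hpp (by simp), ENNReal.toReal_ofReal hp0.le, fin_inv,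
      fin_fwd]
    exact h3

end Pool.LibRF53
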