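import Pool.Agent.LibRF53.Defs
import Pool.Agent.LibSR53.K5
import Pool.Agent.LibSR53.V2
import Pool.Agent.LibWaveDir.Plancherel

/-
PLAN (G1). L2 bound for one radius. Put kap x = Fk eta 0 r x = int eta (x - zeta) dsg r zeta; Fk eta z r x = kap (x - z), so the function is the convolution kap * A. kap is continuous and integrable
(int |kap| <= |eta|_1 sg(univ), Fubini), its Fourier transform is (eta^ xi) * (int ex (-zeta) xi dsg r zeta) = eta^ xi * sh d r xi (the surface measure is symmetric, so the exponential integral is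
the real number sh; see sh and K3, or bound it by |int ex (-zeta) xi dsg| = |sh d r xi|: real part = sh by definition, imaginary part = 0 by zeta -> -zeta). eta^ vanishes for |xi| < eps (Van) and
is bounded, and |sh d r xi| <= C eps^(-nu) r^nu for |xi| >= eps (lemma K5_sh in LibSR53.K5), nu = (d-1)/2. Plancherel for kap * A and for A (Pool.Agent.LibWaveDir.plancherel; A is Bd):
int |kap*A|^2 = int |eta^|^2 sh^2 |A^|^2 <= C r^(d-1) int |A|^2.
-/

set_option autoImplicit false

noncomputable section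

open MeasureTheory Metric Set Filter

namespace Pool.LibRF53

open Pool.LibSR53
open scoped FourierTransform Convolution

private lemma G1_fk {d : ℕ} (η : SchwartzMap (E d) ℂ) (z : E d) (r : ℝ) (x : E d) :
    Fk η z r x = Fk η 0 r (x - z) := by
  unfold Fk
  congr 1
  funext ζ
  congr 1
  abel

private lemma G1_four {d : ℕ} (f : E d → ℂ) (ξ : E d) : 𝓕 f ξ = ∫ w, ex (-w) ξ * f w := by
  rw [Real.fourier_eq']
  refine integral_congr_ae (Eventually.of_forall fun w => ?_)
  simp only [ex, smul_eq_mul, inner_neg_left]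
  congr 2
  push_cast
  ring

private lemma G1_kap {d : ℕ} (hd : 2 ≤ d) (η : SchwartzMap (E d) ℂ) (r : ℝ) (hr : 0 < r)
    (ξ : E d) : 𝓕 (Fk η 0 r) ξ = 𝓕 (η : E d → ℂ) ξ * (sh d r ξ : ℂ) := by
  have hfin : IsFiniteMeasure (sg d r) := sg_fin d hd r hr
  rw [G1_four, G1_four]
  have hexc : Continuous (fun p : E d × E d => ex (-p.1) ξ * η (p.1 - p.2)) := by
    refine Continuous.mul ?_ (η.continuous.comp (by fun_prop))
    unfold ex
    fun_prop
  have hint : Integrable (Function.uncurry fun x ζ : E d => ex (-x) ξ * η (x - ζ))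
      ((volume : Measure (E d)).prod (sg d r)) := by
    have hm : AEStronglyMeasurable (Function.uncurry fun x ζ : E d => ex (-x) ξ * η (x - ζ))
        ((volume : Measure (E d)).prod (sg d r)) := hexc.aestronglyMeasurable
    rw [integrable_prod_iff' hm]
    constructor
    · refine Eventually.of_forall fun ζ => ?_
      have h1 : Integrable (fun x : E d => η (x - ζ)) := (η.integrable (μ := volume)).comp_sub_right ζ
      refine h1.norm.mono' ?_ (Eventually.of_forall fun x => ?_)
      · exact (hexc.comp (by fun_prop : Continuous fun x : E d => (x, ζ))).aestronglyMeasurable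
      · simp only [Function.uncurry_apply_pair, norm_mul, K5_ex_norm, one_mul, le_refl]
    · have h2 : (fun ζ : E d => ∫ x : E d, ‖Function.uncurry
          (fun x ζ : E d => ex (-x) ξ * η (x - ζ)) (x, ζ)‖) = fun _ => ∫ x : E d, ‖η x‖ := by
        funext ζ
        simp only [Function.uncurry_apply_pair, norm_mul, K5_ex_norm, one_mul]
        exact integral_sub_right_eq_self (fun x : E d => ‖η x‖) ζ
      rw [h2]
      exact integrable_const _
  have h3 : ∫ x, ex (-x) ξ * Fk η 0 r x = ∫ x, ∫ ζ, ex (-x) ξ * η (x - ζ) ∂(sg d r) := by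
    refine integral_congr_ae (Eventually.of_forall fun x => ?_)
    simp only
    unfold Fk
    rw [← integral_const_mul]
    refine integral_congr_ae (Eventually.of_forall fun ζ => ?_)
    simp only [sub_zero]
  rw [h3, integral_integral_swap hint]
  have h4 : ∀ ζ : E d, ∫ x, ex (-x) ξ * η (x - ζ) = ex ζ (-ξ) * ∫ w, ex (-w) ξ * η w := by
    intro ζ
    rw [← integral_add_right_eq_self (fun x : E d => ex (-x) ξ * η (x - ζ)) ζ,
      ← integral_const_mul]
    refine integral_congr_ae (Eventually.of_forall fun w => ?_)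
    simp only [add_sub_cancel_right]
    rw [← mul_assoc]
    congr 1
    have e1 : ex ζ (-ξ) = ex (-ζ) ξ := by
      unfold ex
      rw [inner_neg_left, inner_neg_right]
    rw [e1, ← ex_add_left]
    congr 1
    abel
  simp only [h4]
  rw [integral_mul_const, sh_exp d hd r hr, sh_neg]
  ring

theorem fix_L2 (d : ℕ) (hd : 2 ≤ d) (η : SchwartzMap (E d) ℂ) (hη : ∃ ε : ℝ, 0 < ε ∧ Van η ε) :
    ∃ C : ℝ, 0 < C ∧ ∀ (r : ℝ) (A : E d → ℂ), 0 < r → Bd A →
    ∫⁻ x, ‖∫ z, Fk η z r x * A z‖ₑ ^ (2 : ℝ) ≤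
      ENNReal.ofReal (C * r ^ (d - 1)) * ∫⁻ x, ‖A x‖ₑ ^ (2 : ℝ) := by
  obtain ⟨ε, hε, hV⟩ := hη
  obtain ⟨C1, hC1, hsh⟩ := K5_sh hd
  obtain ⟨C2, hC2, hFk⟩ := Fk_le hd η
  set N : ℝ := ∫ x, ‖η x‖ with hN
  have hN0 : 0 ≤ N := integral_nonneg fun x => norm_nonneg _
  set B : ℝ := (N + 1) * (C1 * ε ^ (-nu d)) with hB
  have hB0 : 0 < B := by positivity
  refine ⟨B ^ 2, by positivity, fun r A hr hA => ?_⟩
  obtain ⟨b, hb⟩ := hA.bdd
  obtain ⟨R, hR⟩ := hA.supp
  have hb0 : 0 ≤ b := (norm_nonneg _).trans (hb 0)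
  -- A is integrable and square integrable
  have hAmem : MemLp A ⊤ (volume.restrict (closedBall (0 : E d) R)) :=
    memLp_top_of_bound hA.meas.aestronglyMeasurable b (Eventually.of_forall hb)
  have hfin2 : IsFiniteMeasure ((volume : Measure (E d)).restrict (closedBall (0 : E d) R)) :=
    ⟨by rw [Measure.restrict_apply_univ]; exact measure_closedBall_lt_top⟩
  have hAind : (closedBall (0 : E d) R).indicator A = A := by
    funext x
    by_cases hx : x ∈ closedBall (0 : E d) R
    · rw [Set.indicator_of_mem hx]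
    · rw [Set.indicator_of_notMem hx]
      rw [mem_closedBall_zero_iff, not_le] at hx
      exact (hR x hx).symm
  have hA1 : Integrable A := by
    have h := (hAmem.mono_exponent (p := 1) le_top).integrable le_rfl
    rw [← hAind]
    exact (integrable_indicator_iff isClosed_closedBall.measurableSet).2 h
  have hA2 : MemLp A 2 := by
    have h := hAmem.mono_exponent (p := 2) le_top
    rw [← hAind]
    exact (memLp_indicator_iff_restrict isClosed_closedBall.measurableSet).2 h
  -- the convolution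
  have hκ : Integrable (Fk η 0 r) := Fk_integrable hd η 0 r hr
  set g : E d → ℂ := A ⋆[ContinuousLinearMap.mul ℂ ℂ] (Fk η 0 r) with hg
  have hge : (fun x => ∫ z, Fk η z r x * A z) = g := by
    funext x
    rw [hg]
    unfold convolution
    refine integral_congr_ae (Eventually.of_forall fun z => ?_)
    simp only [ContinuousLinearMap.mul_apply']
    rw [G1_fk η z r x, mul_comm]
  have hg1 : Integrable g := hA1.integrable_convolution (ContinuousLinearMap.mul ℂ ℂ) hκ
  have hgb : ∀ x, ‖g x‖ ≤ C2 * r ^ (d - 1) * ∫ z, ‖A z‖ := by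
    intro x
    rw [← congrFun hge x, ← integral_const_mul]
    refine (norm_integral_le_integral_norm _).trans ?_
    refine integral_mono_of_nonneg (Eventually.of_forall fun z => norm_nonneg _)
      (hA1.norm.const_mul _) (Eventually.of_forall fun z => ?_)
    simp only [norm_mul]
    exact mul_le_mul_of_nonneg_right (hFk z r x hr) (norm_nonneg _)
  have hg2 : MemLp g 2 := by
    rw [memLp_two_iff_integrable_sq_norm hg1.aestronglyMeasurable]
    refine Integrable.mono' (hg1.norm.const_mul (C2 * r ^ (d - 1) * ∫ z, ‖A z‖))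
      (hg1.aestronglyMeasurable.norm.pow 2) (Eventually.of_forall fun x => ?_)
    rw [Real.norm_of_nonneg (sq_nonneg _), sq]
    exact mul_le_mul_of_nonneg_right (hgb x) (norm_nonneg _)
  have hP1 := Pool.Agent.LibWaveDir.plancherel g hg1 hg2
  have hP2 := Pool.Agent.LibWaveDir.plancherel A hA1 hA2
  have h2 : ∀ a : ENNReal, a ^ (2 : ℝ) = a ^ 2 := fun a => ENNReal.rpow_two a
  simp only [h2]
  have hl : ∫⁻ x, ‖∫ z, Fk η z r x * A z‖ₑ ^ 2 = ∫⁻ x, ‖g x‖ₑ ^ 2 := by
    rw [← hge]
  rw [hl, ← hP1, ← hP2, ← lintegral_const_mul' _ _ ENNReal.ofReal_ne_top]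
  refine lintegral_mono fun ξ => ?_
  have h5 : 𝓕 g ξ = 𝓕 A ξ * (𝓕 (η : E d → ℂ) ξ * (sh d r ξ : ℂ)) := by
    rw [hg, Real.fourier_mul_convolution_eq hA1 hκ, G1_kap hd η r hr]
  have h6 : ‖𝓕 (η : E d → ℂ) ξ * (sh d r ξ : ℂ)‖ ≤ B * r ^ (nu d) := by
    rw [norm_mul, Complex.norm_real, Real.norm_eq_abs]
    by_cases hξ : ‖ξ‖ < ε
    · have h0 : 𝓕 (η : E d → ℂ) ξ = 0 := by
        rw [G1_four, ← hV ξ hξ]
        refine integral_congr_ae (Eventually.of_forall fun w => ?_)
        simp only [ex, inner_neg_left]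
        congr 2
        push_cast
        ring
      rw [h0, norm_zero, zero_mul]
      positivity
    · push Not at hξ
      have h7 : ‖𝓕 (η : E d → ℂ) ξ‖ ≤ N := by
        rw [G1_four, hN]
        refine (norm_integral_le_integral_norm _).trans (le_of_eq ?_)
        refine integral_congr_ae (Eventually.of_forall fun w => ?_)
        simp only [norm_mul, K5_ex_norm, one_mul]
      calc ‖𝓕 (η : E d → ℂ) ξ‖ * |sh d r ξ| ≤ (N + 1) * (C1 * ε ^ (-nu d) * r ^ nu d) :=
            mul_le_mul (by linarith) (hsh ε hε r hr ξ hξ) (abs_nonneg _) (by linarith)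
        _ = B * r ^ nu d := by rw [hB]; ring
  have h8 : (B * r ^ (nu d)) ^ 2 = B ^ 2 * r ^ (d - 1) := by
    rw [mul_pow]
    congr 1
    rw [← Real.rpow_natCast (r ^ nu d) 2, ← Real.rpow_mul hr.le, ← Real.rpow_natCast r (d - 1)]
    congr 1
    unfold nu
    rw [Nat.cast_sub (by omega)]
    push_cast
    ring
  calc ‖𝓕 g ξ‖ₑ ^ 2 = ‖𝓕 (η : E d → ℂ) ξ * (sh d r ξ : ℂ)‖ₑ ^ 2 * ‖𝓕 A ξ‖ₑ ^ 2 := by
        rw [h5, enorm_mul, mul_pow, mul_comm]
    _ ≤ ENNReal.ofReal (B ^ 2 * r ^ (d - 1)) * ‖𝓕 A ξ‖ₑ ^ 2 := by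
        refine mul_le_mul_left ?_ _
        rw [← h8, ENNReal.ofReal_pow (by positivity), ← ofReal_norm]
        gcongr

end Pool.LibRF53
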