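import Pool.Agent.LibRF53.G9
import Pool.Agent.LibRF53.G9b
import Pool.Agent.LibRF53.D1

/-
PLAN (G10). Scaling to frequency 2^k. Put f0 x = f (2^-k x) and m0 xi = m (2^k xi), K0 = Kk phi0 m0 0. Kk_scale: Kk phi0 m k x = 2^(kd) K0 (2^k x), so cv (Kk phi0 m k) f x = cv K0 f0 (2^k x) and
cv (fk c m j k) f x = cv (fk c m0 (j+k) 0) f0 (2^k x), because chi (2^-j x) = chi (2^-(j+k) 2^k x) (substitution in the convolution). cv (dl psi2 k) f = f becomes cv psi2 f0 = f0. Integrals: substitution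
x -> 2^k x multiplies both sides by the same constant 2^(-kd); Av_scale. So everything follows from the statements for k = 0, which are the hypotheses h0 and h1 (applied to f0: Bi).
-/

set_option autoImplicit false

noncomputable section

open MeasureTheory Metric Set Filter

namespace Pool.LibRF53

open Pool.LibSR53

private lemma lint_scale_aux {d : ℕ} (F : E d → ENNReal) (s : ℝ) (hs : 0 < s) :
    ∫⁻ x, F (s • x) = ENNReal.ofReal ((s ^ d)⁻¹) * ∫⁻ x, F x := by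
  have h1 : Measure.map (s • · : E d → E d) volume =
      ENNReal.ofReal |(s ^ Module.finrank ℝ (E d))⁻¹| • volume :=
    Measure.map_addHaar_smul volume hs.ne'
  have h2 : ∫⁻ x, F (s • x) = ∫⁻ x, F x ∂(Measure.map (s • · : E d → E d) volume) :=
    (lintegral_map_equiv F (Homeomorph.smulOfNeZero s hs.ne').toMeasurableEquiv).symm
  rw [h2, h1, lintegral_smul_measure, finrank_euclideanSpace_fin, abs_of_pos (by positivity)]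
  rfl

private lemma cv_scale_aux {d : ℕ} (K K0 f : E d → ℂ) (s : ℝ) (hs : 0 < s)
    (hK : ∀ x, K x = ((s ^ d : ℝ) : ℂ) * K0 (s • x)) (x : E d) :
    cv K f x = cv K0 (fun y => f (s⁻¹ • y)) (s • x) := by
  unfold cv
  have h1 : ∫ y, K0 (s • x - s • y) * f (s⁻¹ • s • y) =
      |(s ^ Module.finrank ℝ (E d))⁻¹| • ∫ y, K0 (s • x - y) * f (s⁻¹ • y) :=
    Measure.integral_comp_smul volume (fun y : E d => K0 (s • x - y) * f (s⁻¹ • y)) s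
  have hsd : (0 : ℝ) < s ^ d := by positivity
  rw [finrank_euclideanSpace_fin, abs_of_pos (by positivity)] at h1
  have h2 : ∫ y, K (x - y) * f y =
      ((s ^ d : ℝ) : ℂ) * ∫ y, K0 (s • x - s • y) * f (s⁻¹ • s • y) := by
    rw [← integral_const_mul]
    congr 1
    funext y
    rw [hK, smul_sub, inv_smul_smul₀ hs.ne', mul_assoc]
  rw [h2, h1, ← Complex.real_smul, smul_smul, mul_inv_cancel₀ hsd.ne', one_smul]

private lemma Av_scale_aux {d : ℕ} (j k : ℤ) (h : E d → ENNReal) (x : E d) :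
    Av j (fun y => h ((2 : ℝ) ^ k • y)) x = Av (j + k) h ((2 : ℝ) ^ k • x) := by
  have hs : (0 : ℝ) < (2 : ℝ) ^ k := by positivity
  unfold Av
  have h1 : ∫⁻ y in Q j (ix j x), h ((2 : ℝ) ^ k • y) =
      ∫⁻ y, (Q (j + k) (ix (j + k) ((2 : ℝ) ^ k • x))).indicator h ((2 : ℝ) ^ k • y) := by
    rw [← lintegral_indicator (Q_meas _ _)]
    congr 1
    funext y
    have h3 : (2 : ℝ) ^ k • y ∈ Q (j + k) (ix (j + k) ((2 : ℝ) ^ k • x)) ↔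
        y ∈ Q j (ix j x) := by
      unfold Q
      rw [mem_setOf_eq, mem_setOf_eq, ix_scale, ix_scale]
    by_cases hy : y ∈ Q j (ix j x)
    · rw [indicator_of_mem hy, indicator_of_mem (h3.2 hy)]
    · rw [indicator_of_notMem hy, indicator_of_notMem (fun h => hy (h3.1 h))]
  rw [h1, lint_scale_aux _ _ hs, lintegral_indicator (Q_meas _ _), vl_add,
    ENNReal.mul_inv (Or.inl (vl_ne j).1) (Or.inl (vl_ne j).2), mul_assoc]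
  congr 2
  unfold vl
  rw [ENNReal.ofReal_inv_of_pos (by positivity)]

private lemma Bi_scale_aux {d : ℕ} (f : E d → ℂ) (hf : Bi f) (s : ℝ) (hs : 0 < s) :
    Bi (fun y : E d => f (s⁻¹ • y)) where
  cont := hf.cont.comp (continuous_const_smul _)
  bdd := by
    obtain ⟨B, hB⟩ := hf.bdd
    exact ⟨B, fun x => hB _⟩
  int := hf.int.comp_smul (inv_ne_zero hs.ne')

private lemma fk_scale_aux {d : ℕ} (c : Cut d) (m : E d → ℂ) (k j : ℤ) (x : E d) :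
    fk c m j k x = ((((2 : ℝ) ^ k) ^ d : ℝ) : ℂ) *
      fk c (fun ξ => m ((2 : ℝ) ^ k • ξ)) (j + k) 0 ((2 : ℝ) ^ k • x) := by
  have h2 : (2 : ℝ) ^ k ≠ 0 := by positivity
  unfold fk
  rw [Kk_scale, smul_smul, zpow_add₀ (by norm_num : (2 : ℝ) ≠ 0), mul_inv, mul_assoc ((2 : ℝ) ^ j)⁻¹,
    inv_mul_cancel₀ h2, mul_one, mul_assoc]

private lemma dl_scale_aux {d : ℕ} (ψ : E d → ℂ) (k : ℤ) (x : E d) :
    dl ψ k x = ((((2 : ℝ) ^ k) ^ d : ℝ) : ℂ) * dl ψ 0 ((2 : ℝ) ^ k • x) := by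
  unfold dl
  simp

theorem far_scale {d : ℕ} (c : Cut d) (m : E d → ℂ) (k j : ℤ) (q : ℝ) (hq : 0 < q) (B : ENNReal)
    (h0 : ∀ f : E d → ℂ, Bi f → (∀ x, cv (dl c.ψ2 0) f x = f x) →
      ∫⁻ x, (Av (j + k)
        (fun y => ‖cv (fk c (fun ξ => m ((2 : ℝ) ^ k • ξ)) (j + k) 0) f y‖ₑ ^ (2 : ℝ)) x) ^ (q / 2) ≤
        B * ∫⁻ x, ‖f x‖ₑ ^ q)
    (f : E d → ℂ) (hf : Bi f) (hψ : ∀ x, cv (dl c.ψ2 k) f x = f x) :
    ∫⁻ x, (Av j (fun y => ‖cv (fk c m j k) f y‖ₑ ^ (2 : ℝ)) x) ^ (q / 2) ≤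
      B * ∫⁻ x, ‖f x‖ₑ ^ q := by
  have hs : (0 : ℝ) < (2 : ℝ) ^ k := by positivity
  have hsi : (2 : ℝ) ^ k ≠ 0 := hs.ne'
  have h1 := h0 (fun y => f (((2 : ℝ) ^ k)⁻¹ • y)) (Bi_scale_aux f hf _ hs) (by
    intro x
    have h2 := cv_scale_aux (dl c.ψ2 k) (dl c.ψ2 0) f ((2 : ℝ) ^ k) hs
      (dl_scale_aux _ k) (((2 : ℝ) ^ k)⁻¹ • x)
    rw [hψ, smul_inv_smul₀ hsi] at h2
    exact h2.symm)
  have h3 : ∀ y, cv (fk c m j k) f y =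
      cv (fk c (fun ξ => m ((2 : ℝ) ^ k • ξ)) (j + k) 0) (fun y => f (((2 : ℝ) ^ k)⁻¹ • y))
        ((2 : ℝ) ^ k • y) := fun y =>
    cv_scale_aux _ _ f ((2 : ℝ) ^ k) hs (fk_scale_aux c m k j) y
  simp only [h3]
  have h4 : ∀ x : E d, Av j (fun y =>
      ‖cv (fk c (fun ξ => m ((2 : ℝ) ^ k • ξ)) (j + k) 0) (fun y => f (((2 : ℝ) ^ k)⁻¹ • y))
        ((2 : ℝ) ^ k • y)‖ₑ ^ (2 : ℝ)) x = Av (j + k) (fun y =>
      ‖cv (fk c (fun ξ => m ((2 : ℝ) ^ k • ξ)) (j + k) 0) (fun y => f (((2 : ℝ) ^ k)⁻¹ • y))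
        y‖ₑ ^ (2 : ℝ)) ((2 : ℝ) ^ k • x) := fun x =>
    Av_scale_aux j k (fun y =>
      ‖cv (fk c (fun ξ => m ((2 : ℝ) ^ k • ξ)) (j + k) 0) (fun y => f (((2 : ℝ) ^ k)⁻¹ • y))
        y‖ₑ ^ (2 : ℝ)) x
  simp only [h4]
  rw [lint_scale_aux (fun x => (Av (j + k) (fun y =>
      ‖cv (fk c (fun ξ => m ((2 : ℝ) ^ k • ξ)) (j + k) 0) (fun y => f (((2 : ℝ) ^ k)⁻¹ • y))
        y‖ₑ ^ (2 : ℝ)) x) ^ (q / 2)) _ hs]
  refine (mul_le_mul' le_rfl h1).trans (le_of_eq ?_)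
  have h5 := lint_scale_aux (fun x : E d => ‖f (((2 : ℝ) ^ k)⁻¹ • x)‖ₑ ^ q) _ hs
  simp only [inv_smul_smul₀ hsi] at h5
  rw [h5]
  ring

theorem full_scale {d : ℕ} (c : Cut d) (m : E d → ℂ) (k : ℤ) (q : ℝ) (hq : 0 < q) (B : ENNReal)
    (h1 : ∀ f : E d → ℂ, Bi f →
      ∫⁻ x, ‖cv (Kk c.φ0 (fun ξ => m ((2 : ℝ) ^ k • ξ)) 0) f x‖ₑ ^ q ≤ B * ∫⁻ x, ‖f x‖ₑ ^ q)
    (f : E d → ℂ) (hf : Bi f) :
    ∫⁻ x, ‖cv (Kk c.φ0 m k) f x‖ₑ ^ q ≤ B * ∫⁻ x, ‖f x‖ₑ ^ q := by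
  have hs : (0 : ℝ) < (2 : ℝ) ^ k := by positivity
  have hsi : (2 : ℝ) ^ k ≠ 0 := hs.ne'
  have h2 := h1 (fun y => f (((2 : ℝ) ^ k)⁻¹ • y)) (Bi_scale_aux f hf _ hs)
  have h3 : ∀ y, cv (Kk c.φ0 m k) f y =
      cv (Kk c.φ0 (fun ξ => m ((2 : ℝ) ^ k • ξ)) 0) (fun y => f (((2 : ℝ) ^ k)⁻¹ • y))
        ((2 : ℝ) ^ k • y) := fun y =>
    cv_scale_aux _ _ f ((2 : ℝ) ^ k) hs (Kk_scale c.φ0 m k) y
  simp only [h3]
  rw [lint_scale_aux (fun x =>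
      ‖cv (Kk c.φ0 (fun ξ => m ((2 : ℝ) ^ k • ξ)) 0) (fun y => f (((2 : ℝ) ^ k)⁻¹ • y))
        x‖ₑ ^ q) _ hs]
  refine (mul_le_mul' le_rfl h2).trans (le_of_eq ?_)
  have h5 := lint_scale_aux (fun x : E d => ‖f (((2 : ℝ) ^ k)⁻¹ • x)‖ₑ ^ q) _ hs
  simp only [inv_smul_smul₀ hsi] at h5
  rw [h5]
  ring

end Pool.LibRF53
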