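import Pool.Agent.LibRF53.G3
import Pool.Agent.LibTP53.GC
import Pool.Agent.LibSR53.V1

/-
PLAN (G7). Radial kernels supported in 2^l < |z| <= N. The proof of high_part in Pool.Agent.LibTP53.GD (private lemmas GD_polar, GD_int, GD_left: COPY them) gives: for every x
int_y (int_z eta (x - y - z) K0 |z|) A y = c * Vg eta g x with g (y,r) = A y * K0 r (c > 0 from conv_polar). g is Ad l. Gg l g (x,r) = (Av l |A|^2 x)^(1/2) * |K0 r| (pull the constant out of Av), so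
int Gg^p dnM = (int (Av l |A|^2)^(p/2)) * (int_(r>1) |K0 r|^p r^(d-1)) (lintegral_prod_mul / Tonelli) and int over E d of |K0 |z||^p = kap int_(r>0) |K0 r|^p r^(d-1) dr (GD_polar). New constant:
C' = c^p C / kap (up to 1).
-/

set_option autoImplicit false

noncomputable section

open MeasureTheory Metric Set Filter

namespace Pool.LibRF53

open Pool.LibSR53

private theorem G7_polar {d : ℕ} (hd : 1 ≤ d) : ∃ κ : ENNReal, κ ≠ 0 ∧ κ ≠ ⊤ ∧
    ∀ f : ℝ → ENNReal, Measurable f →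
    ∫⁻ z : E d, f ‖z‖ = κ * ∫⁻ r in Ioi (0 : ℝ), f r * ENNReal.ofReal (r ^ (d - 1)) := by
  have : Nonempty (Fin d) := ⟨⟨0, hd⟩⟩
  have : Nontrivial (E d) := by infer_instance
  refine ⟨(volume : Measure (E d)).toSphere univ, ?_, ?_, ?_⟩
  · rw [Measure.toSphere_apply_univ]
    simp
    constructor
    · omega
    · exact (measure_ball_pos _ _ one_pos).ne'
  · exact measure_ne_top _ _
  · intro f hf
    calc ∫⁻ z : E d, f ‖z‖ = ∫⁻ x : ({(0 : E d)}ᶜ : Set (E d)), f ‖x.1‖ ∂(volume.comap Subtype.val) := by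
          rw [lintegral_subtype_comap (measurableSet_singleton _).compl fun x ↦ f (‖x‖),
            restrict_compl_singleton]
      _ = ∫⁻ x, f x.2 ∂(volume : Measure (E d)).toSphere.prod
            (.volumeIoiPow (Module.finrank ℝ (E d) - 1)) := by
          simpa using ((volume : Measure (E d)).measurePreserving_homeomorphUnitSphereProd.lintegral_comp_emb
            (Homeomorph.measurableEmbedding _) (f ∘ Subtype.val ∘ Prod.snd))
      _ = _ := by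
          rw [lintegral_prod (fun x : (sphere (0 : E d) 1) × (Ioi (0 : ℝ)) => f x.2)
            (hf.comp (measurable_subtype_coe.comp measurable_snd)).aemeasurable]
          simp only [lintegral_const]
          rw [mul_comm]
          congr 1
          rw [Measure.volumeIoiPow, lintegral_withDensity_eq_lintegral_mul
            (g := fun y : (Ioi (0 : ℝ)) => f y) _ (by fun_prop)
            (hf.comp measurable_subtype_coe)]
          simp only [Pi.mul_apply]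
          rw [finrank_euclideanSpace_fin]
          rw [lintegral_subtype_comap measurableSet_Ioi
            (fun a : ℝ => ENNReal.ofReal (a ^ (d - 1)) * f a)]
          exact lintegral_congr fun a => mul_comm _ _

private theorem G7_int {d : ℕ} (hd : 2 ≤ d) (η : SchwartzMap (E d) ℂ) (K0 : ℝ → ℂ)
    (hK : Measurable K0) (B N : ℝ) (hB : ∀ r, ‖K0 r‖ ≤ B) (hN : ∀ r, N < r → K0 r = 0)
    (f : E d → ℂ) (hf : Measurable f) (B' N' : ℝ) (hB' : ∀ x, ‖f x‖ ≤ B')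
    (hN' : ∀ x, N' < ‖x‖ → f x = 0) (x : E d) :
    Integrable (Function.uncurry fun (y : E d) (r : ℝ) => Fk η y r x * (f y * K0 r))
      ((volume : Measure (E d)).prod (volume.restrict (Ioi (1 : ℝ)))) := by
  obtain ⟨C, hC, hCb⟩ := Fk_le hd η
  have hmeas : AEStronglyMeasurable (Function.uncurry fun (y : E d) (r : ℝ) =>
      Fk η y r x * (f y * K0 r))
      ((volume : Measure (E d)).prod (volume.restrict (Ioi (1 : ℝ)))) := by
    refine AEStronglyMeasurable.mul ?_ ?_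
    · have h1 : ContinuousOn (fun q : E d × ℝ => Fk η q.1 q.2 x) {q | 0 < q.2} :=
        (Fk_joint hd η).comp (f := fun q : E d × ℝ => ((q, x) : (E d × ℝ) × E d))
          (Continuous.continuousOn (by fun_prop)) fun q hq => hq
      have h2 : MeasurableSet {q : E d × ℝ | 0 < q.2} :=
        measurableSet_lt measurable_const measurable_snd
      have h3 := (h1.aestronglyMeasurable (μ := volume) h2)
      have h4 : (volume : Measure (E d)).prod (volume.restrict (Ioi (1 : ℝ))) =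
          (volume : Measure (E d × ℝ)).restrict (univ ×ˢ Ioi (1 : ℝ)) := by
        rw [← Measure.restrict_univ (μ := (volume : Measure (E d))), Measure.prod_restrict]
        rfl
      rw [h4]
      refine h3.mono_measure (Measure.restrict_mono ?_ le_rfl)
      intro q hq
      exact lt_trans zero_lt_one (mem_Ioi.1 (mem_prod.1 hq).2)
    · exact ((hf.comp measurable_fst).mul (hK.comp measurable_snd)).aestronglyMeasurable
  have hsupp : Function.support (Function.uncurry fun (y : E d) (r : ℝ) =>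
      Fk η y r x * (f y * K0 r)) ⊆ closedBall (0 : E d) N' ×ˢ Iic N := by
    intro q hq
    rw [Function.mem_support] at hq
    refine ⟨?_, ?_⟩
    · by_contra h
      apply hq
      have : N' < ‖q.1‖ := by
        rw [mem_closedBall_zero_iff] at h
        exact lt_of_not_ge h
      simp [Function.uncurry, hN' _ this]
    · by_contra h
      apply hq
      have : N < q.2 := lt_of_not_ge h
      simp [Function.uncurry, hN _ this]
  rw [← integrableOn_iff_integrable_of_support_subset hsupp]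
  have hfin : ((volume : Measure (E d)).prod (volume.restrict (Ioi (1 : ℝ))))
      (closedBall (0 : E d) N' ×ˢ Iic N) ≠ ⊤ := by
    rw [Measure.prod_prod, Measure.restrict_apply measurableSet_Iic]
    refine ENNReal.mul_ne_top measure_closedBall_lt_top.ne ?_
    rw [inter_comm, Ioi_inter_Iic]
    exact measure_Ioc_lt_top.ne
  refine Measure.integrableOn_of_bounded (M := C * (max N 1) ^ (d - 1) * (B' * B)) hfin hmeas ?_
  have h5 : ∀ᵐ q ∂((volume : Measure (E d)).prod (volume.restrict (Ioi (1 : ℝ)))).restrict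
      (closedBall (0 : E d) N' ×ˢ Iic N), q ∈ closedBall (0 : E d) N' ×ˢ Iic N :=
    ae_restrict_mem (measurableSet_closedBall.prod measurableSet_Iic)
  have h6 : ∀ᵐ q ∂((volume : Measure (E d)).prod (volume.restrict (Ioi (1 : ℝ)))).restrict
      (closedBall (0 : E d) N' ×ˢ Iic N), 1 < q.2 := by
    refine ae_restrict_of_ae ?_
    have h7 : ∀ᵐ r ∂(volume.restrict (Ioi (1 : ℝ))), 1 < r := ae_restrict_mem measurableSet_Ioi
    exact (Measure.quasiMeasurePreserving_snd (μ := (volume : Measure (E d)))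
      (ν := volume.restrict (Ioi (1 : ℝ)))).ae h7
  filter_upwards [h5, h6] with q h5 h6
  have hB0 : 0 ≤ B := le_trans (norm_nonneg _) (hB 0)
  have hB0' : 0 ≤ B' := le_trans (norm_nonneg _) (hB' 0)
  have h8 : q.2 ≤ max N 1 := le_max_of_le_left h5.2
  have h9 : 0 < q.2 := by linarith
  calc ‖Function.uncurry (fun (y : E d) (r : ℝ) => Fk η y r x * (f y * K0 r)) q‖
      = ‖Fk η q.1 q.2 x‖ * (‖f q.1‖ * ‖K0 q.2‖) := by
        simp [Function.uncurry]
    _ ≤ (C * q.2 ^ (d - 1)) * (B' * B) := by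
        gcongr
        · exact hCb _ _ _ h9
        · exact hB' _
        · exact hB _
    _ ≤ C * (max N 1) ^ (d - 1) * (B' * B) := by
        gcongr

private theorem G7_left {d : ℕ} (hd : 2 ≤ d) (η : SchwartzMap (E d) ℂ) (c : ℝ)
    (K0 : ℝ → ℂ) (hc : ∀ w : E d,
    ∫ z, η (w - z) * K0 ‖z‖ = (c : ℂ) * ∫ r in Ioi (0 : ℝ), K0 r * ∫ ζ, η (w - ζ) ∂(sg d r))
    (hK : Measurable K0) (B N : ℝ) (hB : ∀ r, ‖K0 r‖ ≤ B) (hN : ∀ r, N < r → K0 r = 0)
    (h1 : ∀ r, r ≤ 1 → K0 r = 0)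
    (f : E d → ℂ) (hf : Measurable f) (B' N' : ℝ) (hB' : ∀ x, ‖f x‖ ≤ B')
    (hN' : ∀ x, N' < ‖x‖ → f x = 0) (x : E d) :
    ∫ y, (∫ z, η (x - y - z) * K0 ‖z‖) * f y =
      (c : ℂ) * ∫ r in Ioi (1 : ℝ), ∫ y, Fk η y r x * (f y * K0 r) := by
  rw [← integral_integral_swap (G7_int hd η K0 hK B N hB hN f hf B' N' hB' hN' x),
    ← integral_const_mul]
  refine integral_congr_ae (Eventually.of_forall fun y => ?_)
  beta_reduce
  rw [hc (x - y)]
  have h2 : ∫ r in Ioi (0 : ℝ), K0 r * ∫ ζ, η (x - y - ζ) ∂(sg d r) =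
      ∫ r in Ioi (1 : ℝ), K0 r * ∫ ζ, η (x - y - ζ) ∂(sg d r) := by
    refine setIntegral_eq_of_subset_of_forall_sdiff_eq_zero measurableSet_Ioi
      (Ioi_subset_Ioi zero_le_one) ?_
    intro r hr
    have h3 : r ≤ 1 := not_lt.1 fun h => hr.2 h
    rw [h1 r h3, zero_mul]
  rw [h2, mul_assoc, ← integral_mul_const]
  congr 1
  refine integral_congr_ae (Eventually.of_forall fun r => ?_)
  beta_reduce
  have h4 : Fk η y r x = ∫ ζ, η (x - y - ζ) ∂(sg d r) := by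
    unfold Fk
    refine integral_congr_ae (Eventually.of_forall fun ζ => ?_)
    beta_reduce
    rw [sub_right_comm]
  rw [h4]
  ring

private theorem G7_Gg {d : ℕ} (l : ℤ) (A : E d → ℂ) (K0 : ℝ → ℂ) (p : ℝ) (hp : 0 < p)
    (z : E d × ℝ) : Gg l (fun q : E d × ℝ => A q.1 * K0 q.2) z ^ p =
      (Av l (fun y => ‖A y‖ₑ ^ (2 : ℝ)) z.1) ^ (p / 2) * ‖K0 z.2‖ₑ ^ p := by
  have h1 : Av l (fun y => ‖A y * K0 z.2‖ₑ ^ (2 : ℝ)) z.1 =
      Av l (fun y => ‖A y‖ₑ ^ (2 : ℝ)) z.1 * ‖K0 z.2‖ₑ ^ (2 : ℝ) := by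
    have h2 : ∀ y, ‖A y * K0 z.2‖ₑ ^ (2 : ℝ) = ‖A y‖ₑ ^ (2 : ℝ) * ‖K0 z.2‖ₑ ^ (2 : ℝ) := by
      intro y
      rw [enorm_mul, ENNReal.mul_rpow_of_nonneg _ _ (by norm_num)]
    unfold Av
    simp only [h2]
    rw [lintegral_mul_const' _ _ (ENNReal.rpow_ne_top_of_nonneg (by norm_num) enorm_ne_top),
      mul_assoc]
  unfold Gg
  simp only
  rw [h1, ENNReal.mul_rpow_of_nonneg _ _ (by norm_num), ENNReal.mul_rpow_of_nonneg _ _ hp.le,
    ← ENNReal.rpow_mul, ← ENNReal.rpow_mul, ← ENNReal.rpow_mul]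
  congr 2
  · ring
  · ring

private theorem G7_meas {d : ℕ} (l : ℤ) (A : E d → ℂ) (hA : Measurable A) (p : ℝ) (hp : 0 < p) :
    Measurable fun x : E d => (Av l (fun y => ‖A y‖ₑ ^ (2 : ℝ)) x) ^ (p / 2) := by
  have h1 := Gg_meas l (fun q : E d × ℝ => A q.1 * (fun _ : ℝ => (1 : ℂ)) q.2)
    ((hA.comp measurable_fst).mul measurable_const)
  have h2 : (fun x : E d => (Av l (fun y => ‖A y‖ₑ ^ (2 : ℝ)) x) ^ (p / 2)) =
      fun x => Gg l (fun q : E d × ℝ => A q.1 * (fun _ : ℝ => (1 : ℂ)) q.2) (x, 0) ^ p := by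
    funext x
    rw [G7_Gg l A (fun _ => 1) p hp (x, 0)]
    simp
  rw [h2]
  exact (h1.comp (measurable_id.prodMk measurable_const)).pow_const p

theorem far_compact (d : ℕ) (hd : 2 ≤ d) (η : SchwartzMap (E d) ℂ) (p : ℝ) (hp : 1 < p)
    (C ε : ℝ) (hC : 0 < C) (hε : 0 < ε)
    (hg : ∀ (l : ℕ) (g : E d × ℝ → ℂ), Ad l g →
      ∫⁻ x, ‖Vg η g x‖ₑ ^ p ≤
        ENNReal.ofReal (C * ((2 : ℝ) ^ l) ^ (-ε)) * ∫⁻ z, Gg (l : ℤ) g z ^ p ∂(nM d)) :
    ∃ C' : ℝ, 0 < C' ∧ ∀ (l : ℕ) (K0 : ℝ → ℂ), Measurable K0 → (∃ B : ℝ, ∀ r, ‖K0 r‖ ≤ B) →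
      (∀ r, r ≤ (2 : ℝ) ^ l → K0 r = 0) → (∃ N : ℝ, ∀ r, N < r → K0 r = 0) →
      ∀ A : E d → ℂ, Bd A →
      ∫⁻ x, ‖∫ y, (∫ z, η (x - y - z) * K0 ‖z‖) * A y‖ₑ ^ p ≤
        ENNReal.ofReal (C' * ((2 : ℝ) ^ l) ^ (-ε)) * (∫⁻ z : E d, ‖K0 ‖z‖‖ₑ ^ p) *
          ∫⁻ x, (Av (l : ℤ) (fun y => ‖A y‖ₑ ^ (2 : ℝ)) x) ^ (p / 2) := by
  obtain ⟨c, hc, hconv⟩ := Pool.LibTP53.conv_polar d hd
  obtain ⟨κ, hκ0, hκt, hpol⟩ := G7_polar (d := d) (by omega)
  have hp0 : 0 < p := by linarith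
  refine ⟨c ^ p * C * κ⁻¹.toReal + 1, by positivity, ?_⟩
  intro l K0 hK hKB hK1 hKN A hA
  obtain ⟨B, hB⟩ := hKB
  obtain ⟨N, hN⟩ := hKN
  obtain ⟨B', hB'⟩ := hA.bdd
  obtain ⟨N', hN'⟩ := hA.supp
  have hl1 : (1 : ℝ) ≤ (2 : ℝ) ^ l := one_le_pow₀ (by norm_num)
  have hK1' : ∀ r, r ≤ 1 → K0 r = 0 := fun r hr => hK1 r (hr.trans hl1)
  have hB0 : 0 ≤ B := le_trans (norm_nonneg _) (hB 0)
  have hB0' : 0 ≤ B' := le_trans (norm_nonneg _) (hB' 0)
  have hAd : Ad l (fun q : E d × ℝ => A q.1 * K0 q.2) := by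
    refine ⟨(hA.meas.comp measurable_fst).mul (hK.comp measurable_snd), ⟨B' * B, fun q => by
      rw [norm_mul]
      exact mul_le_mul (hB' _) (hB _) (norm_nonneg _) hB0'⟩, ?_, ?_⟩
    · refine HasCompactSupport.intro (K := closedBall (0 : E d) N' ×ˢ Icc 0 N)
        ((isCompact_closedBall _ _).prod isCompact_Icc) ?_
      intro q hq
      rw [mem_prod, not_and_or] at hq
      rcases hq with hq | hq
      · have : N' < ‖q.1‖ := by
          rw [mem_closedBall_zero_iff] at hq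
          exact lt_of_not_ge hq
        rw [hN' _ this, zero_mul]
      · rw [mem_Icc, not_and_or, not_le, not_le] at hq
        rcases hq with hq | hq
        · rw [hK1' _ (by linarith), mul_zero]
        · rw [hN _ hq, mul_zero]
    · intro y r hr
      show A y * K0 r = 0
      rw [hK1 r hr, mul_zero]
  have hleft : ∀ x, ∫ y, (∫ z, η (x - y - z) * K0 ‖z‖) * A y =
      (c : ℂ) * Vg η (fun q : E d × ℝ => A q.1 * K0 q.2) x := fun x =>
    G7_left hd η c K0 (hconv η K0 hK ⟨B, hB⟩) hK B N hB hN hK1' A hA.meas B' N' hB' hN' x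
  have h1 : ∫⁻ x, ‖∫ y, (∫ z, η (x - y - z) * K0 ‖z‖) * A y‖ₑ ^ p =
      ENNReal.ofReal (c ^ p) * ∫⁻ x, ‖Vg η (fun q : E d × ℝ => A q.1 * K0 q.2) x‖ₑ ^ p := by
    rw [← lintegral_const_mul' _ _ ENNReal.ofReal_ne_top]
    refine lintegral_congr fun x => ?_
    have h2 : ‖(c : ℂ)‖ₑ = ENNReal.ofReal c := by
      rw [← ofReal_norm, Complex.norm_real, Real.norm_of_nonneg hc.le]
    rw [hleft, enorm_mul, ENNReal.mul_rpow_of_nonneg _ _ hp0.le, h2,
      ENNReal.ofReal_rpow_of_pos hc]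
  have h3 : ∫⁻ z, Gg (l : ℤ) (fun q : E d × ℝ => A q.1 * K0 q.2) z ^ p ∂(nM d) =
      (∫⁻ x, (Av (l : ℤ) (fun y => ‖A y‖ₑ ^ (2 : ℝ)) x) ^ (p / 2)) *
        ∫⁻ r, ‖K0 r‖ₑ ^ p ∂(rM d) := by
    have h4 : ∀ z : E d × ℝ, Gg (l : ℤ) (fun q : E d × ℝ => A q.1 * K0 q.2) z ^ p =
        (Av (l : ℤ) (fun y => ‖A y‖ₑ ^ (2 : ℝ)) z.1) ^ (p / 2) * ‖K0 z.2‖ₑ ^ p :=
      fun z => G7_Gg (l : ℤ) A K0 p hp0 z
    simp only [h4]
    unfold nM
    have : SFinite (rM d) := by unfold rM; infer_instance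
    exact lintegral_prod_mul (f := fun x : E d => (Av (l : ℤ) (fun y => ‖A y‖ₑ ^ (2 : ℝ)) x) ^ (p / 2))
      (g := fun r : ℝ => ‖K0 r‖ₑ ^ p) (G7_meas (l : ℤ) A hA.meas p hp0).aemeasurable
      (hK.enorm.pow_const p).aemeasurable
  have h5 : ∫⁻ r, ‖K0 r‖ₑ ^ p ∂(rM d) ≤ κ⁻¹ * ∫⁻ z : E d, ‖K0 ‖z‖‖ₑ ^ p := by
    unfold rM
    rw [lintegral_withDensity_eq_lintegral_mul _ (by fun_prop) (hK.enorm.pow_const p),
      hpol (fun r => ‖K0 r‖ₑ ^ p) (hK.enorm.pow_const p), ← mul_assoc,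
      ENNReal.inv_mul_cancel hκ0 hκt, one_mul]
    refine le_trans (le_of_eq ?_) (lintegral_mono_set (Ioi_subset_Ioi zero_le_one))
    refine lintegral_congr fun r => ?_
    rw [Pi.mul_apply, mul_comm]
  have hX : 0 < ((2 : ℝ) ^ l) ^ (-ε) := by positivity
  calc ∫⁻ x, ‖∫ y, (∫ z, η (x - y - z) * K0 ‖z‖) * A y‖ₑ ^ p
      = ENNReal.ofReal (c ^ p) * ∫⁻ x, ‖Vg η (fun q : E d × ℝ => A q.1 * K0 q.2) x‖ₑ ^ p := h1
    _ ≤ ENNReal.ofReal (c ^ p) * (ENNReal.ofReal (C * ((2 : ℝ) ^ l) ^ (-ε)) *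
        ((∫⁻ x, (Av (l : ℤ) (fun y => ‖A y‖ₑ ^ (2 : ℝ)) x) ^ (p / 2)) *
          (κ⁻¹ * ∫⁻ z : E d, ‖K0 ‖z‖‖ₑ ^ p))) := by
        gcongr
        refine (hg l _ hAd).trans ?_
        rw [h3]
        gcongr
    _ = (ENNReal.ofReal (c ^ p) * ENNReal.ofReal (C * ((2 : ℝ) ^ l) ^ (-ε)) *
        ENNReal.ofReal κ⁻¹.toReal) * (∫⁻ z : E d, ‖K0 ‖z‖‖ₑ ^ p) *
        ∫⁻ x, (Av (l : ℤ) (fun y => ‖A y‖ₑ ^ (2 : ℝ)) x) ^ (p / 2) := by
        rw [ENNReal.ofReal_toReal (ENNReal.inv_ne_top.2 hκ0)]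
        ring
    _ ≤ _ := by
        rw [← ENNReal.ofReal_mul (by positivity), ← ENNReal.ofReal_mul (by positivity)]
        refine mul_le_mul' (mul_le_mul' (ENNReal.ofReal_le_ofReal ?_) le_rfl) le_rfl
        have h6 : c ^ p * (C * ((2 : ℝ) ^ l) ^ (-ε)) * κ⁻¹.toReal =
            (c ^ p * C * κ⁻¹.toReal) * ((2 : ℝ) ^ l) ^ (-ε) := by ring
        rw [h6]
        gcongr
        linarith

end Pool.LibRF53
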