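import Pool.Agent.LibRF53.Defs

/-
PLAN (G8). ONLY Defs. Passage to radial kernels which need not have bounded support. K radial, measurable, bounded, zero for |z| <= 2^l, int |K|^p < infinity (otherwise the right side is infinite unless
the average term is zero, and then A = 0 a.e.: Av l |A|^2 = 0 a.e. - or simply keep the hypothesis hKp). K z = K0 |z| for the measurable K0 r = K (r e) with a unit vector e (d >= 1;
r >= 0, K0 r = 0 for r < 0 or r <= 2^l). K_n = K 1_(|z| <= n): the hypothesis applies; for every x the functions int_y (int_z eta (x-y-z) K_n z) A y converge to the one for K (dominated: K bounded,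
eta integrable, A Bd), Fatou (lintegral_liminf_le) and int |K_n|^p <= int |K|^p.
-/

set_option autoImplicit false

noncomputable section

open MeasureTheory Metric Set Filter

namespace Pool.LibRF53

open Pool.LibSR53

private def G8_K {d : ℕ} (l : ℕ) (K : E d → ℂ) (n : ℕ) (z : E d) : ℂ :=
  if (2 : ℝ) ^ l < ‖z‖ ∧ ‖z‖ ≤ (n : ℝ) then K z else 0

private theorem G8_meas {d : ℕ} (l : ℕ) (K : E d → ℂ) (hK : Measurable K) (n : ℕ) :
    Measurable (G8_K l K n) := by
  unfold G8_K
  refine Measurable.ite ?_ hK measurable_const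
  exact (measurableSet_lt measurable_const measurable_norm).inter
    (measurableSet_le measurable_norm measurable_const)

private theorem G8_bound {d : ℕ} (l : ℕ) (K : E d → ℂ) (n : ℕ) (z : E d) :
    ‖G8_K l K n z‖ ≤ ‖K z‖ := by
  unfold G8_K
  split_ifs
  · exact le_rfl
  · rw [norm_zero]
    exact norm_nonneg _

private theorem G8_tend {d : ℕ} (l : ℕ) (K : E d → ℂ)
    (h0 : ∀ x : E d, ‖x‖ ≤ (2 : ℝ) ^ l → K x = 0) (z : E d) :
    Tendsto (fun n : ℕ => G8_K l K n z) atTop (nhds (K z)) := by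
  obtain ⟨N, hN⟩ := exists_nat_ge ‖z‖
  refine tendsto_const_nhds.congr' ?_
  filter_upwards [eventually_ge_atTop N] with n hn
  unfold G8_K
  have h1 : ‖z‖ ≤ (n : ℝ) := hN.trans (by exact_mod_cast hn)
  by_cases h2 : (2 : ℝ) ^ l < ‖z‖
  · rw [if_pos ⟨h2, h1⟩]
  · rw [if_neg (fun h => h2 h.1)]
    exact h0 z (not_lt.1 h2)

private theorem G8_int {d : ℕ} {A : E d → ℂ} (hA : Bd A) : Integrable A := by
  obtain ⟨B, hB⟩ := hA.bdd
  obtain ⟨R, hR⟩ := hA.supp
  have h1 : IntegrableOn A (closedBall 0 R) := by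
    refine Measure.integrableOn_of_bounded (M := B) measure_closedBall_lt_top.ne
      hA.meas.aestronglyMeasurable ?_
    exact Eventually.of_forall fun x => hB x
  refine (integrableOn_iff_integrable_of_support_subset ?_).1 h1
  intro x hx
  rw [mem_closedBall_zero_iff]
  by_contra hc
  exact hx (hR x (not_le.1 hc))

private theorem G8_inner {d : ℕ} (η : SchwartzMap (E d) ℂ) {k : E d → ℂ} (hk : Measurable k)
    {B : ℝ} (hB : ∀ z, ‖k z‖ ≤ B) (w : E d) :
    ‖∫ z, η (w - z) * k z‖ ≤ B * ∫ z, ‖η z‖ := by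
  have h1 : Integrable (fun z => ‖η (w - z)‖) := (η.integrable.comp_sub_left w).norm
  calc ‖∫ z, η (w - z) * k z‖ ≤ ∫ z, B * ‖η (w - z)‖ := by
        refine norm_integral_le_of_norm_le (h1.const_mul B) (Eventually.of_forall fun z => ?_)
        rw [norm_mul, mul_comm]
        exact mul_le_mul_of_nonneg_right (hB z) (norm_nonneg _)
    _ = B * ∫ z, ‖η z‖ := by
        rw [integral_const_mul]
        congr 1
        exact integral_sub_left_eq_self (fun z => ‖η z‖) volume w

private theorem G8_sm {d : ℕ} (η : SchwartzMap (E d) ℂ) {k : E d → ℂ} (hk : Measurable k) :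
    StronglyMeasurable (fun w : E d => ∫ z, η (w - z) * k z) := by
  refine StronglyMeasurable.integral_prod_right (f := fun w z => η (w - z) * k z) ?_
  refine Measurable.stronglyMeasurable ?_
  refine Measurable.mul ?_ (hk.comp measurable_snd)
  exact η.continuous.measurable.comp (measurable_fst.sub measurable_snd)

theorem far_limit (d : ℕ) (hd : 1 ≤ d) (η : SchwartzMap (E d) ℂ) (p : ℝ) (hp : 1 < p) (l : ℕ)
    (C : ENNReal) (A : E d → ℂ) (hA : Bd A)
    (h : ∀ (K0 : ℝ → ℂ), Measurable K0 → (∃ B : ℝ, ∀ r, ‖K0 r‖ ≤ B) →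
      (∀ r, r ≤ (2 : ℝ) ^ l → K0 r = 0) → (∃ N : ℝ, ∀ r, N < r → K0 r = 0) →
      ∫⁻ x, ‖∫ y, (∫ z, η (x - y - z) * K0 ‖z‖) * A y‖ₑ ^ p ≤
        C * (∫⁻ z : E d, ‖K0 ‖z‖‖ₑ ^ p) *
          ∫⁻ x, (Av (l : ℤ) (fun y => ‖A y‖ₑ ^ (2 : ℝ)) x) ^ (p / 2))
    (K : E d → ℂ) (hK : Measurable K) (hKb : ∃ B : ℝ, ∀ x, ‖K x‖ ≤ B)
    (hrad : ∀ x y : E d, ‖x‖ = ‖y‖ → K x = K y) (h0 : ∀ x : E d, ‖x‖ ≤ (2 : ℝ) ^ l → K x = 0) :
    ∫⁻ x, ‖∫ y, (∫ z, η (x - y - z) * K z) * A y‖ₑ ^ p ≤
      C * (∫⁻ z : E d, ‖K z‖ₑ ^ p) *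
        ∫⁻ x, (Av (l : ℤ) (fun y => ‖A y‖ₑ ^ (2 : ℝ)) x) ^ (p / 2) := by
  obtain ⟨B, hB⟩ := hKb
  have hp0 : 0 ≤ p := by linarith
  have hB0 : 0 ≤ B := (norm_nonneg _).trans (hB 0)
  obtain ⟨e, he⟩ : ∃ e : E d, ‖e‖ = 1 :=
    ⟨EuclideanSpace.single ⟨0, hd⟩ 1, by rw [EuclideanSpace.norm_single, norm_one]⟩
  have key : ∀ n : ℕ, ∫⁻ x, ‖∫ y, (∫ z, η (x - y - z) * G8_K l K n z) * A y‖ₑ ^ p ≤
      C * (∫⁻ z : E d, ‖K z‖ₑ ^ p) *
        ∫⁻ x, (Av (l : ℤ) (fun y => ‖A y‖ₑ ^ (2 : ℝ)) x) ^ (p / 2) := by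
    intro n
    have h1 := h (fun r => if (2 : ℝ) ^ l < r ∧ r ≤ (n : ℝ) then K (r • e) else 0)
      (by
        refine Measurable.ite ?_ (hK.comp (measurable_id.smul_const e)) measurable_const
        exact (measurableSet_lt measurable_const measurable_id).inter
          (measurableSet_le measurable_id measurable_const))
      ⟨B, fun r => by
        split_ifs
        · exact hB _
        · rw [norm_zero]
          exact hB0⟩
      (fun r hr => if_neg fun hc => absurd hc.1 (not_lt.2 hr))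
      ⟨n, fun r hr => if_neg fun hc => absurd hc.2 (not_le.2 hr)⟩
    have h2 : ∀ z : E d, (if (2 : ℝ) ^ l < ‖z‖ ∧ ‖z‖ ≤ (n : ℝ) then K (‖z‖ • e) else 0) =
        G8_K l K n z := by
      intro z
      unfold G8_K
      split_ifs
      · exact hrad _ _ (by rw [norm_smul, he, mul_one, norm_norm])
      · rfl
    simp only [h2] at h1
    refine h1.trans (mul_le_mul' (mul_le_mul' le_rfl (lintegral_mono fun z => ?_)) le_rfl)
    refine ENNReal.rpow_le_rpow ?_ hp0
    exact enorm_le_iff_norm_le.2 (G8_bound l K n z)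
  have hAi := G8_int hA
  have hmeas : ∀ n : ℕ, Measurable (fun x : E d =>
      ‖∫ y, (∫ z, η (x - y - z) * G8_K l K n z) * A y‖ₑ ^ p) := by
    intro n
    have h1 : StronglyMeasurable (fun x : E d =>
        ∫ y, (∫ z, η (x - y - z) * G8_K l K n z) * A y) := by
      refine StronglyMeasurable.integral_prod_right
        (f := fun x y => (∫ z, η (x - y - z) * G8_K l K n z) * A y) ?_
      refine StronglyMeasurable.mul ?_ (hA.meas.comp measurable_snd).stronglyMeasurable
      exact (G8_sm η (G8_meas l K hK n)).comp_measurable (measurable_fst.sub measurable_snd)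
    exact (h1.measurable.enorm).pow_const p
  have htend : ∀ x : E d, Tendsto (fun n : ℕ =>
      ‖∫ y, (∫ z, η (x - y - z) * G8_K l K n z) * A y‖ₑ ^ p) atTop
      (nhds (‖∫ y, (∫ z, η (x - y - z) * K z) * A y‖ₑ ^ p)) := by
    intro x
    have hin : ∀ w : E d, Tendsto (fun n : ℕ => ∫ z, η (w - z) * G8_K l K n z) atTop
        (nhds (∫ z, η (w - z) * K z)) := by
      intro w
      have h1 : Integrable (fun z => B * ‖η (w - z)‖) :=
        ((η.integrable.comp_sub_left w).norm).const_mul B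
      refine tendsto_integral_of_dominated_convergence _ ?_ h1 ?_ ?_
      · intro n
        refine AEStronglyMeasurable.mul ?_ (G8_meas l K hK n).aestronglyMeasurable
        exact (η.continuous.comp (continuous_const.sub continuous_id)).aestronglyMeasurable
      · intro n
        refine Eventually.of_forall fun z => ?_
        rw [norm_mul, mul_comm]
        exact mul_le_mul_of_nonneg_right ((G8_bound l K n z).trans (hB z)) (norm_nonneg _)
      · refine Eventually.of_forall fun z => ?_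
        exact (G8_tend l K h0 z).const_mul _
    have hout : Tendsto (fun n : ℕ => ∫ y, (∫ z, η (x - y - z) * G8_K l K n z) * A y) atTop
        (nhds (∫ y, (∫ z, η (x - y - z) * K z) * A y)) := by
      have h1 : Integrable (fun y => (B * ∫ z, ‖η z‖) * ‖A y‖) := hAi.norm.const_mul _
      refine tendsto_integral_of_dominated_convergence _ ?_ h1 ?_ ?_
      · intro n
        refine AEStronglyMeasurable.mul ?_ hA.meas.aestronglyMeasurable
        exact ((G8_sm η (G8_meas l K hK n)).comp_measurable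
          (measurable_const.sub measurable_id)).aestronglyMeasurable
      · intro n
        refine Eventually.of_forall fun y => ?_
        rw [norm_mul]
        exact mul_le_mul_of_nonneg_right (G8_inner η (G8_meas l K hK n)
          (fun z => (G8_bound l K n z).trans (hB z)) (x - y)) (norm_nonneg _)
      · refine Eventually.of_forall fun y => ?_
        exact (hin (x - y)).mul_const _
    exact ((ENNReal.continuous_rpow_const.comp continuous_enorm).tendsto _).comp hout
  calc ∫⁻ x, ‖∫ y, (∫ z, η (x - y - z) * K z) * A y‖ₑ ^ p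
      = ∫⁻ x, liminf (fun n : ℕ =>
          ‖∫ y, (∫ z, η (x - y - z) * G8_K l K n z) * A y‖ₑ ^ p) atTop :=
        lintegral_congr fun x => (htend x).liminf_eq.symm
    _ ≤ liminf (fun n : ℕ => ∫⁻ x,
          ‖∫ y, (∫ z, η (x - y - z) * G8_K l K n z) * A y‖ₑ ^ p) atTop :=
        lintegral_liminf_le hmeas
    _ ≤ C * (∫⁻ z : E d, ‖K z‖ₑ ^ p) *
          ∫⁻ x, (Av (l : ℤ) (fun y => ‖A y‖ₑ ^ (2 : ℝ)) x) ^ (p / 2) := by
        refine (liminf_le_liminf (Eventually.of_forall key)).trans ?_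
        exact liminf_const _ |>.le

end Pool.LibRF53
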