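import Pool.Agent.LibRF53.G6
import Pool.Agent.LibRF53.G7
import Pool.Agent.LibRF53.G8
import Pool.Agent.LibRF53.G10

/-
PLAN (G11). Assembly of the far part: for all k and all l : N, with j = l - k. (1) gain for eta = psi2 (Van psi2 (1/8): ft2, supp2), (2) far_compact, (3) far_limit for the kernel
K = fk c (m (2^k .)) l 0 (radial: Kk_facts, radchi; zero for |z| <= 2^l: chione with chi (2^-l z), 2^0 = 1; |K| <= |Kk|, so int |K|^p <= N^p by HN; zpow and natural powers of 2 agree: simp),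
(4) dual_cubes, (5) far_scale. The exponent: C' (2^l)^(-eps) to the power q/p.
-/

set_option autoImplicit false

noncomputable section

open MeasureTheory Metric Set Filter

namespace Pool.LibRF53

open Pool.LibSR53

private lemma g11_van {d : ℕ} (c : Cut d) : Van c.ψ2 (1 / 8) := by
  intro ξ hξ
  have h1 : c.φ2 ξ = 0 := by
    by_contra h
    have := (c.supp2 ξ h).1
    linarith
  rw [← h1, ← c.ft2 ξ]
  refine integral_congr_ae (Eventually.of_forall fun x => ?_)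
  show _ = ex (-x) ξ * c.ψ2 x
  unfold ex
  rw [inner_neg_left]
  push_cast
  congr 2
  ring

private lemma g11_chi {d : ℕ} (c : Cut d) (x : E d) : ‖1 - c.χ x‖ ≤ 1 := by
  obtain ⟨t, h0, h1, h2⟩ := c.posχ x
  rw [h2, ← Complex.ofReal_one, ← Complex.ofReal_sub, Complex.norm_real, Real.norm_eq_abs, abs_le]
  constructor <;> linarith

private lemma g11_dl {d : ℕ} (ψ : E d → ℂ) : dl ψ 0 = ψ := by
  funext x
  unfold dl
  simp

theorem far_part (d : ℕ) (hd : 2 ≤ d) (c : Cut d) (p q s : ℝ) (hpq : p.HolderConjugate q)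
    (hq : 2 < q) (hps : p < s)
    (he : ∃ C : ℝ, 0 < C ∧ ∀ (l : ℕ) (g : E d × ℝ → ℂ), Ad l g →
      ∫⁻ x, ‖Vg c.ψ2 g x‖ₑ ^ s ≤ ENNReal.ofReal C * ∫⁻ z, Gg (l : ℤ) g z ^ s ∂(nM d)) :
    ∃ C ε : ℝ, 0 < C ∧ 0 < ε ∧ ∀ m : E d → ℂ, Mr m → ∀ N : ℝ, 0 ≤ N → HN c m p N →
      ∀ (k : ℤ) (l : ℕ) (f : E d → ℂ), Bi f → (∀ x, cv (dl c.ψ2 k) f x = f x) →
      ∫⁻ x, (Av ((l : ℤ) - k)
        (fun y => ‖cv (fk c m ((l : ℤ) - k) k) f y‖ₑ ^ (2 : ℝ)) x) ^ (q / 2) ≤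
        ENNReal.ofReal (C * ((2 : ℝ) ^ l) ^ (-ε)) * ENNReal.ofReal N ^ q * ∫⁻ x, ‖f x‖ₑ ^ q := by
  have hp : 1 < p := hpq.lt
  have hp0 : 0 < p := by linarith
  have hq0 : 0 < q := by linarith
  obtain ⟨C1, ε, hC1, hε, hg⟩ := gain d hd c.ψ2 ⟨1 / 8, by norm_num, g11_van c⟩ p s hp hps he
  obtain ⟨C2, hC2, hfc⟩ := far_compact d hd c.ψ2 p hp C1 ε hC1 hε hg
  refine ⟨C2 ^ (q / p), ε * (q / p), Real.rpow_pos_of_pos hC2 _, by positivity, ?_⟩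
  intro m hm N hN hHN k l f hf hfψ
  have h2l : (0 : ℝ) < (2 : ℝ) ^ l := by positivity
  have hm0 : Mr (fun ξ : E d => m ((2 : ℝ) ^ k • ξ)) := by
    refine ⟨hm.meas.comp (measurable_const_smul _), ?_, ?_⟩
    · obtain ⟨B, hB⟩ := hm.bdd
      exact ⟨B, fun ξ => hB _⟩
    · intro ξ ξ' h
      refine hm.rad _ _ ?_
      rw [norm_smul, norm_smul, h]
  obtain ⟨m0, hm0e⟩ : ∃ m0 : E d → ℂ, m0 = fun ξ : E d => m ((2 : ℝ) ^ k • ξ) := ⟨_, rfl⟩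
  rw [← hm0e] at hm0
  obtain ⟨hKc, ⟨B, hB⟩, hKr, -⟩ := Kk_facts c m0 hm0 0
  obtain ⟨K, hKe⟩ : ∃ K : E d → ℂ, K = fk c m0 (l : ℤ) 0 := ⟨_, rfl⟩
  have hKx : ∀ x, K x = Kk c.φ0 m0 0 x * (1 - c.χ (((2 : ℝ) ^ l)⁻¹ • x)) := by
    intro x
    rw [hKe]
    unfold fk
    rw [zpow_natCast]
  have hKle : ∀ x, ‖K x‖ ≤ ‖Kk c.φ0 m0 0 x‖ := by
    intro x
    rw [hKx, norm_mul]
    exact mul_le_of_le_one_right (norm_nonneg _) (g11_chi c _)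
  have hKm : Measurable K := by
    have e : K = fun x => Kk c.φ0 m0 0 x * (1 - c.χ (((2 : ℝ) ^ l)⁻¹ • x)) := funext hKx
    rw [e]
    refine (hKc.mul (continuous_const.sub (c.χ.continuous.comp ?_))).measurable
    exact continuous_const_smul _
  have hKb : ∃ B : ℝ, ∀ x, ‖K x‖ ≤ B := ⟨B, fun x => (hKle x).trans (hB x)⟩
  have hrad : ∀ x y : E d, ‖x‖ = ‖y‖ → K x = K y := by
    intro x y h
    rw [hKx, hKx, hKr x y h, c.radχ (((2 : ℝ) ^ l)⁻¹ • x) (((2 : ℝ) ^ l)⁻¹ • y)]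
    rw [norm_smul, norm_smul, h]
  have hK0 : ∀ x : E d, ‖x‖ ≤ (2 : ℝ) ^ l → K x = 0 := by
    intro x h
    rw [hKx, c.χone, sub_self, mul_zero]
    rw [norm_smul, norm_inv, Real.norm_eq_abs, abs_of_pos h2l, inv_mul_le_one₀ h2l]
    exact h
  have hlim : ∀ A : E d → ℂ, Bd A →
      ∫⁻ x, ‖∫ y, (∫ z, c.ψ2 (x - y - z) * K z) * A y‖ₑ ^ p ≤
        ENNReal.ofReal (C2 * ((2 : ℝ) ^ l) ^ (-ε)) * (∫⁻ z : E d, ‖K z‖ₑ ^ p) *
          ∫⁻ x, (Av (l : ℤ) (fun y => ‖A y‖ₑ ^ (2 : ℝ)) x) ^ (p / 2) := by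
    intro A hA
    exact far_limit d (by omega) c.ψ2 p hp l _ A hA
      (fun K0 h1 h2 h3 h4 => hfc l K0 h1 h2 h3 h4 A hA) K hKm hKb hrad hK0
  have hKN : ∫⁻ x, ‖K x‖ₑ ^ p ≤ ENNReal.ofReal N ^ p := by
    refine le_trans (lintegral_mono fun x => ?_) (hHN k)
    rw [← hm0e]
    exact ENNReal.rpow_le_rpow (enorm_le_iff_norm_le.mpr (hKle x)) hp0.le
  have hKp : ∫⁻ x, ‖K x‖ₑ ^ p ≠ ⊤ :=
    ne_top_of_le_ne_top (ENNReal.rpow_ne_top_of_nonneg hp0.le ENNReal.ofReal_ne_top) hKN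
  have hc0 : 0 < C2 * ((2 : ℝ) ^ l) ^ (-ε) := mul_pos hC2 (Real.rpow_pos_of_pos h2l _)
  have hmain := far_scale c m k ((l : ℤ) - k) q hq0
    (ENNReal.ofReal (C2 ^ (q / p) * ((2 : ℝ) ^ l) ^ (-(ε * (q / p)))) * ENNReal.ofReal N ^ q) ?_ f hf
    hfψ
  · exact hmain
  · intro f0 hf0 hf0ψ
    rw [sub_add_cancel, ← hm0e, ← hKe]
    have hf0' : ∀ x, cv c.ψ2 f0 x = f0 x := by
      intro x
      have := hf0ψ x
      rwa [g11_dl] at this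
    refine (dual_cubes d c.ψ2 c.rad2 p q hpq hq.le (l : ℤ) _ hc0 K hKm hKb hrad hKp hlim f0 hf0
      hf0').trans ?_
    refine mul_le_mul_left (mul_le_mul' (le_of_eq ?_) ?_) _
    · congr 1
      rw [Real.mul_rpow hC2.le (Real.rpow_nonneg h2l.le _), ← Real.rpow_mul h2l.le]
      congr 2
      ring
    · refine (ENNReal.rpow_le_rpow hKN (by positivity)).trans (le_of_eq ?_)
      rw [← ENNReal.rpow_mul]
      congr 1
      field_simp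

end Pool.LibRF53
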