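import Pool.Agent.LibRF53.G1
import Pool.Agent.LibRF53.A2

/-
PLAN (G2). L1 bound for one radius and one cube. Let x0 in Q l a, s = sqrt d, D = max s 1, R = the set of x with | |x - x0| - r | <= 2 D 2^l. On R: Cauchy-Schwarz, volume R <= C r^(d-1) 2^l
(r >= 2^l; volume of an annulus, contained in a difference of balls: r1^d - r0^d <= d r1^(d-1) (r1 - r0)) and fix_L2: int_R <= (C r^(d-1) 2^l)^(1/2) (C r^(d-1))^(1/2) |A|_2 =
C r^(d-1) 2^(l/2) |A|_2. Outside R: |Fk eta z r x| <= int |eta (x - zeta - z)| dsg, for z in Q l a and |zeta| = r: |x - zeta - z| >= | |x - z| - r | >= D 2^l >= 2^l, so int over x outside R of |Fk| <=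
sg(univ) * int_(|w| >= 2^l) |eta w| dw <= C r^(d-1) 2^(-l d) (eta Schwartz, sg_mass in LibSR53.S5), total <= C r^(d-1) 2^(-ld) |A|_1 <= C r^(d-1) 2^(-ld/2) |A|_2. And int (Av l |A|^2)^(1/2) =
vl^(1/2) |A|_2 = 2^(ld/2) |A|_2 (Av l |A|^2 vanishes outside Q l a and is (vl)^-1 |A|_2^2 on it). So both parts are <= C 2^(-l(d-1)/2) r^(d-1) int (Av l |A|^2)^(1/2). G2b: general A: A = sum over
a of A 1_(Q l a), finitely many nonzero (bounded support); triangle inequality; the integrals of (Av l)^(1/2) add up (lint_cubes).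
-/

set_option autoImplicit false

noncomputable section

open MeasureTheory Metric Set Filter

namespace Pool.LibRF53

open Pool.LibSR53

private theorem G2_pow (x y : ℝ) (hy : 0 ≤ y) (hxy : y ≤ x) (n : ℕ) :
    x ^ (n + 1) - y ^ (n + 1) ≤ (n + 1) * x ^ n * (x - y) := by
  induction n with
  | zero => simp
  | succ n ih =>
    have hx : 0 ≤ x := hy.trans hxy
    have h1 : x ^ (n + 1 + 1) - y ^ (n + 1 + 1) = x * (x ^ (n + 1) - y ^ (n + 1)) + y ^ (n + 1) * (x - y) := by ring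
    have h2 := mul_le_mul_of_nonneg_left ih hx
    have h3 : y ^ (n + 1) ≤ x ^ (n + 1) := pow_le_pow_left₀ hy hxy _
    have h4 := mul_le_mul_of_nonneg_right h3 (by linarith : 0 ≤ x - y)
    rw [h1]
    push_cast
    have h5 : x * ((n + 1) * x ^ n * (x - y)) = (n + 1) * x ^ (n + 1) * (x - y) := by ring
    linarith

private theorem G2_ann (d : ℕ) (hd : 2 ≤ d) (K : ℝ) (hK : 0 < K) : ∃ C : ℝ, 0 < C ∧
    ∀ (x0 : E d) (r t : ℝ), 0 < r → 0 ≤ t → t ≤ K * r →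
      volume {x : E d | |‖x - x0‖ - r| ≤ t} ≤ ENNReal.ofReal (C * r ^ (d - 1) * t) := by
  obtain ⟨n, rfl⟩ : ∃ n, d = n + 1 := ⟨d - 1, by omega⟩
  obtain ⟨ω, hω⟩ : ∃ ω : ℝ, ω = (volume (ball (0 : E (n + 1)) 1)).toReal := ⟨_, rfl⟩
  have hω0 : 0 ≤ ω := by rw [hω]; exact ENNReal.toReal_nonneg
  have hωe : volume (ball (0 : E (n + 1)) 1) = ENNReal.ofReal ω := by
    rw [hω, ENNReal.ofReal_toReal measure_ball_lt_top.ne]
  refine ⟨2 * (n + 1) * (1 + K) ^ n * ω + 1, by positivity, ?_⟩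
  intro x0 r t hr ht htK
  obtain ⟨r0, hr0⟩ : ∃ r0 : ℝ, r0 = max (r - t) 0 := ⟨_, rfl⟩
  have h00 : 0 ≤ r0 := by rw [hr0]; exact le_max_right _ _
  have h01 : r - t ≤ r0 := by rw [hr0]; exact le_max_left _ _
  have h02 : r0 ≤ r + t := by rw [hr0]; exact max_le (by linarith) (by linarith)
  have hsub : {x : E (n + 1) | |‖x - x0‖ - r| ≤ t} ⊆ closedBall x0 (r + t) \ ball x0 r0 := by
    intro x hx
    have hx' : |‖x - x0‖ - r| ≤ t := hx
    rw [abs_le] at hx'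
    refine ⟨?_, ?_⟩
    · rw [mem_closedBall, dist_eq_norm]; linarith
    · rw [mem_ball, dist_eq_norm, not_lt, hr0]
      exact max_le (by linarith) (norm_nonneg _)
  have hc : volume (closedBall x0 (r + t)) = ENNReal.ofReal ((r + t) ^ (n + 1) * ω) := by
    rw [Measure.addHaar_closedBall volume x0 (by linarith), finrank_euclideanSpace_fin, hωe,
      ← ENNReal.ofReal_mul (by positivity)]
  have hb : volume (ball x0 r0) = ENNReal.ofReal (r0 ^ (n + 1) * ω) := by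
    rcases h00.eq_or_lt with h | h
    · rw [← h, ball_zero, measure_empty, zero_pow (by omega), zero_mul, ENNReal.ofReal_zero]
    · rw [Measure.addHaar_ball_of_pos volume x0 h, finrank_euclideanSpace_fin, hωe,
        ← ENNReal.ofReal_mul (by positivity)]
  have hbc : ball x0 r0 ⊆ closedBall x0 (r + t) := (ball_subset_ball h02).trans ball_subset_closedBall
  refine (measure_mono hsub).trans ?_
  rw [measure_sdiff hbc measurableSet_ball.nullMeasurableSet measure_ball_lt_top.ne, hc, hb,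
    ← ENNReal.ofReal_sub _ (by positivity)]
  refine ENNReal.ofReal_le_ofReal ?_
  have h1 := G2_pow (r + t) r0 h00 h02 n
  have h2 : (r + t) ^ n ≤ ((1 + K) * r) ^ n := pow_le_pow_left₀ (by linarith) (by linarith) n
  have h3 : ((n : ℝ) + 1) * (r + t) ^ n * (r + t - r0) ≤ (n + 1) * ((1 + K) * r) ^ n * (2 * t) := by
    apply mul_le_mul _ (by linarith) (by linarith) (by positivity)
    exact mul_le_mul_of_nonneg_left h2 (by positivity)
  have h4 := mul_le_mul_of_nonneg_right (h1.trans h3) hω0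
  have h5 : ((n : ℝ) + 1) * ((1 + K) * r) ^ n * (2 * t) * ω = 2 * (n + 1) * (1 + K) ^ n * ω * r ^ n * t := by
    rw [mul_pow]; ring
  rw [h5] at h4
  have h6 : (n + 1 - 1) = n := by omega
  rw [h6]
  have h7 : 0 ≤ r ^ n * t := by positivity
  have h8 : (2 * (n + 1) * (1 + K) ^ n * ω + 1) * r ^ n * t = 2 * (n + 1) * (1 + K) ^ n * ω * r ^ n * t + r ^ n * t := by
    ring
  rw [h8]
  linarith

private theorem G2_joint {d : ℕ} (hd : 2 ≤ d) (η : SchwartzMap (E d) ℂ) (r : ℝ) (hr : 0 < r) :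
    Continuous (fun p : E d × E d => Fk η p.2 r p.1) := by
  have h1 : Continuous (fun p : E d × E d => (((p.2, r), p.1) : P d × E d)) := by fun_prop
  exact (Fk_joint hd η).comp_continuous h1 (fun _ => hr)

private theorem G2_meas {d : ℕ} (hd : 2 ≤ d) (η : SchwartzMap (E d) ℂ) (r : ℝ) (hr : 0 < r) (A : E d → ℂ)
    (hA : Measurable A) : Measurable (fun x : E d => ‖∫ z, Fk η z r x * A z‖ₑ) := by
  have h1 : StronglyMeasurable (Function.uncurry (fun x z : E d => Fk η z r x * A z)) :=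
    (G2_joint hd η r hr).stronglyMeasurable.mul (hA.comp measurable_snd).stronglyMeasurable
  exact (h1.integral_prod_right (ν := (volume : Measure (E d)))).measurable.enorm

private theorem G2_CS {d : ℕ} (S : Set (E d)) (f : E d → ENNReal) (hf : Measurable f) :
    ∫⁻ x in S, f x ≤ (∫⁻ x in S, f x ^ (2 : ℝ)) ^ (1 / 2 : ℝ) * (volume S) ^ (1 / 2 : ℝ) := by
  have h := ENNReal.lintegral_mul_le_Lp_mul_Lq (volume.restrict S) Real.HolderConjugate.two_two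
    hf.aemeasurable (aemeasurable_const (b := (1 : ENNReal)))
  simp only [Pi.mul_apply, mul_one, ENNReal.one_rpow, lintegral_const, Measure.restrict_apply MeasurableSet.univ,
    univ_inter, one_mul] at h
  exact h

/-- the main estimate for a function supported in one cube, in terms of its L2 norm -/
private theorem G2_core (d : ℕ) (hd : 2 ≤ d) (η : SchwartzMap (E d) ℂ) (hη : ∃ ε : ℝ, 0 < ε ∧ Van η ε) :
    ∃ C : ℝ, 0 < C ∧ ∀ (l : ℕ) (r : ℝ) (A : E d → ℂ) (a : Fin d → ℤ), (2 : ℝ) ^ l ≤ r → Bd A →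
    (∀ x, A x ≠ 0 → x ∈ Q (l : ℤ) a) →
    ∫⁻ x, ‖∫ z, Fk η z r x * A z‖ₑ ≤
      ENNReal.ofReal (C * ((2 : ℝ) ^ l) ^ (-(((d : ℝ) - 1) / 2)) * r ^ (d - 1)) *
        (vl d (l : ℤ) ^ (1 / 2 : ℝ) * (∫⁻ x, ‖A x‖ₑ ^ (2 : ℝ)) ^ (1 / 2 : ℝ)) := by
  obtain ⟨C2, hC2, HL2⟩ := fix_L2 d hd η hη
  obtain ⟨C3, hC3, Htail⟩ := Fk_tail hd η d
  obtain ⟨D, hD⟩ : ∃ D : ℝ, D = max (Real.sqrt d) 1 := ⟨_, rfl⟩
  have hD1 : 1 ≤ D := by rw [hD]; exact le_max_right _ _
  have hDs : Real.sqrt d ≤ D := by rw [hD]; exact le_max_left _ _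
  obtain ⟨C1, hC1, Hann⟩ := G2_ann d hd (2 * D) (by linarith)
  refine ⟨Real.sqrt (C2 * (C1 * (2 * D))) + C3, by positivity, ?_⟩
  intro l r A a hlr hA hAQ
  obtain ⟨b, hb⟩ : ∃ b : ℝ, b = (2 : ℝ) ^ l := ⟨_, rfl⟩
  rw [← hb] at hlr ⊢
  have hb1 : 1 ≤ b := by rw [hb]; exact one_le_pow₀ (by norm_num)
  have hb0 : 0 < b := by linarith
  have hr0 : 0 < r := by linarith
  have hbz : (2 : ℝ) ^ (l : ℤ) = b := by rw [hb, zpow_natCast]
  obtain ⟨x0, hx0⟩ := Q_nonempty (d := d) (l : ℤ) a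
  have hu := G2_meas hd η r hr0 A hA.meas
  obtain ⟨u, hudef⟩ : ∃ u : E d → ENNReal, u = fun x : E d => ‖∫ z, Fk η z r x * A z‖ₑ := ⟨_, rfl⟩
  rw [← hudef] at hu ⊢
  obtain ⟨N2, hN2⟩ : ∃ N2 : ENNReal, N2 = ∫⁻ x, ‖A x‖ₑ ^ (2 : ℝ) := ⟨_, rfl⟩
  rw [← hN2]
  obtain ⟨R, hR⟩ : ∃ R : Set (E d), R = {x : E d | |‖x - x0‖ - r| ≤ 2 * D * b} := ⟨_, rfl⟩
  have hRm : MeasurableSet R := by
    rw [hR]
    refine IsClosed.measurableSet (isClosed_le ?_ continuous_const)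
    fun_prop
  -- on the annulus
  have hvolR : volume R ≤ ENNReal.ofReal (C1 * r ^ (d - 1) * (2 * D * b)) := by
    rw [hR]
    refine Hann x0 r (2 * D * b) hr0 (by positivity) ?_
    exact mul_le_mul_of_nonneg_left hlr (by positivity)
  have hpart1 : ∫⁻ x in R, u x ≤
      (ENNReal.ofReal (C2 * r ^ (d - 1)) * N2) ^ (1 / 2 : ℝ) *
        (ENNReal.ofReal (C1 * r ^ (d - 1) * (2 * D * b))) ^ (1 / 2 : ℝ) := by
    refine (G2_CS R u hu).trans ?_
    refine mul_le_mul' (ENNReal.rpow_le_rpow ?_ (by norm_num)) (ENNReal.rpow_le_rpow hvolR (by norm_num))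
    refine (setLIntegral_le_lintegral _ _).trans ?_
    rw [hudef, hN2]
    exact HL2 r A hr0 hA
  -- outside the annulus
  have hmeas2 : Measurable (Function.uncurry (fun x z : E d => ‖Fk η z r x‖ₑ * ‖A z‖ₑ)) :=
    (G2_joint hd η r hr0).measurable.enorm.mul (hA.meas.comp measurable_snd).enorm
  have hpart2 : ∫⁻ x in Rᶜ, u x ≤ ENNReal.ofReal (C3 * r ^ (d - 1) / b ^ d) *
      (N2 ^ (1 / 2 : ℝ) * vl d (l : ℤ) ^ (1 / 2 : ℝ)) := by
    calc ∫⁻ x in Rᶜ, u x ≤ ∫⁻ x in Rᶜ, ∫⁻ z, ‖Fk η z r x‖ₑ * ‖A z‖ₑ := by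
          refine lintegral_mono fun x => ?_
          rw [hudef]
          refine (enorm_integral_le_lintegral_enorm _).trans ?_
          refine lintegral_mono fun z => ?_
          rw [enorm_mul]
      _ = ∫⁻ z, ∫⁻ x in Rᶜ, ‖Fk η z r x‖ₑ * ‖A z‖ₑ := lintegral_lintegral_swap hmeas2.aemeasurable
      _ ≤ ∫⁻ z, ENNReal.ofReal (C3 * r ^ (d - 1) / b ^ d) * ‖A z‖ₑ := by
          refine lintegral_mono fun z => ?_
          show ∫⁻ x in Rᶜ, ‖Fk η z r x‖ₑ * ‖A z‖ₑ ≤ ENNReal.ofReal (C3 * r ^ (d - 1) / b ^ d) * ‖A z‖ₑ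
          rw [lintegral_mul_const'' _ (Fk_continuous hd η z r hr0).measurable.enorm.aemeasurable]
          by_cases hAz : A z = 0
          · rw [hAz, enorm_zero, mul_zero, mul_zero]
          · refine mul_le_mul_left ?_ _
            have hzQ := hAQ z hAz
            have hdist := Q_dist hx0 hzQ
            rw [hbz] at hdist
            refine le_trans ?_ (Htail z r b hr0 hb1)
            refine lintegral_mono_set ?_
            intro x hx
            rw [hR] at hx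
            have hx' : ¬ |‖x - x0‖ - r| ≤ 2 * D * b := hx
            rw [not_le] at hx'
            show b < |‖x - z‖ - r|
            have h1 : |‖x - x0‖ - ‖x - z‖| ≤ D * b := by
              refine (abs_norm_sub_norm_le _ _).trans ?_
              have e : x - x0 - (x - z) = z - x0 := by abel
              rw [e, ← dist_eq_norm, dist_comm]
              exact hdist.trans (mul_le_mul_of_nonneg_right hDs hb0.le)
            have h2 : |‖x - x0‖ - r| ≤ |‖x - x0‖ - ‖x - z‖| + |‖x - z‖ - r| := abs_sub_le _ _ _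
            have h3 : b ≤ D * b := by nlinarith
            linarith
      _ = ENNReal.ofReal (C3 * r ^ (d - 1) / b ^ d) * ∫⁻ z, ‖A z‖ₑ := lintegral_const_mul _ hA.meas.enorm
      _ ≤ ENNReal.ofReal (C3 * r ^ (d - 1) / b ^ d) * (N2 ^ (1 / 2 : ℝ) * vl d (l : ℤ) ^ (1 / 2 : ℝ)) := by
          refine mul_le_mul_right ?_ _
          have h1 : ∫⁻ z, ‖A z‖ₑ = ∫⁻ z in Q (l : ℤ) a, ‖A z‖ₑ := by
            rw [← lintegral_indicator (Q_meas _ _)]
            refine lintegral_congr fun z => ?_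
            by_cases hz : z ∈ Q (l : ℤ) a
            · rw [indicator_of_mem hz]
            · rw [indicator_of_notMem hz]
              by_contra hne
              exact hz (hAQ z (fun h0 => hne (by rw [h0, enorm_zero])))
          rw [h1]
          refine (G2_CS (Q (l : ℤ) a) (fun z => ‖A z‖ₑ) hA.meas.enorm).trans ?_
          rw [Q_vol, hN2]
          refine mul_le_mul_left ?_ _
          exact ENNReal.rpow_le_rpow (setLIntegral_le_lintegral _ _) (by norm_num)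
  -- combination
  rw [← lintegral_add_compl u hRm]
  refine (add_le_add hpart1 hpart2).trans ?_
  have hvl : vl d (l : ℤ) ^ (1 / 2 : ℝ) = ENNReal.ofReal (b ^ ((d : ℝ) / 2)) := by
    unfold vl
    rw [hbz, ENNReal.ofReal_rpow_of_nonneg (by positivity) (by norm_num), ← Real.rpow_natCast, ← Real.rpow_mul hb0.le]
    congr 2
    ring
  obtain ⟨M, hM⟩ : ∃ M : ENNReal, M = N2 ^ (1 / 2 : ℝ) := ⟨_, rfl⟩
  have h1 : (ENNReal.ofReal (C2 * r ^ (d - 1)) * N2) ^ (1 / 2 : ℝ) *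
      (ENNReal.ofReal (C1 * r ^ (d - 1) * (2 * D * b))) ^ (1 / 2 : ℝ) =
      ENNReal.ofReal (Real.sqrt (C2 * (C1 * (2 * D))) * r ^ (d - 1) * b ^ (1 / 2 : ℝ)) * M := by
    rw [ENNReal.mul_rpow_of_nonneg _ _ (by norm_num), ← hM, ENNReal.ofReal_rpow_of_nonneg (by positivity) (by norm_num),
      ENNReal.ofReal_rpow_of_nonneg (by positivity) (by norm_num), mul_right_comm, ← ENNReal.ofReal_mul (by positivity)]
    congr 2
    rw [← Real.mul_rpow (by positivity) (by positivity)]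
    have e : C2 * r ^ (d - 1) * (C1 * r ^ (d - 1) * (2 * D * b)) = (C2 * (C1 * (2 * D))) * (r ^ (d - 1)) ^ 2 * b := by
      ring
    rw [e, Real.mul_rpow (by positivity) hb0.le, Real.mul_rpow (by positivity) (by positivity), Real.sqrt_eq_rpow]
    congr 2
    rw [← Real.sqrt_eq_rpow, Real.sqrt_sq (by positivity)]
  rw [h1, hvl, ← hM]
  have h2 : ENNReal.ofReal (C3 * r ^ (d - 1) / b ^ d) * (M * ENNReal.ofReal (b ^ ((d : ℝ) / 2))) =
      ENNReal.ofReal (C3 * r ^ (d - 1) / b ^ d * b ^ ((d : ℝ) / 2)) * M := by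
    rw [ENNReal.ofReal_mul (by positivity)]
    ring
  have h3 : ENNReal.ofReal ((Real.sqrt (C2 * (C1 * (2 * D))) + C3) * b ^ (-(((d : ℝ) - 1) / 2)) * r ^ (d - 1)) *
      (ENNReal.ofReal (b ^ ((d : ℝ) / 2)) * M) =
      ENNReal.ofReal ((Real.sqrt (C2 * (C1 * (2 * D))) + C3) * b ^ (-(((d : ℝ) - 1) / 2)) * r ^ (d - 1) * b ^ ((d : ℝ) / 2)) * M := by
    rw [ENNReal.ofReal_mul (p := (Real.sqrt (C2 * (C1 * (2 * D))) + C3) * b ^ (-(((d : ℝ) - 1) / 2)) * r ^ (d - 1)) (by positivity)]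
    ring
  rw [h2, h3, ← add_mul]
  refine mul_le_mul_left ?_ _
  rw [← ENNReal.ofReal_add (by positivity) (by positivity)]
  refine ENNReal.ofReal_le_ofReal ?_
  have h4 : b ^ (-(((d : ℝ) - 1) / 2)) * b ^ ((d : ℝ) / 2) = b ^ (1 / 2 : ℝ) := by
    rw [← Real.rpow_add hb0]
    congr 1
    ring
  have h5 : (Real.sqrt (C2 * (C1 * (2 * D))) + C3) * b ^ (-(((d : ℝ) - 1) / 2)) * r ^ (d - 1) * b ^ ((d : ℝ) / 2) =
      (Real.sqrt (C2 * (C1 * (2 * D))) + C3) * r ^ (d - 1) * b ^ (1 / 2 : ℝ) := by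
    rw [← h4]; ring
  rw [h5]
  have h6 : C3 * r ^ (d - 1) / b ^ d * b ^ ((d : ℝ) / 2) ≤ C3 * r ^ (d - 1) * b ^ (1 / 2 : ℝ) := by
    have h7 : b ^ ((d : ℝ) / 2) / b ^ d ≤ b ^ (1 / 2 : ℝ) := by
      rw [← Real.rpow_natCast b d, ← Real.rpow_sub hb0]
      apply Real.rpow_le_rpow_of_exponent_le hb1
      have : (0 : ℝ) ≤ d := Nat.cast_nonneg d
      linarith
    have h8 : C3 * r ^ (d - 1) / b ^ d * b ^ ((d : ℝ) / 2) = C3 * r ^ (d - 1) * (b ^ ((d : ℝ) / 2) / b ^ d) := by ring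
    rw [h8]
    exact mul_le_mul_of_nonneg_left h7 (by positivity)
  linarith

/-- the average of a function supported in one cube -/
private theorem G2_avg {d : ℕ} (l : ℕ) (A : E d → ℂ) (a : Fin d → ℤ) (hAQ : ∀ x, A x ≠ 0 → x ∈ Q (l : ℤ) a) :
    vl d (l : ℤ) ^ (1 / 2 : ℝ) * (∫⁻ x, ‖A x‖ₑ ^ (2 : ℝ)) ^ (1 / 2 : ℝ) ≤
      ∫⁻ x in Q (l : ℤ) a, (Av (l : ℤ) (fun y => ‖A y‖ₑ ^ (2 : ℝ)) x) ^ (1 / 2 : ℝ) := by
  have hv := vl_ne (d := d) (l : ℤ)
  have h1 : ∫⁻ z, ‖A z‖ₑ ^ (2 : ℝ) = ∫⁻ z in Q (l : ℤ) a, ‖A z‖ₑ ^ (2 : ℝ) := by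
    rw [← lintegral_indicator (Q_meas _ _)]
    refine lintegral_congr fun z => ?_
    by_cases hz : z ∈ Q (l : ℤ) a
    · rw [indicator_of_mem hz]
    · rw [indicator_of_notMem hz]
      by_contra hne
      refine hz (hAQ z (fun h0 => hne ?_))
      rw [h0, enorm_zero, ENNReal.zero_rpow_of_pos (by norm_num)]
  have h2 : ∀ x ∈ Q (l : ℤ) a, (Av (l : ℤ) (fun y => ‖A y‖ₑ ^ (2 : ℝ)) x) ^ (1 / 2 : ℝ) =
      ((vl d (l : ℤ))⁻¹ * ∫⁻ x, ‖A x‖ₑ ^ (2 : ℝ)) ^ (1 / 2 : ℝ) := by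
    intro x hx
    have hx' : ix (l : ℤ) x = a := hx
    unfold Av
    rw [hx', ← h1]
  rw [setLIntegral_congr_fun (Q_meas _ _) h2, setLIntegral_const, Q_vol, ENNReal.mul_rpow_of_nonneg _ _ (by norm_num),
    mul_comm _ (vl d (l : ℤ)), ← mul_assoc]
  refine mul_le_mul_left (le_of_eq ?_) _
  rw [ENNReal.inv_rpow]
  have h3 : vl d (l : ℤ) = vl d (l : ℤ) ^ (1 / 2 : ℝ) * vl d (l : ℤ) ^ (1 / 2 : ℝ) := by
    rw [← ENNReal.rpow_add _ _ hv.1 hv.2]
    norm_num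
  have h4 : vl d (l : ℤ) ^ (1 / 2 : ℝ) ≠ 0 := (ENNReal.rpow_pos (pos_iff_ne_zero.2 hv.1) hv.2).ne'
  have h5 : vl d (l : ℤ) ^ (1 / 2 : ℝ) ≠ ⊤ := ENNReal.rpow_ne_top_of_nonneg (by norm_num) hv.2
  obtain ⟨w, hw⟩ : ∃ w : ENNReal, w = vl d (l : ℤ) ^ (1 / 2 : ℝ) := ⟨_, rfl⟩
  rw [← hw] at h3 h4 h5 ⊢
  calc w = w * (w * w⁻¹) := by rw [ENNReal.mul_inv_cancel h4 h5, mul_one]
    _ = (w * w) * w⁻¹ := (mul_assoc _ _ _).symm
    _ = vl d (l : ℤ) * w⁻¹ := by rw [← h3]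

theorem cube_L1 (d : ℕ) (hd : 2 ≤ d) (η : SchwartzMap (E d) ℂ) (hη : ∃ ε : ℝ, 0 < ε ∧ Van η ε) :
    ∃ C : ℝ, 0 < C ∧ ∀ (l : ℕ) (r : ℝ) (A : E d → ℂ) (a : Fin d → ℤ), (2 : ℝ) ^ l ≤ r → Bd A →
    (∀ x, A x ≠ 0 → x ∈ Q (l : ℤ) a) →
    ∫⁻ x, ‖∫ z, Fk η z r x * A z‖ₑ ≤
      ENNReal.ofReal (C * ((2 : ℝ) ^ l) ^ (-(((d : ℝ) - 1) / 2)) * r ^ (d - 1)) *
        ∫⁻ x, (Av (l : ℤ) (fun y => ‖A y‖ₑ ^ (2 : ℝ)) x) ^ (1 / 2 : ℝ) := by
  obtain ⟨C, hC, H⟩ := G2_core d hd η hη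
  refine ⟨C, hC, ?_⟩
  intro l r A a hlr hA hAQ
  refine (H l r A a hlr hA hAQ).trans (mul_le_mul_right ?_ _)
  exact (G2_avg l A a hAQ).trans (setLIntegral_le_lintegral _ _)

theorem fix_L1 (d : ℕ) (hd : 2 ≤ d) (η : SchwartzMap (E d) ℂ) (hη : ∃ ε : ℝ, 0 < ε ∧ Van η ε) :
    ∃ C : ℝ, 0 < C ∧ ∀ (l : ℕ) (r : ℝ) (A : E d → ℂ), (2 : ℝ) ^ l ≤ r → Bd A →
    ∫⁻ x, ‖∫ z, Fk η z r x * A z‖ₑ ≤
      ENNReal.ofReal (C * ((2 : ℝ) ^ l) ^ (-(((d : ℝ) - 1) / 2)) * r ^ (d - 1)) *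
        ∫⁻ x, (Av (l : ℤ) (fun y => ‖A y‖ₑ ^ (2 : ℝ)) x) ^ (1 / 2 : ℝ) := by
  obtain ⟨C, hC, H⟩ := G2_core d hd η hη
  refine ⟨C, hC, ?_⟩
  intro l r A hlr hA
  have hr0 : 0 < r := lt_of_lt_of_le (by positivity) hlr
  obtain ⟨B, hB⟩ := hA.bdd
  obtain ⟨ρ, hρ⟩ := hA.supp
  obtain ⟨CF, hCF, HF⟩ := Fk_le hd η
  obtain ⟨Aa, hAa⟩ : ∃ Aa : (Fin d → ℤ) → E d → ℂ, Aa = fun a => (Q (l : ℤ) a).indicator A := ⟨_, rfl⟩
  have hAaBd : ∀ a, Bd (Aa a) := by
    intro a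
    rw [hAa]
    refine ⟨hA.meas.indicator (Q_meas _ _), ⟨B, fun x => ?_⟩, ⟨ρ, fun x hx => ?_⟩⟩
    · exact (norm_indicator_le_norm_self _ _).trans (hB x)
    · show (Q (l : ℤ) a).indicator A x = 0
      by_cases hxQ : x ∈ Q (l : ℤ) a
      · rw [indicator_of_mem hxQ, hρ x hx]
      · rw [indicator_of_notMem hxQ]
  have hAaQ : ∀ a x, Aa a x ≠ 0 → x ∈ Q (l : ℤ) a := by
    intro a x hx
    by_contra hcon
    apply hx
    rw [hAa]
    exact indicator_of_notMem hcon _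
  have hint : ∀ x, Integrable (fun z => Fk η z r x * A z) := by
    intro x
    have hm : Measurable (fun z : E d => Fk η z r x * A z) := by
      have h1 : Continuous (fun z : E d => Fk η z r x) :=
        (G2_joint hd η r hr0).comp (by fun_prop : Continuous (fun z : E d => (x, z)))
      exact h1.measurable.mul hA.meas
    refine Integrable.mono' (g := (closedBall (0 : E d) ρ).indicator (fun _ => CF * r ^ (d - 1) * B)) ?_
      hm.aestronglyMeasurable (Eventually.of_forall fun z => ?_)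
    · rw [integrable_indicator_iff measurableSet_closedBall]
      exact integrableOn_const measure_closedBall_lt_top.ne
    · by_cases hz : z ∈ closedBall (0 : E d) ρ
      · rw [indicator_of_mem hz, norm_mul]
        exact mul_le_mul (HF z r x hr0) (hB z) (norm_nonneg _) (by positivity)
      · rw [indicator_of_notMem hz]
        rw [mem_closedBall, dist_zero_right, not_le] at hz
        rw [hρ z hz, mul_zero, norm_zero]
  have hcov : (⋃ a : Fin d → ℤ, (Q (l : ℤ) a : Set (E d))) = univ := by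
    rw [eq_univ_iff_forall]
    intro x
    exact mem_iUnion.2 ⟨ix (l : ℤ) x, rfl⟩
  have hdisj : Pairwise (Function.onFun Disjoint (fun a : Fin d → ℤ => (Q (l : ℤ) a : Set (E d)))) := by
    intro a b hab
    rw [Function.onFun, disjoint_left]
    intro x hx hx'
    exact hab ((show ix (l : ℤ) x = a from hx).symm.trans hx')
  have hsum : ∀ x, ∫ z, Fk η z r x * A z = ∑' a : Fin d → ℤ, ∫ z, Fk η z r x * Aa a z := by
    intro x
    have h1 := integral_iUnion (μ := volume) (f := fun z => Fk η z r x * A z) (fun a => Q_meas (l : ℤ) a) hdisj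
      (by rw [hcov]; exact (hint x).integrableOn)
    rw [hcov, setIntegral_univ] at h1
    rw [h1]
    refine tsum_congr fun a => ?_
    rw [← integral_indicator (Q_meas _ _)]
    refine integral_congr_ae (Eventually.of_forall fun z => ?_)
    show (Q (l : ℤ) a).indicator (fun z => Fk η z r x * A z) z = Fk η z r x * Aa a z
    rw [hAa]
    by_cases hz : z ∈ Q (l : ℤ) a
    · simp only [indicator_of_mem hz]
    · simp only [indicator_of_notMem hz, mul_zero]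
  calc ∫⁻ x, ‖∫ z, Fk η z r x * A z‖ₑ ≤ ∫⁻ x, ∑' a : Fin d → ℤ, ‖∫ z, Fk η z r x * Aa a z‖ₑ := by
        refine lintegral_mono fun x => ?_
        rw [hsum x]
        exact enorm_tsum_le_tsum_enorm
    _ = ∑' a : Fin d → ℤ, ∫⁻ x, ‖∫ z, Fk η z r x * Aa a z‖ₑ :=
        lintegral_tsum fun a => (G2_meas hd η r hr0 (Aa a) (hAaBd a).meas).aemeasurable
    _ ≤ ∑' a : Fin d → ℤ, ENNReal.ofReal (C * ((2 : ℝ) ^ l) ^ (-(((d : ℝ) - 1) / 2)) * r ^ (d - 1)) *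
          ∫⁻ x in Q (l : ℤ) a, (Av (l : ℤ) (fun y => ‖A y‖ₑ ^ (2 : ℝ)) x) ^ (1 / 2 : ℝ) := by
        refine ENNReal.tsum_le_tsum fun a => ?_
        refine (H l r (Aa a) a hlr (hAaBd a) (hAaQ a)).trans (mul_le_mul_right ?_ _)
        refine (G2_avg l (Aa a) a (hAaQ a)).trans ?_
        refine setLIntegral_mono' (Q_meas _ _) fun x _ => ?_
        refine ENNReal.rpow_le_rpow ?_ (by norm_num)
        refine Av_mono _ (fun y => ?_) x
        refine ENNReal.rpow_le_rpow ?_ (by norm_num)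
        rw [hAa]
        exact enorm_indicator_le_enorm_self _ _
    _ = ENNReal.ofReal (C * ((2 : ℝ) ^ l) ^ (-(((d : ℝ) - 1) / 2)) * r ^ (d - 1)) *
          ∫⁻ x, (Av (l : ℤ) (fun y => ‖A y‖ₑ ^ (2 : ℝ)) x) ^ (1 / 2 : ℝ) := by
        rw [ENNReal.tsum_mul_left, ← lint_cubes]

end Pool.LibRF53
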