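import Pool.Agent.LibRF53.G2

/-
PLAN (G3). L1 endpoint for Vg. |Vg eta g x| <= int over r > 1 of |int_z Fk eta z r x g(z,r)|; Tonelli in (x,r) (joint measurability of (x,r) -> int_z Fk eta z r x * g (z,r) on r > 0: Fk is continuous
there, Fk_joint in LibSR53.V1, StronglyMeasurable.integral_prod_left), then fix_L1 for every r > 2^l (for r <= 2^l the inner function is 0), g(.,r) is Bd. The right side is the integral over nM d
of Gg: nM = volume x (withDensity r^(d-1)), lintegral_prod, lintegral_withDensity_eq_lintegral_mul, measurability of Gg: Gg_meas from Av_joint.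
-/

set_option autoImplicit false

noncomputable section

open MeasureTheory Metric Set Filter

namespace Pool.LibRF53

open Pool.LibSR53

theorem Gg_meas {d : ℕ} (l : ℤ) (g : E d × ℝ → ℂ) (hg : Measurable g) : Measurable (Gg l g) := by
  have h1 : Measurable (fun z : E d × ℝ => ‖g z‖ₑ ^ (2 : ℝ)) := hg.enorm.pow_const _
  exact (Av_joint l (fun z : E d × ℝ => ‖g z‖ₑ ^ (2 : ℝ)) h1).pow_const _

open Classical in
/-- the kernel, zero for nonpositive radii -/
private def G3_K {d : ℕ} (η : SchwartzMap (E d) ℂ) : P d × E d → ℂ :=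
  Set.piecewise {q | 0 < q.1.2} (fun q => Fk η q.1.1 q.1.2 q.2) (fun _ => 0)

private theorem G3_K_meas {d : ℕ} (hd : 2 ≤ d) (η : SchwartzMap (E d) ℂ) :
    Measurable (G3_K η) := by
  unfold G3_K
  refine ContinuousOn.measurable_piecewise (Fk_joint hd η) continuousOn_const ?_
  exact measurableSet_lt measurable_const (measurable_snd.comp measurable_fst)

private theorem G3_K_eq {d : ℕ} (η : SchwartzMap (E d) ℂ) (z : E d) (r : ℝ) (x : E d)
    (hr : 0 < r) : G3_K η ((z, r), x) = Fk η z r x := by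
  unfold G3_K
  rw [Set.piecewise_eq_of_mem]
  exact hr

/-- the inner integral -/
private def G3_I {d : ℕ} (η : SchwartzMap (E d) ℂ) (g : E d × ℝ → ℂ) (w : E d × ℝ) : ℂ :=
  ∫ z, G3_K η ((z, w.2), w.1) * g (z, w.2)

private theorem G3_I_meas {d : ℕ} (hd : 2 ≤ d) (η : SchwartzMap (E d) ℂ) (g : E d × ℝ → ℂ)
    (hg : Measurable g) : StronglyMeasurable (G3_I η g) := by
  have h1 : Measurable (fun q : (E d × ℝ) × E d =>
      G3_K η ((q.2, q.1.2), q.1.1) * g (q.2, q.1.2)) := by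
    refine Measurable.mul ?_ ?_
    · exact (G3_K_meas hd η).comp (by fun_prop)
    · exact hg.comp (by fun_prop)
  exact h1.stronglyMeasurable.integral_prod_right'

private theorem G3_I_eq {d : ℕ} (η : SchwartzMap (E d) ℂ) (g : E d × ℝ → ℂ) (x : E d) (r : ℝ)
    (hr : 0 < r) : G3_I η g (x, r) = ∫ z, Fk η z r x * g (z, r) := by
  unfold G3_I
  congr 1
  funext z
  change G3_K η ((z, r), x) * g (z, r) = _
  rw [G3_K_eq η z r x hr]

private theorem G3_Vg_eq {d : ℕ} (η : SchwartzMap (E d) ℂ) (g : E d × ℝ → ℂ) (x : E d) :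
    Vg η g x = ∫ r in Ioi (1 : ℝ), G3_I η g (x, r) := by
  unfold Vg
  refine setIntegral_congr_fun measurableSet_Ioi fun r hr => ?_
  exact (G3_I_eq η g x r (lt_trans one_pos hr)).symm

theorem Vg_meas {d : ℕ} (hd : 2 ≤ d) (η : SchwartzMap (E d) ℂ) (l : ℕ) (g : E d × ℝ → ℂ)
    (hg : Ad l g) : AEStronglyMeasurable (Vg η g) volume := by
  have h1 : StronglyMeasurable (fun x : E d => ∫ r in Ioi (1 : ℝ), G3_I η g (x, r)) :=
    (G3_I_meas hd η g hg.meas).integral_prod_right'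
  have h2 : Vg η g = fun x : E d => ∫ r in Ioi (1 : ℝ), G3_I η g (x, r) :=
    funext fun x => G3_Vg_eq η g x
  rw [h2]
  exact h1.aestronglyMeasurable

private theorem G3_nM {d : ℕ} (H : E d × ℝ → ENNReal) (hH : Measurable H) :
    ∫⁻ z, H z ∂(nM d) =
      ∫⁻ r in Ioi (1 : ℝ), ENNReal.ofReal (r ^ (d - 1)) * ∫⁻ x, H (x, r) := by
  unfold nM rM
  rw [lintegral_prod_symm _ hH.aemeasurable]
  rw [lintegral_withDensity_eq_lintegral_mul _ (by fun_prop) hH.lintegral_prod_left']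
  rfl

private theorem G3_Bd {d : ℕ} {l : ℕ} {g : E d × ℝ → ℂ} (hg : Ad l g) (r : ℝ) :
    Bd (fun z => g (z, r)) := by
  refine ⟨hg.meas.comp (by fun_prop), ?_, ?_⟩
  · obtain ⟨B, hB⟩ := hg.bdd
    exact ⟨B, fun x => hB _⟩
  · obtain ⟨R, hR⟩ := (hg.supp.isCompact.isBounded).exists_norm_le
    refine ⟨R, fun x hx => ?_⟩
    by_contra hne
    have h1 : (x, r) ∈ tsupport g := subset_tsupport g hne
    have h2 := hR _ h1
    have h3 : ‖x‖ ≤ ‖(x, r)‖ := norm_fst_le (x, r)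
    exact absurd (h3.trans h2) (not_le.2 hx)

theorem end_one (d : ℕ) (hd : 2 ≤ d) (η : SchwartzMap (E d) ℂ) (hη : ∃ ε : ℝ, 0 < ε ∧ Van η ε) :
    ∃ C : ℝ, 0 < C ∧ ∀ (l : ℕ) (g : E d × ℝ → ℂ), Ad l g →
    ∫⁻ x, ‖Vg η g x‖ₑ ≤
      ENNReal.ofReal (C * ((2 : ℝ) ^ l) ^ (-(((d : ℝ) - 1) / 2))) *
        ∫⁻ z, Gg (l : ℤ) g z ∂(nM d) := by
  obtain ⟨C, hC, H⟩ := fix_L1 d hd η hη
  refine ⟨C, hC, fun l g hg => ?_⟩
  have hIm := G3_I_meas hd η g hg.meas
  have hGm := Gg_meas (l : ℤ) g hg.meas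
  have hc0 : 0 ≤ C * ((2 : ℝ) ^ l) ^ (-(((d : ℝ) - 1) / 2)) := by positivity
  calc ∫⁻ x, ‖Vg η g x‖ₑ
      ≤ ∫⁻ x, ∫⁻ r in Ioi (1 : ℝ), ‖G3_I η g (x, r)‖ₑ := by
        refine lintegral_mono fun x => ?_
        rw [G3_Vg_eq]
        exact enorm_integral_le_lintegral_enorm _
    _ = ∫⁻ r in Ioi (1 : ℝ), ∫⁻ x, ‖G3_I η g (x, r)‖ₑ := by
        refine lintegral_lintegral_swap ?_
        exact (hIm.measurable.enorm).aemeasurable
    _ ≤ ∫⁻ r in Ioi (1 : ℝ), ENNReal.ofReal (C * ((2 : ℝ) ^ l) ^ (-(((d : ℝ) - 1) / 2))) *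
          (ENNReal.ofReal (r ^ (d - 1)) * ∫⁻ x, Gg (l : ℤ) g (x, r)) := by
        refine setLIntegral_mono' measurableSet_Ioi fun r hr => ?_
        have hr0 : (0 : ℝ) < r := lt_trans one_pos hr
        by_cases hrl : (2 : ℝ) ^ l < r
        · have h1 := H l r (fun z => g (z, r)) hrl.le (G3_Bd hg r)
          have h2 : ∫⁻ x, ‖G3_I η g (x, r)‖ₑ = ∫⁻ x, ‖∫ z, Fk η z r x * g (z, r)‖ₑ :=
            lintegral_congr fun x => by rw [G3_I_eq η g x r hr0]
          rw [h2]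
          refine h1.trans (le_of_eq ?_)
          rw [ENNReal.ofReal_mul hc0, mul_assoc]
          rfl
        · have h0 : ∀ z, g (z, r) = 0 := fun z => hg.big z r (not_lt.1 hrl)
          have h2 : ∫⁻ x, ‖G3_I η g (x, r)‖ₑ = 0 := by
            have : ∀ x : E d, ‖G3_I η g (x, r)‖ₑ = 0 := by
              intro x
              rw [G3_I_eq η g x r hr0]
              simp [h0]
            simp [this]
          rw [h2]
          exact bot_le
    _ = ENNReal.ofReal (C * ((2 : ℝ) ^ l) ^ (-(((d : ℝ) - 1) / 2))) *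
          ∫⁻ r in Ioi (1 : ℝ), (ENNReal.ofReal (r ^ (d - 1)) * ∫⁻ x, Gg (l : ℤ) g (x, r)) := by
        rw [lintegral_const_mul]
        exact Measurable.mul (by fun_prop) hGm.lintegral_prod_left'
    _ = ENNReal.ofReal (C * ((2 : ℝ) ^ l) ^ (-(((d : ℝ) - 1) / 2))) *
          ∫⁻ z, Gg (l : ℤ) g z ∂(nM d) := by
        rw [G3_nM _ hGm]

end Pool.LibRF53
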