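import Pool.Agent.LibRF53.G3

/-
PLAN (G4). The other endpoint. The hypothesis hq is the inequality of Q1 at the exponent s (Vg is exactly its operator, Fk eta z r x = int eta (x - zeta - z) dsg r zeta: unfold; sg = restricted
Hausdorff measure). Raise it to the power s (eLpNorm_eq_lintegral_rpow_enorm_toReal). For every r: int |g(x,r)|^s dx = int Av l (|g(.,r)|^s) <= int (Av l |g(.,r)|^2)^(s/2) (Av_int, Av_jensen with
s <= 2) = int Gg^s. Then integrate r^(d-1) dr over r > 1 (nM, lintegral_prod, withDensity).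
-/

set_option autoImplicit false

noncomputable section

open MeasureTheory Metric Set Filter

namespace Pool.LibRF53

open Pool.LibSR53

private theorem G4_nM {d : ℕ} (H : E d × ℝ → ENNReal) (hH : Measurable H) :
    ∫⁻ z, H z ∂(nM d) =
      ∫⁻ r in Ioi (1 : ℝ), ENNReal.ofReal (r ^ (d - 1)) * ∫⁻ x, H (x, r) := by
  unfold nM rM
  rw [lintegral_prod_symm _ hH.aemeasurable]
  rw [lintegral_withDensity_eq_lintegral_mul _ (by fun_prop) hH.lintegral_prod_left']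
  rfl

private theorem G4_slice {d : ℕ} (l : ℤ) (g : E d × ℝ → ℂ) (hg : Measurable g) (s : ℝ)
    (hs1 : 1 < s) (hs2 : s ≤ 2) (r : ℝ) :
    ∫⁻ x, ‖g (x, r)‖ₑ ^ s ≤ ∫⁻ x, Gg l g (x, r) ^ s := by
  have hs0 : 0 < s := by linarith
  rw [← Av_int l (fun x => ‖g (x, r)‖ₑ ^ s)]
  refine lintegral_mono fun x => ?_
  have hm : Measurable (fun y : E d => ‖g (y, r)‖ₑ) := (hg.comp (by fun_prop)).enorm
  have h1 := Av_jensen l (fun y => ‖g (y, r)‖ₑ) hm hs0 hs2 x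
  have h2 := ENNReal.rpow_le_rpow h1 hs0.le
  rw [← ENNReal.rpow_mul, one_div_mul_cancel hs0.ne', ENNReal.rpow_one] at h2
  exact h2

theorem end_s (d : ℕ) (hd : 2 ≤ d) (η : SchwartzMap (E d) ℂ) (s : ℝ) (hs1 : 1 < s) (hs2 : s ≤ 2)
    (hq : ∃ C : ℝ, ∀ g : EuclideanSpace ℝ (Fin d) × ℝ → ℂ, Measurable g →
      (∃ B : ℝ, ∀ z, ‖g z‖ ≤ B) → HasCompactSupport g →
      MeasureTheory.eLpNorm
        (fun x : EuclideanSpace ℝ (Fin d) =>
          ∫ r in Set.Ioi (1 : ℝ), ∫ z : EuclideanSpace ℝ (Fin d),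
            (∫ y in Metric.sphere (0 : EuclideanSpace ℝ (Fin d)) r, η (x - y - z)
              ∂(MeasureTheory.Measure.hausdorffMeasure ((d : ℝ) - 1))) * g (z, r))
        (ENNReal.ofReal s) MeasureTheory.volume
      ≤ ENNReal.ofReal C *
        (∫⁻ r in Set.Ioi (1 : ℝ), ∫⁻ x : EuclideanSpace ℝ (Fin d),
            ‖g (x, r)‖ₑ ^ s * ENNReal.ofReal (r ^ (d - 1))) ^ (1 / s)) :
    ∃ C : ℝ, 0 < C ∧ ∀ (l : ℕ) (g : E d × ℝ → ℂ), Ad l g →
    ∫⁻ x, ‖Vg η g x‖ₑ ^ s ≤ ENNReal.ofReal C * ∫⁻ z, Gg (l : ℤ) g z ^ s ∂(nM d) := by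
  obtain ⟨C, hC⟩ := hq
  have hs0 : 0 < s := by linarith
  have hC1 : 0 < |C| + 1 := by positivity
  refine ⟨(|C| + 1) ^ s, Real.rpow_pos_of_pos hC1 s, fun l g hg => ?_⟩
  have h1 : eLpNorm (Vg η g) (ENNReal.ofReal s) volume ≤ ENNReal.ofReal C *
      (∫⁻ r in Ioi (1 : ℝ), ∫⁻ x : E d, ‖g (x, r)‖ₑ ^ s * ENNReal.ofReal (r ^ (d - 1))) ^ (1 / s) :=
    hC g hg.meas hg.bdd hg.supp
  have hp0 : ENNReal.ofReal s ≠ 0 := by
    rw [Ne, ENNReal.ofReal_eq_zero, not_le]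
    exact hs0
  rw [eLpNorm_eq_lintegral_rpow_enorm_toReal hp0 ENNReal.ofReal_ne_top,
    ENNReal.toReal_ofReal hs0.le] at h1
  have h2 := ENNReal.rpow_le_rpow h1 hs0.le
  rw [← ENNReal.rpow_mul, one_div_mul_cancel hs0.ne', ENNReal.rpow_one,
    ENNReal.mul_rpow_of_nonneg _ _ hs0.le, ← ENNReal.rpow_mul, one_div_mul_cancel hs0.ne',
    ENNReal.rpow_one] at h2
  have hGm : Measurable (fun z => Gg (l : ℤ) g z ^ s) :=
    (Gg_meas (l : ℤ) g hg.meas).pow_const _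
  have h3 : ∫⁻ r in Ioi (1 : ℝ), ∫⁻ x : E d, ‖g (x, r)‖ₑ ^ s * ENNReal.ofReal (r ^ (d - 1)) ≤
      ∫⁻ z, Gg (l : ℤ) g z ^ s ∂(nM d) := by
    rw [G4_nM _ hGm]
    refine lintegral_mono fun r => ?_
    have hmr : Measurable (fun x : E d => ‖g (x, r)‖ₑ ^ s) :=
      (hg.meas.comp (by fun_prop : Measurable fun x : E d => (x, r))).enorm.pow_const _
    rw [lintegral_mul_const _ hmr, mul_comm]
    exact mul_le_mul_right (G4_slice (l : ℤ) g hg.meas s hs1 hs2 r) _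
  refine h2.trans (mul_le_mul' ?_ h3)
  rw [← ENNReal.ofReal_rpow_of_pos hC1]
  refine ENNReal.rpow_le_rpow (ENNReal.ofReal_le_ofReal ?_) hs0.le
  linarith [le_abs_self C]

end Pool.LibRF53
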