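import Pool.Agent.LibRF53.Defs

/-
PLAN (G5). ONLY MATHLIB. Real interpolation between L1 and L^s with constants. If int G^p = infinity nothing to prove; so G < infinity a.e. Layer cake int F^p = p int_(t > 0) t^(p-1) mu{t < F} dt
(MeasureTheory.lintegral_rpow_eq_lintegral_meas_lt_mul for real functions; for ENNReal functions replace F by min F n, n -> infinity, or use that F < infinity a.e., which follows from the
hypothesis for one value of lam). For lam = t / a: mu{t < F} <= mu{t/2 < F1} + mu{t/2 < F2} <= (2/t) A0 int_(G > t/a) G + (2/t)^s A1 int_(G <= t/a) G^s (Markov: mul_meas_ge_le_lintegral).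
Tonelli: p int t^(p-1) (2/t) A0 int_(G > t/a) G = 2 p A0 int G * (a G)^(p-1) / (p-1); p int t^(p-1) (2/t)^s A1 int_(G <= t/a) G^s = p 2^s A1 int G^s (a G)^(p-s) / (s-p). So
int F^p <= C (A0 a^(p-1) + A1 a^(p-s)) int G^p with C = 2^s p (1/(p-1) + 1/(s-p)). With a = (A1/A0)^(1/(s-1)) both terms are A0^(1-th) A1^th, th = (p-1)/(s-1).
-/

set_option autoImplicit false

noncomputable section

open MeasureTheory Metric Set Filter

namespace Pool.LibRF53

open Pool.LibSR53

private lemma g5_lint_pow (q : ℝ) (hq : 0 < q) (r : ℝ) (hr : 0 ≤ r) :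
    ∫⁻ t in Ioc (0 : ℝ) r, ENNReal.ofReal (t ^ (q - 1)) = ENNReal.ofReal (r ^ q / q) := by
  have hi : IntervalIntegrable (fun t : ℝ => t ^ (q - 1)) volume 0 r :=
    intervalIntegral.intervalIntegrable_rpow' (by linarith)
  have h1 : ∫ t in (0 : ℝ)..r, t ^ (q - 1) = r ^ q / q := by
    rw [integral_rpow (Or.inl (by linarith))]
    have e : q - 1 + 1 = q := by ring
    rw [e, Real.zero_rpow hq.ne', sub_zero]
  rw [← h1, intervalIntegral.integral_of_le hr,
    ofReal_integral_eq_lintegral_ofReal ((intervalIntegrable_iff_integrableOn_Ioc_of_le hr).1 hi)]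
  exact (ae_restrict_iff' measurableSet_Ioc).2
    (Eventually.of_forall fun t ht => Real.rpow_nonneg ht.1.le _)

private lemma g5_lint_tail (q : ℝ) (hq : 0 < q) (r : ℝ) (hr : 0 < r) :
    ∫⁻ t in Ici r, ENNReal.ofReal (t ^ (-q - 1)) = ENNReal.ofReal (r ^ (-q) / q) := by
  rw [← setLIntegral_congr (Ioi_ae_eq_Ici (a := r) (μ := volume))]
  have hi : IntegrableOn (fun t : ℝ => t ^ (-q - 1)) (Ioi r) :=
    integrableOn_Ioi_rpow_of_lt (by linarith) hr
  have h1 : ∫ t in Ioi r, t ^ (-q - 1) = r ^ (-q) / q := by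
    rw [integral_Ioi_rpow_of_lt (by linarith) hr]
    have e : -q - 1 + 1 = -q := by ring
    rw [e]
    rw [neg_div_neg_eq]
  rw [← h1, ofReal_integral_eq_lintegral_ofReal hi]
  exact (ae_restrict_iff' measurableSet_Ioi).2
    (Eventually.of_forall fun t ht => Real.rpow_nonneg (hr.le.trans (le_of_lt ht)) _)

/-- layer cake, pointwise, lower bound -/
private lemma g5_layer (p : ℝ) (hp : 0 < p) (c : ENNReal) :
    c ^ p ≤ ∫⁻ t in Ioi (0 : ℝ), ENNReal.ofReal (p * t ^ (p - 1)) *
      (if ENNReal.ofReal t < c then 1 else 0) := by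
  have key : ∀ r : ℝ, 0 ≤ r → (∀ t ∈ Ioo (0 : ℝ) r, ENNReal.ofReal t < c) →
      ENNReal.ofReal (r ^ p) ≤ ∫⁻ t in Ioi (0 : ℝ), ENNReal.ofReal (p * t ^ (p - 1)) *
      (if ENNReal.ofReal t < c then 1 else 0) := by
    intro r hr hc
    calc ENNReal.ofReal (r ^ p) = ENNReal.ofReal p * ENNReal.ofReal (r ^ p / p) := by
          rw [← ENNReal.ofReal_mul hp.le]
          congr 1
          field_simp
      _ = ENNReal.ofReal p * ∫⁻ t in Ioc (0 : ℝ) r, ENNReal.ofReal (t ^ (p - 1)) := by
          rw [g5_lint_pow p hp r hr]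
      _ = ∫⁻ t in Ioc (0 : ℝ) r, ENNReal.ofReal p * ENNReal.ofReal (t ^ (p - 1)) := by
          rw [lintegral_const_mul' _ _ ENNReal.ofReal_ne_top]
      _ = ∫⁻ t in Ioo (0 : ℝ) r, ENNReal.ofReal p * ENNReal.ofReal (t ^ (p - 1)) := by
          rw [← setLIntegral_congr (Ioo_ae_eq_Ioc (a := (0:ℝ)) (b := r) (μ := volume))]
      _ = ∫⁻ t in Ioo (0 : ℝ) r, ENNReal.ofReal (p * t ^ (p - 1)) *
            (if ENNReal.ofReal t < c then 1 else 0) := by
          apply setLIntegral_congr_fun measurableSet_Ioo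
          intro t ht
          simp only
          rw [if_pos (hc t ht), mul_one, ENNReal.ofReal_mul hp.le]
      _ ≤ _ := lintegral_mono_set (fun t ht => ht.1)
  by_cases hc : c = ⊤
  · subst hc
    rw [ENNReal.top_rpow_of_pos hp]
    rw [top_le_iff]
    apply ENNReal.eq_top_of_forall_nnreal_le
    intro r
    have h := key ((r : ℝ) ^ (1 / p)) (Real.rpow_nonneg (NNReal.coe_nonneg r) _)
      (fun t _ => ENNReal.ofReal_lt_top)
    rw [← Real.rpow_mul (NNReal.coe_nonneg r), one_div, inv_mul_cancel₀ hp.ne', Real.rpow_one] at h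
    rwa [ENNReal.ofReal_coe_nnreal] at h
  · have h := key c.toReal ENNReal.toReal_nonneg (fun t ht => by
      rw [ENNReal.ofReal_lt_iff_lt_toReal ht.1.le hc]; exact ht.2)
    rw [← ENNReal.ofReal_rpow_of_nonneg ENNReal.toReal_nonneg hp.le,
      ENNReal.ofReal_toReal hc] at h
    exact h

/-- first weight -/
private lemma g5_w1 (q a : ℝ) (hq : 0 < q) (ha : 0 < a) (c : ENNReal) (hc : c ≠ ⊤) :
    ∫⁻ t in Ioi (0 : ℝ), ENNReal.ofReal (t ^ (q - 1)) *
      (if ENNReal.ofReal (t / a) < c then 1 else 0) ≤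
      ENNReal.ofReal (a ^ q / q) * c ^ q := by
  have hr : 0 ≤ a * c.toReal := mul_nonneg ha.le ENNReal.toReal_nonneg
  have hcr : ENNReal.ofReal c.toReal = c := ENNReal.ofReal_toReal hc
  calc ∫⁻ t in Ioi (0 : ℝ), ENNReal.ofReal (t ^ (q - 1)) *
      (if ENNReal.ofReal (t / a) < c then 1 else 0)
      ≤ ∫⁻ t in Ioi (0 : ℝ), (Ioc (0 : ℝ) (a * c.toReal)).indicator
        (fun t => ENNReal.ofReal (t ^ (q - 1))) t := by
        apply setLIntegral_mono' measurableSet_Ioi
        intro t ht
        have ht0 : (0 : ℝ) < t := ht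
        by_cases h : ENNReal.ofReal (t / a) < c
        · rw [if_pos h, mul_one, indicator_of_mem]
          refine ⟨ht0, ?_⟩
          rw [ENNReal.ofReal_lt_iff_lt_toReal (by positivity) hc] at h
          rw [div_lt_iff₀ ha] at h
          linarith [mul_comm a c.toReal]
        · rw [if_neg h, mul_zero]
          exact zero_le
      _ ≤ ∫⁻ t, (Ioc (0 : ℝ) (a * c.toReal)).indicator
        (fun t => ENNReal.ofReal (t ^ (q - 1))) t := setLIntegral_le_lintegral _ _
      _ = ∫⁻ t in Ioc (0 : ℝ) (a * c.toReal), ENNReal.ofReal (t ^ (q - 1)) :=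
        lintegral_indicator measurableSet_Ioc _
      _ = ENNReal.ofReal ((a * c.toReal) ^ q / q) := g5_lint_pow q hq _ hr
      _ = ENNReal.ofReal (a ^ q / q) * c ^ q := by
        conv_rhs => rw [← hcr]
        rw [ENNReal.ofReal_rpow_of_nonneg ENNReal.toReal_nonneg hq.le,
          ← ENNReal.ofReal_mul (by positivity), Real.mul_rpow ha.le ENNReal.toReal_nonneg]
        congr 1
        ring

/-- second weight -/
private lemma g5_w2 (q s a : ℝ) (hq : 0 < q) (hqs : q < s) (ha : 0 < a) (c : ENNReal)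
    (hc : c ≠ ⊤) :
    c ^ s * ∫⁻ t in Ioi (0 : ℝ), ENNReal.ofReal (t ^ (-q - 1)) *
      (if c ≤ ENNReal.ofReal (t / a) then 1 else 0) ≤
      ENNReal.ofReal (a ^ (-q) / q) * c ^ (s - q) := by
  by_cases h0 : c = 0
  · subst h0
    rw [ENNReal.zero_rpow_of_pos (by linarith), zero_mul]
    exact zero_le
  have hcr : ENNReal.ofReal c.toReal = c := ENNReal.ofReal_toReal hc
  have hcp : 0 < c.toReal := ENNReal.toReal_pos h0 hc
  have hr : 0 < a * c.toReal := mul_pos ha hcp
  have h1 : ∫⁻ t in Ioi (0 : ℝ), ENNReal.ofReal (t ^ (-q - 1)) *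
      (if c ≤ ENNReal.ofReal (t / a) then 1 else 0) ≤
      ENNReal.ofReal ((a * c.toReal) ^ (-q) / q) := by
    calc ∫⁻ t in Ioi (0 : ℝ), ENNReal.ofReal (t ^ (-q - 1)) *
        (if c ≤ ENNReal.ofReal (t / a) then 1 else 0)
        ≤ ∫⁻ t in Ioi (0 : ℝ), (Ici (a * c.toReal)).indicator
          (fun t => ENNReal.ofReal (t ^ (-q - 1))) t := by
          apply setLIntegral_mono' measurableSet_Ioi
          intro t ht
          have ht0 : (0 : ℝ) < t := ht
          by_cases h : c ≤ ENNReal.ofReal (t / a)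
          · rw [if_pos h, mul_one, indicator_of_mem]
            rw [mem_Ici]
            rw [ENNReal.le_ofReal_iff_toReal_le hc (by positivity)] at h
            rw [le_div_iff₀ ha] at h
            linarith [mul_comm a c.toReal]
          · rw [if_neg h, mul_zero]
            exact zero_le
        _ ≤ ∫⁻ t, (Ici (a * c.toReal)).indicator
          (fun t => ENNReal.ofReal (t ^ (-q - 1))) t := setLIntegral_le_lintegral _ _
        _ = ∫⁻ t in Ici (a * c.toReal), ENNReal.ofReal (t ^ (-q - 1)) :=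
          lintegral_indicator measurableSet_Ici _
        _ = ENNReal.ofReal ((a * c.toReal) ^ (-q) / q) := g5_lint_tail q hq _ hr
  calc c ^ s * ∫⁻ t in Ioi (0 : ℝ), ENNReal.ofReal (t ^ (-q - 1)) *
      (if c ≤ ENNReal.ofReal (t / a) then 1 else 0)
      ≤ c ^ s * ENNReal.ofReal ((a * c.toReal) ^ (-q) / q) := by gcongr
    _ = ENNReal.ofReal (a ^ (-q) / q) * c ^ (s - q) := by
        rw [← hcr, ENNReal.toReal_ofReal hcp.le]
        rw [ENNReal.ofReal_rpow_of_pos hcp, ENNReal.ofReal_rpow_of_pos hcp,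
          ← ENNReal.ofReal_mul (by positivity), ← ENNReal.ofReal_mul (by positivity),
          Real.mul_rpow ha.le hcp.le]
        congr 1
        have e : c.toReal ^ (s - q) = c.toReal ^ s * c.toReal ^ (-q) := by
          rw [← Real.rpow_add hcp]; congr 1
        rw [e]
        ring

/-- weak type estimate at one level -/
private lemma g5_level (s : ℝ) (hs : 0 < s) (X Y : Type) [MeasurableSpace X] [MeasurableSpace Y]
    (μ : Measure X) (F F1 F2 : X → ENNReal) (h1 : AEMeasurable F1 μ) (h2 : AEMeasurable F2 μ)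
    (hF : ∀ᵐ x ∂μ, F x ≤ F1 x + F2 x) (t : ℝ) (ht : 0 < t) :
    μ {x | ENNReal.ofReal t < F x} ≤ ENNReal.ofReal (2 / t) * ∫⁻ x, F1 x ∂μ +
      ENNReal.ofReal ((2 / t) ^ s) * ∫⁻ x, F2 x ^ s ∂μ := by
  have hsub : μ {x | ENNReal.ofReal t < F x} ≤
      μ {x | ENNReal.ofReal (t / 2) ≤ F1 x} +
      μ {x | ENNReal.ofReal ((t / 2) ^ s) ≤ F2 x ^ s} := by
    refine le_trans ?_ (measure_union_le _ _)
    apply measure_mono_ae
    filter_upwards [hF] with x hx hlt
    have hlt' : ENNReal.ofReal t < F x := hlt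
    change ENNReal.ofReal (t / 2) ≤ F1 x ∨ ENNReal.ofReal ((t / 2) ^ s) ≤ F2 x ^ s
    by_contra hcon
    push Not at hcon
    obtain ⟨ha, hb⟩ := hcon
    rw [← ENNReal.ofReal_rpow_of_pos (by positivity), ENNReal.rpow_lt_rpow_iff hs] at hb
    have : F1 x + F2 x < ENNReal.ofReal (t / 2) + ENNReal.ofReal (t / 2) :=
      ENNReal.add_lt_add ha hb
    rw [← ENNReal.ofReal_add (by positivity) (by positivity), add_halves] at this
    exact absurd (hlt'.trans_le hx) (not_lt.2 this.le)
  have hm1 : μ {x | ENNReal.ofReal (t / 2) ≤ F1 x} ≤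
      ENNReal.ofReal (2 / t) * ∫⁻ x, F1 x ∂μ := by
    have h := mul_meas_ge_le_lintegral₀ h1 (ENNReal.ofReal (t / 2))
    calc μ {x | ENNReal.ofReal (t / 2) ≤ F1 x}
        = ENNReal.ofReal (2 / t) * (ENNReal.ofReal (t / 2) *
            μ {x | ENNReal.ofReal (t / 2) ≤ F1 x}) := by
          rw [← mul_assoc, ← ENNReal.ofReal_mul (by positivity)]
          have e : 2 / t * (t / 2) = 1 := by field_simp
          rw [e, ENNReal.ofReal_one, one_mul]
      _ ≤ _ := by gcongr
  have hm2 : μ {x | ENNReal.ofReal ((t / 2) ^ s) ≤ F2 x ^ s} ≤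
      ENNReal.ofReal ((2 / t) ^ s) * ∫⁻ x, F2 x ^ s ∂μ := by
    have h := mul_meas_ge_le_lintegral₀ (h2.pow_const s) (ENNReal.ofReal ((t / 2) ^ s))
    calc μ {x | ENNReal.ofReal ((t / 2) ^ s) ≤ F2 x ^ s}
        = ENNReal.ofReal ((2 / t) ^ s) * (ENNReal.ofReal ((t / 2) ^ s) *
            μ {x | ENNReal.ofReal ((t / 2) ^ s) ≤ F2 x ^ s}) := by
          rw [← mul_assoc, ← ENNReal.ofReal_mul (by positivity),
            ← Real.mul_rpow (by positivity) (by positivity)]
          have e : 2 / t * (t / 2) = 1 := by field_simp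
          rw [e, Real.one_rpow, ENNReal.ofReal_one, one_mul]
      _ ≤ _ := by gcongr
  exact hsub.trans (add_le_add hm1 hm2)

theorem interp (p s : ℝ) (hp : 1 < p) (hs : p < s) : ∃ C : ℝ, 0 < C ∧
    ∀ (X Y : Type) [MeasurableSpace X] [MeasurableSpace Y] (μ : Measure X) (ν : Measure Y)
      [SFinite μ] [SFinite ν] (F : X → ENNReal) (G : Y → ENNReal), AEMeasurable F μ →
      Measurable G → ∀ A0 A1 : ℝ, 0 < A0 → 0 < A1 →
      (∀ t : ℝ, 0 < t → ∃ F1 F2 : X → ENNReal, AEMeasurable F1 μ ∧ AEMeasurable F2 μ ∧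
        (∀ᵐ x ∂μ, F x ≤ F1 x + F2 x) ∧
        ∫⁻ x, F1 x ∂μ ≤ ENNReal.ofReal A0 * ∫⁻ y in {y | ENNReal.ofReal t < G y}, G y ∂ν ∧
        ∫⁻ x, F2 x ^ s ∂μ ≤
          ENNReal.ofReal A1 * ∫⁻ y in {y | G y ≤ ENNReal.ofReal t}, G y ^ s ∂ν) →
      ∫⁻ x, F x ^ p ∂μ ≤
        ENNReal.ofReal (C * A0 ^ (1 - (p - 1) / (s - 1)) * A1 ^ ((p - 1) / (s - 1))) *
          ∫⁻ y, G y ^ p ∂ν := by
  obtain ⟨C1, hC1⟩ : ∃ C1 : ℝ, C1 = 2 * p / (p - 1) := ⟨_, rfl⟩
  obtain ⟨C2, hC2⟩ : ∃ C2 : ℝ, C2 = 2 ^ s * p / (s - p) := ⟨_, rfl⟩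
  have hp1 : 0 < p - 1 := by linarith
  have hsp : 0 < s - p := by linarith
  have hs1 : 0 < s - 1 := by linarith
  have hp0 : 0 < p := by linarith
  have hs0 : 0 < s := by linarith
  have hC1p : 0 < C1 := by rw [hC1]; positivity
  have hC2p : 0 < C2 := by rw [hC2]; positivity
  refine ⟨C1 + C2, by positivity, ?_⟩
  intro X Y _ _ μ ν _ _ F G hF hG A0 A1 hA0 hA1 H
  obtain ⟨th, hth⟩ : ∃ th : ℝ, th = (p - 1) / (s - 1) := ⟨_, rfl⟩
  rw [← hth]
  obtain ⟨D, hD⟩ : ∃ D : ℝ, D = A0 ^ (1 - th) * A1 ^ th := ⟨_, rfl⟩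
  have hDp : 0 < D := by rw [hD]; positivity
  have hrw : (C1 + C2) * A0 ^ (1 - th) * A1 ^ th = C1 * D + C2 * D := by rw [hD]; ring
  rw [hrw]
  by_cases hI : ∫⁻ y, G y ^ p ∂ν = ⊤
  · rw [hI, ENNReal.mul_top (by
      rw [Ne, ENNReal.ofReal_eq_zero, not_le]; positivity)]
    exact le_top
  have hGfin : ∀ᵐ y ∂ν, G y ≠ ⊤ := by
    have h := ae_lt_top (hG.pow_const p) hI
    filter_upwards [h] with y hy hy2
    rw [hy2, ENNReal.top_rpow_of_pos hp0] at hy
    exact lt_irrefl _ hy
  obtain ⟨a, ha⟩ : ∃ a : ℝ, a = (A1 / A0) ^ (1 / (s - 1)) := ⟨_, rfl⟩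
  have hap : 0 < a := by rw [ha]; positivity
  have hq : 0 < A1 / A0 := by positivity
  have e1 : A0 * a ^ (p - 1) = D := by
    rw [ha, hD, ← Real.rpow_mul hq.le, Real.div_rpow hA1.le hA0.le]
    have e : 1 / (s - 1) * (p - 1) = th := by rw [hth]; ring
    rw [e, Real.rpow_sub hA0, Real.rpow_one]
    field_simp
  have e2 : A1 * a ^ (p - s) = D := by
    have e3 : a ^ (p - s) = a ^ (p - 1) * a ^ (-(s - 1)) := by
      rw [← Real.rpow_add hap]; congr 1; ring
    have e4 : a ^ (-(s - 1)) = A0 / A1 := by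
      rw [ha, ← Real.rpow_mul hq.le]
      have e : 1 / (s - 1) * -(s - 1) = -1 := by field_simp
      rw [e, Real.rpow_neg_one, inv_div]
    rw [e3, e4, ← e1]
    field_simp
  -- measurable version of F
  obtain ⟨F', hF'm, hFF'⟩ := hF
  have hstep1 : ∫⁻ x, F x ^ p ∂μ ≤
      ∫⁻ t in Ioi (0 : ℝ), ENNReal.ofReal (p * t ^ (p - 1)) *
        μ {x | ENNReal.ofReal t < F x} := by
    have hset : ∀ t : ℝ, μ {x | ENNReal.ofReal t < F x} = μ {x | ENNReal.ofReal t < F' x} := by
      intro t
      apply measure_congr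
      filter_upwards [hFF'] with x hx
      apply propext
      change ENNReal.ofReal t < F x ↔ ENNReal.ofReal t < F' x
      rw [hx]
    calc ∫⁻ x, F x ^ p ∂μ = ∫⁻ x, F' x ^ p ∂μ := by
          apply lintegral_congr_ae
          filter_upwards [hFF'] with x hx
          rw [hx]
      _ ≤ ∫⁻ x, (∫⁻ t in Ioi (0 : ℝ), ENNReal.ofReal (p * t ^ (p - 1)) *
            (if ENNReal.ofReal t < F' x then 1 else 0)) ∂μ :=
          lintegral_mono fun x => g5_layer p hp0 (F' x)
      _ = ∫⁻ t in Ioi (0 : ℝ), (∫⁻ x, ENNReal.ofReal (p * t ^ (p - 1)) *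
            (if ENNReal.ofReal t < F' x then 1 else 0) ∂μ) := by
          apply lintegral_lintegral_swap
          apply Measurable.aemeasurable
          apply Measurable.mul
          · fun_prop
          · exact Measurable.ite (measurableSet_lt (by fun_prop) (by fun_prop))
              measurable_const measurable_const
      _ = _ := by
          apply lintegral_congr
          intro t
          rw [lintegral_const_mul' _ _ ENNReal.ofReal_ne_top, hset t]
          congr 1
          rw [← lintegral_indicator_one (measurableSet_lt (by fun_prop) hF'm)]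
          apply lintegral_congr
          intro x
          simp only [indicator, mem_ofPred_eq, Pi.one_apply]
  have hlev : ∀ t : ℝ, 0 < t → μ {x | ENNReal.ofReal t < F x} ≤
      ENNReal.ofReal (2 / t) * (ENNReal.ofReal A0 *
        ∫⁻ y, G y * (if ENNReal.ofReal (t / a) < G y then 1 else 0) ∂ν) +
      ENNReal.ofReal ((2 / t) ^ s) * (ENNReal.ofReal A1 *
        ∫⁻ y, G y ^ s * (if G y ≤ ENNReal.ofReal (t / a) then 1 else 0) ∂ν) := by
    intro t ht
    obtain ⟨F1, F2, h1, h2, h3, h4, h5⟩ := H (t / a) (by positivity)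
    have hl := g5_level s hs0 X Y μ F F1 F2 h1 h2 h3 t ht
    have i1 : ∫⁻ y in {y | ENNReal.ofReal (t / a) < G y}, G y ∂ν =
        ∫⁻ y, G y * (if ENNReal.ofReal (t / a) < G y then 1 else 0) ∂ν := by
      rw [← lintegral_indicator (measurableSet_lt (by fun_prop) hG)]
      apply lintegral_congr
      intro y
      simp only [indicator, mem_ofPred_eq, mul_ite, mul_one, mul_zero]
      congr
    have i2 : ∫⁻ y in {y | G y ≤ ENNReal.ofReal (t / a)}, G y ^ s ∂ν =
        ∫⁻ y, G y ^ s * (if G y ≤ ENNReal.ofReal (t / a) then 1 else 0) ∂ν := by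
      rw [← lintegral_indicator (measurableSet_le hG (by fun_prop))]
      apply lintegral_congr
      intro y
      simp only [indicator, mem_ofPred_eq, mul_ite, mul_one, mul_zero]
    rw [i1] at h4
    rw [i2] at h5
    refine hl.trans (add_le_add ?_ ?_)
    · gcongr
    · gcongr
  have hstep2 : ∫⁻ x, F x ^ p ∂μ ≤
      (∫⁻ t in Ioi (0 : ℝ), ∫⁻ y, ENNReal.ofReal (2 * p * A0 * t ^ ((p - 1) - 1)) *
        (G y * (if ENNReal.ofReal (t / a) < G y then 1 else 0)) ∂ν) +
      ∫⁻ t in Ioi (0 : ℝ), ∫⁻ y, ENNReal.ofReal (2 ^ s * p * A1 * t ^ (-(s - p) - 1)) *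
        (G y ^ s * (if G y ≤ ENNReal.ofReal (t / a) then 1 else 0)) ∂ν := by
    refine hstep1.trans ?_
    rw [← lintegral_add_left']
    · apply setLIntegral_mono' measurableSet_Ioi
      intro t ht
      have ht0 : (0 : ℝ) < t := ht
      rw [lintegral_const_mul' _ _ ENNReal.ofReal_ne_top,
        lintegral_const_mul' _ _ ENNReal.ofReal_ne_top]
      refine (mul_le_mul_right (hlev t ht0) _).trans ?_
      rw [mul_add]
      apply add_le_add
      · rw [← mul_assoc, ← mul_assoc, ← ENNReal.ofReal_mul (by positivity),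
          ← ENNReal.ofReal_mul (by positivity)]
        apply le_of_eq
        congr 2
        have e : t ^ (p - 1) = t ^ (p - 1 - 1) * t := by
          rw [← Real.rpow_add_one ht0.ne']; congr 1; ring
        rw [e]
        field_simp
      · rw [← mul_assoc, ← mul_assoc, ← ENNReal.ofReal_mul (by positivity),
          ← ENNReal.ofReal_mul (by positivity)]
        apply le_of_eq
        congr 2
        have e : t ^ (-(s - p) - 1) = t ^ (p - 1) / t ^ s := by
          rw [← Real.rpow_sub ht0]; congr 1; ring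
        rw [e, Real.div_rpow (by norm_num) ht0.le]
        ring
    · apply Measurable.aemeasurable
      apply Measurable.lintegral_prod_right'
        (f := fun z : ℝ × Y => ENNReal.ofReal (2 * p * A0 * z.1 ^ ((p - 1) - 1)) *
        (G z.2 * (if ENNReal.ofReal (z.1 / a) < G z.2 then 1 else 0)))
      apply Measurable.mul (by fun_prop)
      apply Measurable.mul (by fun_prop)
      exact Measurable.ite (measurableSet_lt (by fun_prop) (by fun_prop))
              measurable_const measurable_const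
  have hT1 : (∫⁻ t in Ioi (0 : ℝ), ∫⁻ y, ENNReal.ofReal (2 * p * A0 * t ^ ((p - 1) - 1)) *
        (G y * (if ENNReal.ofReal (t / a) < G y then 1 else 0)) ∂ν) ≤
      ENNReal.ofReal (C1 * D) * ∫⁻ y, G y ^ p ∂ν := by
    rw [lintegral_lintegral_swap]
    · rw [← lintegral_const_mul' _ _ ENNReal.ofReal_ne_top]
      apply lintegral_mono_ae
      filter_upwards [hGfin] with y hy
      calc ∫⁻ t in Ioi (0 : ℝ), ENNReal.ofReal (2 * p * A0 * t ^ ((p - 1) - 1)) *
            (G y * (if ENNReal.ofReal (t / a) < G y then 1 else 0))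
          = ∫⁻ t in Ioi (0 : ℝ), (ENNReal.ofReal (2 * p * A0) * G y) *
            (ENNReal.ofReal (t ^ ((p - 1) - 1)) *
              (if ENNReal.ofReal (t / a) < G y then 1 else 0)) := by
            apply lintegral_congr
            intro t
            rw [ENNReal.ofReal_mul (by positivity)]
            ring
        _ = (ENNReal.ofReal (2 * p * A0) * G y) *
            ∫⁻ t in Ioi (0 : ℝ), (ENNReal.ofReal (t ^ ((p - 1) - 1)) *
              (if ENNReal.ofReal (t / a) < G y then 1 else 0)) :=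
            lintegral_const_mul' _ _ (ENNReal.mul_ne_top ENNReal.ofReal_ne_top hy)
        _ ≤ (ENNReal.ofReal (2 * p * A0) * G y) *
            (ENNReal.ofReal (a ^ (p - 1) / (p - 1)) * G y ^ (p - 1)) := by
            have := g5_w1 (p - 1) a hp1 hap (G y) hy
            gcongr
        _ = (ENNReal.ofReal (2 * p * A0) * ENNReal.ofReal (a ^ (p - 1) / (p - 1))) *
            (G y * G y ^ (p - 1)) := by ring
        _ = ENNReal.ofReal (C1 * D) * G y ^ p := by
            rw [← ENNReal.ofReal_mul (by positivity)]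
            congr 1
            · congr 1
              rw [hC1, ← e1]
              field_simp
            · by_cases h0 : G y = 0
              · rw [h0, zero_mul, ENNReal.zero_rpow_of_pos hp0]
              · nth_rewrite 1 [← ENNReal.rpow_one (G y)]
                rw [← ENNReal.rpow_add _ _ h0 hy]
                congr 1
                ring
    · apply Measurable.aemeasurable
      apply Measurable.mul (by fun_prop)
      apply Measurable.mul (by fun_prop)
      exact Measurable.ite (measurableSet_lt (by fun_prop) (by fun_prop))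
              measurable_const measurable_const
  have hT2 : (∫⁻ t in Ioi (0 : ℝ), ∫⁻ y, ENNReal.ofReal (2 ^ s * p * A1 * t ^ (-(s - p) - 1)) *
        (G y ^ s * (if G y ≤ ENNReal.ofReal (t / a) then 1 else 0)) ∂ν) ≤
      ENNReal.ofReal (C2 * D) * ∫⁻ y, G y ^ p ∂ν := by
    rw [lintegral_lintegral_swap]
    · rw [← lintegral_const_mul' _ _ ENNReal.ofReal_ne_top]
      apply lintegral_mono_ae
      filter_upwards [hGfin] with y hy
      calc ∫⁻ t in Ioi (0 : ℝ), ENNReal.ofReal (2 ^ s * p * A1 * t ^ (-(s - p) - 1)) *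
            (G y ^ s * (if G y ≤ ENNReal.ofReal (t / a) then 1 else 0))
          = ∫⁻ t in Ioi (0 : ℝ), (ENNReal.ofReal (2 ^ s * p * A1) * G y ^ s) *
            (ENNReal.ofReal (t ^ (-(s - p) - 1)) *
              (if G y ≤ ENNReal.ofReal (t / a) then 1 else 0)) := by
            apply lintegral_congr
            intro t
            rw [ENNReal.ofReal_mul (by positivity)]
            ring
        _ = (ENNReal.ofReal (2 ^ s * p * A1) * G y ^ s) *
            ∫⁻ t in Ioi (0 : ℝ), (ENNReal.ofReal (t ^ (-(s - p) - 1)) *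
              (if G y ≤ ENNReal.ofReal (t / a) then 1 else 0)) :=
            lintegral_const_mul' _ _ (ENNReal.mul_ne_top ENNReal.ofReal_ne_top
              (ENNReal.rpow_ne_top_of_nonneg hs0.le hy))
        _ = ENNReal.ofReal (2 ^ s * p * A1) * (G y ^ s *
            ∫⁻ t in Ioi (0 : ℝ), (ENNReal.ofReal (t ^ (-(s - p) - 1)) *
              (if G y ≤ ENNReal.ofReal (t / a) then 1 else 0))) := by ring
        _ ≤ ENNReal.ofReal (2 ^ s * p * A1) *
            (ENNReal.ofReal (a ^ (-(s - p)) / (s - p)) * G y ^ (s - (s - p))) := by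
            have := g5_w2 (s - p) s a hsp (by linarith) hap (G y) hy
            gcongr
        _ = ENNReal.ofReal (C2 * D) * G y ^ p := by
            rw [← mul_assoc, ← ENNReal.ofReal_mul (by positivity)]
            congr 1
            · congr 1
              have e : -(s - p) = p - s := by ring
              rw [hC2, ← e2, e]
              field_simp
            · congr 1
              ring
    · apply Measurable.aemeasurable
      apply Measurable.mul (by fun_prop)
      apply Measurable.mul (by fun_prop)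
      exact Measurable.ite (measurableSet_le (by fun_prop) (by fun_prop))
              measurable_const measurable_const
  refine hstep2.trans ((add_le_add hT1 hT2).trans ?_)
  rw [← add_mul, ← ENNReal.ofReal_add (by positivity) (by positivity)]

end Pool.LibRF53
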