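import Pool.Agent.LibRF53.G4
import Pool.Agent.LibRF53.G5

/-
PLAN (G6). Gain for large cubes. Apply interp with F = |Vg eta g|_e, G = Gg l g, nu = nM d. For t > 0: D = {z | t < Gg l g z}; for every r the slice of D is a union of cubes of side 2^l (Av_congr).
g1 = D.indicator g, g2 = g - g1 (indicator of the complement), both Ad (measurable: Gg_meas; bounded; compact support; zero for small radii). Vg eta g = Vg eta g1 + Vg eta g2 (linearity: for
each x the function (r,z) -> Fk eta z r x * g_i (z,r) is integrable on r > 1: Fk_le in LibSR53.V1, g_i bounded with compact support; joint measurability from Fk_joint). Gg l g1 = D.indicator (Gg l g)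
and Gg l g2 = Dcompl.indicator (Gg l g) (Av_ind slice by slice). F1 = |Vg g1|, F2 = |Vg g2|; end_one for g1 (A0 = C0 (2^l)^(-(d-1)/2)), end_s for g2 (A1 = C1). The result is
C A0^(1-th) A1^th = C' (2^l)^(-(d-1)/2 (1-th)), so eps = (d-1)/2 (1-th) > 0, th = (p-1)/(s-1) < 1.
-/

set_option autoImplicit false

noncomputable section

open MeasureTheory Metric Set Filter

namespace Pool.LibRF53

open Pool.LibSR53

private theorem G6_int {d : ℕ} (hd : 2 ≤ d) (η : SchwartzMap (E d) ℂ) (l : ℕ) (g : E d × ℝ → ℂ) (hg : Ad l g)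
    (x : E d) : Integrable (fun q : ℝ × E d => Fk η q.2 q.1 x * g (q.2, q.1))
      ((volume.restrict (Ioi (1 : ℝ))).prod (volume : Measure (E d))) := by
  obtain ⟨C, hC0, hC⟩ := Fk_le hd η
  obtain ⟨B, hB⟩ := hg.bdd
  have hB0 : 0 ≤ B := (norm_nonneg _).trans (hB 0)
  obtain ⟨R, hR⟩ : ∃ R : ℝ, tsupport g ⊆ closedBall 0 R := hg.supp.isCompact.isBounded.subset_closedBall 0
  have hm : (volume.restrict (Ioi (1 : ℝ))).prod (volume : Measure (E d)) =
      ((volume : Measure ℝ).prod (volume : Measure (E d))).restrict (Ioi (1 : ℝ) ×ˢ univ) := by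
    rw [← Measure.prod_restrict, Measure.restrict_univ]
  have hS : MeasurableSet (Ioi (1 : ℝ) ×ˢ (univ : Set (E d))) := measurableSet_Ioi.prod MeasurableSet.univ
  rw [hm]
  have h1 : ContinuousOn (fun q : ℝ × E d => Fk η q.2 q.1 x) (Ioi (1 : ℝ) ×ˢ (univ : Set (E d))) := by
    have h2 : Continuous (fun q : ℝ × E d => (((q.2, q.1), x) : P d × E d)) := by fun_prop
    refine (Fk_joint hd η).comp h2.continuousOn fun q hq => ?_
    have h3 : (1 : ℝ) < q.1 := hq.1
    change (0 : ℝ) < q.1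
    linarith
  have h4 : AEStronglyMeasurable (fun q : ℝ × E d => Fk η q.2 q.1 x * g (q.2, q.1))
      (((volume : Measure ℝ).prod (volume : Measure (E d))).restrict (Ioi (1 : ℝ) ×ˢ univ)) :=
    (h1.aestronglyMeasurable hS).mul
      ((hg.meas.comp (measurable_snd.prodMk measurable_fst)).aestronglyMeasurable)
  have h5 : Integrable ((closedBall (0 : ℝ × E d) R).indicator fun _ => C * |R| ^ (d - 1) * B)
      (((volume : Measure ℝ).prod (volume : Measure (E d))).restrict (Ioi (1 : ℝ) ×ˢ univ)) := by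
    refine Integrable.integrableOn ?_
    rw [integrable_indicator_iff measurableSet_closedBall]
    exact integrableOn_const (isCompact_closedBall _ _).measure_lt_top.ne
  refine h5.mono' h4 ((ae_restrict_iff' hS).2 (Eventually.of_forall fun q hq => ?_))
  have hq1 : (1 : ℝ) < q.1 := hq.1
  by_cases h0 : g (q.2, q.1) = 0
  · rw [h0, mul_zero, norm_zero]
    exact Set.indicator_nonneg (fun _ _ => by positivity) _
  · have h6 : (q.2, q.1) ∈ closedBall (0 : E d × ℝ) R := hR (subset_tsupport _ h0)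
    rw [mem_closedBall_zero_iff, Prod.norm_def] at h6
    have h7 : q ∈ closedBall (0 : ℝ × E d) R := by
      rw [mem_closedBall_zero_iff, Prod.norm_def, max_comm]
      exact h6
    have h8 : q.1 ≤ R := (le_abs_self _).trans ((le_max_right _ _).trans h6)
    rw [Set.indicator_of_mem h7, norm_mul]
    have h9 : ‖Fk η q.2 q.1 x‖ ≤ C * |R| ^ (d - 1) := by
      refine (hC q.2 q.1 x (by linarith)).trans (mul_le_mul_of_nonneg_left ?_ hC0.le)
      exact pow_le_pow_left₀ (by linarith) (h8.trans (le_abs_self _)) _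
    exact mul_le_mul h9 (hB _) (norm_nonneg _) (by positivity)

private theorem G6_Vg {d : ℕ} (hd : 2 ≤ d) (η : SchwartzMap (E d) ℂ) (l : ℕ) (g : E d × ℝ → ℂ) (hg : Ad l g)
    (x : E d) : Vg η g x = ∫ q : ℝ × E d, Fk η q.2 q.1 x * g (q.2, q.1)
      ∂((volume.restrict (Ioi (1 : ℝ))).prod (volume : Measure (E d))) := by
  rw [integral_prod _ (G6_int hd η l g hg x)]
  rfl

private theorem G6_add {d : ℕ} (hd : 2 ≤ d) (η : SchwartzMap (E d) ℂ) (l : ℕ) (g g1 g2 : E d × ℝ → ℂ) (hg : Ad l g)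
    (hg1 : Ad l g1) (hg2 : Ad l g2) (h : ∀ z, g z = g1 z + g2 z) (x : E d) :
    Vg η g x = Vg η g1 x + Vg η g2 x := by
  rw [G6_Vg hd η l g hg x, G6_Vg hd η l g1 hg1 x, G6_Vg hd η l g2 hg2 x,
    ← integral_add (G6_int hd η l g1 hg1 x) (G6_int hd η l g2 hg2 x)]
  refine integral_congr_ae (Eventually.of_forall fun q => ?_)
  beta_reduce
  rw [h, mul_add]

private theorem G6_Ad {d : ℕ} (l : ℕ) (g : E d × ℝ → ℂ) (hg : Ad l g) (D : Set (E d × ℝ)) (hD : MeasurableSet D) :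
    Ad l (D.indicator g) := by
  obtain ⟨B, hB⟩ := hg.bdd
  refine ⟨hg.meas.indicator hD, ⟨B, fun z => ?_⟩, ?_, fun y r hr => ?_⟩
  · exact (norm_indicator_le_norm_self g z).trans (hB z)
  · refine hg.supp.mono' ?_
    refine (Function.support_subset_iff'.2 fun z hz => ?_)
    have : g z = 0 := by
      by_contra h0
      exact hz (subset_tsupport _ h0)
    by_cases hzD : z ∈ D
    · rw [Set.indicator_of_mem hzD, this]
    · rw [Set.indicator_of_notMem hzD]
  · by_cases hzD : (y, r) ∈ D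
    · rw [Set.indicator_of_mem hzD, hg.big y r hr]
    · rw [Set.indicator_of_notMem hzD]

private theorem G6_ind {d : ℕ} (l : ℤ) (g : E d × ℝ → ℂ) (D : Set (E d × ℝ))
    (hD : ∀ (x y : E d) (r : ℝ), ix l x = ix l y → (x, r) ∈ D → (y, r) ∈ D) (z : E d × ℝ) :
    Gg l (D.indicator g) z = D.indicator (Gg l g) z := by
  have h1 : Gg l (D.indicator g) z = (Av l (({y : E d | (y, z.2) ∈ D}).indicator
      (fun y => ‖g (y, z.2)‖ₑ ^ (2 : ℝ))) z.1) ^ (1 / 2 : ℝ) := by
    unfold Gg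
    congr 2
    funext y
    by_cases hy : (y, z.2) ∈ D
    · rw [Set.indicator_of_mem hy, Set.indicator_of_mem (show y ∈ {y : E d | (y, z.2) ∈ D} from hy)]
    · rw [Set.indicator_of_notMem hy, Set.indicator_of_notMem (show y ∉ {y : E d | (y, z.2) ∈ D} from hy),
        enorm_zero, ENNReal.zero_rpow_of_pos (by norm_num)]
  rw [h1, Av_ind l _ {y : E d | (y, z.2) ∈ D} (fun x y hxy hx => hD x y z.2 hxy hx)]
  by_cases hz : z ∈ D
  · rw [Set.indicator_of_mem hz, Set.indicator_of_mem (show z.1 ∈ {y : E d | (y, z.2) ∈ D} from hz)]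
    rfl
  · rw [Set.indicator_of_notMem hz, Set.indicator_of_notMem (show z.1 ∉ {y : E d | (y, z.2) ∈ D} from hz),
      ENNReal.zero_rpow_of_pos (by norm_num)]

private theorem G6_congr {d : ℕ} (l : ℤ) (g : E d × ℝ → ℂ) (x y : E d) (r : ℝ) (h : ix l x = ix l y) :
    Gg l g (x, r) = Gg l g (y, r) := by
  unfold Gg
  rw [Av_congr l _ h]

private theorem G6_sf (d : ℕ) : SFinite (nM d) := by
  unfold nM rM
  infer_instance

theorem gain (d : ℕ) (hd : 2 ≤ d) (η : SchwartzMap (E d) ℂ) (hη : ∃ ε : ℝ, 0 < ε ∧ Van η ε)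
    (p s : ℝ) (hp : 1 < p) (hps : p < s)
    (he : ∃ C : ℝ, 0 < C ∧ ∀ (l : ℕ) (g : E d × ℝ → ℂ), Ad l g →
      ∫⁻ x, ‖Vg η g x‖ₑ ^ s ≤ ENNReal.ofReal C * ∫⁻ z, Gg (l : ℤ) g z ^ s ∂(nM d)) :
    ∃ C ε : ℝ, 0 < C ∧ 0 < ε ∧ ∀ (l : ℕ) (g : E d × ℝ → ℂ), Ad l g →
      ∫⁻ x, ‖Vg η g x‖ₑ ^ p ≤
        ENNReal.ofReal (C * ((2 : ℝ) ^ l) ^ (-ε)) * ∫⁻ z, Gg (l : ℤ) g z ^ p ∂(nM d) := by
  obtain ⟨C0, hC0, h0⟩ := end_one d hd η hη
  obtain ⟨C1, hC1, h1⟩ := he
  obtain ⟨C, hC, hI⟩ := interp p s hp hps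
  obtain ⟨θ, hθ⟩ : ∃ θ, θ = (p - 1) / (s - 1) := ⟨_, rfl⟩
  have hθ1 : θ < 1 := by
    rw [hθ, div_lt_one (by linarith)]
    linarith
  have hd' : (2 : ℝ) ≤ d := by exact_mod_cast hd
  refine ⟨C * C0 ^ (1 - θ) * C1 ^ θ, ((d : ℝ) - 1) / 2 * (1 - θ), by positivity,
    mul_pos (by linarith) (by linarith), fun l g hg => ?_⟩
  have hl : (0 : ℝ) < (2 : ℝ) ^ l := by positivity
  haveI := G6_sf d
  have hmain := hI (E d) (E d × ℝ) volume (nM d) (fun x => ‖Vg η g x‖ₑ) (Gg (l : ℤ) g)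
    (Vg_meas hd η l g hg).enorm (Gg_meas _ g hg.meas)
    (C0 * ((2 : ℝ) ^ l) ^ (-(((d : ℝ) - 1) / 2))) C1 (by positivity) hC1 (by
      intro t ht
      obtain ⟨D, hD⟩ : ∃ D, D = {z : E d × ℝ | ENNReal.ofReal t < Gg (l : ℤ) g z} := ⟨_, rfl⟩
      have hDm : MeasurableSet D := by
        rw [hD]
        exact measurableSet_lt measurable_const (Gg_meas _ g hg.meas)
      have hDc : Dᶜ = {z : E d × ℝ | Gg (l : ℤ) g z ≤ ENNReal.ofReal t} := by
        rw [hD]
        ext z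
        simp
      have a1 := G6_Ad l g hg D hDm
      have a2 := G6_Ad l g hg Dᶜ hDm.compl
      have b1 : ∀ z, Gg (l : ℤ) (D.indicator g) z = D.indicator (Gg (l : ℤ) g) z :=
        G6_ind (l : ℤ) g D (fun x y r hxy hx => by
          rw [hD, Set.mem_ofPred_eq] at hx ⊢
          rwa [← G6_congr (l : ℤ) g x y r hxy])
      have b2 : ∀ z, Gg (l : ℤ) (Dᶜ.indicator g) z = Dᶜ.indicator (Gg (l : ℤ) g) z :=
        G6_ind (l : ℤ) g Dᶜ (fun x y r hxy hx => by
          rw [hDc, Set.mem_ofPred_eq] at hx ⊢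
          rwa [← G6_congr (l : ℤ) g x y r hxy])
      refine ⟨fun x => ‖Vg η (D.indicator g) x‖ₑ, fun x => ‖Vg η (Dᶜ.indicator g) x‖ₑ,
        (Vg_meas hd η l _ a1).enorm, (Vg_meas hd η l _ a2).enorm, Eventually.of_forall fun x => ?_, ?_, ?_⟩
      · dsimp only
        rw [G6_add hd η l g _ _ hg a1 a2 (fun z => (congrFun (Set.indicator_self_add_compl D g) z).symm) x]
        exact enorm_add_le _ _
      · refine (h0 l _ a1).trans (le_of_eq ?_)
        simp only [b1]
        rw [lintegral_indicator hDm, hD]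
      · refine (h1 l _ a2).trans (le_of_eq ?_)
        simp only [b2]
        have e : ∀ z, Dᶜ.indicator (Gg (l : ℤ) g) z ^ s = Dᶜ.indicator (fun z => Gg (l : ℤ) g z ^ s) z := by
          intro z
          by_cases hz : z ∈ Dᶜ
          · rw [Set.indicator_of_mem hz, Set.indicator_of_mem hz]
          · rw [Set.indicator_of_notMem hz, Set.indicator_of_notMem hz, ENNReal.zero_rpow_of_pos (by linarith)]
        simp only [e]
        rw [lintegral_indicator hDm.compl, hDc])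
  refine hmain.trans (le_of_eq ?_)
  congr 2
  rw [← hθ, Real.mul_rpow hC0.le (by positivity), ← Real.rpow_mul hl.le,
    show -(((d : ℝ) - 1) / 2) * (1 - θ) = -(((d : ℝ) - 1) / 2 * (1 - θ)) by ring]
  ring

end Pool.LibRF53
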