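import Pool.Agent.LibRF53.A2

/-
PLAN (G9). Duality, cubes. Put u = cv K h (continuous? at least measurable and bounded: K bounded, h integrable) and for R > 0 let D_R = {y | every coordinate of ix l y has absolute value <= R} (union of
cubes, bounded set), X_R = int over D_R of (Av l |u|^2)^(q/2) <= finite. A y = conj (u y) * (Av l |u|^2 y)^((q-2)/2) on D_R, 0 elsewhere (toReal of the average, finite because u is bounded): Bd.
int u A = int over D_R of |u|^2 (Av)^((q-2)/2) = X_R (the weight is constant on cubes: lint_cubes) and (Av l |A|^2)^(p/2) = (Av l |u|^2)^((q-1)p/2) = (Av)^(q/2) on D_R, 0 elsewhere ((q-1) p = q),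
so int (Av l |A|^2)^(p/2) = X_R. On the other hand int u A = int_y int_z K (y - z) h z A y = int_z h z (cv K A z) (K even, Fubini) and h = cv psi h with psi even gives
int h (cv K A) = int_w h w (int_z psi (w - z) cv K A z) = int_w h w (int_y (int_z psi (w - y - z) K z) A y) (substitution), Fubini: all absolutely convergent (psi, h, A integrable, K
bounded). Hoelder and the hypothesis: X_R <= |h|_q * (C |K|_p^p X_R)^(1/p), so X_R^(1/q) <= |h|_q C^(1/p) |K|_p (X_R finite; X_R = 0 trivial), to the power q. R -> infinity, monotone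
convergence. If int |K|^p or int |h|^q is infinite (and the product is not 0 * infinity): treat separately; h = 0 a.e. gives u = 0.
-/

set_option autoImplicit false

noncomputable section

open MeasureTheory Metric Set Filter

namespace Pool.LibRF53

open Pool.LibSR53

private lemma G9_cv_meas {d : ℕ} {K f : E d → ℂ} (hK : Measurable K) (hf : Measurable f) :
    Measurable (cv K f) := by
  have h1 : Measurable (fun z : E d × E d => K (z.1 - z.2) * f z.2) :=
    (hK.comp (measurable_fst.sub measurable_snd)).mul (hf.comp measurable_snd)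
  have h2 := h1.stronglyMeasurable.integral_prod_right' (ν := (volume : Measure (E d)))
  exact h2.measurable

private lemma G9_cv_bdd {d : ℕ} {K f : E d → ℂ} {B : ℝ} (hB : ∀ x, ‖K x‖ ≤ B)
    (hf : Integrable f) (x : E d) : ‖cv K f x‖ ≤ B * ∫ y, ‖f y‖ := by
  unfold cv
  rw [← integral_const_mul]
  refine norm_integral_le_of_norm_le (hf.norm.const_mul B) (Eventually.of_forall fun y => ?_)
  rw [norm_mul]
  exact mul_le_mul_of_nonneg_right (hB _) (norm_nonneg _)

/-- constants on cubes come out of averages -/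
private lemma G9_Av_mul {d : ℕ} (l : ℤ) (c h : E d → ENNReal) (hh : Measurable h)
    (hc : ∀ x y : E d, ix l x = ix l y → c x = c y) (x : E d) :
    Av l (fun y => c y * h y) x = c x * Av l h x := by
  unfold Av
  have h1 : ∫⁻ y in Q l (ix l x), c y * h y = ∫⁻ y in Q l (ix l x), c x * h y := by
    refine setLIntegral_congr_fun (Q_meas l _) (fun y hy => ?_)
    have : ix l y = ix l x := hy
    simp only [hc y x this]
  rw [h1, lintegral_const_mul _ hh]
  ring

private lemma G9_Av_le {d : ℕ} (l : ℤ) (h : E d → ENNReal) (c : ENNReal) (hc : ∀ y, h y ≤ c)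
    (x : E d) : Av l h x ≤ c := by
  unfold Av
  have h1 : ∫⁻ y in Q l (ix l x), h y ≤ c * vl d l := by
    calc ∫⁻ y in Q l (ix l x), h y ≤ ∫⁻ y in Q l (ix l x), c := lintegral_mono hc
      _ = c * vl d l := by rw [setLIntegral_const, Q_vol]
  calc (vl d l)⁻¹ * ∫⁻ y in Q l (ix l x), h y ≤ (vl d l)⁻¹ * (c * vl d l) := by gcongr
    _ = c * ((vl d l)⁻¹ * vl d l) := by ring
    _ = c := by rw [ENNReal.inv_mul_cancel (vl_ne l).1 (vl_ne l).2, mul_one]

/-- the union of the cubes of index at most n -/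
private def G9D {d : ℕ} (l : ℤ) (n : ℕ) : Set (E d) := {y | ∀ i, |ix l y i| ≤ (n : ℤ)}

private lemma G9D_meas {d : ℕ} (l : ℤ) (n : ℕ) : MeasurableSet (G9D l n : Set (E d)) := by
  have : (G9D l n : Set (E d)) = ix l ⁻¹' {a : Fin d → ℤ | ∀ i, |a i| ≤ (n : ℤ)} := rfl
  rw [this]
  exact ix_meas l (MeasurableSet.of_discrete)

private lemma G9D_bdd {d : ℕ} (l : ℤ) (n : ℕ) : ∃ R : ℝ, ∀ y ∈ (G9D l n : Set (E d)), ‖y‖ ≤ R := by
  refine ⟨Real.sqrt (d * (((n : ℝ) + 1) * (2 : ℝ) ^ l) ^ 2), fun y hy => ?_⟩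
  rw [EuclideanSpace.norm_eq]
  apply Real.sqrt_le_sqrt
  have hpos : (0 : ℝ) < (2 : ℝ) ^ l := by positivity
  have h1 : ∀ i, ‖y i‖ ^ 2 ≤ (((n : ℝ) + 1) * (2 : ℝ) ^ l) ^ 2 := by
    intro i
    have h2 : |⌊y i / (2 : ℝ) ^ l⌋| ≤ (n : ℤ) := hy i
    have h3 := abs_le.mp h2
    have h4 : (-(n : ℝ)) ≤ (⌊y i / (2 : ℝ) ^ l⌋ : ℝ) := by exact_mod_cast h3.1
    have h5 : (⌊y i / (2 : ℝ) ^ l⌋ : ℝ) ≤ n := by exact_mod_cast h3.2
    have h6 := Int.floor_le (y i / (2 : ℝ) ^ l)
    have h7 := Int.lt_floor_add_one (y i / (2 : ℝ) ^ l)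
    have h8 : -(n : ℝ) ≤ y i / (2 : ℝ) ^ l := by linarith
    have h9 : y i / (2 : ℝ) ^ l ≤ n + 1 := by linarith
    rw [le_div_iff₀ hpos] at h8
    rw [div_le_iff₀ hpos] at h9
    have h10 : |y i| ≤ ((n : ℝ) + 1) * (2 : ℝ) ^ l := abs_le.mpr ⟨by nlinarith, h9⟩
    rw [Real.norm_eq_abs]
    exact pow_le_pow_left₀ (abs_nonneg _) h10 2
  calc ∑ i, ‖y i‖ ^ 2 ≤ ∑ _i : Fin d, (((n : ℝ) + 1) * (2 : ℝ) ^ l) ^ 2 :=
        Finset.sum_le_sum fun i _ => h1 i
    _ = d * (((n : ℝ) + 1) * (2 : ℝ) ^ l) ^ 2 := by simp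

private lemma G9D_vol {d : ℕ} (l : ℤ) (n : ℕ) : volume (G9D l n : Set (E d)) < ⊤ := by
  obtain ⟨R, hR⟩ := G9D_bdd (d := d) l n
  have h1 : (G9D l n : Set (E d)) ⊆ closedBall 0 R := fun y hy => by
    simpa [mem_closedBall, dist_zero_right] using hR y hy
  exact lt_of_le_of_lt (measure_mono h1) measure_closedBall_lt_top

/-- duality of the bilinear form -/
private lemma G9_fub {d : ℕ} (ψ : E d → ℂ) (hψc : Measurable ψ) (hψi : Integrable ψ)
    (hψ : ∀ x y : E d, ‖x‖ = ‖y‖ → ψ x = ψ y)
    (K : E d → ℂ) (hK : Measurable K) (B : ℝ) (hKb : ∀ x, ‖K x‖ ≤ B)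
    (hrad : ∀ x y : E d, ‖x‖ = ‖y‖ → K x = K y)
    (f A : E d → ℂ) (hfm : Measurable f) (hfi : Integrable f)
    (hfψ : ∀ x, cv ψ f x = f x) (hAi : Integrable A) :
    ∫ y, cv K f y * A y = ∫ x, f x * (∫ y, (∫ z, ψ (x - y - z) * K z) * A y) := by
  have hG : ∀ v : E d, ‖∫ z, ψ (v - z) * K z‖ ≤ B * ∫ z, ‖ψ z‖ := by
    intro v
    have h1 : ∫ z, ‖ψ (v - z)‖ = ∫ z, ‖ψ z‖ :=
      integral_sub_left_eq_self (fun z => ‖ψ z‖) volume v
    rw [← h1, ← integral_const_mul]
    refine norm_integral_le_of_norm_le ((hψi.comp_sub_left v).norm.const_mul B)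
      (Eventually.of_forall fun z => ?_)
    rw [norm_mul, mul_comm]
    exact mul_le_mul_of_nonneg_right (hKb _) (norm_nonneg _)
  have hGm : Measurable (fun v : E d => ∫ z, ψ (v - z) * K z) := G9_cv_meas hψc hK
  -- inner identity
  have hin : ∀ y : E d, ∫ x, f x * (∫ z, ψ (x - y - z) * K z) = cv K f y := by
    intro y
    have hint : Integrable (fun t : E d × E d => f t.1 * (ψ (t.1 - y - t.2) * K t.2))
        (volume.prod volume) := by
      have hbase : Integrable (fun t : E d × E d => f t.1 * ψ (t.1 - y - t.2))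
          (volume.prod volume) := by
        have h0 : Integrable (fun t : E d × E d => f t.1 * ψ t.2) (volume.prod volume) :=
          hfi.mul_prod hψi
        have hmp : MeasurePreserving (fun t : E d × E d => (t.1, t.1 - y - t.2))
            (volume.prod volume) (volume.prod volume) := by
          refine (MeasurePreserving.id (volume : Measure (E d))).skew_product
            (g := fun x z => x - y - z) ?_ ?_
          · exact (measurable_fst.sub_const y).sub measurable_snd
          · refine Eventually.of_forall fun x => ?_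
            exact (Measure.measurePreserving_sub_left volume (x - y)).map_eq
        exact hmp.integrable_comp_of_integrable h0
      have h1 : (fun t : E d × E d => f t.1 * (ψ (t.1 - y - t.2) * K t.2)) =
          fun t : E d × E d => K t.2 * (f t.1 * ψ (t.1 - y - t.2)) := by
        funext t; ring
      rw [h1]
      refine hbase.bdd_mul (c := B) (hK.comp measurable_snd).aestronglyMeasurable
        (Eventually.of_forall fun t => hKb _)
    have h2 : ∫ x, f x * (∫ z, ψ (x - y - z) * K z) =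
        ∫ x, ∫ z, f x * (ψ (x - y - z) * K z) := by
      refine integral_congr_ae (Eventually.of_forall fun x => ?_)
      simp only [integral_const_mul]
    rw [h2, integral_integral_swap hint]
    have h3 : ∀ z : E d, ∫ x, f x * (ψ (x - y - z) * K z) = K z * f (y + z) := by
      intro z
      rw [← hfψ (y + z)]
      unfold cv
      rw [← integral_const_mul]
      refine integral_congr_ae (Eventually.of_forall fun x => ?_)
      have h4 : ψ (x - y - z) = ψ (y + z - x) := hψ _ _ (by rw [← norm_neg]; congr 1; abel)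
      simp only [h4]
      ring
    simp only [h3]
    have h5 : ∫ z, K z * f (y + z) = ∫ z, K (z - y) * f z := by
      have := integral_add_left_eq_self (μ := (volume : Measure (E d)))
        (fun z => K (z - y) * f z) y
      rw [← this]
      refine integral_congr_ae (Eventually.of_forall fun z => ?_)
      simp
    rw [h5]
    unfold cv
    refine integral_congr_ae (Eventually.of_forall fun z => ?_)
    have h6 : K (z - y) = K (y - z) := hrad _ _ (norm_sub_rev _ _)
    simp only [h6]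
  have hint2 : Integrable (fun t : E d × E d =>
      (∫ z, ψ (t.1 - t.2 - z) * K z) * (f t.1 * A t.2)) (volume.prod volume) := by
    have h0 : Integrable (fun t : E d × E d => f t.1 * A t.2) (volume.prod volume) :=
      hfi.mul_prod hAi
    refine h0.bdd_mul (c := B * ∫ z, ‖ψ z‖)
      (hGm.comp (measurable_fst.sub measurable_snd)).aestronglyMeasurable
      (Eventually.of_forall fun t => hG _)
  have h7 : ∫ x, f x * (∫ y, (∫ z, ψ (x - y - z) * K z) * A y) =
      ∫ x, ∫ y, (∫ z, ψ (x - y - z) * K z) * (f x * A y) := by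
    refine integral_congr_ae (Eventually.of_forall fun x => ?_)
    simp only []
    rw [← integral_const_mul]
    refine integral_congr_ae (Eventually.of_forall fun y => ?_)
    simp only []
    ring
  rw [h7, integral_integral_swap hint2]
  refine integral_congr_ae (Eventually.of_forall fun y => ?_)
  simp only []
  rw [← hin y, ← integral_mul_const]
  refine integral_congr_ae (Eventually.of_forall fun x => ?_)
  simp only []
  ring

private lemma G9_rpow {a : ENNReal} {q : ℝ} (hq : 2 ≤ q) :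
    a ^ ((q - 2) / 2) * a = a ^ (q / 2) := by
  have h1 : a ^ ((q - 2) / 2) * a = a ^ ((q - 2) / 2) * a ^ (1 : ℝ) := by rw [ENNReal.rpow_one]
  rw [h1, ← ENNReal.rpow_add_of_nonneg _ _ (by linarith) (by norm_num)]
  congr 1; ring

private lemma G9_rpow2 {a : ENNReal} {p q : ℝ} (hpq : p.HolderConjugate q) (hq : 2 ≤ q) :
    ((a ^ ((q - 2) / 2)) ^ (2 : ℝ) * a) ^ (p / 2) = a ^ (q / 2) := by
  have h1 : (a ^ ((q - 2) / 2)) ^ (2 : ℝ) * a = a ^ (q - 1) := by
    rw [← ENNReal.rpow_mul]
    have h2 : a ^ ((q - 2) / 2 * 2) * a = a ^ ((q - 2) / 2 * 2) * a ^ (1 : ℝ) := by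
      rw [ENNReal.rpow_one]
    rw [h2, ← ENNReal.rpow_add_of_nonneg _ _ (by linarith) (by norm_num)]
    congr 1; ring
  rw [h1, ← ENNReal.rpow_mul]
  congr 1
  have h3 : (q - 1) * p = q := by
    have := hpq.symm.sub_one_mul_conj
    linarith
  linear_combination h3 / 2

theorem dual_cubes (d : ℕ) (ψ : SchwartzMap (E d) ℂ) (hψ : ∀ x y : E d, ‖x‖ = ‖y‖ → ψ x = ψ y)
    (p q : ℝ) (hpq : p.HolderConjugate q) (hq : 2 ≤ q) (l : ℤ) (C : ℝ) (hC : 0 < C)
    (K : E d → ℂ) (hK : Measurable K) (hKb : ∃ B : ℝ, ∀ x, ‖K x‖ ≤ B)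
    (hrad : ∀ x y : E d, ‖x‖ = ‖y‖ → K x = K y) (hKp : ∫⁻ x, ‖K x‖ₑ ^ p ≠ ⊤)
    (h : ∀ A : E d → ℂ, Bd A →
      ∫⁻ x, ‖∫ y, (∫ z, ψ (x - y - z) * K z) * A y‖ₑ ^ p ≤
        ENNReal.ofReal C * (∫⁻ z : E d, ‖K z‖ₑ ^ p) *
          ∫⁻ x, (Av l (fun y => ‖A y‖ₑ ^ (2 : ℝ)) x) ^ (p / 2))
    (f : E d → ℂ) (hf : Bi f) (hfψ : ∀ x, cv ψ f x = f x) :
    ∫⁻ x, (Av l (fun y => ‖cv K f y‖ₑ ^ (2 : ℝ)) x) ^ (q / 2) ≤
      ENNReal.ofReal (C ^ (q / p)) * (∫⁻ x, ‖K x‖ₑ ^ p) ^ (q / p) * ∫⁻ x, ‖f x‖ₑ ^ q := by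
  obtain ⟨B, hB⟩ := hKb
  have hfm : Measurable f := hf.cont.measurable
  have hfi : Integrable f := hf.int
  set u : E d → ℂ := cv K f with hu
  have hum : Measurable u := G9_cv_meas hK hfm
  set U : ℝ := B * ∫ y, ‖f y‖ with hU
  have hub : ∀ x, ‖u x‖ ≤ U := G9_cv_bdd hB hfi
  have hU0 : 0 ≤ U := le_trans (norm_nonneg _) (hub 0)
  set v : E d → ENNReal := fun y => ‖u y‖ₑ ^ (2 : ℝ) with hv
  have hvm : Measurable v := hum.enorm.pow_const _
  set a : E d → ENNReal := Av l v with ha
  have ham : Measurable a := Av_meas l v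
  have hac : ∀ x y : E d, ix l x = ix l y → a x = a y := fun x y hxy => Av_congr l v hxy
  have hab : ∀ x, a x ≤ ENNReal.ofReal (U ^ 2) := by
    intro x
    refine G9_Av_le l v _ (fun y => ?_) x
    simp only [hv]
    rw [← ofReal_norm, ENNReal.ofReal_rpow_of_nonneg (norm_nonneg _) (by norm_num)]
    apply ENNReal.ofReal_le_ofReal
    rw [Real.rpow_two]
    exact pow_le_pow_left₀ (norm_nonneg _) (hub y) 2
  have hat : ∀ x, a x ≠ ⊤ := fun x => ne_top_of_le_ne_top ENNReal.ofReal_ne_top (hab x)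
  have hp0 : 0 < p := hpq.pos
  have hq0 : 0 < q := hpq.symm.pos
  have key : ∀ n : ℕ, ∫⁻ x in G9D l n, a x ^ (q / 2) ≤
      ENNReal.ofReal (C ^ (q / p)) * (∫⁻ x, ‖K x‖ₑ ^ p) ^ (q / p) * ∫⁻ x, ‖f x‖ₑ ^ q := by
    intro n
    set D : Set (E d) := G9D l n with hD
    have hDm : MeasurableSet D := G9D_meas l n
    have hDc : ∀ x y : E d, ix l x = ix l y → x ∈ D → y ∈ D := by
      intro x y hxy hx i
      have := hx i
      rw [hxy] at this
      exact this
    set W : E d → ENNReal := D.indicator (fun y => a y ^ ((q - 2) / 2)) with hW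
    have hWm : Measurable W := (ham.pow_const _).indicator hDm
    have hWc : ∀ x y : E d, ix l x = ix l y → W x = W y := by
      intro x y hxy
      by_cases hx : x ∈ D
      · have hy := hDc x y hxy hx
        simp only [hW, Set.indicator_of_mem hx, Set.indicator_of_mem hy, hac x y hxy]
      · have hy : y ∉ D := fun hy => hx (hDc y x hxy.symm hy)
        simp only [hW, Set.indicator_of_notMem hx, Set.indicator_of_notMem hy]
    have hWb : ∀ x, W x ≤ ENNReal.ofReal ((U ^ 2) ^ ((q - 2) / 2)) := by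
      intro x
      by_cases hx : x ∈ D
      · simp only [hW, Set.indicator_of_mem hx]
        rw [← ENNReal.ofReal_rpow_of_nonneg (by positivity) (by linarith)]
        exact ENNReal.rpow_le_rpow (hab x) (by linarith)
      · simp only [hW, Set.indicator_of_notMem hx]
        exact zero_le
    have hWt : ∀ x, W x ≠ ⊤ := fun x => ne_top_of_le_ne_top ENNReal.ofReal_ne_top (hWb x)
    have hWr : ∀ x, (W x).toReal ≤ (U ^ 2) ^ ((q - 2) / 2) := by
      intro x
      have := ENNReal.toReal_mono ENNReal.ofReal_ne_top (hWb x)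
      rwa [ENNReal.toReal_ofReal (by positivity)] at this
    set A : E d → ℂ := fun y => ((W y).toReal : ℂ) * (starRingEnd ℂ) (u y) with hA
    have hAm : Measurable A :=
      (Complex.measurable_ofReal.comp hWm.ennreal_toReal).mul
        (Complex.continuous_conj.measurable.comp hum)
    obtain ⟨R, hR⟩ := G9D_bdd (d := d) l n
    have hA0 : ∀ y, y ∉ D → A y = 0 := by
      intro y hy
      simp only [hA, hW, Set.indicator_of_notMem hy]
      simp
    have hAb : ∀ y, ‖A y‖ ≤ (U ^ 2) ^ ((q - 2) / 2) * U := by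
      intro y
      simp only [hA]
      rw [norm_mul, RCLike.norm_conj, Complex.norm_real, Real.norm_eq_abs,
        abs_of_nonneg ENNReal.toReal_nonneg]
      exact mul_le_mul (hWr y) (hub y) (norm_nonneg _) (by positivity)
    have hABd : Bd A := by
      refine ⟨hAm, ⟨_, hAb⟩, ⟨R, fun x hx => ?_⟩⟩
      apply hA0
      intro hxD
      exact absurd (hR x hxD) (not_le.mpr hx)
    have hAi : Integrable A := by
      have h1 : IntegrableOn A D := by
        refine Measure.integrableOn_of_bounded (M := (U ^ 2) ^ ((q - 2) / 2) * U)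
          (G9D_vol l n).ne hAm.aestronglyMeasurable (Eventually.of_forall hAb)
      rw [← integrable_indicator_iff hDm] at h1
      have h2 : D.indicator A = A := by
        funext y
        by_cases hy : y ∈ D
        · rw [Set.indicator_of_mem hy]
        · rw [Set.indicator_of_notMem hy, hA0 y hy]
      rwa [h2] at h1
    set X : ENNReal := ∫⁻ x in D, a x ^ (q / 2) with hX
    have hXt : X ≠ ⊤ := by
      have h1 : X ≤ ∫⁻ x in D, ENNReal.ofReal (U ^ 2) ^ (q / 2) :=
        lintegral_mono fun x => ENNReal.rpow_le_rpow (hab x) (by linarith)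
      rw [setLIntegral_const] at h1
      refine ne_top_of_le_ne_top (ENNReal.mul_ne_top ?_ (G9D_vol l n).ne) h1
      exact ENNReal.rpow_ne_top_of_nonneg (by linarith) ENNReal.ofReal_ne_top
    have hXi : ∫⁻ x, D.indicator (fun x => a x ^ (q / 2)) x = X := lintegral_indicator hDm _
    -- the average of |A|^2
    have hAe : ∀ y, ‖A y‖ₑ = W y * ‖u y‖ₑ := by
      intro y
      simp only [hA]
      rw [enorm_mul]
      congr 1
      · rw [← ofReal_norm, Complex.norm_real, Real.norm_eq_abs,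
          abs_of_nonneg ENNReal.toReal_nonneg, ENNReal.ofReal_toReal (hWt y)]
      · rw [← ofReal_norm, RCLike.norm_conj, ofReal_norm]
    have hAvA : ∀ x, (Av l (fun y => ‖A y‖ₑ ^ (2 : ℝ)) x) ^ (p / 2) =
        D.indicator (fun x => a x ^ (q / 2)) x := by
      intro x
      have h1 : (fun y => ‖A y‖ₑ ^ (2 : ℝ)) = fun y => W y ^ (2 : ℝ) * v y := by
        funext y
        rw [hAe y, ENNReal.mul_rpow_of_nonneg _ _ (by norm_num)]
      rw [h1, G9_Av_mul l (fun y => W y ^ (2 : ℝ)) v hvm
        (fun x y hxy => by simp only [hWc x y hxy]) x]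
      by_cases hx : x ∈ D
      · simp only [hW, Set.indicator_of_mem hx]
        exact G9_rpow2 hpq hq
      · simp only [hW, Set.indicator_of_notMem hx]
        rw [ENNReal.zero_rpow_of_pos (by norm_num), zero_mul,
          ENNReal.zero_rpow_of_pos (by linarith)]
    have hsum : ∫⁻ x, (Av l (fun y => ‖A y‖ₑ ^ (2 : ℝ)) x) ^ (p / 2) = X := by
      rw [← hXi]
      exact lintegral_congr hAvA
    -- the pairing
    have hpair : ‖∫ y, u y * A y‖ₑ = X := by
      have h1 : ∀ y, u y * A y = (((W y).toReal * ‖u y‖ ^ 2 : ℝ) : ℂ) := by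
        intro y
        simp only [hA]
        have h2 : u y * (starRingEnd ℂ) (u y) = ((‖u y‖ ^ 2 : ℝ) : ℂ) := by
          rw [Complex.mul_conj, Complex.normSq_eq_norm_sq]
        calc u y * (((W y).toReal : ℂ) * (starRingEnd ℂ) (u y))
            = ((W y).toReal : ℂ) * (u y * (starRingEnd ℂ) (u y)) := by ring
          _ = _ := by rw [h2]; push_cast; ring
      have hgi : Integrable (fun y => (W y).toReal * ‖u y‖ ^ 2) := by
        have h3 : Integrable (fun y => u y * A y) :=
          hAi.bdd_mul (c := U) hum.aestronglyMeasurable (Eventually.of_forall hub)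
        have h4 : (fun y => (W y).toReal * ‖u y‖ ^ 2) = fun y => ‖u y * A y‖ := by
          funext y
          rw [h1 y, Complex.norm_real, Real.norm_eq_abs, abs_of_nonneg]
          exact mul_nonneg ENNReal.toReal_nonneg (by positivity)
        rw [h4]
        exact h3.norm
      have h5 : ∫ y, u y * A y = ((∫ y, (W y).toReal * ‖u y‖ ^ 2 : ℝ) : ℂ) := by
        rw [← integral_complex_ofReal]
        exact integral_congr_ae (Eventually.of_forall h1)
      have hnn : ∀ y, 0 ≤ (W y).toReal * ‖u y‖ ^ 2 := fun y =>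
        mul_nonneg ENNReal.toReal_nonneg (by positivity)
      rw [h5, ← ofReal_norm, Complex.norm_real, Real.norm_eq_abs,
        abs_of_nonneg (integral_nonneg hnn),
        ofReal_integral_eq_lintegral_ofReal hgi (Eventually.of_forall hnn)]
      have h6 : ∀ y, ENNReal.ofReal ((W y).toReal * ‖u y‖ ^ 2) = W y * v y := by
        intro y
        rw [ENNReal.ofReal_mul ENNReal.toReal_nonneg, ENNReal.ofReal_toReal (hWt y)]
        congr 1
        simp only [hv]
        rw [← ofReal_norm, ENNReal.ofReal_rpow_of_nonneg (norm_nonneg _) (by norm_num),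
          Real.rpow_two]
      rw [lintegral_congr h6, ← Av_int l (fun y => W y * v y), ← hXi]
      refine lintegral_congr fun x => ?_
      rw [G9_Av_mul l W v hvm hWc x]
      by_cases hx : x ∈ D
      · simp only [hW, Set.indicator_of_mem hx]
        exact G9_rpow hq
      · simp only [hW, Set.indicator_of_notMem hx, zero_mul]
    -- Hoelder
    set TA : E d → ℂ := fun x => ∫ y, (∫ z, ψ (x - y - z) * K z) * A y with hTA
    have hTAm : Measurable TA := by
      have h1 : TA = cv (cv (fun x => ψ x) K) A := rfl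
      rw [h1]
      exact G9_cv_meas (G9_cv_meas ψ.continuous.measurable hK) hAm
    have hdual : ∫ y, u y * A y = ∫ x, f x * TA x :=
      G9_fub (fun x => ψ x) ψ.continuous.measurable ψ.integrable hψ K hK B hB hrad f A hfm hfi
        hfψ hAi
    have hH : X ≤ (∫⁻ x, ‖f x‖ₑ ^ q) ^ (1 / q) * (∫⁻ x, ‖TA x‖ₑ ^ p) ^ (1 / p) := by
      rw [← hpair, hdual]
      calc ‖∫ x, f x * TA x‖ₑ ≤ ∫⁻ x, ‖f x * TA x‖ₑ := enorm_integral_le_lintegral_enorm _
        _ = ∫⁻ x, ((fun x => ‖f x‖ₑ) * (fun x => ‖TA x‖ₑ)) x := by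
            refine lintegral_congr fun x => ?_
            simp [enorm_mul]
        _ ≤ _ := ENNReal.lintegral_mul_le_Lp_mul_Lq volume hpq.symm hfm.enorm.aemeasurable
            hTAm.enorm.aemeasurable
    have hTb : ∫⁻ x, ‖TA x‖ₑ ^ p ≤ ENNReal.ofReal C * (∫⁻ z : E d, ‖K z‖ₑ ^ p) * X := by
      have := h A hABd
      rwa [hsum] at this
    set F : ENNReal := ∫⁻ x, ‖f x‖ₑ ^ q with hF
    set Z : ENNReal := ∫⁻ z : E d, ‖K z‖ₑ ^ p with hZ
    have h1 : X ≤ F ^ (1 / q) * (ENNReal.ofReal C * Z) ^ (1 / p) * X ^ (1 / p) := by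
      calc X ≤ F ^ (1 / q) * (∫⁻ x, ‖TA x‖ₑ ^ p) ^ (1 / p) := hH
        _ ≤ F ^ (1 / q) * (ENNReal.ofReal C * Z * X) ^ (1 / p) := by
            gcongr
        _ = _ := by
            rw [ENNReal.mul_rpow_of_nonneg _ _ (by positivity), mul_assoc]
    by_cases hX0 : X = 0
    · rw [hX0]; exact zero_le
    have h2 : X ^ (1 / q) ≤ F ^ (1 / q) * (ENNReal.ofReal C * Z) ^ (1 / p) := by
      have hXp0 : X ^ (1 / p) ≠ 0 := by
        intro h0
        rw [ENNReal.rpow_eq_zero_iff] at h0
        rcases h0 with h0 | h0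
        · exact hX0 h0.1
        · exact hXt h0.1
      have hXpt : X ^ (1 / p) ≠ ⊤ := ENNReal.rpow_ne_top_of_nonneg (by positivity) hXt
      have h3 : X = X ^ (1 / q) * X ^ (1 / p) := by
        rw [← ENNReal.rpow_add _ _ hX0 hXt]
        have : 1 / q + 1 / p = 1 := by
          have := hpq.inv_add_inv_eq_one
          rw [one_div, one_div]; linarith
        rw [this, ENNReal.rpow_one]
      rw [h3] at h1
      have h4 : X ^ (1 / q) * X ^ (1 / p) ≤
          F ^ (1 / q) * (ENNReal.ofReal C * Z) ^ (1 / p) * X ^ (1 / p) := by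
        calc X ^ (1 / q) * X ^ (1 / p) ≤ _ := h1
          _ = _ := by rw [← h3]
      exact (ENNReal.mul_le_mul_iff_left hXp0 hXpt).mp h4
    have h5 := ENNReal.rpow_le_rpow h2 hq0.le
    have h6 : (X ^ (1 / q)) ^ q = X := by
      rw [← ENNReal.rpow_mul, one_div, inv_mul_cancel₀ hq0.ne', ENNReal.rpow_one]
    rw [h6, ENNReal.mul_rpow_of_nonneg _ _ hq0.le] at h5
    have h7 : (F ^ (1 / q)) ^ q = F := by
      rw [← ENNReal.rpow_mul, one_div, inv_mul_cancel₀ hq0.ne', ENNReal.rpow_one]
    have h8 : ((ENNReal.ofReal C * Z) ^ (1 / p)) ^ q =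
        ENNReal.ofReal (C ^ (q / p)) * Z ^ (q / p) := by
      rw [← ENNReal.rpow_mul, ENNReal.mul_rpow_of_nonneg _ _ (by positivity),
        ENNReal.ofReal_rpow_of_nonneg hC.le (by positivity)]
      have : 1 / p * q = q / p := by ring
      rw [this]
    rw [h7, h8] at h5
    calc X ≤ F * (ENNReal.ofReal (C ^ (q / p)) * Z ^ (q / p)) := h5
      _ = _ := by ring
  -- monotone convergence
  have hmono : Monotone (fun n : ℕ => (G9D l n : Set (E d))) := by
    intro n m hnm y hy i
    exact le_trans (hy i) (by exact_mod_cast hnm)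
  have hun : (⋃ n : ℕ, (G9D l n : Set (E d))) = Set.univ := by
    rw [Set.eq_univ_iff_forall]
    intro y
    rw [Set.mem_iUnion]
    refine ⟨∑ i, (ix l y i).natAbs, fun i => ?_⟩
    have h1 : (ix l y i).natAbs ≤ ∑ i, (ix l y i).natAbs :=
      Finset.single_le_sum (f := fun i => (ix l y i).natAbs) (fun _ _ => Nat.zero_le _)
        (Finset.mem_univ i)
    have h2 : |ix l y i| = ((ix l y i).natAbs : ℤ) := (Int.natCast_natAbs _).symm
    rw [h2]
    exact_mod_cast h1
  have hfin : ∫⁻ x, a x ^ (q / 2) = ⨆ n : ℕ, ∫⁻ x in (G9D l n : Set (E d)), a x ^ (q / 2) := by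
    rw [← setLIntegral_iUnion_of_directed _ hmono.directed_le, hun, Measure.restrict_univ]
  rw [hfin]
  exact iSup_le key

end Pool.LibRF53
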