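import Pool.Agent.LibRF53.C1
import Pool.Agent.LibRF53.B3
import Pool.Agent.LibRF53.A1

/-
PLAN (H1). Low frequencies. For x, y, x0 in Q j a and k with j + k < 0: u k y - u k x0 = int (dl psi k (y - w) - dl psi k (x0 - w)) u k w dw (hu), dl_low with R = sqrt d + 1 (Q_dist), conv_le_MB:
|u k y - u k x0| <= C 2^(j+k) MB |u k| x. Each MB |u k| x is at most (sum over k in S of (MB |u k| x)^q)^(1/q) and the sum of 2^(j+k) over k < -j is <= 1.
-/

set_option autoImplicit false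

noncomputable section

open MeasureTheory Metric Set Filter

namespace Pool.LibRF53

open Pool.LibSR53

private lemma dl_int_aux {d : ℕ} (ψ : SchwartzMap (E d) ℂ) (k : ℤ) (y : E d) :
    Integrable (fun w : E d => dl ψ k (y - w)) := by
  have h2 : ((2 : ℝ) ^ k) ≠ 0 := by positivity
  have h1 : Integrable (fun x : E d => ψ ((2 : ℝ) ^ k • x)) :=
    (ψ.integrable (μ := volume)).comp_smul h2
  have h3 : Integrable (fun x : E d => dl ψ k x) := by
    unfold dl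
    exact h1.const_mul _
  exact h3.comp_sub_left y

private lemma diff_aux {d : ℕ} (ψ : SchwartzMap (E d) ℂ) (k : ℤ) (u : E d → ℂ)
    (hu : Continuous u) (hb : ∃ B : ℝ, ∀ x, ‖u x‖ ≤ B) (hc : ∀ x, cv (dl ψ k) u x = u x)
    (y x0 : E d) :
    u y - u x0 = ∫ w, (dl ψ k (y - w) - dl ψ k (x0 - w)) * u w := by
  obtain ⟨B, hB⟩ := hb
  have hi : ∀ y : E d, Integrable (fun w : E d => dl ψ k (y - w) * u w) := fun y =>
    (dl_int_aux ψ k y).mul_bdd hu.aestronglyMeasurable (Filter.Eventually.of_forall hB)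
  have e1 : u y = ∫ w, dl ψ k (y - w) * u w := (hc y).symm
  have e2 : u x0 = ∫ w, dl ψ k (x0 - w) * u w := (hc x0).symm
  rw [e1, e2, ← integral_sub (hi y) (hi x0)]
  congr 1
  funext w
  ring

theorem low_part {d : ℕ} (ψ : SchwartzMap (E d) ℂ) (q : ℝ) (hq : 0 < q) : ∃ C : ℝ, 0 < C ∧
    ∀ (S : Finset ℤ) (u : ℤ → E d → ℂ), (∀ k, Continuous (u k)) → (∀ k, ∃ B, ∀ x, ‖u k x‖ ≤ B) →
    (∀ k x, cv (dl ψ k) (u k) x = u k x) → ∀ (j : ℤ) (a : Fin d → ℤ) (x y x0 : E d),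
    x ∈ Q j a → y ∈ Q j a → x0 ∈ Q j a →
    ‖∑ k ∈ S.filter (fun k => j + k < 0), (u k y - u k x0)‖ₑ ≤
      ENNReal.ofReal C * (∑ k ∈ S, (MB (fun z => ‖u k z‖ₑ) x) ^ q) ^ (1 / q) := by
  have hR : 0 < Real.sqrt d + 1 := by positivity
  obtain ⟨C1, hC1, h1⟩ := dl_low ψ (Real.sqrt d + 1) hR
  obtain ⟨C2, hC2, h2⟩ := conv_le_MB d
  refine ⟨C1 * C2, by positivity, ?_⟩
  intro S u hu hb hc j a x y x0 hx hy hx0
  have hdist : ∀ z : E d, z ∈ Q j a → dist x z ≤ (Real.sqrt d + 1) * (2 : ℝ) ^ j := by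
    intro z hz
    refine (Q_dist hx hz).trans ?_
    have : (0 : ℝ) < (2 : ℝ) ^ j := by positivity
    nlinarith
  set M : ENNReal := (∑ k ∈ S, (MB (fun z => ‖u k z‖ₑ) x) ^ q) ^ (1 / q) with hM
  have hMk : ∀ k ∈ S, MB (fun z => ‖u k z‖ₑ) x ≤ M := by
    intro k hk
    have h3 : (MB (fun z => ‖u k z‖ₑ) x) ^ q ≤ ∑ k ∈ S, (MB (fun z => ‖u k z‖ₑ) x) ^ q :=
      Finset.single_le_sum (f := fun k => (MB (fun z => ‖u k z‖ₑ) x) ^ q)
        (fun _ _ => bot_le) hk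
    have h4 := ENNReal.rpow_le_rpow h3 (by positivity : (0 : ℝ) ≤ 1 / q)
    rwa [← ENNReal.rpow_mul, mul_one_div_cancel hq.ne', ENNReal.rpow_one] at h4
  have hterm : ∀ k ∈ S.filter (fun k => j + k < 0), ‖u k y - u k x0‖ₑ ≤
      ENNReal.ofReal ((2 : ℝ) ^ (j + k)) * (ENNReal.ofReal (C1 * C2) * M) := by
    intro k hk
    rw [Finset.mem_filter] at hk
    rw [diff_aux ψ k (u k) (hu k) (hb k) (hc k) y x0]
    have hmeas : Measurable (fun z : E d => ‖u k z‖ₑ) := (hu k).enorm.measurable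
    calc ‖∫ w, (dl ψ k (y - w) - dl ψ k (x0 - w)) * u k w‖ₑ
        ≤ ∫⁻ w, ‖(dl ψ k (y - w) - dl ψ k (x0 - w)) * u k w‖ₑ := enorm_integral_le_lintegral_enorm _
      _ ≤ ∫⁻ w, ENNReal.ofReal (C1 * (2 : ℝ) ^ (j + k)) *
            (ENNReal.ofReal (wk k (x - w)) * ‖u k w‖ₑ) := by
          refine lintegral_mono fun w => ?_
          show ‖(dl ψ k (y - w) - dl ψ k (x0 - w)) * u k w‖ₑ ≤ _
          rw [enorm_mul, ← mul_assoc, ← ENNReal.ofReal_mul (by positivity)]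
          refine mul_le_mul' ?_ le_rfl
          rw [← ofReal_norm]
          exact ENNReal.ofReal_le_ofReal (h1 j k hk.2.le x y x0 w (hdist y hy) (hdist x0 hx0))
      _ = ENNReal.ofReal (C1 * (2 : ℝ) ^ (j + k)) *
            ∫⁻ w, ENNReal.ofReal (wk k (x - w)) * ‖u k w‖ₑ :=
          lintegral_const_mul' _ _ ENNReal.ofReal_ne_top
      _ ≤ ENNReal.ofReal (C1 * (2 : ℝ) ^ (j + k)) *
            (ENNReal.ofReal C2 * MB (fun z => ‖u k z‖ₑ) x) :=
          mul_le_mul' le_rfl (h2 _ hmeas k x)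
      _ ≤ ENNReal.ofReal (C1 * (2 : ℝ) ^ (j + k)) * (ENNReal.ofReal C2 * M) :=
          mul_le_mul' le_rfl (mul_le_mul' le_rfl (hMk k hk.1))
      _ = ENNReal.ofReal ((2 : ℝ) ^ (j + k)) * (ENNReal.ofReal (C1 * C2) * M) := by
          rw [ENNReal.ofReal_mul hC1.le, ENNReal.ofReal_mul hC1.le]
          ring
  have hsum : ∑ k ∈ S.filter (fun k => j + k < 0), (2 : ℝ) ^ (j + k) ≤ 1 := by
    obtain ⟨N, hN⟩ : ∃ N : ℕ, ∀ k ∈ S, -j - 1 - k < N := by
      obtain ⟨N, hN⟩ := (S.image (fun k => -j - 1 - k)).exists_le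
      refine ⟨(N + 1).toNat, fun k hk => ?_⟩
      have := hN _ (Finset.mem_image_of_mem _ hk)
      omega
    have hsub : S.filter (fun k => j + k < 0) ⊆
        (Finset.range N).image (fun n : ℕ => -j - 1 - (n : ℤ)) := by
      intro k hk
      rw [Finset.mem_filter] at hk
      rw [Finset.mem_image]
      refine ⟨(-j - 1 - k).toNat, ?_, ?_⟩
      · rw [Finset.mem_range]
        have := hN k hk.1
        omega
      · have := hk.2
        omega
    refine (Finset.sum_le_sum_of_subset_of_nonneg hsub fun _ _ _ => by positivity).trans ?_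
    rw [Finset.sum_image (by intro a _ b _ h; simp only at h; omega)]
    have h5 : ∀ n : ℕ, (2 : ℝ) ^ (j + (-j - 1 - (n : ℤ))) = (1 / 2) * (1 / 2 : ℝ) ^ n := by
      intro n
      have : j + (-j - 1 - (n : ℤ)) = -((n : ℤ) + 1) := by ring
      rw [this, zpow_neg, zpow_add₀ (by norm_num), zpow_natCast]
      field_simp
      simp
    rw [Finset.sum_congr rfl fun n _ => h5 n, ← Finset.mul_sum, geom_sum_eq (by norm_num)]
    have : (0 : ℝ) < (1 / 2 : ℝ) ^ N := by positivity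
    rw [show ((1 / 2 : ℝ) - 1) = -(1 / 2) by norm_num]
    field_simp
    linarith
  calc ‖∑ k ∈ S.filter (fun k => j + k < 0), (u k y - u k x0)‖ₑ
      ≤ ∑ k ∈ S.filter (fun k => j + k < 0), ‖u k y - u k x0‖ₑ := enorm_sum_le _ _
    _ ≤ ∑ k ∈ S.filter (fun k => j + k < 0),
          ENNReal.ofReal ((2 : ℝ) ^ (j + k)) * (ENNReal.ofReal (C1 * C2) * M) :=
        Finset.sum_le_sum hterm
    _ = ENNReal.ofReal (∑ k ∈ S.filter (fun k => j + k < 0), (2 : ℝ) ^ (j + k)) *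
          (ENNReal.ofReal (C1 * C2) * M) := by
        rw [← Finset.sum_mul, ENNReal.ofReal_sum_of_nonneg fun _ _ => by positivity]
    _ ≤ 1 * (ENNReal.ofReal (C1 * C2) * M) := by
        refine mul_le_mul' ?_ le_rfl
        rw [← ENNReal.ofReal_one]
        exact ENNReal.ofReal_le_ofReal hsum
    _ = ENNReal.ofReal (C1 * C2) * M := one_mul _

end Pool.LibRF53
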