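import Pool.Agent.LibRF53.H3
import Pool.Agent.LibRF53.G11
import Pool.Agent.LibRF53.C2

/-
PLAN (H3b). SHORT. Integral of Rf. Take C0, eps from far_part. h = cv (dl psi1 k) f is Bi (cv_Bi, f is Bd) and cv (dl psi2 k) h = h (h_h, f integrable: Bd functions are integrable). lintegral_tsum and
lintegral_finset_sum (Av_meas): int Rf = sum over l, sum over k in S of (2^l)^(eps/2) * int (Av ...)^(q/2) <= sum over l of (2^l)^(eps/2) C0 (2^l)^(-eps) N^q * sum over k of int |h k|^q, and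
sum over l of (2^l)^(-eps/2) is a geometric series (2^(-eps/2) < 1): summable, use ENNReal.ofReal_tsum_of_nonneg or ENNReal.tsum_geometric. N^q: ENNReal.ofReal N ^ q = ENNReal.ofReal (N^q).
-/

set_option autoImplicit false

noncomputable section

open MeasureTheory Metric Set Filter

namespace Pool.LibRF53

open Pool.LibSR53

private theorem Bd_int {d : ℕ} {f : E d → ℂ} (hf : Bd f) : Integrable f := by
  obtain ⟨B, hB⟩ := hf.bdd
  obtain ⟨R, hR⟩ := hf.supp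
  have h1 : IntegrableOn f (closedBall (0 : E d) R) :=
    Measure.integrableOn_of_bounded measure_closedBall_lt_top.ne hf.meas.aestronglyMeasurable
      (Eventually.of_forall hB)
  refine (integrableOn_iff_integrable_of_support_subset ?_).1 h1
  intro x hx
  rw [mem_closedBall, dist_zero_right]
  by_contra hcon
  exact hx (hR x (not_le.1 hcon))

theorem Rf_int (d : ℕ) (hd : 2 ≤ d) (c : Cut d) (p q s : ℝ) (hpq : p.HolderConjugate q)
    (hq : 2 < q) (hps : p < s)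
    (he : ∃ C : ℝ, 0 < C ∧ ∀ (l : ℕ) (g : E d × ℝ → ℂ), Ad l g →
      ∫⁻ x, ‖Vg c.ψ2 g x‖ₑ ^ s ≤ ENNReal.ofReal C * ∫⁻ z, Gg (l : ℤ) g z ^ s ∂(nM d)) :
    ∃ C ε : ℝ, 0 < C ∧ 0 < ε ∧ ∀ m : E d → ℂ, Mr m → ∀ N : ℝ, 0 ≤ N → HN c m p N →
      ∀ (S : Finset ℤ) (f : E d → ℂ), Bd f →
      ∫⁻ x, Rf q ε S (fun j k => cv (fk c m j k) (cv (dl c.ψ1 k) f)) x ≤
        ENNReal.ofReal (C * N ^ q) * ∑ k ∈ S, ∫⁻ x, ‖cv (dl c.ψ1 k) f x‖ₑ ^ q := by
  obtain ⟨C0, ε, hC0, hε, hfar⟩ := far_part d hd c p q s hpq hq hps he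
  set ρ : ℝ := (2 : ℝ) ^ (-(ε / 2)) with hρ
  have hρ0 : 0 < ρ := Real.rpow_pos_of_pos (by norm_num) _
  have hρ1 : ρ < 1 := Real.rpow_lt_one_of_one_lt_of_neg (by norm_num) (by linarith)
  have hpow : ∀ l : ℕ, ((2 : ℝ) ^ l) ^ (ε / 2) * (C0 * ((2 : ℝ) ^ l) ^ (-ε)) = C0 * ρ ^ l := by
    intro l
    have h2l : (0 : ℝ) < (2 : ℝ) ^ l := by positivity
    have e1 : ((2 : ℝ) ^ l) ^ (ε / 2) * ((2 : ℝ) ^ l) ^ (-ε) = ((2 : ℝ) ^ l) ^ (-(ε / 2)) := by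
      rw [← Real.rpow_add h2l]
      congr 1
      ring
    have e2 : ((2 : ℝ) ^ l) ^ (-(ε / 2)) = ρ ^ l := by
      rw [hρ, ← Real.rpow_natCast 2 l, ← Real.rpow_mul (by norm_num), mul_comm,
        Real.rpow_mul (by norm_num), Real.rpow_natCast]
    calc ((2 : ℝ) ^ l) ^ (ε / 2) * (C0 * ((2 : ℝ) ^ l) ^ (-ε))
        = C0 * (((2 : ℝ) ^ l) ^ (ε / 2) * ((2 : ℝ) ^ l) ^ (-ε)) := by ring
      _ = C0 * ρ ^ l := by rw [e1, e2]
  have hsum : Summable fun l : ℕ => C0 * ρ ^ l :=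
    (summable_geometric_of_lt_one hρ0.le hρ1).mul_left C0
  have hval : ∑' l : ℕ, C0 * ρ ^ l = C0 * (1 - ρ)⁻¹ := by
    rw [tsum_mul_left, tsum_geometric_of_lt_one hρ0.le hρ1]
  refine ⟨C0 * (1 - ρ)⁻¹, ε, mul_pos hC0 (inv_pos.2 (by linarith)), hε, ?_⟩
  intro m hm N hN hHN S f hf
  have hfi : Integrable f := Bd_int hf
  have hmeas : ∀ (l : ℕ) (k : ℤ), Measurable fun x : E d =>
      ENNReal.ofReal (((2 : ℝ) ^ l) ^ (ε / 2)) *
        (Av ((l : ℤ) - k) (fun y => ‖cv (fk c m ((l : ℤ) - k) k) (cv (dl c.ψ1 k) f) y‖ₑ ^ (2 : ℝ)) x)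
          ^ (q / 2) := fun l k =>
    ((Av_meas _ _).pow_const _).const_mul _
  have h1 : ∫⁻ x, Rf q ε S (fun j k => cv (fk c m j k) (cv (dl c.ψ1 k) f)) x =
      ∑' l : ℕ, ∑ k ∈ S, ENNReal.ofReal (((2 : ℝ) ^ l) ^ (ε / 2)) *
        ∫⁻ x, (Av ((l : ℤ) - k)
          (fun y => ‖cv (fk c m ((l : ℤ) - k) k) (cv (dl c.ψ1 k) f) y‖ₑ ^ (2 : ℝ)) x) ^ (q / 2) := by
    unfold Rf
    rw [lintegral_tsum fun l => (Finset.measurable_sum S fun k _ => hmeas l k).aemeasurable]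
    congr 1
    funext l
    rw [lintegral_finsetSum S fun k _ => hmeas l k]
    refine Finset.sum_congr rfl fun k _ => ?_
    rw [lintegral_const_mul _ ((Av_meas _ _).pow_const _)]
  rw [h1]
  set A : ENNReal := ∑ k ∈ S, ∫⁻ x, ‖cv (dl c.ψ1 k) f x‖ₑ ^ q with hA
  have h2 : ∀ l : ℕ, ∑ k ∈ S, ENNReal.ofReal (((2 : ℝ) ^ l) ^ (ε / 2)) *
        ∫⁻ x, (Av ((l : ℤ) - k)
          (fun y => ‖cv (fk c m ((l : ℤ) - k) k) (cv (dl c.ψ1 k) f) y‖ₑ ^ (2 : ℝ)) x) ^ (q / 2) ≤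
      ENNReal.ofReal (C0 * ρ ^ l) * (ENNReal.ofReal N ^ q * A) := by
    intro l
    rw [hA, Finset.mul_sum, Finset.mul_sum]
    refine Finset.sum_le_sum fun k _ => ?_
    refine (mul_le_mul_right (hfar m hm N hN hHN k l (cv (dl c.ψ1 k) f) (cv_Bi c.ψ1 k f hf)
      (fun x => h_h c k f hfi x)) _).trans (le_of_eq ?_)
    rw [← hpow l, ENNReal.ofReal_mul (Real.rpow_nonneg (by positivity) _)]
    ring
  refine (ENNReal.tsum_le_tsum h2).trans (le_of_eq ?_)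
  rw [ENNReal.tsum_mul_right, ← ENNReal.ofReal_tsum_of_nonneg (fun l => by positivity) hsum, hval,
    ENNReal.ofReal_mul (mul_nonneg hC0.le (inv_nonneg.2 (by linarith))),
    ENNReal.ofReal_rpow_of_nonneg hN (by linarith)]
  ring

end Pool.LibRF53
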