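import Pool.Agent.LibRF53.Defs

/-
PLAN (H6). ONLY Defs. A finite decomposition. F is radial, continuous and not identically zero, so |F|^2 >= c > 0 on an annulus a <= |xi| <= b, 0 < a < b (radial; if F is only nonzero at 0 use continuity). For
every rho in [1/2, 2] there is t > 0 with t rho in (a,b); by compactness finitely many t_i such that for every xi with 1/2 <= |xi| <= 2 some t_i |xi| lies in (a,b), so D xi = sum over i of
|F (t_i xi)|^2 >= c there, in fact on a neighbourhood of the annulus. rho_i xi = phi xi * conj (F (t_i xi)) / D xi on the support of phi, 0 elsewhere: smooth (D is smooth and positive near the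
support), compact support, Schwartz. (If needed use a smooth D + (1 - cutoff) in the denominator.) sum over i of rho_i xi F (t_i xi) = phi xi.
-/

set_option autoImplicit false

noncomputable section

open MeasureTheory Metric Set Filter

namespace Pool.LibRF53

open Pool.LibSR53

theorem decomp {d : ℕ} (hd : 1 ≤ d) (φ F : SchwartzMap (E d) ℂ)
    (hφ : ∀ ξ, φ ξ ≠ 0 → 1 / 2 ≤ ‖ξ‖ ∧ ‖ξ‖ ≤ 2)
    (hF : ∀ x y : E d, ‖x‖ = ‖y‖ → F x = F y) (hF0 : ∃ x, F x ≠ 0) :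
    ∃ (n : ℕ) (t : Fin n → ℝ) (ρ : Fin n → SchwartzMap (E d) ℂ), (∀ i, 0 < t i) ∧
      ∀ ξ, φ ξ = ∑ i, ρ i ξ * F (t i • ξ) := by
  classical
  have : Nonempty (Fin d) := ⟨⟨0, by omega⟩⟩
  have : Nontrivial (E d) := inferInstance
  -- a nonzero point where F does not vanish
  obtain ⟨x0, hx0, hFx0⟩ : ∃ x0 : E d, x0 ≠ 0 ∧ F x0 ≠ 0 := by
    obtain ⟨x, hx⟩ := hF0
    by_cases h0 : x = 0
    · subst h0
      have h1 : ∀ᶠ y in nhds (0 : E d), F y ≠ 0 := F.continuous.continuousAt.eventually_ne hx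
      have h2 : ∀ᶠ y in nhdsWithin (0 : E d) {0}ᶜ, F y ≠ 0 := h1.filter_mono nhdsWithin_le_nhds
      have h3 : ∀ᶠ y in nhdsWithin (0 : E d) {0}ᶜ, y ≠ 0 := self_mem_nhdsWithin
      have : (nhdsWithin (0 : E d) {0}ᶜ).NeBot :=
        Module.punctured_nhds_neBot ℝ (E d) 0
      obtain ⟨y, hy1, hy2⟩ := (h3.and h2).exists
      exact ⟨y, hy1, hy2⟩
    · exact ⟨x, h0, hx⟩
  have hr0 : 0 < ‖x0‖ := norm_pos_iff.2 hx0
  -- the closed annulus
  have hKc : IsClosed {ξ : E d | 1 / 2 ≤ ‖ξ‖ ∧ ‖ξ‖ ≤ 2} :=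
    (isClosed_le continuous_const continuous_norm).inter
      (isClosed_le continuous_norm continuous_const)
  have hK : IsCompact {ξ : E d | 1 / 2 ≤ ‖ξ‖ ∧ ‖ξ‖ ≤ 2} := by
    refine (isCompact_closedBall (0 : E d) 2).of_isClosed_subset hKc ?_
    intro ξ hξ
    rw [mem_closedBall, dist_zero_right]
    exact hξ.2
  have hcov : ∀ ξ ∈ {ξ : E d | 1 / 2 ≤ ‖ξ‖ ∧ ‖ξ‖ ≤ 2},
      {η : E d | F ((‖x0‖ / ‖ξ‖) • η) ≠ 0} ∈ nhds ξ := by
    intro ξ hξ
    have hξ0 : 0 < ‖ξ‖ := lt_of_lt_of_le (by norm_num) hξ.1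
    have h1 : F ((‖x0‖ / ‖ξ‖) • ξ) ≠ 0 := by
      rw [hF ((‖x0‖ / ‖ξ‖) • ξ) x0]
      · exact hFx0
      · rw [norm_smul, Real.norm_of_nonneg (by positivity), div_mul_cancel₀ _ hξ0.ne']
    have h2 : Continuous fun η : E d => F ((‖x0‖ / ‖ξ‖) • η) :=
      F.continuous.comp (continuous_const_smul _)
    exact h2.continuousAt.eventually_ne h1
  obtain ⟨T, hTK, hT⟩ := hK.elim_nhds_subcover _ hcov
  let t : T → ℝ := fun x => ‖x0‖ / ‖(x : E d)‖
  have ht : ∀ x : T, 0 < t x := fun x =>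
    div_pos hr0 (lt_of_lt_of_le (by norm_num) (hTK x x.2).1)
  let D : E d → ℂ := fun ξ => ∑ x : T, (starRingEnd ℂ) (F (t x • ξ)) * F (t x • ξ)
  have hFs : ∀ x : T, ContDiff ℝ (⊤ : ℕ∞) fun ξ : E d => F (t x • ξ) := fun x =>
    (F.smooth _).comp (contDiff_const_smul _)
  have hFc : ∀ x : T, ContDiff ℝ (⊤ : ℕ∞) fun ξ : E d => (starRingEnd ℂ) (F (t x • ξ)) := fun x =>
    Complex.conjCLE.contDiff.comp (hFs x)
  have hDs : ContDiff ℝ (⊤ : ℕ∞) D := ContDiff.sum fun x _ => (hFc x).mul (hFs x)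
  have hDK : ∀ ξ ∈ {ξ : E d | 1 / 2 ≤ ‖ξ‖ ∧ ‖ξ‖ ≤ 2}, D ξ ≠ 0 := by
    intro ξ hξ
    obtain ⟨x, hx, hx2⟩ := mem_iUnion₂.1 (hT hξ)
    have e1 : D ξ = ((∑ x : T, ‖F (t x • ξ)‖ ^ 2 : ℝ) : ℂ) := by
      simp only [D]
      push_cast
      refine Finset.sum_congr rfl fun y _ => ?_
      rw [mul_comm, Complex.mul_conj, Complex.normSq_eq_norm_sq]
      push_cast
      ring
    rw [e1]
    have h3 : 0 < ∑ x : T, ‖F (t x • ξ)‖ ^ 2 := by
      refine Finset.sum_pos' (fun y _ => by positivity) ⟨⟨x, hx⟩, Finset.mem_univ _, ?_⟩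
      have h4 : F (t ⟨x, hx⟩ • ξ) ≠ 0 := hx2
      have h5 : 0 < ‖F (t ⟨x, hx⟩ • ξ)‖ := norm_pos_iff.2 h4
      positivity
    exact_mod_cast h3.ne'
  have hsm : ∀ x : T, ContDiff ℝ (⊤ : ℕ∞)
      fun ξ : E d => φ ξ * (starRingEnd ℂ) (F (t x • ξ)) * (D ξ)⁻¹ := by
    intro x
    rw [contDiff_iff_contDiffAt]
    intro ξ
    by_cases hD : D ξ = 0
    · have h1 : ξ ∉ {ξ : E d | 1 / 2 ≤ ‖ξ‖ ∧ ‖ξ‖ ≤ 2} := fun h => hDK ξ h hD
      have h2 : ∀ᶠ η in nhds ξ, η ∉ {ξ : E d | 1 / 2 ≤ ‖ξ‖ ∧ ‖ξ‖ ≤ 2} :=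
        hKc.isOpen_compl.mem_nhds h1
      refine (contDiffAt_const (c := (0 : ℂ))).congr_of_eventuallyEq ?_
      filter_upwards [h2] with η hη
      have h3 : φ η = 0 := by
        by_contra h
        exact hη (hφ η h)
      rw [h3, zero_mul, zero_mul]
    · exact (((φ.smooth _).contDiffAt.mul (hFc x).contDiffAt).mul (hDs.contDiffAt.inv hD))
  have hcs : ∀ x : T, HasCompactSupport
      fun ξ : E d => φ ξ * (starRingEnd ℂ) (F (t x • ξ)) * (D ξ)⁻¹ := by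
    intro x
    refine HasCompactSupport.intro hK fun ξ hξ => ?_
    have h3 : φ ξ = 0 := by
      by_contra h
      exact hξ (hφ ξ h)
    rw [h3, zero_mul, zero_mul]
  refine ⟨Fintype.card T, fun i => t ((Fintype.equivFin T).symm i),
    fun i => (hcs ((Fintype.equivFin T).symm i)).toSchwartzMap
      (hsm ((Fintype.equivFin T).symm i)), fun i => ht _, fun ξ => ?_⟩
  have h1 := Equiv.sum_comp (Fintype.equivFin T).symm
    (fun x : T => φ ξ * (starRingEnd ℂ) (F (t x • ξ)) * (D ξ)⁻¹ * F (t x • ξ))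
  have h2 : ∑ x : T, φ ξ * (starRingEnd ℂ) (F (t x • ξ)) * (D ξ)⁻¹ * F (t x • ξ) = φ ξ := by
    by_cases hD : D ξ = 0
    · have h3 : φ ξ = 0 := by
        by_contra h
        exact hDK ξ (hφ ξ h) hD
      simp [h3]
    · have h4 : ∀ x : T, φ ξ * (starRingEnd ℂ) (F (t x • ξ)) * (D ξ)⁻¹ * F (t x • ξ) =
          φ ξ * (D ξ)⁻¹ * ((starRingEnd ℂ) (F (t x • ξ)) * F (t x • ξ)) := fun x => by ring
      simp only [h4]
      rw [← Finset.mul_sum]
      change φ ξ * (D ξ)⁻¹ * D ξ = φ ξ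
      rw [mul_assoc, inv_mul_cancel₀ hD, mul_one]
  rw [← h2, ← h1]
  rfl

end Pool.LibRF53
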